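import Pool.Agent.P.MP_5e2a31_al.Star

set_option maxHeartbeats 400000
set_option linter.unusedSectionVars false

namespace Pool.Agent.P.MP_5e2a31_al

open Finset Equiv

/-- A family of anticommuting involutions. -/
def Cf {ι K : Type*} [AddCommGroup K] [Module ℂ K] (a : ι → Module.End ℂ K) : Prop :=
  (∀ x, a x * a x = 1) ∧ ∀ x y, x ≠ y → a x * a y = (-1 : ℂ) • (a y * a x)

theorem Cf.comp {ι κ K : Type*} [AddCommGroup K] [Module ℂ K] {a : ι → Module.End ℂ K}
    (h : Cf a) {f : κ → ι} (hf : Function.Injective f) : Cf fun x => a (f x) :=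
  ⟨fun _ => h.1 _, fun _ _ hxy => h.2 _ _ (hf.ne hxy)⟩

variable {X : Type} [Fintype X] [DecidableEq X]

/-- A numbering of `X`. -/
noncomputable def rk (x : X) : ℕ := Fintype.equivFin X x

theorem rk_inj {x y : X} (h : rk x = rk y) : x = y :=
  (Fintype.equivFin X).injective (Fin.ext h)

/-- The sign of moving `x` past the elements of `J` that precede it. -/
noncomputable def sn (x : X) (J : Finset X) : ℂ := ∏ j ∈ J, if rk j < rk x then -1 else 1

/-- Add or remove `x`. -/
def flp (x : X) (J : Finset X) : Finset X := if x ∈ J then J.erase x else insert x J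

theorem sn_sq (x : X) (J : Finset X) : sn x J * sn x J = 1 := by
  rw [sn, ← prod_mul_distrib]
  exact prod_eq_one fun j _ => by split_ifs <;> simp

theorem sn_flp (x y : X) (J : Finset X) :
    sn x (flp y J) = (if rk y < rk x then -1 else 1) * sn x J := by
  unfold flp sn
  by_cases h : y ∈ J
  · rw [if_pos h, ← mul_prod_erase J _ h, ← mul_assoc]
    split_ifs <;> simp
  · rw [if_neg h, prod_insert h]

theorem mem_flp {x y : X} {J : Finset X} : y ∈ flp x J ↔ (y ∈ J ↔ y ≠ x) := by
  unfold flp
  by_cases h : y = x <;> by_cases h' : x ∈ J <;> simp [h, h']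

theorem flp_flp (x : X) (J : Finset X) : flp x (flp x J) = J := by
  ext y
  simp only [mem_flp]
  tauto

theorem flp_inv (x : X) : Function.Involutive (flp x) := flp_flp x

theorem flp_comm (x y : X) (J : Finset X) : flp x (flp y J) = flp y (flp x J) := by
  ext z
  simp only [mem_flp]
  tauto

theorem flp_of_not {x : X} {J : Finset X} (h : x ∉ J) : flp x J = insert x J := if_neg h

section N

variable (Z : Type*) [AddCommGroup Z] [Module ℂ Z]

/-- Left multiplication by a generator on the Clifford algebra tensored with `Z`. -/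
noncomputable def cN (x : X) : Module.End ℂ (Finset X → Z) where
  toFun y J := sn x J • y (flp x J)
  map_add' a b := by ext J; simp
  map_smul' t a := by ext J; simp [smul_comm t]

/-- The parity operator. -/
noncomputable def epsN : Module.End ℂ (Finset X → Z) := Dg Z fun J => (-1) ^ J.card

variable {Z}

theorem cN_apply (x : X) (y : Finset X → Z) (J : Finset X) :
    cN Z x y J = sn x J • y (flp x J) := rfl

theorem Cf_cN : Cf (cN Z : X → _) := by
  refine ⟨fun x => LinearMap.ext fun f => funext fun J => ?_,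
    fun x y h => LinearMap.ext fun f => funext fun J => ?_⟩
  · simp [cN_apply, sn_flp, flp_flp, smul_smul, sn_sq]
  · simp only [Module.End.mul_apply, cN_apply, LinearMap.smul_apply, Pi.smul_apply, sn_flp,
      smul_smul, flp_comm x y]
    congr 1
    rcases lt_trichotomy (rk x) (rk y) with h' | h' | h'
    · simp [h', h'.not_gt, mul_comm]
    · exact absurd (rk_inj h') h
    · simp [h', h'.not_gt, mul_comm]

theorem cN_single (x : X) (J : Finset X) (z : Z) :
    cN Z x (Pi.single J z) = sn x J • (Pi.single (flp x J) z : Finset X → Z) := by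
  ext J'
  rw [cN_apply, Pi.smul_apply]
  by_cases h : J' = flp x J
  · subst h
    simp [flp_flp, sn_flp]
  · rw [Pi.single_eq_of_ne h, Pi.single_eq_of_ne (by rintro rfl; exact h (flp_flp _ _).symm)]
    simp

theorem single_insert {x : X} {J : Finset X} (h : x ∉ J) (z : Z) :
    (Pi.single (insert x J) z : Finset X → Z) = sn x J • cN Z x (Pi.single J z) := by
  rw [cN_single, smul_smul, sn_sq, one_smul, flp_of_not h]

theorem epsN_sq : (epsN Z * epsN Z : Module.End ℂ (Finset X → Z)) = 1 := by
  refine LinearMap.ext fun f => funext fun J => ?_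
  simp [epsN, smul_smul, ← mul_pow]

theorem epsN_cN (x : X) : epsN Z * cN Z x = (-1 : ℂ) • (cN Z x * epsN Z) := by
  refine LinearMap.ext fun f => funext fun J => ?_
  simp only [epsN, Module.End.mul_apply, cN_apply, LinearMap.smul_apply, Pi.smul_apply,
    smul_smul, Dg_apply]
  congr 1
  unfold flp
  split_ifs with h
  · rw [← card_erase_add_one h]
    ring
  · rw [card_insert_of_notMem h]
    ring

theorem N_ind {p : Submodule ℂ (Finset X → Z)} (h0 : ∀ z, Pi.single ∅ z ∈ p)
    (hc : ∀ x, ∀ y ∈ p, cN Z x y ∈ p) (y : Finset X → Z) : y ∈ p := by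
  rw [← univ_sum_single y]
  refine p.sum_mem fun J h => ?_
  clear h
  generalize y J = z
  induction J using Finset.induction_on with
  | empty => exact h0 z
  | insert x J hx ih =>
    rw [single_insert hx]
    exact p.smul_mem _ (hc _ _ ih)

variable {K : Type*} [AddCommGroup K] [Module ℂ K]

theorem lift_unique {a : X → Module.End ℂ K} {Ψ Φ : (Finset X → Z) →ₗ[ℂ] K}
    (h1 : ∀ x y, Ψ (cN Z x y) = a x (Ψ y)) (h2 : ∀ x y, Φ (cN Z x y) = a x (Φ y))
    (h : ∀ z, Ψ (Pi.single ∅ z) = Φ (Pi.single ∅ z)) : Ψ = Φ :=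
  LinearMap.ext fun y => N_ind (p := LinearMap.eqLocus Ψ Φ) h
    (fun x y hy => by
      rw [LinearMap.mem_eqLocus] at hy ⊢
      rw [h1, h2, hy]) y

theorem exists_C {a : X → Module.End ℂ K} (h : Cf a) : ∃ C : Finset X → Module.End ℂ K,
    C ∅ = 1 ∧ ∀ x J, a x * C J = sn x J • C (flp x J) := by
  suffices H : ∀ S : Finset X, ∃ C : Finset X → Module.End ℂ K,
      C ∅ = 1 ∧ ∀ x ∈ S, ∀ J ⊆ S, a x * C J = sn x J • C (flp x J) by
    obtain ⟨C, h1, h2⟩ := H univ
    exact ⟨C, h1, fun x J => h2 x (mem_univ _) J (subset_univ _)⟩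
  intro S
  induction S using Finset.induction_on_min_value (rk (X := X)) with
  | empty => exact ⟨fun _ => 1, rfl, by simp⟩
  | insert t S ht hmin ih =>
    obtain ⟨C, h1, h2⟩ := ih
    refine ⟨fun J => if t ∈ J then a t * C (J.erase t) else C J, by simpa using h1, ?_⟩
    intro x hx J hJ
    by_cases hxt : x = t
    · subst hxt
      have : sn x J = 1 := prod_eq_one fun j hj => if_neg (by
        rcases mem_insert.1 (hJ hj) with rfl | h'
        · exact lt_irrefl _
        · exact (hmin j h').not_gt)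
      rw [this, one_smul]
      by_cases h' : x ∈ J
      · simp [flp, h', ← mul_assoc, h.1]
      · simp [flp, h']
    · have hx' : x ∈ S := (mem_insert.1 hx).resolve_left hxt
      have h3 : t ∈ flp x J ↔ t ∈ J := by simp [mem_flp, Ne.symm hxt]
      by_cases h' : t ∈ J
      · have h4 : J = flp t (J.erase t) := by rw [flp_of_not (by simp), insert_erase h']
        have h5 : (flp x J).erase t = flp x (J.erase t) := by
          ext y
          simp only [mem_erase, mem_flp]
          by_cases hy : y = t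
          · simp [hy, Ne.symm hxt]
          · simp [hy]
        have h6 : rk t < rk x := (hmin x hx').lt_of_ne fun h => hxt (rk_inj h).symm
        simp only [h3, if_pos h']
        rw [← mul_assoc, h.2 x t hxt, smul_mul_assoc, mul_assoc,
          h2 x hx' _ (subset_insert_iff.1 hJ), h5, mul_smul_comm, smul_smul]
        conv_rhs => rw [h4, sn_flp, if_pos h6, ← h4]
      · simp only [h3, if_neg h']
        exact h2 x hx' J ((subset_insert_iff_of_notMem h').1 hJ)

theorem exists_lift {a : X → Module.End ℂ K} (h : Cf a) (φ : Z →ₗ[ℂ] K) :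
    ∃ Ψ : (Finset X → Z) →ₗ[ℂ] K, (∀ z, Ψ (Pi.single ∅ z) = φ z) ∧
      ∀ x y, Ψ (cN Z x y) = a x (Ψ y) := by
  obtain ⟨C, h1, h2⟩ := exists_C h
  have h3 : ∀ y, (∑ J, C J ∘ₗ φ ∘ₗ LinearMap.proj J : (Finset X → Z) →ₗ[ℂ] K) y =
      ∑ J, C J (φ (y J)) := fun y => by simp [LinearMap.sum_apply]
  refine ⟨∑ J, C J ∘ₗ φ ∘ₗ LinearMap.proj J, fun z => ?_, fun x y => ?_⟩
  · rw [h3, sum_eq_single ∅]
    · simp [h1]
    · intro J _ hJ
      simp [Pi.single_eq_of_ne hJ]
    · simp
  · rw [h3, h3, map_sum, ← Equiv.sum_comp (flp_inv x).toPerm]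
    refine sum_congr rfl fun J _ => ?_
    rw [← Module.End.mul_apply (a x), h2, Function.Involutive.coe_toPerm]
    simp [cN_apply, flp_flp, sn_flp]

end N

theorem exists_sig (h : Perm X) (J : Finset X) : ∃ σ : ℂ, σ * σ = 1 ∧
    ∀ (Z : Type) [AddCommGroup Z] [Module ℂ Z] (Ψ : Module.End ℂ (Finset X → Z)),
      (∀ x y, Ψ (cN Z x y) = cN Z (h x) (Ψ y)) → ∀ z z', Ψ (Pi.single ∅ z) = Pi.single ∅ z' →
      Ψ (Pi.single J z) = σ • (Pi.single (J.map h.toEmbedding) z' : Finset X → Z) := by
  induction J using Finset.induction_on with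
  | empty => exact ⟨1, by simp, fun Z _ _ Ψ _ z z' h => by simpa using h⟩
  | insert x J hx ih =>
    obtain ⟨σ, h1, h2⟩ := ih
    refine ⟨sn x J * σ * sn (h x) (J.map h.toEmbedding), ?_, fun Z _ _ Ψ h3 z z' h4 => ?_⟩
    · linear_combination (σ * σ * sn (h x) (J.map h.toEmbedding) ^ 2) * sn_sq x J +
        sn (h x) (J.map h.toEmbedding) ^ 2 * h1 + sn_sq (h x) (J.map h.toEmbedding)
    · rw [single_insert hx, map_smul, h3, h2 Z Ψ h3 z z' h4, map_smul, cN_single,
        flp_of_not (by simpa using hx), smul_smul, smul_smul, map_insert]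
      rfl

/-- The sign by which `h` acts on the basis monomials of the Clifford algebra. -/
noncomputable def sig (h : Perm X) (J : Finset X) : ℂ := (exists_sig h J).choose

theorem sig_sq (h : Perm X) (J : Finset X) : sig h J * sig h J = 1 := (exists_sig h J).choose_spec.1

section Rep

variable {G : Type*} [Group G] (φ : G →* Perm X) {Z : Type} [AddCommGroup Z] [Module ℂ Z]
  (ρ : Representation ℂ G Z)

theorem exists_act (g : G) : ∃ Ψ : Module.End ℂ (Finset X → Z),
    (∀ z, Ψ (Pi.single ∅ z) = Pi.single ∅ (ρ g z)) ∧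
      ∀ x y, Ψ (cN Z x y) = cN Z (φ g x) (Ψ y) :=
  exists_lift (Cf_cN.comp (φ g).injective) (LinearMap.single ℂ (fun _ => Z) ∅ ∘ₗ ρ g)

/-- The action on the Clifford algebra tensored with `Z`. -/
noncomputable def rN : Representation ℂ G (Finset X → Z) where
  toFun g := (exists_act φ ρ g).choose
  map_one' := lift_unique (exists_act φ ρ 1).choose_spec.2 (by simp) fun z => by
    rw [(exists_act φ ρ 1).choose_spec.1, map_one]
    rfl
  map_mul' g h := lift_unique (exists_act φ ρ (g * h)).choose_spec.2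
    (fun x y => by
      simp [(exists_act φ ρ g).choose_spec.2, (exists_act φ ρ h).choose_spec.2])
    fun z => by
      rw [Module.End.mul_apply, (exists_act φ ρ _).choose_spec.1, (exists_act φ ρ _).choose_spec.1,
        (exists_act φ ρ _).choose_spec.1, map_mul, Module.End.mul_apply]

theorem rN_empty (g : G) (z : Z) : rN φ ρ g (Pi.single ∅ z) = Pi.single ∅ (ρ g z) :=
  (exists_act φ ρ g).choose_spec.1 z

theorem rN_cN (g : G) (x : X) (y : Finset X → Z) :
    rN φ ρ g (cN Z x y) = cN Z (φ g x) (rN φ ρ g y) := (exists_act φ ρ g).choose_spec.2 x y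

theorem rN_single (g : G) (J : Finset X) (z : Z) : rN φ ρ g (Pi.single J z) =
    sig (φ g) J • (Pi.single (J.map (φ g).toEmbedding) (ρ g z) : Finset X → Z) :=
  (exists_sig (φ g) J).choose_spec.2 Z _ (rN_cN φ ρ g) _ _ (rN_empty φ ρ g z)

theorem rN_apply (g : G) (y : Finset X → Z) (J : Finset X) :
    rN φ ρ g y (J.map (φ g).toEmbedding) = sig (φ g) J • ρ g (y J) := by
  conv_lhs => rw [← univ_sum_single y]
  rw [map_sum, Finset.sum_apply, sum_eq_single J]
  · simp [rN_single]
  · intro J' _ h
    rw [rN_single, Pi.smul_apply, Pi.single_eq_of_ne (by simpa using h.symm), smul_zero]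
  · simp

theorem rN_epsN (g : G) : rN φ ρ g * epsN Z = epsN Z * rN φ ρ g := by
  refine lift_unique (a := fun x => (-1 : ℂ) • cN Z (φ g x)) (fun x y => ?_) (fun x y => ?_)
    fun z => ?_
  · have := congr($(epsN_cN (Z := Z) x) y)
    simp only [Module.End.mul_apply, LinearMap.smul_apply] at this ⊢
    rw [this, map_smul, rN_cN]
  · have := congr($(epsN_cN (Z := Z) (φ g x)) (rN φ ρ g y))
    simp only [Module.End.mul_apply, LinearMap.smul_apply] at this ⊢
    rw [rN_cN, this]
  · have : ∀ z : Z, epsN Z (Pi.single (∅ : Finset X) z) = Pi.single ∅ z := fun z => by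
      ext J
      by_cases h : J = ∅ <;> simp [epsN, h]
    simp [this, rN_empty]

theorem exists_hom {K : Type*} [AddCommGroup K] [Module ℂ K] {a : X → Module.End ℂ K} (h : Cf a)
    {ρ' : Representation ℂ G K} (hρ : ∀ g x v, ρ' g (a x v) = a (φ g x) (ρ' g v))
    {f : Z →ₗ[ℂ] K} (hf : ∀ g z, f (ρ g z) = ρ' g (f z)) :
    ∃ Ψ : (Finset X → Z) →ₗ[ℂ] K, (∀ z, Ψ (Pi.single ∅ z) = f z) ∧
      (∀ x y, Ψ (cN Z x y) = a x (Ψ y)) ∧ ∀ g y, Ψ (rN φ ρ g y) = ρ' g (Ψ y) := by
  obtain ⟨Ψ, h1, h2⟩ := exists_lift h f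
  refine ⟨Ψ, h1, h2, fun g y => ?_⟩
  exact congr($(lift_unique (a := fun x => a (φ g x)) (Ψ := Ψ ∘ₗ rN φ ρ g) (Φ := ρ' g ∘ₗ Ψ)
    (fun x y => by simp [rN_cN, h2]) (fun x y => by simp [h2, hρ])
    fun z => by simp [rN_empty, h1, hf]) y)

end Rep

theorem sig_mul (g h : Perm X) (J : Finset X) :
    sig (g * h) J = sig g (J.map h.toEmbedding) * sig h J := by
  have h1 := rN_single (MonoidHom.id _) (Representation.trivial ℂ _ ℂ) (g * h) J 1
  rw [map_mul, Module.End.mul_apply, rN_single, map_smul, rN_single, Finset.map_map] at h1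
  have := congrFun h1 (J.map (g * h).toEmbedding)
  have e : h.toEmbedding.trans g.toEmbedding = (g * h).toEmbedding := rfl
  simpa [e, mul_comm] using this.symm

theorem rN_fix {h : Perm X} {J : Finset X} (hJ : ∀ x ∈ J, h x = x) :
    rN (MonoidHom.id _) (Representation.trivial ℂ _ ℂ) h (Pi.single J 1) = Pi.single J 1 := by
  induction J using Finset.induction_on with
  | empty => simp [rN_empty]
  | insert x J hx ih =>
    rw [single_insert hx, map_smul, rN_cN, ih fun y hy => hJ y (mem_insert_of_mem hy),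
      MonoidHom.id_apply, hJ x (mem_insert_self _ _)]

theorem map_eq_self {h : Perm X} {J : Finset X} (hJ : Stab J h) : J.map h.toEmbedding = J := by
  ext x
  rw [mem_map_equiv]
  exact hJ.inv x

theorem sig_fix {h : Perm X} {J : Finset X} (hJ : ∀ x ∈ J, h x = x) : sig h J = 1 := by
  have h1 := rN_fix hJ
  have h2 : J.map h.toEmbedding = J := by
    rw [map_eq_image]
    exact (image_congr (g := id) fun x hx => hJ x hx).trans image_id
  rw [rN_single, MonoidHom.id_apply, h2] at h1
  simpa using congrFun h1 J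

theorem sig_swap {x y : X} {J : Finset X} (hx : x ∈ J) (hy : y ∈ J) (h : x ≠ y) :
    sig (swap x y) J = -1 := by
  have h1 := rN_single (MonoidHom.id _) (Representation.trivial ℂ _ ℂ) (swap x y) J 1
  rw [MonoidHom.id_apply, map_eq_self (stab_swap (by simp [hx, hy]))] at h1
  have h2 : J = insert x (insert y ((J.erase x).erase y)) := by
    rw [insert_erase (by simp [hy, h.symm]), insert_erase hx]
  have h3 : (Pi.single J 1 : Finset X → ℂ) = (sn x (insert y ((J.erase x).erase y)) *
      sn y ((J.erase x).erase y)) • cN ℂ x (cN ℂ y (Pi.single ((J.erase x).erase y) 1)) := by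
    conv_lhs => rw [h2, single_insert (by simp [h]), single_insert (by simp)]
    rw [map_smul, smul_smul]
  have h4 := congr($((Cf_cN (Z := ℂ)).2 y x h.symm) (Pi.single ((J.erase x).erase y) 1))
  simp only [Module.End.mul_apply, LinearMap.smul_apply] at h4
  conv_lhs at h1 => rw [h3, map_smul, rN_cN, rN_cN, rN_fix (fun z hz => by
    simp only [mem_erase] at hz
    exact swap_apply_of_ne_of_ne hz.2.1 hz.1), MonoidHom.id_apply, swap_apply_left,
    swap_apply_right, h4, smul_comm, ← h3]
  simpa using (congrFun h1 J).symm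

theorem exists_proj {G V ι : Type*} [Group G] [Fintype G] [AddCommGroup V] [Module ℂ V]
    [Fintype ι] (ρ : Representation ℂ G V) {a : ι → Module.End ℂ V} (ha : Cf a)
    (hact : ∀ g i, ∃ j, ρ g * a i = a j * ρ g) {K : Submodule ℂ V}
    (h1 : ∀ g, ∀ v ∈ K, ρ g v ∈ K) (h2 : ∀ i, ∀ v ∈ K, a i v ∈ K) :
    ∃ π, LinearMap.IsProj K π ∧ (∀ g, Commute π (ρ g)) ∧ ∀ i, Commute π (a i) := by
  classical
  have H : ∀ S : Finset ι, ∃ π, LinearMap.IsProj K π ∧ ∀ i ∈ S, Commute π (a i) := by
    intro S
    induction S using Finset.induction_on with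
    | empty =>
      obtain ⟨K', hK'⟩ := K.exists_isCompl
      exact ⟨K.projection K' hK', ⟨Submodule.projection_apply_mem hK',
        fun x hx => Submodule.projection_apply_of_mem_left hK' hx⟩, by simp⟩
    | insert t S ht ih =>
      obtain ⟨π, h3, h4⟩ := ih
      refine ⟨(2 : ℂ)⁻¹ • (π + a t * π * a t), ⟨fun x => K.smul_mem _ (K.add_mem (h3.1 _)
        (h2 _ _ (h3.1 _))), fun x hx => ?_⟩, fun i hi => Commute.smul_left ?_ _⟩
      · have := congr($(ha.1 t) x)
        simp only [Module.End.mul_apply, LinearMap.smul_apply, LinearMap.add_apply,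
          Module.End.one_apply] at this ⊢
        rw [h3.2 x hx, h3.2 _ (h2 _ _ hx), this]
        module
      · rcases mem_insert.1 hi with rfl | hi
        · unfold Commute SemiconjBy
          rw [add_mul, mul_add, mul_assoc, ha.1, ← mul_assoc, ← mul_assoc, ha.1, mul_one,
            one_mul, add_comm]
        · refine (h4 i hi).add_left ?_
          have hne : t ≠ i := by rintro rfl; exact ht hi
          unfold Commute SemiconjBy
          rw [mul_assoc, ← mul_assoc (a i), ← mul_assoc (a i), ha.2 i t hne.symm,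
            smul_mul_assoc, smul_mul_assoc, mul_assoc (a t) (a i), ← (h4 i hi).eq, mul_assoc,
            mul_assoc, mul_assoc, ← mul_smul_comm, ← mul_smul_comm, ← ha.2 t i hne]
  obtain ⟨π, h3, h4⟩ := H univ
  refine ⟨(Fintype.card G : ℂ)⁻¹ • ∑ g, ρ g * π * ρ g⁻¹, ⟨fun x => K.smul_mem _ ?_,
    fun x hx => ?_⟩, fun g => Commute.smul_left ?_ _, fun i => Commute.smul_left
      (Commute.sum_left _ _ _ fun g _ => ?_) _⟩
  · rw [LinearMap.sum_apply]
    exact K.sum_mem fun g _ => h1 _ _ (h3.1 _)
  · rw [LinearMap.smul_apply, LinearMap.sum_apply, sum_congr rfl fun g _ => by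
      rw [Module.End.mul_apply, Module.End.mul_apply, h3.2 _ (h1 _ _ hx), ← Module.End.mul_apply,
        ← map_mul, mul_inv_cancel, map_one, Module.End.one_apply]]
    rw [sum_const, card_univ, ← Nat.cast_smul_eq_nsmul ℂ, smul_smul, inv_mul_cancel₀ (by simp),
      one_smul]
  · unfold Commute SemiconjBy
    rw [sum_mul, mul_sum, ← Equiv.sum_comp (Equiv.mulLeft g)]
    refine sum_congr rfl fun h _ => ?_
    rw [Equiv.coe_mulLeft, mul_assoc, ← map_mul, map_mul ρ g h]
    simp [mul_assoc]
  · obtain ⟨j, hj⟩ := hact g⁻¹ i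
    have h5 : a i * ρ g = ρ g * a j := by
      have := congrArg (fun Z => ρ g * Z * ρ g) hj
      simpa [mul_assoc, ← map_mul, ← mul_assoc (ρ g) (ρ g⁻¹)] using this
    unfold Commute SemiconjBy
    rw [mul_assoc, hj, ← mul_assoc, ← mul_assoc, ← mul_assoc, h5, mul_assoc (ρ g) π,
      (h4 j (mem_univ _)).eq, ← mul_assoc]

theorem count_comm {Y ι : Type*} [AddCommGroup Y] [Module ℂ Y] [FiniteDimensional ℂ Y]
    {w : ι → Module.End ℂ Y} {ε : Module.End ℂ Y} (hε : ε * ε = 1)
    (h1 : ∀ i, ε * w i = (-1 : ℂ) • (w i * ε))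
    (h2 : ∀ i j, i ≠ j → w i * w j = (-1 : ℂ) • (w j * w i)) (I : Finset ι)
    (h3 : ∀ i ∈ I, ∃ t : ℂ, t ≠ 0 ∧ w i * w i = t • 1) (D : Submodule ℂ (Module.End ℂ Y))
    (hD : ∀ u ∈ D, ∀ i ∈ I, Commute u (w i)) :
    2 ^ I.card * Module.finrank ℂ D ≤ Module.finrank ℂ Y * Module.finrank ℂ Y := by
  classical
  induction I using Finset.induction_on generalizing D with
  | empty => simpa [Module.finrank_linearMap] using D.finrank_le
  | insert i I hi ih =>
    obtain ⟨t, ht, ht'⟩ := h3 i (mem_insert_self _ _)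
    have h4 : ∀ u : Module.End ℂ Y, u * w i = 0 → u = 0 := fun u hu => by
      have : u * (w i * w i) = 0 := by rw [← mul_assoc, hu, zero_mul]
      simpa [ht', ht] using this
    have h5 : Function.Injective (LinearMap.mulRight ℂ (ε * w i)) := by
      rw [injective_iff_map_eq_zero]
      intro u hu
      rw [LinearMap.mulRight_apply, ← mul_assoc] at hu
      rw [← mul_one u, ← hε, ← mul_assoc, h4 _ hu, zero_mul]
    have h6 : D ⊓ D.map (LinearMap.mulRight ℂ (ε * w i)) = ⊥ := by
      rw [eq_bot_iff]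
      rintro _ ⟨hu, v, hv, rfl⟩
      have a1 := (hD _ hu i (mem_insert_self _ _)).eq
      have a2 := (hD _ hv i (mem_insert_self _ _)).eq
      rw [LinearMap.mulRight_apply] at a1 ⊢
      refine h4 _ ?_
      have a3 : w i * ε = (-1 : ℂ) • (ε * w i) := by rw [h1 i]; module
      rw [← mul_assoc (w i), ← a2, mul_assoc v (w i), ← mul_assoc (w i), a3, smul_mul_assoc,
        mul_smul_comm, ← mul_assoc v] at a1
      linear_combination (norm := module) (2 : ℂ)⁻¹ • a1
    have h7 := Submodule.finrank_sup_add_finrank_inf_eq D (D.map (LinearMap.mulRight ℂ (ε * w i)))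
    rw [h6, finrank_bot, add_zero,
      ← (Submodule.equivMapOfInjective _ h5 D).finrank_eq] at h7
    have h8 := ih (fun j hj => h3 j (mem_insert_of_mem hj))
      (D ⊔ D.map (LinearMap.mulRight ℂ (ε * w i))) (by
        intro u hu j hj
        obtain ⟨a, ha, _, ⟨b, hb, rfl⟩, rfl⟩ := Submodule.mem_sup.1 hu
        refine (hD a ha j (mem_insert_of_mem hj)).add_left
          ((hD b hb j (mem_insert_of_mem hj)).mul_left ?_)
        unfold Commute SemiconjBy
        rw [mul_assoc, h2 i j (by rintro rfl; exact hi hj), mul_smul_comm, ← mul_assoc, h1 j,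
          smul_mul_assoc, smul_smul, mul_assoc]
        simp)
    rw [card_insert_of_notMem hi, pow_succ, mul_assoc, two_mul, ← h7]
    exact h8

end Pool.Agent.P.MP_5e2a31_al
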