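import Pool.Agent.P.MP_5e2a31_al.Fam

set_option maxHeartbeats 400000
set_option linter.unusedSectionVars false

namespace Pool.Agent.P.MP_5e2a31_al

open Finset Equiv SemidirectProduct

variable {n : ℕ}

/-- Matrix coefficients of the Specht modules of the complementary pairs. -/
def gens (n m c : ℕ) : Set (HypOct n → ℂ) :=
  {φ | ∃ α β, Compl m c α β ∧ α.card + β.card = n ∧ ∃ z ∈ (specht n α β).toSubmodule,
    ∃ l : Module.Dual ℂ ((Fin n → ℕ ⊕ ℕ) → ℂ), φ = fun w => l (tabRep n w z)}

/-- The span of the matrix coefficients. -/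
noncomputable def CF (n m c : ℕ) : Submodule ℂ (HypOct n → ℂ) := Submodule.span ℂ (gens n m c)

theorem CF_left {m c : ℕ} {φ : HypOct n → ℂ} (h : φ ∈ CF n m c) (a : HypOct n) :
    (fun w => φ (a * w)) ∈ CF n m c := by
  induction h using Submodule.span_induction with
  | mem x hx =>
    obtain ⟨α, β, h1, h2, z, hz, l, rfl⟩ := hx
    refine Submodule.subset_span ⟨α, β, h1, h2, z, hz, l ∘ₗ tabRep n a, ?_⟩
    ext w
    simp
  | zero => exact Submodule.zero_mem _
  | add x y _ _ hx hy => exact Submodule.add_mem _ hx hy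
  | smul t x _ hx => exact Submodule.smul_mem _ t hx

/-- The product of the signs over `B`. -/
noncomputable def tB (B : Finset (Fin n)) (w : HypOct n) : ℂ := ∏ i ∈ B, ((w.left i : ℤ) : ℂ)

/-- A diagonal matrix coefficient of the exterior algebra of the reflection representation. -/
noncomputable def psi (B : Finset (Fin n)) (w : HypOct n) : ℂ := sg B w.right * tB B w

theorem tB_inr_mul {B B' : Finset (Fin n)} {g : Perm (Fin n)} (hg : ∀ x, g x ∈ B' ↔ x ∈ B)
    (w : HypOct n) : tB B' (inr g * w) = tB B w := by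
  unfold tB
  symm
  refine prod_bij' (fun x _ => g x) (fun x _ => g⁻¹ x) (fun x hx => (hg x).2 hx)
    (fun x hx => (hg _).1 (by simpa using hx)) (by simp) (by simp) fun x _ => ?_
  have : (inr g * w : HypOct n).left (g x) = 1 * w.left (g⁻¹ (g x)) := rfl
  rw [this]
  simp

theorem tB_mul_inr (B : Finset (Fin n)) (g : Perm (Fin n)) (w : HypOct n) :
    tB B (w * inr g) = tB B w := by
  unfold tB
  refine prod_congr rfl fun x _ => ?_
  have : (w * inr g : HypOct n).left x = w.left x * 1 := rfl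
  rw [this, mul_one]

theorem signAt_inr (g : Perm (Fin n)) (f : Fin n → ℕ ⊕ ℕ) : signAt (inr g) f = 1 := by
  simp [signAt]

theorem tabRep_apply (w : HypOct n) (z : (Fin n → ℕ ⊕ ℕ) → ℂ) (f : Fin n → ℕ ⊕ ℕ) :
    tabRep n w z f = signAt w f * z (f ∘ w.right) := rfl

theorem polytabloid_apply (τ : Fin n → (ℕ × ℕ) ⊕ (ℕ × ℕ)) (f : Fin n → ℕ ⊕ ℕ) :
    polytabloid τ f = ∑ c ∈ Yg univ (fun x => Sum.map Prod.snd Prod.snd (τ x)),
      if f ∘ c = (fun x => Sum.map Prod.fst Prod.fst (τ x)) then sgn' c else 0 := by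
  unfold polytabloid
  rw [Finset.sum_apply]
  refine sum_congr (by ext g; simp [mem_Yg]) fun c _ => ?_
  simp [tabRep_apply, signAt_inr, Pi.single_apply, sgn']

theorem kappa_apply {B : Finset (Fin n)} {τ : Fin n → (ℕ × ℕ) ⊕ (ℕ × ℕ)}
    (hB : ∀ x, (τ x).isRight ↔ x ∈ B) (w : HypOct n) :
    tabRep n w (polytabloid τ) (fun x => Sum.map Prod.fst Prod.fst (τ x)) =
      tB B w * ∑ c ∈ Yg univ (fun x => Sum.map Prod.snd Prod.snd (τ x)),
        if w.right * c ∈ Yg univ (fun x => Sum.map Prod.fst Prod.fst (τ x)) then sgn' c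
        else 0 := by
  rw [tabRep_apply, polytabloid_apply]
  congr 1
  · unfold signAt tB
    rw [← prod_filter]
    refine prod_congr ?_ fun _ _ => rfl
    ext x
    simp [← hB]
  · refine sum_congr rfl fun c _ => ?_
    congr 1
    simp [mem_Yg, funext_iff]

theorem sgn'_inv {X : Type} [Fintype X] [DecidableEq X] (g : Perm X) : sgn' g⁻¹ = sgn' g := by
  simp [sgn']

theorem sg_inv {X : Type} [Fintype X] [DecidableEq X] {B : Finset X} {g : Perm X}
    (hg : Stab B g) : sg B g⁻¹ = sg B g := by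
  have h1 := sg_mul hg.inv hg
  rw [inv_mul_cancel, sg_one] at h1
  linear_combination (sg B g) * h1.symm - sg B g⁻¹ * sg_mul_self hg

theorem coef_mem {m c : ℕ} {z : (Fin n → Fin m) → ℂ} (hz : z ∈ Zs (Fin n) m c)
    (l : Module.Dual ℂ ((Fin n → Fin m) → ℂ)) (B : Finset (Fin n)) :
    (fun w : HypOct n => l (rF (Fin n) m w.right z) * psi B w) ∈ CF n m c := by
  classical
  let ι := {p : (Fin n → (ℕ × ℕ) ⊕ (ℕ × ℕ)) × Perm (Fin n) ×
      Module.Dual ℂ ((Fin n → Fin m) → ℂ) //
    (∃ α β, Compl m c α β ∧ IsBitableau α β p.1) ∧ (∀ x, (p.1 x).isRight ↔ x ∈ B) ∧ Stab B p.2.1}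
  let Λ : ι → (Zs (Fin n) m c →ₗ[ℂ] ℂ) := fun p =>
    (Sym (rD (Fin n) m) (sg B) univ (fun x => Sum.map Prod.fst Prod.fst (p.1.1 x))
      (Sym (rD (Fin n) m) (fun g => sgn' g * sg B g) univ
        (fun x => Sum.map Prod.snd Prod.snd (p.1.1 x)) p.1.2.2)) ∘ₗ
      rF (Fin n) m p.1.2.1 ∘ₗ (Zs (Fin n) m c).subtype
  have hspan : l ∘ₗ (Zs (Fin n) m c).subtype ∈ Submodule.span ℂ (Set.range Λ) := by
    refine FiniteDimensional.mem_span_of_iInf_ker_le_ker fun x hx => ?_
    by_cases hx0 : x.1 = 0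
    · simp [hx0]
    exfalso
    obtain ⟨α, β, τ, h1, h2, h3, l', h4⟩ := nonvanishing x.2 hx0 Bᶜ
    rw [compl_compl] at h3 h4
    refine h4 fun h hh => ?_
    rw [Submodule.mem_iInf] at hx
    exact hx ⟨(τ, h, l'), ⟨α, β, h1, h2⟩, h3, by simpa using hh.compl⟩
  let Θ : (Zs (Fin n) m c →ₗ[ℂ] ℂ) →ₗ[ℂ] (HypOct n → ℂ) :=
    { toFun := fun a w => a ⟨rF (Fin n) m w.right z, rF_mem_Zs _ hz⟩ * psi B w
      map_add' := fun a b => by ext w; simp [add_mul]
      map_smul' := fun t a => by ext w; simp [mul_assoc] }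
  have hle : Submodule.span ℂ (Set.range Λ) ≤ (CF n m c).comap Θ := by
    rw [Submodule.span_le]
    rintro _ ⟨⟨⟨τ, h, l'⟩, ⟨α, β, h1, h2⟩, h3, h4⟩, rfl⟩
    simp only at h2 h3 h4
    have side : ∀ (g : (ℕ × ℕ) → ℕ) (x y : Fin n), Sum.map g g (τ x) = Sum.map g g (τ y) →
        (x ∈ B ↔ y ∈ B) := by
      intro g x y h
      rw [← h3, ← h3]
      have := congrArg Sum.isRight h
      simp only [Sum.isRight_map] at this
      rw [this]
    have key : Θ (Λ ⟨(τ, h, l'), ⟨α, β, h1, h2⟩, h3, h4⟩) =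
        ∑ g : Perm (Fin n), (sg B h * sg B g * l' (rF (Fin n) m g⁻¹ z)) •
          fun w => tabRep n (inr h * w * inr g) (polytabloid τ)
            (fun x => Sum.map Prod.fst Prod.fst (τ x)) := by
      ext w
      rw [Finset.sum_apply]
      simp only [Pi.smul_apply, smul_eq_mul, kappa_apply h3, tB_mul_inr, tB_inr_mul h4,
        mul_right, right_inr, mul_sum]
      rw [sum_comm]
      change (Sym (rD (Fin n) m) (sg B) univ (fun x => Sum.map Prod.fst Prod.fst (τ x))
        (Sym (rD (Fin n) m) (fun g => sgn' g * sg B g) univ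
          (fun x => Sum.map Prod.snd Prod.snd (τ x)) l'))
        (rF (Fin n) m h (rF (Fin n) m w.right z)) * psi B w = _
      rw [Sym_dual_apply]
      simp only [Sym_dual_apply, mul_sum, sum_mul]
      rw [sum_comm, sum_Yg_inv]
      refine sum_congr rfl fun d hd => ?_
      have hds := stab_of_mem_Yg (side _) hd
      simp only [mul_ite, mul_zero]
      rw [← sum_filter]
      symm
      refine sum_bij' (fun g _ => h * w.right * g * d) (fun r _ => (h * w.right)⁻¹ * r * d⁻¹)
        (by simp) ?_ (by simp [mul_assoc]) (by simp [mul_assoc]) ?_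
      · intro r hr
        simpa [mul_assoc] using hr
      · intro g hg
        simp only [mem_filter, mem_univ, true_and] at hg
        have hrs := stab_of_mem_Yg (side _) hg
        rw [← rho_mul_apply, ← rho_mul_apply, ← rho_mul_apply, inv_inv, sgn'_inv, sg_inv hds,
          show d * (h * w.right * g * d)⁻¹ * h * w.right = g⁻¹ by group, psi]
        by_cases hw : Stab B w.right
        · have hg' : Stab B g := by
            have := ((h4.mul hw).inv.mul hrs).mul hds.inv
            simpa [mul_assoc] using this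
          rw [sg_mul ((h4.mul hw).mul hg') hds, sg_mul (h4.mul hw) hg', sg_mul h4 hw]
          linear_combination (-(sg B h * sg B g * l' (rF (Fin n) m g⁻¹ z) * tB B w * sgn' d)) *
            (sg B d * sg B d * sg_mul_self hw + sg_mul_self hds)
        · have hg' : ¬ Stab B g := by
            intro hg'
            apply hw
            have := h4.inv.mul ((hrs.mul hds.inv).mul hg'.inv)
            simpa [mul_assoc] using this
          rw [sg_of_not hw, sg_of_not hg']
          ring
    rw [SetLike.mem_coe, Submodule.mem_comap, key]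
    refine Submodule.sum_mem _ fun g _ => Submodule.smul_mem _ _ (Submodule.subset_span ?_)
    refine ⟨α, β, h1, h2.card, tabRep n (inr g) (polytabloid τ),
      Submodule.subset_span ⟨_, τ, h2, rfl⟩,
      LinearMap.proj (fun x => Sum.map Prod.fst Prod.fst (τ x)) ∘ₗ tabRep n (inr h), ?_⟩
    ext w
    simp
  exact hle hspan

/-- Functions on `S_n` all of whose translates times `psi B` are products of coefficients. -/
noncomputable def Dhat (n m c : ℕ) : Submodule ℂ (Perm (Fin n) → ℂ) where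
  carrier := {d | ∀ B g₀ g₁,
    (fun w : HypOct n => d (g₀ * w.right * g₁) * psi B w) ∈ CF n m c * CF n m c}
  add_mem' := fun {a b} ha hb B g₀ g₁ => by
    convert Submodule.add_mem _ (ha B g₀ g₁) (hb B g₀ g₁) using 1
    ext w
    simp [add_mul]
  zero_mem' := fun B g₀ g₁ => by
    convert Submodule.zero_mem _ using 1
    ext w
    simp
  smul_mem' := fun t a ha B g₀ g₁ => by
    convert Submodule.smul_mem _ t (ha B g₀ g₁) using 1
    ext w
    simp [mul_assoc]

theorem Dhat_translate {m c : ℕ} {d : Perm (Fin n) → ℂ} (hd : d ∈ Dhat n m c)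
    (a b : Perm (Fin n)) : (fun x => d (a * x * b)) ∈ Dhat n m c := by
  intro B g₀ g₁
  simpa [mul_assoc] using hd B (a * g₀) (g₁ * b)

theorem tB_symmDiff (A B : Finset (Fin n)) (w : HypOct n) :
    tB A w * tB (symmDiff A B) w = tB B w := by
  unfold tB
  rw [← prod_ite_mem_eq, ← prod_ite_mem_eq (symmDiff A B), ← prod_ite_mem_eq B,
    ← prod_mul_distrib]
  refine prod_congr rfl fun i _ => ?_
  rcases Int.units_eq_one_or (w.left i) with h | h <;>
    by_cases h1 : i ∈ A <;> by_cases h2 : i ∈ B <;> simp [mem_symmDiff, h, h1, h2]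

theorem prod_mem_Dhat {m c : ℕ} (A : Finset (Fin n)) {z₁ z₂ : (Fin n → Fin m) → ℂ}
    (h₁ : z₁ ∈ Zs (Fin n) m c) (h₂ : z₂ ∈ Zs (Fin n) m c)
    (l₁ l₂ : Module.Dual ℂ ((Fin n → Fin m) → ℂ)) :
    (fun g => if Stab A g then l₁ (rF (Fin n) m g z₁) * l₂ (rF (Fin n) m g z₂) else 0) ∈
      Dhat n m c := by
  intro B g₀ g₁
  by_cases hex : ∃ g₂, Stab B g₂ ∧ Stab A (g₀ * g₂ * g₁)
  · obtain ⟨g₂, hB, hA⟩ := hex
    set A' : Finset (Fin n) := univ.filter fun x => g₁⁻¹ x ∈ A with hA'
    have mA' : ∀ x, x ∈ A' ↔ g₁⁻¹ x ∈ A := by simp [hA']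
    have c1 := CF_left (coef_mem (rF_mem_Zs g₁ h₁) (l₁ ∘ₗ rF (Fin n) m (g₀ * g₂)) A') (inr g₂⁻¹)
    have c2 := CF_left (coef_mem (rF_mem_Zs g₁ h₂) (l₂ ∘ₗ rF (Fin n) m (g₀ * g₂))
      (symmDiff A' B)) (inr g₂⁻¹)
    convert Submodule.smul_mem _ (sg B g₂) (Submodule.mul_mem_mul c1 c2) using 1
    ext w
    simp only [Pi.smul_apply, Pi.mul_apply, smul_eq_mul, mul_right, right_inr,
      LinearMap.comp_apply, ← rho_mul_apply, psi]
    rw [show g₀ * g₂ * (g₂⁻¹ * w.right * g₁) = g₀ * w.right * g₁ by group]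
    have e1 : tB A' (inr g₂⁻¹ * w) * tB (symmDiff A' B) (inr g₂⁻¹ * w) = tB B w := by
      rw [tB_symmDiff, tB_inr_mul hB.inv]
    have e2 : Stab A (g₀ * w.right * g₁) ↔ Stab A' (g₂⁻¹ * w.right) := by
      have e3 : g₀ * w.right * g₁ = (g₀ * g₂ * g₁) * (g₁⁻¹ * (g₂⁻¹ * w.right) * g₁) := by group
      have e4 : Stab A (g₁⁻¹ * (g₂⁻¹ * w.right) * g₁) ↔ Stab A' (g₂⁻¹ * w.right) := by
        constructor
        · intro h x
          have := h (g₁⁻¹ x)
          rw [mA', mA']
          simpa using this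
        · intro h x
          have := h (g₁ x)
          rw [mA', mA'] at this
          simpa using this
      rw [← e4, e3]
      exact ⟨fun h => by have := hA.inv.mul h; rwa [inv_mul_cancel_left] at this, fun h => hA.mul h⟩
    by_cases hw : Stab A' (g₂⁻¹ * w.right)
    · rw [if_pos (e2.2 hw)]
      by_cases hw' : Stab B w.right
      · have e5 := sg_symmDiff hw (hB.inv.mul hw')
        have e6 : sg B w.right = sg B g₂ * sg B (g₂⁻¹ * w.right) := by
          rw [← sg_mul hB (hB.inv.mul hw')]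
          simp
        rw [e6, ← e5, ← e1]
        ring
      · have : ¬ Stab (symmDiff A' B) (g₂⁻¹ * w.right) := by
          intro h
          apply hw'
          have h' : Stab B (g₂⁻¹ * w.right) := by
            intro x
            have a1 := h x
            have a2 := hw x
            simp only [mem_symmDiff] at a1
            tauto
          simpa using hB.mul h'
        rw [sg_of_not hw', sg_of_not this]
        ring
    · rw [if_neg (fun h => hw (e2.1 h)), sg_of_not hw]
      ring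
  · convert Submodule.zero_mem _ using 1
    ext w
    by_cases hw : Stab B w.right
    · simp only
      rw [if_neg (fun h => hex ⟨_, hw, h⟩)]
      simp
    · simp [psi, sg_of_not hw]

/-- The right regular representation on functions. -/
noncomputable def rR (G : Type) [Group G] : Representation ℂ G (G → ℂ) where
  toFun g := LinearMap.funLeft ℂ ℂ (fun x => x * g)
  map_one' := by ext; simp
  map_mul' g h := by ext; simp [mul_assoc]

theorem Dhat_le_comap (m c : ℕ) (g : Perm (Fin n)) :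
    Dhat n m c ≤ (Dhat n m c).comap (rR (Perm (Fin n)) g) := by
  intro d hd
  have := Dhat_translate hd 1 g
  simp only [one_mul] at this
  exact this

theorem Dhat_eq_top {m c : ℕ} (R : Rect (Fin n) m c) : Dhat n m c = ⊤ := by
  rw [← Submodule.Quotient.subsingleton_iff]
  refine R.main_S ((rR (Perm (Fin n))).quotient (Dhat n m c) (Dhat_le_comap m c)) ?_
  intro z₁ h₁ z₂ h₂ l₁ l₂ v
  obtain ⟨v, rfl⟩ := Submodule.Quotient.mk_surjective _ v
  have : ∀ g, (rR (Perm (Fin n))).quotient (Dhat n m c) (Dhat_le_comap m c) g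
      (Submodule.Quotient.mk v) = Submodule.Quotient.mk (rR (Perm (Fin n)) g v) := fun g => rfl
  simp only [this, ← Submodule.Quotient.mk_smul]
  simp only [← Submodule.mkQ_apply, ← map_sum]
  rw [Submodule.mkQ_apply, Submodule.Quotient.mk_eq_zero]
  have h := (Dhat n m c).sum_mem (t := univ) fun h _ => (Dhat n m c).smul_mem (v h)
    (Dhat_translate (prod_mem_Dhat R.A h₁ h₂ l₁ l₂) h⁻¹ 1)
  convert h using 1
  ext x
  simp only [Finset.sum_apply, Pi.smul_apply, smul_eq_mul, mul_one, sum_filter]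
  refine sum_bij' (fun g _ => x * g⁻¹) (fun h _ => h⁻¹ * x) (by simp) (by simp) (by simp)
    (by simp) fun g _ => ?_
  rw [show (x * g⁻¹)⁻¹ * x = g by group]
  split_ifs
  · change _ * v (x * g⁻¹) = _
    ring
  · simp

theorem delta_mem {m c : ℕ} (R : Rect (Fin n) m c) [DecidableEq (HypOct n)] :
    (Pi.single 1 1 : HypOct n → ℂ) ∈ CF n m c * CF n m c := by
  have h : (Pi.single 1 1 : Perm (Fin n) → ℂ) ∈ Dhat n m c := by
    rw [Dhat_eq_top R]
    trivial
  have h2 := Submodule.smul_mem _ ((2 : ℂ) ^ n)⁻¹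
    (Submodule.sum_mem _ (t := (univ : Finset (Fin n)).powerset) fun B _ => h B 1 1)
  convert h2 using 1
  ext w
  simp only [Pi.smul_apply, Finset.sum_apply, one_mul, mul_one, smul_eq_mul, ← mul_sum, psi]
  by_cases hw : w.right = 1
  · simp only [hw, Pi.single_eq_same, sg_one, one_mul, tB]
    rw [← prod_one_add]
    by_cases hw' : w.left = 1
    · have : w = 1 := SemidirectProduct.ext hw' hw
      subst this
      simp [one_add_one_eq_two]
    · have : w ≠ 1 := fun h => hw' (h ▸ rfl)
      obtain ⟨i, hi⟩ := Function.ne_iff.1 hw'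
      rw [Pi.single_eq_of_ne this, prod_eq_zero (mem_univ i), mul_zero]
      rcases Int.units_eq_one_or (w.left i) with h | h
      · exact absurd h hi
      · simp [h]
  · have : w ≠ 1 := fun h => hw (h ▸ rfl)
    simp [Pi.single_eq_of_ne this, Pi.single_eq_of_ne hw]

end Pool.Agent.P.MP_5e2a31_al
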