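import Pool.Agent.P.MP_5e2a31_al.Corner

set_option maxHeartbeats 400000
set_option linter.unusedSectionVars false

namespace Pool.Agent.P.MP_5e2a31_al

open Finset Equiv
open scoped TensorProduct

theorem exists_eigen_dual {W X : Type*} [AddCommGroup W] [Module ℂ W] [Fintype X]
    {Θ : X → Module.End ℂ W} (h1 : ∀ x v, Θ x (Θ x v) = v)
    (h2 : ∀ x y v, Θ x (Θ y v) = Θ y (Θ x v)) {s : X → ℂ} (hs : ∀ x, s x * s x = 1)
    (L : Module.Dual ℂ W) : ∃ L' : Module.Dual ℂ W, (∀ x v, L' (Θ x v) = s x * L' v) ∧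
      ∀ v, (∀ x, Θ x v = s x • v) → L' v = L v := by
  classical
  suffices H : ∀ T : Finset X, ∃ L' : Module.Dual ℂ W, (∀ x ∈ T, ∀ v, L' (Θ x v) = s x * L' v) ∧
      ∀ v, (∀ x, Θ x v = s x • v) → L' v = L v by
    obtain ⟨L', a1, a2⟩ := H univ
    exact ⟨L', fun x => a1 x (mem_univ _), a2⟩
  intro T
  induction T using Finset.induction_on with
  | empty => exact ⟨L, by simp, fun _ _ => rfl⟩
  | insert t T ht ih =>
    obtain ⟨L', a1, a2⟩ := ih
    refine ⟨(2 : ℂ)⁻¹ • (L' + s t • L' ∘ₗ Θ t), fun x hx v => ?_, fun v hv => ?_⟩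
    · simp only [LinearMap.smul_apply, LinearMap.add_apply, LinearMap.comp_apply, smul_eq_mul]
      rcases mem_insert.1 hx with rfl | hx
      · rw [h1]
        linear_combination (-2⁻¹ * L' (Θ x v)) * hs x
      · rw [h2, a1 x hx, a1 x hx]
        ring
    · simp only [LinearMap.smul_apply, LinearMap.add_apply, LinearMap.comp_apply, smul_eq_mul, hv,
        map_smul, a2 v hv]
      linear_combination (2⁻¹ * L v) * hs t

variable {X1 X2 : Type} [Fintype X1] [DecidableEq X1] [Fintype X2] [DecidableEq X2]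

/-- The sign that separates the two blocks. -/
def bs : X1 ⊕ X2 → ℂ := Sum.elim (fun _ => 1) fun _ => -1

theorem bs_sq (x : X1 ⊕ X2) : bs x * bs x = 1 := by rcases x with x | x <;> simp [bs]

theorem prod_bs_flp (x : X1 ⊕ X2) (J : Finset (X1 ⊕ X2)) :
    ∏ y ∈ flp x J, bs y = bs x * ∏ y ∈ J, bs y := by
  unfold flp
  split_ifs with h
  · rw [← mul_prod_erase J _ h, ← mul_assoc, bs_sq, one_mul]
  · rw [prod_insert h]

theorem block_sum {M N V : Type*} [AddCommGroup M] [Module ℂ M] [AddCommGroup N] [Module ℂ N]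
    [FiniteDimensional ℂ N] [AddCommGroup V] [Module ℂ V]
    (ρ : Representation ℂ (Perm (X1 ⊕ X2)) M) {a : X1 ⊕ X2 → Module.End ℂ M} (ha : Cf a)
    (hρ : ∀ g x v, ρ g (a x v) = a (g x) (ρ g v)) (σ : Representation ℂ (GG X1 X2) N)
    {c : X1 ⊕ X2 → Module.End ℂ N} {C : Finset (X1 ⊕ X2) → Module.End ℂ N}
    (hC : ∀ x J, c x * C J = sn x J • C (flp x J))
    (hj : ∀ y ≠ 0, ∃ Ψ : N →ₗ[ℂ] M, ((∀ x y, Ψ (c x y) = a x (Ψ y)) ∧
      ∀ g y, Ψ (σ g y) = ρ (Perm.sumCongrHom X1 X2 g) (Ψ y)) ∧ Ψ y ≠ 0)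
    (F : Perm (X1 ⊕ X2) → V)
    (hF : ∀ (y : M ⊗[ℂ] M) (L : Module.Dual ℂ (M ⊗[ℂ] M)),
      ∑ g, L (TensorProduct.map (ρ g) (ρ g) y) • F g = 0)
    (n n' : N) (l l' : Module.Dual ℂ N) :
    ∑ g : GG X1 X2, (∑ J, (∏ x ∈ J, bs x) * (l (σ g (C J n)) * l' (σ g (C J n')))) •
      F (Perm.sumCongrHom X1 X2 g) = 0 := by
  have hspan := Submodule.span_eq_top_of_ne_zero (R := ℂ) (M := N)
    (s := {l | ∃ (Ψ : N →ₗ[ℂ] M) (l₀ : Module.Dual ℂ M), ((∀ x y, Ψ (c x y) = a x (Ψ y)) ∧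
      ∀ g y, Ψ (σ g y) = ρ (Perm.sumCongrHom X1 X2 g) (Ψ y)) ∧ l = l₀ ∘ₗ Ψ}) fun y hy => by
    obtain ⟨Ψ, h1, h2⟩ := hj y hy
    obtain ⟨l₀, h3⟩ := Module.Projective.exists_dual_ne_zero ℂ h2
    exact ⟨_, ⟨Ψ, l₀, h1, rfl⟩, h3⟩
  let Φ : Module.Dual ℂ N →ₗ[ℂ] Module.Dual ℂ N →ₗ[ℂ] V := LinearMap.mk₂ ℂ
    (fun l l' => ∑ g : GG X1 X2,
      (∑ J, (∏ x ∈ J, bs x) * (l (σ g (C J n)) * l' (σ g (C J n')))) •
        F (Perm.sumCongrHom X1 X2 g))
    (by simp [add_mul, mul_add, sum_add_distrib, add_smul])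
    (by simp [smul_sum, smul_smul, mul_sum, mul_assoc, mul_left_comm])
    (by simp [mul_add, sum_add_distrib, add_smul])
    (by simp [smul_sum, smul_smul, mul_sum, mul_left_comm])
  suffices H : Φ = 0 from congr($H l l')
  refine LinearMap.ext_on hspan ?_
  rintro _ ⟨Ψ, l, ⟨a1, a2⟩, rfl⟩
  refine LinearMap.ext_on hspan ?_
  rintro _ ⟨Ψ', l', ⟨b1, b2⟩, rfl⟩
  obtain ⟨L, c1, c2⟩ := exists_eigen_dual (Θ := fun x => TensorProduct.map (a x) (a x))
    (fun x v => by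
      rw [← Module.End.mul_apply, ← TensorProduct.map_mul, ha.1, TensorProduct.map_one]
      rfl)
    (fun x y v => by
      by_cases h : x = y
      · rw [h]
      · rw [← Module.End.mul_apply, ← TensorProduct.map_mul, ha.2 x y h,
          TensorProduct.map_smul_left, TensorProduct.map_smul_right, TensorProduct.map_mul]
        simp) bs_sq
    (TensorProduct.lift ((LinearMap.mul ℂ ℂ).compl₁₂ l l'))
  set y : M ⊗[ℂ] M := ∑ J, (∏ x ∈ J, bs x) • Ψ (C J n) ⊗ₜ Ψ' (C J n') with hy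
  have d1 : ∀ x, TensorProduct.map (a x) (a x) y = bs x • y := fun x => by
    rw [hy, map_sum, smul_sum, ← Equiv.sum_comp (flp_inv x).toPerm (fun J => bs x • _)]
    refine sum_congr rfl fun J _ => ?_
    rw [map_smul, TensorProduct.map_tmul, ← a1, ← b1, ← Module.End.mul_apply,
      ← Module.End.mul_apply, hC, LinearMap.smul_apply, LinearMap.smul_apply, map_smul, map_smul,
      TensorProduct.smul_tmul_smul, sn_sq, one_smul, Function.Involutive.coe_toPerm, prod_bs_flp,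
      smul_smul, ← mul_assoc, bs_sq, one_mul]
  have d2 : ∀ g x, TensorProduct.map (a (g x)) (a (g x)) (TensorProduct.map (ρ g) (ρ g) y) =
      bs x • TensorProduct.map (ρ g) (ρ g) y := fun g x => by
    have : a (g x) * ρ g = ρ g * a x := LinearMap.ext fun v => (hρ g x v).symm
    rw [← Module.End.mul_apply, ← TensorProduct.map_mul, this, TensorProduct.map_mul,
      Module.End.mul_apply, d1, map_smul]
  refine Eq.trans (Fintype.sum_of_injective _ Perm.sumCongrHom_injective _ _ (fun g hg => ?_)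
    fun g => ?_) (hF y L)
  · have : ¬ Set.MapsTo g (Set.range Sum.inl) (Set.range Sum.inl) :=
      fun h => hg (Perm.mem_sumCongrHom_range_of_perm_mapsTo_inl h)
    rw [Set.MapsTo] at this
    push Not at this
    obtain ⟨_, ⟨x, rfl⟩, hx⟩ := this
    have e1 := c1 (g (Sum.inl x)) (TensorProduct.map (ρ g) (ρ g) y)
    rw [d2, map_smul] at e1
    rcases h : g (Sum.inl x) with z | z
    · exact absurd ⟨z, h.symm⟩ hx
    · simp only [h, bs, Sum.elim_inl, Sum.elim_inr, smul_eq_mul] at e1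
      rw [show L (TensorProduct.map (ρ g) (ρ g) y) = 0 by linear_combination e1 / 2, zero_smul]
  · rw [c2 _ fun x => by
      obtain ⟨x, rfl⟩ := (Perm.sumCongrHom X1 X2 g).surjective x
      rw [d2]
      rcases x with x | x <;> rfl]
    simp [hy, a2, b2]

theorem C_single {X Z : Type} [Fintype X] [DecidableEq X] [AddCommGroup Z] [Module ℂ Z]
    {C : Finset X → Module.End ℂ (Finset X → Z)} (h0 : C ∅ = 1)
    (hC : ∀ x J, cN Z x * C J = sn x J • C (flp x J)) (J : Finset X) (z : Z) :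
    C J (Pi.single ∅ z) = Pi.single J z := by
  induction J using Finset.induction_on with
  | empty => simp [h0]
  | insert x J hx ih =>
    rw [single_insert hx, ← ih, ← Module.End.mul_apply, hC, LinearMap.smul_apply, smul_smul, sn_sq,
      one_smul, flp_of_not hx]

theorem sig_mul' {X : Type} [Fintype X] [DecidableEq X] (g : Perm X) {h : Perm X} {J : Finset X}
    (hJ : Stab J h) : sig (g * h) J = sig g J * sig h J := by rw [sig_mul, map_eq_self hJ]

theorem eq_zero_of_tmul {S A : Type*} [AddCommGroup S] [Module ℂ S] [AddCommGroup A] [Module ℂ A]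
    {z : S} {u : A} (hu : u ≠ 0) (h : z ⊗ₜ[ℂ] u = 0) : z = 0 := by
  obtain ⟨l, hl⟩ := Module.Projective.exists_dual_ne_zero ℂ hu
  simpa [hl] using congrArg (fun y => TensorProduct.rid ℂ _ (l.lTensor _ y)) h

theorem saxl_core {m1 m2 : ℕ} (R1 : Rect X1 m1 m1) (R2 : Rect X2 (m2 + 1) m2) (h1 : m2 ≤ m1)
    (h2 : m1 ≤ m2 + 1) (hX1 : Fintype.card X1 = m1 * m1) (hX2 : Fintype.card X2 = (m2 + 1) * m2)
    {S : Submodule ℂ ((X1 ⊕ X2 → Fin (m1 + m2)) → ℂ)} (hS : ∀ g, S ≤ S.comap (rF _ _ g))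
    (hW : ∀ f ∈ S, HW univ (fun p => ((m1 + m2 : ℕ) : ℤ) - (p : ℕ)) f)
    (he : (stair R1 R2 h1 h2).eT ∈ S) {V : Type*} [AddCommGroup V] [Module ℂ V]
    (U : Representation ℂ (Perm (X1 ⊕ X2)) V)
    (hV : ∀ (a b : S) (β : S →ₗ[ℂ] S →ₗ[ℂ] ℂ) (v : V),
      ∑ g, β ((rF _ _).subrepresentation S hS g a) ((rF _ _).subrepresentation S hS g b) •
        U g⁻¹ v = 0) : Subsingleton V := by
  obtain ⟨ψ, p1, p2⟩ := exists_psi R1 R2 h1 h2 hS he
  obtain ⟨a, ε, a1, a2, a3, a4, a5⟩ := exists_cliff _ (stair_H1 hS hW) (stair_H2 hS hW)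
  set ρ := (rF _ _).subrepresentation S hS with hρ
  let ρM : Representation ℂ (Perm (X1 ⊕ X2)) (S ⊗[ℂ] CliffordAlgebra (Qk (m1 + m2))) :=
    { toFun := fun g => (ρ g).rTensor _
      map_one' := by rw [map_one]; exact LinearMap.rTensor_id _ _
      map_mul' := fun g h => by rw [map_mul]; exact LinearMap.rTensor_mul _ _ _ }
  have hj := joint_ker hX1 (Nat.le_succ _) hX2 le_rfl (ρM.comp (Perm.sumCongrHom X1 X2)) a1
    (fun g => a2 _) a3 (fun g => a4 _) a5 (ψ := (TensorProduct.mk ℂ _ _).flip 1 ∘ₗ ψ)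
    (fun g z => by simp [p1, ρM]) 
    (fun h => p2 (LinearMap.ext fun z => eq_zero_of_tmul one_ne_zero congr($h z)))
  obtain ⟨C, c1, c2⟩ := exists_C (Cf_cN (X := X1 ⊕ X2) (Z := ZZ X1 X2 m1 (m2 + 1) m1 m2))
  have hb := fun v => block_sum ρM a1 a2 (rNN X1 X2 m1 (m2 + 1) m1 m2) c2 hj (fun g => U g⁻¹ v)
    fun y L => by
      induction y using TensorProduct.induction_on with
      | zero => simp
      | add y y' hy hy' => simp only [map_add, add_smul, sum_add_distrib, hy, hy', add_zero]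
      | tmul y y' =>
        induction y using TensorProduct.induction_on with
        | zero => simp
        | add y y' hy hy' => simp only [TensorProduct.add_tmul, map_add, add_smul, sum_add_distrib,
            hy, hy', add_zero]
        | tmul z u =>
          induction y' using TensorProduct.induction_on with
          | zero => simp
          | add y y' hy hy' => simp only [TensorProduct.tmul_add, map_add, add_smul,
              sum_add_distrib, hy, hy', add_zero]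
          | tmul z' u' =>
            exact hV z z' (((TensorProduct.mk ℂ _ _).compr₂ L).compl₁₂
              ((TensorProduct.mk ℂ _ _).flip u) ((TensorProduct.mk ℂ _ _).flip u')) v
  let U1 := U.comp ((Perm.sumCongrHom X1 X2).comp (MonoidHom.inl _ _))
  let U2 := U.comp ((Perm.sumCongrHom X1 X2).comp (MonoidHom.inr _ _))
  let D := R1.A.disjSum R2.A
  have hD : ∀ g : GG X1 X2, Stab D (Perm.sumCongrHom X1 X2 g) ↔ Stab R1.A g.1 ∧ Stab R2.A g.2 :=
    fun g => by simp [D, Stab]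
  have hU : ∀ g1 g2 v, U (Perm.sumCongrHom X1 X2 (g1, g2))⁻¹ v = U1 g1⁻¹ (U2 g2⁻¹ v) ∧
      U (Perm.sumCongrHom X1 X2 (g1, g2))⁻¹ v = U2 g2⁻¹ (U1 g1⁻¹ v) := fun g1 g2 v => by
    simp [U1, U2, ← rho_mul_apply]
  refine R2.main_T U2 (fun g => sig (Perm.sumCongrHom X1 X2 (1, g)) D)
    (sig_fix fun _ _ => by simp) (fun g h _ hh => by
      rw [← sig_mul' _ ((hD (1, h)).2 ⟨Stab.one _, hh⟩), ← map_mul]
      simp) (fun g => sig_sq _ _) fun z2 hz2 z2' hz2' l2 l2' v => ?_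
  set T : Module.End ℂ V := ∑ g ∈ univ.filter (fun g => Stab R2.A g),
    (sig (Perm.sumCongrHom X1 X2 (1, g)) D *
      (l2 (rF X2 _ g z2) * l2' (rF X2 _ g z2'))) • U2 g⁻¹ with hT
  have hT' : ∀ v, T v = ∑ g ∈ univ.filter (fun g => Stab R2.A g),
      (sig (Perm.sumCongrHom X1 X2 (1, g)) D *
        (l2 (rF X2 _ g z2) * l2' (rF X2 _ g z2'))) • U2 g⁻¹ v := fun v => by
    simp [hT, LinearMap.sum_apply]
  have := R1.main_T (Representation.subrepresentation U1 (LinearMap.range T) (by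
      rintro g _ ⟨v, rfl⟩
      refine ⟨U1 g v, ?_⟩
      rw [hT', hT', map_sum]
      refine sum_congr rfl fun h _ => ?_
      have := (hU g⁻¹ h v).1.symm.trans (hU g⁻¹ h v).2
      rw [inv_inv] at this
      rw [map_smul, this]))
    (fun g => sig (Perm.sumCongrHom X1 X2 (g, 1)) D)
    (sig_fix fun _ _ => by simp) (fun g h _ hh => by
      rw [← sig_mul' _ ((hD (h, 1)).2 ⟨hh, Stab.one _⟩), ← map_mul]
      simp) (fun g => sig_sq _ _) (by
    rintro z1 hz1 z1' hz1' l1 l1' ⟨_, v, rfl⟩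
    obtain ⟨pl, hpl⟩ : ∃ pl : Module.Dual ℂ ((X1 → Fin m1) → ℂ) →
        Module.Dual ℂ ((X2 → Fin (m2 + 1)) → ℂ) → Module.Dual ℂ (ZZ X1 X2 m1 (m2 + 1) m1 m2),
        ∀ l l' g {z z'} (hz : z ∈ Zs X1 m1 m1) (hz' : z' ∈ Zs X2 (m2 + 1) m2),
        pl l l' (rZ _ _ _ _ _ _ g ⟨_, mul_mem_ZZ hz hz'⟩) =
          l (rF X1 _ g.1 z) * l' (rF X2 _ g.2 z') := by
      refine ⟨fun l l' => l ∘ₗ (LinearMap.pi fun w1 => l' ∘ₗ
        LinearMap.funLeft ℂ ℂ fun w2 => (w1, w2)) ∘ₗ Submodule.subtype _, ?_⟩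
      intro l l' g z z' hz hz'
      rw [mul_comm, ← smul_eq_mul, ← map_smul]
      refine congrArg l (funext fun w1 => ?_)
      rw [Pi.smul_apply, smul_eq_mul, mul_comm, ← smul_eq_mul, ← map_smul]
      rfl
    have h3 := hb v (Pi.single D ⟨_, mul_mem_ZZ hz1 hz2⟩) (Pi.single ∅ ⟨_, mul_mem_ZZ hz1' hz2'⟩)
      (pl l1 l2 ∘ₗ LinearMap.proj D) (pl l1' l2' ∘ₗ LinearMap.proj ∅)
    refine Subtype.ext (Eq.trans ?_ h3)
    rw [AddSubmonoidClass.coe_finsetSum, Fintype.sum_prod_type, sum_filter]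
    refine sum_congr rfl fun g1 _ => ?_
    have h4 : ∀ g2, (∑ J, (∏ x ∈ J, bs x) *
        ((pl l1 l2 ∘ₗ LinearMap.proj D) (rNN X1 X2 m1 (m2 + 1) m1 m2 (g1, g2)
          (C J (Pi.single D ⟨_, mul_mem_ZZ hz1 hz2⟩))) *
        (pl l1' l2' ∘ₗ LinearMap.proj ∅) (rNN X1 X2 m1 (m2 + 1) m1 m2 (g1, g2)
          (C J (Pi.single ∅ ⟨_, mul_mem_ZZ hz1' hz2'⟩))))) =
        if Stab R1.A g1 ∧ Stab R2.A g2 then (sig (Perm.sumCongrHom X1 X2 (g1, 1)) D *
          (l1 (rF X1 _ g1 z1) * l1' (rF X1 _ g1 z1'))) * (sig (Perm.sumCongrHom X1 X2 (1, g2)) D *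
          (l2 (rF X2 _ g2 z2) * l2' (rF X2 _ g2 z2'))) else 0 := by
      intro g2
      rw [sum_eq_single ∅, c1, prod_empty, one_mul, Module.End.one_apply, Module.End.one_apply,
        rN_single, rN_empty, map_smul, LinearMap.comp_apply, LinearMap.comp_apply,
        LinearMap.proj_apply, LinearMap.proj_apply, Pi.single_eq_same, hpl _ _ _ hz1' hz2']
      · split_ifs with h
        · rw [map_eq_self ((hD (g1, g2)).2 h), Pi.single_eq_same, hpl _ _ _ hz1 hz2,
            show (g1, g2) = (g1, 1) * (1, g2) by simp, map_mul,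
            sig_mul' _ ((hD (1, g2)).2 ⟨Stab.one _, h.2⟩)]
          simp only [smul_eq_mul, Prod.mk_mul_mk, mul_one, one_mul]
          ring
        · rw [Pi.single_eq_of_ne, map_zero, smul_zero, zero_mul]
          intro h'
          refine h ((hD (g1, g2)).1 fun x => ?_)
          conv_lhs => rw [h']
          simp
      · intro J _ hJ
        rw [C_single c1 c2, rN_single, map_smul, LinearMap.comp_apply (pl l1' l2'),
          LinearMap.proj_apply, Pi.single_eq_of_ne (by simpa [eq_comm] using hJ)]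
        simp
      · simp
    simp only [h4, (hU _ _ _).1]
    split_ifs with h
    · simp only [and_iff_right h]
      simp [hT', sum_filter, smul_sum, smul_smul, apply_ite (U1 g1⁻¹)]
    · simp [h])
  rw [← hT']
  exact congrArg Subtype.val (Subsingleton.elim (⟨_, v, rfl⟩ : LinearMap.range T) 0)

end Pool.Agent.P.MP_5e2a31_al
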