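import Pool.Agent.P.MP_5e2a31_al.JMB

set_option maxHeartbeats 400000
set_option linter.unusedSectionVars false

namespace Pool.Agent.P.MP_5e2a31_al

open Finset Equiv

/-- Coordinates of a staircase on `X`. -/
structure Stair (X : Type) (k : ℕ) where
  row : X → ℕ
  col : X → ℕ
  lt : ∀ x, row x + col x < k
  inj : ∀ x y, row x = row y → col x = col y → x = y
  surj : ∀ i j, i + j < k → ∃ x, row x = i ∧ col x = j

section One

variable {X : Type} [Fintype X] [DecidableEq X] {k : ℕ}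

/-- The row word. -/
def Stair.rowF (T : Stair X k) (x : X) : Fin k := ⟨T.row x, by have := T.lt x; omega⟩

/-- The polytabloid. -/
noncomputable def Stair.eT (T : Stair X k) : (X → Fin k) → ℂ := zD T.col T.rowF

theorem Stair.hw (T : Stair X k) : HW univ (fun p => (k : ℤ) - (p : ℕ)) T.eT := by
  refine zD_HW (fun p => ?_) fun x p hp => ?_
  · have : (univ.filter fun x => T.rowF x = p).card = (range (k - p)).card := by
      refine card_bij (fun y _ => T.col y) (fun y hy => ?_) (fun x hx y hy h => ?_) fun j hj => ?_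
      · have h1 := T.lt y
        have h2 : T.row y = p := congrArg Fin.val (mem_filter.1 hy).2
        rw [mem_range]
        omega
      · exact T.inj x y (congrArg Fin.val ((mem_filter.1 hx).2.trans (mem_filter.1 hy).2.symm)) h
      · obtain ⟨x, h1, h2⟩ := T.surj p j (by have := mem_range.1 hj; omega)
        exact ⟨x, mem_filter.2 ⟨mem_univ _, Fin.ext h1⟩, h2⟩
    have hp := p.2
    rw [this, card_range]
    omega
  · have h1 := T.lt x
    have h2 : (p : ℕ) < T.row x := hp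
    obtain ⟨y, h3, h4⟩ := T.surj p (T.col x) (by omega)
    exact ⟨y, h4, Fin.ext h3⟩

/-- The coefficients of the Young symmetriser. -/
noncomputable def kp (row col : X → ℕ) (g : Perm X) : ℂ :=
  ∑ d : Perm X, if (∀ x, col (d x) = col x) ∧ ∀ x, row (g (d x)) = row x then sgn' d else 0

theorem kp_sum {m : ℕ} (row col : X → ℕ) (f : X → Fin m) (z : (X → Fin m) → ℂ) :
    ∑ g : Perm X, z (f ∘ ⇑g⁻¹) * kp row col g =
      Sym (rD X m) one' univ row (Sym (rD X m) sgn' univ col (ev f)) z := by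
  simp only [Sym_dual_apply, kp, mul_sum]
  rw [sum_comm]
  conv_rhs => rw [sum_comm, sum_Yg_inv, Yg, sum_filter]
  refine sum_congr rfl fun d _ => ?_
  by_cases hd : ∀ x, col (d x) = col x
  · rw [if_pos ⟨by simp, hd⟩, Yg, sum_filter, ← Equiv.sum_comp (Equiv.mulRight d⁻¹)]
    refine sum_congr rfl fun g _ => ?_
    simp only [hd, implies_true, true_and, mem_univ, not_true, false_implies, coe_mulRight,
      Perm.mul_apply, inv_inv, Perm.coe_inv, symm_apply_apply]
    split_ifs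
    · have : sgn' d⁻¹ = sgn' d := by simp [sgn']
      rw [this, one'_apply, one_mul, mul_comm]
      congr 2
    · simp
  · simp [hd]

end One

variable {X1 X2 : Type} [Fintype X1] [DecidableEq X1] [Fintype X2] [DecidableEq X2] {m1 m2 : ℕ}
  (R1 : Rect X1 m1 m1) (R2 : Rect X2 (m2 + 1) m2)

/-- Rows of the two small staircases. -/
def row2 (m1 : ℕ) (x : X2) : ℕ := if R2.I x + R2.J x < m2 then R2.rw' x else m1 + R2.rw' x

/-- Columns of the two small staircases. -/
def col2 (m1 : ℕ) (x : X2) : ℕ := if R2.I x + R2.J x < m2 then m1 + R2.cl x else R2.cl x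

/-- The square in the corner and the two small staircases. -/
def stair (h1 : m2 ≤ m1) (h2 : m1 ≤ m2 + 1) : Stair (X1 ⊕ X2) (m1 + m2) where
  row := Sum.elim R1.I (row2 R2 m1)
  col := Sum.elim R1.J (col2 R2 m1)
  lt := by
    rintro (x | x)
    · have := R1.hI x; have := R1.hJ x
      simp only [Sum.elim_inl]
      omega
    · have := R2.hI x; have := R2.hJ x
      simp only [Sum.elim_inr, row2, col2, Rect.rw', Rect.cl, Rect.L_val]
      split_ifs <;> omega
  inj := by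
    rintro (x | x) (y | y) a b
    · exact congrArg _ (R1.inj x y a b)
    · have := R1.hI x; have := R1.hJ x
      simp only [Sum.elim_inl, Sum.elim_inr, row2, col2] at a b
      split_ifs at a b <;> omega
    · have := R1.hI y; have := R1.hJ y
      simp only [Sum.elim_inl, Sum.elim_inr, row2, col2] at a b
      split_ifs at a b <;> omega
    · have := R2.hI x; have := R2.hJ x; have := R2.hI y; have := R2.hJ y
      simp only [Sum.elim_inr, row2, col2, Rect.rw', Rect.cl, Rect.L_val] at a b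
      refine congrArg _ (R2.inj x y ?_ ?_) <;> split_ifs at a b <;> omega
  surj := by
    intro i j h
    by_cases a : m1 ≤ j
    · obtain ⟨y, b1, b2⟩ := R2.surj (m2 - 1 - i - (j - m1)) (j - m1) (by omega) (by omega)
      refine ⟨Sum.inr y, ?_⟩
      simp only [Sum.elim_inr, row2, col2, Rect.rw', Rect.cl, Rect.L_val]
      split_ifs <;> omega
    · by_cases b : m1 ≤ i
      · obtain ⟨y, b1, b2⟩ := R2.surj (i - m1 + j + 1) (m2 - 1 - j) (by omega) (by omega)
        refine ⟨Sum.inr y, ?_⟩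
        simp only [Sum.elim_inr, row2, col2, Rect.rw', Rect.cl, Rect.L_val]
        split_ifs <;> omega
      · obtain ⟨y, b1, b2⟩ := R1.surj i j (by omega) (by omega)
        exact ⟨Sum.inl y, b1, b2⟩

theorem kp_stair (h1 : m2 ≤ m1) (h2 : m1 ≤ m2 + 1) (g : GG X1 X2) :
    kp (stair R1 R2 h1 h2).row (stair R1 R2 h1 h2).col (Perm.sumCongrHom X1 X2 g) =
      kp R1.I R1.J g.1 * kp (row2 R2 m1) (col2 R2 m1) g.2 := by
  rw [kp, kp, kp, sum_mul_sum, ← Fintype.sum_prod_type']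
  symm
  refine Fintype.sum_of_injective _ Perm.sumCongrHom_injective _ _ (fun d hd => if_neg ?_)
    fun d => ?_
  · rintro ⟨a1, a2⟩
    refine hd ((Perm.sumCongrHom X1 X2).range.inv_mem_iff.1
      (Perm.mem_sumCongrHom_range_of_perm_mapsTo_inl ?_))
    rintro _ ⟨x, rfl⟩
    have b1 := a1 (d⁻¹ (Sum.inl x))
    have b2 := a2 (d⁻¹ (Sum.inl x))
    have b3 := R1.hJ x
    have b4 := R1.hI (g.1 x)
    rw [Perm.coe_inv, apply_symm_apply] at b1 b2
    rw [Perm.coe_inv]
    rcases h : d.symm (Sum.inl x) with y | y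
    · exact ⟨y, rfl⟩
    · rw [h] at b1 b2
      simp only [stair, Perm.sumCongrHom_apply, Perm.sumCongr_apply, Sum.map_inl, Sum.elim_inl,
        Sum.elim_inr, row2, col2] at b1 b2
      split_ifs at b1 b2 <;> omega
  · have : sgn' (Perm.sumCongrHom X1 X2 d) = sgn' d.1 * sgn' d.2 := by
      simp [sgn', Perm.sign_sumCongr]
    rw [this]
    simp only [stair, Sum.forall, Perm.sumCongrHom_apply, Perm.sumCongr_apply, Sum.map_inl,
      Sum.map_inr, Sum.elim_inl, Sum.elim_inr, ite_zero_mul_ite_zero]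
    congr 1
    exact propext (by tauto)

theorem sq_ne : ∃ z ∈ Zs X1 m1 m1, ∃ f : X1 → Fin m1,
    ∑ g : Perm X1, z (f ∘ ⇑g⁻¹) * kp R1.I R1.J g ≠ 0 := by
  let f : X1 → Fin m1 := fun x => ⟨R1.I x, R1.hI x⟩
  have hf : ∀ x y, R1.J x = R1.J y → f x = f y → x = y := fun x y a b =>
    R1.inj x y (congrArg Fin.val b) a
  have hc : ∀ p, (univ.filter fun x => f x = p).card = m1 := fun p => by
    refine Eq.trans ?_ (card_range m1)
    refine card_bij (fun y _ => R1.J y) (fun y _ => mem_range.2 (R1.hJ y))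
      (fun x hx y hy h => hf x y h ((mem_filter.1 hx).2.trans (mem_filter.1 hy).2.symm))
      fun j hj => ?_
    obtain ⟨y, h1, h2⟩ := R1.surj p j p.2 (mem_range.1 hj)
    exact ⟨y, mem_filter.2 ⟨mem_univ _, Fin.ext h1⟩, h2⟩
  have hz : zD R1.J f ∈ Zs X1 m1 m1 := zD_mem hc fun x p => by
    obtain ⟨y, h1, h2⟩ := R1.surj p (R1.J x) p.2 (R1.hJ x)
    exact ⟨y, h2, Fin.ext h1⟩
  have key : ∀ w : X1 → Fin m1, (∀ p, (univ.filter fun x => w x = p).card = m1) →
      ∑ x, (w x : ℕ) = ∑ p : Fin m1, m1 * p := fun w hw => by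
    rw [← sum_fiberwise (g := w)]
    refine sum_congr rfl fun p _ => ?_
    rw [sum_congr rfl fun x hx => by rw [(mem_filter.1 hx).2], sum_const, hw, smul_eq_mul]
  have := hook_A (A := univ) (s := 1) (f₀ := f) hz
    (fun h _ w hw => by rw [key f hc, key w ((rF_mem_Zs h hz).2 _ hw)]) (r := R1.I) (cl := R1.J)
    (fun _ _ => rfl) (fun x _ y _ => R1.inj x y) (fun x _ i j hi hj => by
      obtain ⟨y, h⟩ := R1.surj i j (hi.trans_lt (R1.hI x)) (hj.trans_lt (R1.hJ x))
      exact ⟨y, mem_univ _, h⟩) 1 (Stab.one _)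
  refine ⟨_, hz, f, ?_⟩
  rw [kp_sum]
  simp only [Perm.coe_one, Function.id_comp, map_one, Module.End.one_apply, LinearMap.sub_apply,
    sub_eq_zero, LinearMap.smul_apply, LinearMap.proj_apply, zD_self hf, smul_eq_mul,
    mul_one] at this
  rw [this]
  refine prod_ne_zero_iff.2 fun x _ => Nat.cast_ne_zero.2 fun h => ?_
  have : (univ.filter fun y => R1.I y = R1.I x ∧ R1.J x ≤ R1.J y).card ≠ 0 :=
    card_ne_zero.2 ⟨x, by simp⟩
  unfold hook at h
  omega

theorem rect_ne (h1 : m2 ≤ m1) :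
    ∑ g : Perm X2, zD R2.J R2.L (R2.L ∘ ⇑g⁻¹) * kp (row2 R2 m1) (col2 R2 m1) g ≠ 0 := by
  obtain ⟨γ, a1, a2⟩ := R2.lam_plus
  have a3 := a2 1 (Stab.one _)
  have e1 : Sym (rD X2 (m2 + 1)) one' univ (row2 R2 m1) = Sym (rD X2 (m2 + 1)) one' univ R2.blk := by
    refine Sym_congr (fun x _ y _ => ?_) fun _ _ => rfl
    have := R2.hI x; have := R2.hJ x; have := R2.hI y; have := R2.hJ y
    simp only [row2, Rect.rw', Rect.blk, Rect.L_val]
    split_ifs <;> omega
  have e2 : Sym (rD X2 (m2 + 1)) sgn' univ (col2 R2 m1) =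
      Sym (rD X2 (m2 + 1)) sgn' R2.A R2.cl * Sym (rD X2 (m2 + 1)) sgn' R2.Aᶜ R2.cl := by
    rw [← union_compl R2.A, Sym_union disjoint_compl_right ?_ (mulOn_sgn _ _)]
    · congr 1
      · refine Sym_congr (fun x hx y hy => ?_) fun _ _ => rfl
        rw [Rect.mem_A] at hx hy
        simp only [col2, if_pos hx, if_pos hy]
        omega
      · refine Sym_congr (fun x hx y hy => ?_) fun _ _ => rfl
        rw [Rect.mem_B] at hx hy
        simp only [col2, if_neg (not_lt.2 hx), if_neg (not_lt.2 hy)]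
    · intro x hx y hy
      rw [Rect.mem_A] at hx
      rw [Rect.mem_B] at hy
      simp only [col2, Rect.cl, if_pos hx, if_neg (not_lt.2 hy)]
      omega
  rw [kp_sum, e1, e2]
  simp only [map_one, Module.End.one_apply, LinearMap.sub_apply, sub_eq_zero, LinearMap.smul_apply,
    LinearMap.proj_apply, zD_self R2.L_inj, smul_eq_mul, mul_one] at a3
  refine a3.trans_ne (Nat.cast_ne_zero.2 ?_)
  rintro rfl
  simp at a1

theorem mul_mem_ZZ {m2 c1 c2 : ℕ} {z1 : (X1 → Fin m1) → ℂ} {z2 : (X2 → Fin m2) → ℂ}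
    (h1 : z1 ∈ Zs X1 m1 c1) (h2 : z2 ∈ Zs X2 m2 c2) :
    (fun w => z1 w.1 * z2 w.2) ∈ ZZ X1 X2 m1 m2 c1 c2 :=
  mem_ZZ.2 ⟨fun w1 => (Zs X2 m2 c2).smul_mem (z1 w1) h2, fun w2 => by
    convert (Zs X1 m1 c1).smul_mem (z2 w2) h1 using 1
    ext w
    simp [mul_comm]⟩

theorem exists_psi (h1 : m2 ≤ m1) (h2 : m1 ≤ m2 + 1)
    {S : Submodule ℂ ((X1 ⊕ X2 → Fin (m1 + m2)) → ℂ)} (hS : ∀ g, S ≤ S.comap (rF _ _ g))
    (he : (stair R1 R2 h1 h2).eT ∈ S) : ∃ ψ : ZZ X1 X2 m1 (m2 + 1) m1 m2 →ₗ[ℂ] S,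
      (∀ g z, ψ (rZ _ _ _ _ _ _ g z) =
        (rF _ _).subrepresentation S hS (Perm.sumCongrHom X1 X2 g) (ψ z)) ∧ ψ ≠ 0 := by
  obtain ⟨z1, a1, f, a2⟩ := sq_ne R1
  set ρ := (rF _ _).subrepresentation S hS with hρ
  let l : Module.Dual ℂ (ZZ X1 X2 m1 (m2 + 1) m1 m2) :=
    LinearMap.proj (f, R2.L) ∘ₗ Submodule.subtype _
  have h3 : ∀ z, (∑ g : GG X1 X2, (l ∘ₗ rZ _ _ _ _ _ _ g⁻¹).smulRight
      (ρ (Perm.sumCongrHom X1 X2 g) ⟨_, he⟩)) z =
      ∑ g : GG X1 X2, l (rZ _ _ _ _ _ _ g⁻¹ z) • ρ (Perm.sumCongrHom X1 X2 g) ⟨_, he⟩ :=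
    fun z => by simp [LinearMap.sum_apply]
  refine ⟨∑ g : GG X1 X2, (l ∘ₗ rZ _ _ _ _ _ _ g⁻¹).smulRight
    (ρ (Perm.sumCongrHom X1 X2 g) ⟨_, he⟩), fun a z => ?_, fun h0 => ?_⟩
  · rw [h3, h3, map_sum, ← Equiv.sum_comp (Equiv.mulLeft a)]
    refine sum_congr rfl fun g _ => ?_
    rw [map_smul, Equiv.coe_mulLeft, ← Module.End.mul_apply, ← map_mul, map_mul _ a g, map_mul ρ,
      Module.End.mul_apply, mul_inv_rev, inv_mul_cancel_right]
  · have h4 := h3 ⟨_, mul_mem_ZZ a1 R2.z_mem⟩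
    rw [h0, LinearMap.zero_apply] at h4
    have h5 := congrFun (congrArg Subtype.val h4) (stair R1 R2 h1 h2).rowF
    refine mul_ne_zero a2 (rect_ne R2 h1) ?_
    rw [sum_mul_sum, ← Fintype.sum_prod_type']
    rw [AddSubmonoidClass.coe_finsetSum, Finset.sum_apply] at h5
    refine Eq.trans (sum_congr rfl fun g _ => ?_) h5.symm
    · rw [mul_mul_mul_comm, ← kp_stair R1 R2 h1 h2]
      refine congrArg₂ _ rfl ?_
      change _ = zD _ _ (_ ∘ _)
      rw [zD_apply, Yg, sum_filter, kp]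
      refine sum_congr rfl fun d _ => ?_
      simp [← ite_and, funext_iff, Stair.rowF]

end Pool.Agent.P.MP_5e2a31_al
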