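import Mathlib

namespace Pool.Agent.P.MP_5e2a31_al

open scoped DirectSum

/-- The hyperoctahedral group `{±1}^n ⋊ S_n`, the Weyl group of type `B_n` and `C_n`. -/
abbrev HypOct (n : ℕ) : Type := (Fin n → ℤˣ) ⋊[mulAutArrow] Equiv.Perm (Fin n)

theorem prod_left_mul {n : ℕ} (a b : HypOct n) :
    ∏ i, (a * b).left i = (∏ i, a.left i) * ∏ i, b.left i := by
  rw [← Equiv.prod_comp a.right⁻¹ b.left, ← Finset.prod_mul_distrib]
  rfl

/-- For `d = 1` the Weyl group `W(C_n)` (all signed permutations), for `d = 0` the Weyl group
`W(D_n)` (signed permutations with an even number of sign changes). -/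
def weyl (d n : ℕ) : Subgroup (HypOct n) where
  carrier := {w | d = 0 → ∏ i, w.left i = 1}
  mul_mem' := fun {a b} ha hb h => by rw [prod_left_mul, ha h, hb h, mul_one]
  one_mem' := fun _ => by simp
  inv_mem' := fun {a} ha h => by
    have := prod_left_mul a a⁻¹
    rw [ha h, one_mul, mul_inv_cancel] at this
    rw [← this]
    simp

/-- The sign by which the sign change of `w` acts on the bitabloid `f`: the product of the signs
at the entries that lie in the second diagram. -/
noncomputable def signAt {n : ℕ} (w : HypOct n) (f : Fin n → ℕ ⊕ ℕ) : ℂ :=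
  ∏ i, if (f i).isRight then ((w.left i : ℤ) : ℂ) else 1

theorem signAt_mul {n : ℕ} (a b : HypOct n) (f : Fin n → ℕ ⊕ ℕ) :
    signAt (a * b) f = signAt a f * signAt b (f ∘ a.right) := by
  unfold signAt
  rw [← Equiv.prod_comp a.right⁻¹ (fun i => if ((f ∘ a.right) i).isRight then _ else _),
    ← Finset.prod_mul_distrib]
  refine Finset.prod_congr rfl fun i _ => ?_
  have : (a * b).left i = a.left i * b.left (a.right⁻¹ i) := rfl
  rw [this]
  by_cases h : (f i).isRight <;> simp [h]

/-- The bitabloid representation. A bitabloid `f` records for every `i` the row that contains it: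
`inl r` is row `r` of the first diagram and `inr r` is row `r` of the second one. Permutations
permute bitabloids; the sign change at `i` fixes a bitabloid with `i` in the first diagram and
negates one with `i` in the second diagram. A vector is given by its coefficient function. -/
noncomputable def tabRep (n : ℕ) : Representation ℂ (HypOct n) ((Fin n → ℕ ⊕ ℕ) → ℂ) where
  toFun w :=
    { toFun := fun z f => signAt w f * z (f ∘ w.right)
      map_add' := fun _ _ => by ext; simp [mul_add]
      map_smul' := fun _ _ => by ext; simp [mul_left_comm] }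
  map_one' := by ext; simp [signAt]
  map_mul' a b := by ext; simp [signAt_mul, mul_assoc, Function.comp_assoc]

/-- `τ` is a bijection from `Fin n` onto the cells of the pair of Young diagrams `(α, β)`. -/
def IsBitableau {n : ℕ} (α β : YoungDiagram) (τ : Fin n → (ℕ × ℕ) ⊕ (ℕ × ℕ)) : Prop :=
  Function.Injective τ ∧ ∀ c, (∃ i, τ i = c) ↔ Sum.elim (fun x => x ∈ α) (fun x => x ∈ β) c

/-- The polytabloid `∑ sgn(c) c {τ}`, summed over the column group of `τ`. -/
noncomputable def polytabloid {n : ℕ} (τ : Fin n → (ℕ × ℕ) ⊕ (ℕ × ℕ)) :
    (Fin n → ℕ ⊕ ℕ) → ℂ :=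
  ∑ c : Equiv.Perm (Fin n) with
      ∀ i, Sum.map Prod.snd Prod.snd (τ (c i)) = Sum.map Prod.snd Prod.snd (τ i),
    ((Equiv.Perm.sign c : ℤ) : ℂ) •
      tabRep n (SemidirectProduct.inr c) (Pi.single (fun i => Sum.map Prod.fst Prod.fst (τ i)) 1)

/-- The Specht module of the bipartition `(α, β)`: the irreducible representation of the
hyperoctahedral group generated by the polytabloids of shape `(α, β)`. -/
noncomputable def specht (n : ℕ) (α β : YoungDiagram) : Subrepresentation (tabRep n) where
  toSubmodule := Submodule.span ℂ
    {z | ∃ w τ, IsBitableau α β τ ∧ z = tabRep n w (polytabloid τ)}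
  apply_mem_toSubmodule g v hv := by
    induction hv using Submodule.span_induction with
    | mem x hx =>
      obtain ⟨w, τ, h, rfl⟩ := hx
      exact Submodule.subset_span ⟨g * w, τ, h, by rw [map_mul]; rfl⟩
    | zero => simp
    | add x y _ _ hx hy => rw [map_add]; exact Submodule.add_mem _ hx hy
    | smul a x _ hx => rw [map_smul]; exact Submodule.smul_mem _ _ hx

/-- The entries of Lusztig's symbol of `(α, β)` with `k + d` entries in the top row and `k`
entries in the bottom row. -/
def symbolEntries (d k : ℕ) (α β : YoungDiagram) : Multiset ℕ :=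
  (Multiset.range (k + d)).map (fun i => α.rowLen i + (k + d - 1 - i)) +
    (Multiset.range k).map (fun j => β.rowLen j + (k - 1 - j))

/-- The Lusztig family of rank `k (k + d)` whose symbols have the entries `0, 1, …, 2k + d - 1`,
each once. For `d = 0` the pair `(α, β)` is unordered, and one order is chosen. -/
def Family (d k : ℕ) : Type :=
  {p : YoungDiagram × YoungDiagram //
    p.1.card + p.2.card = k * (k + d) ∧ p.1.colLen 0 ≤ k + d ∧ p.2.colLen 0 ≤ k ∧
      symbolEntries d k p.1 p.2 = Multiset.range (2 * k + d) ∧
      (d = 0 → p.2.rowLen 0 < p.1.rowLen 0)}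

/-- The direct sum of the subrepresentations `S p` of `ρ`, restricted to the subgroup `H`. -/
noncomputable def resSum {G M ι : Type} [Group G] [AddCommMonoid M] [Module ℂ M]
    {ρ : Representation ℂ G M} (H : Subgroup G) (S : ι → Subrepresentation ρ) :
    Representation ℂ H (⨁ p : ι, (S p).toSubmodule) :=
  Representation.directSum fun p : ι => ((S p).toRepresentation).comp H.subtype

/-- Every irreducible complex representation `U` of `G` occurs in `σ`: there is a nonzero
`G`-equivariant linear map from `U` to `σ`. -/
def ContainsAll {G M : Type} [Group G] [AddCommMonoid M] [Module ℂ M]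
    (σ : Representation ℂ G M) : Prop :=
  ∀ (V : Type) [AddCommGroup V] [Module ℂ V] (U : Representation ℂ G V),
    U.IsIrreducible → ∃ f : U.IntertwiningMap σ, f ≠ 0

/-- With `σ` the direct sum of the `S p` restricted to `H`, every irreducible complex
representation of `H` occurs in the tensor square `σ ⊗ σ`. -/
def SquareContainsAll {G M ι : Type} [Group G] [AddCommMonoid M] [Module ℂ M]
    {ρ : Representation ℂ G M} (H : Subgroup G) (S : ι → Subrepresentation ρ) : Prop :=
  ContainsAll ((resSum H S).tprod (resSum H S))

end Pool.Agent.P.MP_5e2a31_al
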