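import Pool.Agent.P.MP_5e2a31_al.Defs

namespace Pool.Agent.P.MP_5e2a31_al

/-- The staircase diagram with rows of lengths `k, k - 1, …, 1`: its cells are the pairs `(i, j)`
with `i + j < k`. -/
def staircase (k : ℕ) : YoungDiagram where
  cells := (Finset.range k ×ˢ Finset.range k).filter fun p => p.1 + p.2 < k
  isLowerSet := by
    rintro ⟨i, j⟩ ⟨i', j'⟩ ⟨h1, h2⟩ h
    simp only [Finset.coe_filter, Finset.mem_product, Finset.mem_range, Set.mem_ofPred_eq] at h ⊢
    simp only at h1 h2
    omega

/-- The symmetric group `S_n`, the Weyl group of type `A_{n-1}`, as the group of signed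
permutations without sign changes. -/
def weylA (n : ℕ) : Subgroup (HypOct n) :=
  (SemidirectProduct.inr : Equiv.Perm (Fin n) →* HypOct n).range

end Pool.Agent.P.MP_5e2a31_al
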