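import Pool.Agent.P.MP_5e2a31_al.MainS
import Pool.Agent.P.MP_5e2a31_al.Defs

set_option maxHeartbeats 400000
set_option linter.unusedSectionVars false

namespace Pool.Agent.P.MP_5e2a31_al

open Finset Equiv

/-- `β` is the transpose of the complement of `α` in the `m × c` rectangle. -/
def Compl (m c : ℕ) (α β : YoungDiagram) : Prop :=
  (∀ i j, (i, j) ∈ α → i < m ∧ j < c) ∧ (∀ j i, (j, i) ∈ β → j < c ∧ i < m) ∧
    ∀ i < m, ∀ j < c, ((i, j) ∈ α ↔ (c - 1 - j, m - 1 - i) ∉ β)

theorem Compl.ne {m c : ℕ} {α β : YoungDiagram} (h : Compl m c α β) {i j : ℕ} (hi : i < m)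
    (hj : j < c) : α.rowLen i + (m - 1 - i) ≠ β.rowLen j + (c - 1 - j) := by
  have := h.2.2 i hi (c - 1 - j) (by omega)
  rw [show c - 1 - (c - 1 - j) = j by omega, YoungDiagram.mem_iff_lt_rowLen,
    YoungDiagram.mem_iff_lt_rowLen] at this
  omega

theorem Compl.symbol {m c : ℕ} {α β : YoungDiagram} (h : Compl m c α β) :
    (Multiset.range m).map (fun i => α.rowLen i + (m - 1 - i)) +
      (Multiset.range c).map (fun j => β.rowLen j + (c - 1 - j)) = Multiset.range (m + c) := by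
  refine Multiset.eq_of_le_of_card_le ((Multiset.le_iff_subset ?_).2 ?_) (by simp)
  · rw [Multiset.nodup_add]
    refine ⟨(Multiset.nodup_range m).map_on ?_, (Multiset.nodup_range c).map_on ?_, ?_⟩
    · intro i hi j hj hij
      rw [Multiset.mem_range] at hi hj
      rcases lt_trichotomy i j with h1 | h1 | h1
      · have := α.rowLen_anti i j h1.le; omega
      · exact h1
      · have := α.rowLen_anti j i h1.le; omega
    · intro i hi j hj hij
      rw [Multiset.mem_range] at hi hj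
      rcases lt_trichotomy i j with h1 | h1 | h1
      · have := β.rowLen_anti i j h1.le; omega
      · exact h1
      · have := β.rowLen_anti j i h1.le; omega
    · rw [Multiset.disjoint_left]
      intro a h1 h2
      simp only [Multiset.mem_map, Multiset.mem_range] at h1 h2
      obtain ⟨i, hi, rfl⟩ := h1
      obtain ⟨j, hj, h2⟩ := h2
      exact h.ne hi hj h2.symm
  · intro a ha
    simp only [Multiset.mem_add, Multiset.mem_map, Multiset.mem_range] at ha ⊢
    rcases ha with ⟨i, hi, rfl⟩ | ⟨j, hj, rfl⟩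
    · have := h.1 i c
      rw [YoungDiagram.mem_iff_lt_rowLen] at this
      omega
    · have := h.2.1 j m
      rw [YoungDiagram.mem_iff_lt_rowLen] at this
      omega

theorem IsBitableau.card {n : ℕ} {α β : YoungDiagram} {τ : Fin n → (ℕ × ℕ) ⊕ (ℕ × ℕ)}
    (h : IsBitableau α β τ) : α.card + β.card = n := by
  have : univ.image τ = α.cells.disjSum β.cells := by
    ext c
    simp only [mem_image, mem_univ, true_and, h.2 c]
    rcases c with c | c <;> simp
  have h2 := congrArg Finset.card this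
  rw [card_image_of_injective _ h.1, card_disjSum] at h2
  simpa using h2.symm

/-- The Young diagram with `m` rows of lengths `μ`. -/
def ydOf (m : ℕ) (μ : ℕ → ℕ) (hμ : Antitone μ) : YoungDiagram where
  cells := (range m ×ˢ range (μ 0)).filter fun p => p.2 < μ p.1
  isLowerSet := by
    rintro ⟨i, j⟩ ⟨i', j'⟩ ⟨h1, h2⟩ h
    simp only [coe_filter, mem_product, mem_range, Set.mem_ofPred_eq] at h ⊢
    simp only at h1 h2
    have := hμ h1
    omega

theorem mem_ydOf {m : ℕ} {μ : ℕ → ℕ} {hμ : Antitone μ} {i j : ℕ} :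
    (i, j) ∈ ydOf m μ hμ ↔ i < m ∧ j < μ i := by
  rw [← YoungDiagram.mem_cells]
  simp only [ydOf, mem_filter, mem_product, mem_range]
  have := hμ (Nat.zero_le i)
  omega

variable {X : Type} [Fintype X] [DecidableEq X]

theorem exists_coords (S : Finset X) (r : X → ℕ) : ∃ cl : X → ℕ,
    (∀ x ∈ S, ∀ y ∈ S, r x = r y → cl x = cl y → x = y) ∧
    (∀ x ∈ S, cl x < (S.filter fun y => r y = r x).card) ∧
    ∀ i j, j < (S.filter fun y => r y = i).card → ∃ x ∈ S, r x = i ∧ cl x = j := by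
  let e := fun i => (S.filter fun y => r y = i).equivFin
  let F : ℕ → X → ℕ := fun i x =>
    if h : x ∈ S.filter fun y => r y = i then (e i ⟨x, h⟩ : ℕ) else 0
  refine ⟨fun x => F (r x) x, ?_, ?_, ?_⟩
  · intro x hx y hy h1 h2
    have hx' : x ∈ S.filter fun z => r z = r y := mem_filter.2 ⟨hx, h1⟩
    have hy' : y ∈ S.filter fun z => r z = r y := mem_filter.2 ⟨hy, rfl⟩
    simp only [h1, F, dif_pos hx', dif_pos hy'] at h2
    simpa using (e (r y)).injective (Fin.ext h2)
  · intro x hx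
    have hx' : x ∈ S.filter fun z => r z = r x := mem_filter.2 ⟨hx, rfl⟩
    simp only [F, dif_pos hx']
    exact Fin.is_lt _
  · intro i j hj
    obtain ⟨⟨x, hx⟩, h⟩ := (e i).surjective ⟨j, hj⟩
    have hx' := mem_filter.1 hx
    refine ⟨x, hx'.1, hx'.2, ?_⟩
    simp only [hx'.2, F, dif_pos hx, h]

theorem sum_swap_label {m : ℕ} (A : Finset X) (f : X → Fin m) {i j : Fin m} (hij : i ≠ j) :
    ∑ x ∈ A, (swap i j (f x) : ℕ) + (i * (A.filter fun x => f x = i).card +
        j * (A.filter fun x => f x = j).card) =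
      ∑ x ∈ A, (f x : ℕ) + (j * (A.filter fun x => f x = i).card +
        i * (A.filter fun x => f x = j).card) := by
  simp only [card_filter, mul_sum, ← sum_add_distrib]
  refine sum_congr rfl fun x _ => ?_
  rw [swap_apply_def]
  by_cases h1 : f x = i
  · simp [h1, hij, add_comm]
  · by_cases h2 : f x = j
    · simp [h2, hij.symm, add_comm]
    · simp [h1, h2]

theorem nonvanishing {m c : ℕ} {z : (X → Fin m) → ℂ} (hz : z ∈ Zs X m c) (hz0 : z ≠ 0)
    (A : Finset X) : ∃ (α β : YoungDiagram) (τ : X → (ℕ × ℕ) ⊕ (ℕ × ℕ)), Compl m c α β ∧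
      (Function.Injective τ ∧
        ∀ p, (∃ i, τ i = p) ↔ Sum.elim (fun x => x ∈ α) (fun x => x ∈ β) p) ∧
      (∀ x, (τ x).isRight ↔ x ∈ Aᶜ) ∧ ∃ l : Module.Dual ℂ ((X → Fin m) → ℂ),
        Sym (rD X m) (sg Aᶜ) univ (fun x => Sum.map Prod.fst Prod.fst (τ x))
          (Sym (rD X m) (fun g => sgn' g * sg Aᶜ g) univ
            (fun x => Sum.map Prod.snd Prod.snd (τ x)) l) ∉ Kz A z := by
  classical
  obtain ⟨⟨s, h₀, f₀⟩, hmem, hmin0⟩ := exists_min_image
    (univ.filter fun p : Perm (Fin m) × Perm X × (X → Fin m) =>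
      Stab A p.2.1 ∧ rF X m p.2.1 z (p.1 ∘ p.2.2) ≠ 0) (fun p => ∑ x ∈ A, (p.2.2 x : ℕ)) (by
      obtain ⟨f, hf⟩ := Function.ne_iff.1 hz0
      exact ⟨(1, 1, f), mem_filter.2 ⟨mem_univ _, Stab.one _, by simpa using hf⟩⟩)
  simp only [mem_filter, mem_univ, true_and] at hmem hmin0
  set z₁ := rF X m h₀ z with hz₁
  have hz₁m : z₁ ∈ Zs X m c := rF_mem_Zs h₀ hz
  have hmin : ∀ h, Stab A h → ∀ f : X → Fin m, rF X m h z₁ (s ∘ f) ≠ 0 →
      ∑ x ∈ A, (f₀ x : ℕ) ≤ ∑ x ∈ A, (f x : ℕ) := by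
    intro h hh f hf
    rw [hz₁, ← rho_mul_apply] at hf
    exact hmin0 (s, h * h₀, f) ⟨hh.mul hmem.1, hf⟩
  set μ : ℕ → ℕ := fun i => (A.filter fun y => (f₀ y : ℕ) = i).card with hμ
  have hμ0 : ∀ i, m ≤ i → μ i = 0 := by
    intro i hi
    simp only [hμ, card_eq_zero, filter_eq_empty_iff]
    intro y _
    have := (f₀ y).2
    omega
  have hanti : Antitone μ := by
    intro i j hij
    by_cases hj : j < m
    · rcases hij.eq_or_lt with rfl | hij
      · exact le_rfl
      have hi : i < m := hij.trans hj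
      have h1 := hmin0 (s * swap ⟨i, hi⟩ ⟨j, hj⟩, h₀, fun x => swap ⟨i, hi⟩ ⟨j, hj⟩ (f₀ x))
        ⟨hmem.1, by
          convert hmem.2 using 2
          ext x
          simp⟩
      have h2 := sum_swap_label A f₀ (i := ⟨i, hi⟩) (j := ⟨j, hj⟩) (by simpa using hij.ne)
      simp only [Fin.ext_iff] at h1 h2
      by_contra h3
      have h4 : μ i < μ j := not_le.1 h3
      simp only [hμ] at h4
      nlinarith
    · rw [hμ0 j (by omega)]
      exact Nat.zero_le _
  have hcont : ∀ i < m, μ i + (Aᶜ.filter fun y => (f₀ y : ℕ) = i).card = c := by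
    intro i hi
    rw [← hz₁m.2 _ hmem.2 (s ⟨i, hi⟩), ← card_union_of_disjoint
      (disjoint_filter_filter disjoint_compl_right), ← filter_union, union_compl]
    congr 1
    ext y
    simp [Fin.ext_iff]
  set κ : ℕ → ℕ := fun i => c - μ (m - 1 - i) with hκ
  have hκanti : Antitone κ := by
    intro i j hij
    have := hanti (show m - 1 - j ≤ m - 1 - i by omega)
    simp only [hκ]
    omega
  have hκc : ∀ i < m, (Aᶜ.filter fun y => m - 1 - (f₀ y : ℕ) = i).card = κ i := by
    intro i hi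
    have := hcont (m - 1 - i) (by omega)
    have e : (Aᶜ.filter fun y => m - 1 - (f₀ y : ℕ) = i) =
        Aᶜ.filter fun y => (f₀ y : ℕ) = m - 1 - i := by
      refine filter_congr fun y _ => ?_
      have := (f₀ y).2
      omega
    simp only [hκ]
    rw [e]
    omega
  obtain ⟨ca, a1, a2, a3⟩ := exists_coords A fun x => (f₀ x : ℕ)
  obtain ⟨cb, b1, b2, b3⟩ := exists_coords Aᶜ fun x => m - 1 - (f₀ x : ℕ)
  have hA := hook_A hz₁m hmin (r := fun x => (f₀ x : ℕ)) (cl := ca) (fun _ _ => rfl) a1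
    (fun x hx i j hi hj => a3 i j (by
      have := a2 x hx
      have := hanti hi
      simp only [hμ] at this
      omega))
  have hB := hook_B hz₁m hmin (r := fun x => m - 1 - (f₀ x : ℕ)) (cl := cb) (fun _ _ => rfl) b1
    (fun x hx i j hi hj => b3 i j (by
      have h1 := b2 x hx
      have := (f₀ x).2
      have := hκanti hi
      rw [hκc _ (by omega)] at h1 ⊢
      omega))
  set τ : X → (ℕ × ℕ) ⊕ (ℕ × ℕ) := fun x =>
    if x ∈ A then Sum.inl (f₀ x, ca x) else Sum.inr (cb x, m - 1 - f₀ x) with hτ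
  have τA : ∀ x ∈ A, τ x = Sum.inl ((f₀ x : ℕ), ca x) := fun x hx => if_pos hx
  have τB : ∀ x ∈ Aᶜ, τ x = Sum.inr (cb x, m - 1 - (f₀ x : ℕ)) := fun x hx =>
    if_neg (mem_compl.1 hx)
  refine ⟨ydOf m μ hanti, (ydOf m κ hκanti).transpose, τ, ⟨?_, ?_, ?_⟩, ⟨?_, ?_⟩, ?_,
    ev (s ∘ f₀), ?_⟩
  · intro i j h
    rw [mem_ydOf] at h
    have := hcont i h.1
    omega
  · intro j i h
    rw [YoungDiagram.mem_transpose, Prod.swap_prod_mk, mem_ydOf] at h
    simp only [hκ] at h
    omega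
  · intro i hi j hj
    rw [YoungDiagram.mem_transpose, Prod.swap_prod_mk, mem_ydOf, mem_ydOf]
    simp only [hκ]
    rw [show m - 1 - (m - 1 - i) = i by omega]
    omega
  · intro x y h
    by_cases hx : x ∈ A <;> by_cases hy : y ∈ A
    · rw [τA x hx, τA y hy] at h
      simp only [Sum.inl.injEq, Prod.mk.injEq] at h
      exact a1 x hx y hy h.1 h.2
    · rw [τA x hx, τB y (mem_compl.2 hy)] at h
      simp at h
    · rw [τA y hy, τB x (mem_compl.2 hx)] at h
      simp at h
    · rw [τB x (mem_compl.2 hx), τB y (mem_compl.2 hy)] at h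
      simp only [Sum.inr.injEq, Prod.mk.injEq] at h
      exact b1 x (mem_compl.2 hx) y (mem_compl.2 hy) h.2 h.1
  · rintro (⟨i, j⟩ | ⟨j, i⟩)
    · simp only [Sum.elim_inl, mem_ydOf]
      constructor
      · rintro ⟨x, hx⟩
        by_cases hx' : x ∈ A
        · rw [τA x hx'] at hx
          simp only [Sum.inl.injEq, Prod.mk.injEq] at hx
          rw [← hx.1, ← hx.2]
          exact ⟨(f₀ x).2, a2 x hx'⟩
        · rw [τB x (mem_compl.2 hx')] at hx
          simp at hx
      · intro h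
        obtain ⟨x, hx, h1, h2⟩ := a3 i j h.2
        exact ⟨x, by rw [τA x hx, h1, h2]⟩
    · simp only [Sum.elim_inr, YoungDiagram.mem_transpose, Prod.swap_prod_mk, mem_ydOf]
      constructor
      · rintro ⟨x, hx⟩
        by_cases hx' : x ∈ A
        · rw [τA x hx'] at hx
          simp at hx
        · rw [τB x (mem_compl.2 hx')] at hx
          simp only [Sum.inr.injEq, Prod.mk.injEq] at hx
          have h1 := b2 x (mem_compl.2 hx')
          have := (f₀ x).2
          rw [hκc _ (by omega)] at h1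
          rw [← hx.1, ← hx.2]
          exact ⟨by omega, h1⟩
      · intro h
        obtain ⟨x, hx, h1, h2⟩ := b3 i j (by rw [hκc _ h.1]; exact h.2)
        exact ⟨x, by rw [τB x hx, h1, h2]⟩
  · intro x
    by_cases hx : x ∈ A
    · simp [τA x hx, hx]
    · simp [τB x (mem_compl.2 hx), hx]
  intro hK
  have side : ∀ (g : (ℕ × ℕ) → ℕ) (x y : X), Sum.map g g (τ x) = Sum.map g g (τ y) →
      (x ∈ Aᶜ ↔ y ∈ Aᶜ) := by
    intro g x y h
    by_cases hx : x ∈ A <;> by_cases hy : y ∈ A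
    · simp [hx, hy]
    · rw [τA x hx, τB y (mem_compl.2 hy)] at h
      simp at h
    · rw [τA y hy, τB x (mem_compl.2 hx)] at h
      simp at h
    · simp [hx, hy]
  have e1 : Sym (rD X m) (sg Aᶜ) univ (fun x => Sum.map Prod.fst Prod.fst (τ x)) =
      Sym (rD X m) one' A (fun x => (f₀ x : ℕ)) * Sym (rD X m) sgn' Aᶜ cb := by
    rw [← union_compl A, Sym_union disjoint_compl_right ?_ (mulOn_sg (side _))]
    · congr 1
      · refine Sym_congr (fun x hx y hy => by simp [τA x hx, τA y hy]) fun g hg => ?_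
        exact sg_of_supp' (by simpa using supp_of_mem_Yg hg)
      · exact Sym_congr (fun x hx y hy => by simp [τB x hx, τB y hy])
          fun g hg => sg_of_supp (supp_of_mem_Yg hg)
    · intro x hx y hy h
      exact mem_compl.1 ((side _ x y h).2 hy) hx
  have e2 : Sym (rD X m) (fun g => sgn' g * sg Aᶜ g) univ
        (fun x => Sum.map Prod.snd Prod.snd (τ x)) =
      Sym (rD X m) sgn' A ca * Sym (rD X m) one' Aᶜ (fun x => m - 1 - (f₀ x : ℕ)) := by
    rw [← union_compl A, Sym_union disjoint_compl_right ?_ ?_]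
    · congr 1
      · refine Sym_congr (fun x hx y hy => by simp [τA x hx, τA y hy]) fun g hg => ?_
        rw [sg_of_supp' (by simpa using supp_of_mem_Yg hg), mul_one]
      · refine Sym_congr (fun x hx y hy => by simp [τB x hx, τB y hy]) fun g hg => ?_
        rw [sg_of_supp (supp_of_mem_Yg hg), sgn'_mul_self, one'_apply]
    · intro x hx y hy h
      exact mem_compl.1 ((side _ x y h).2 hy) hx
    · refine ⟨by simp [sg_one], fun g hg h hh => ?_⟩
      simp only
      rw [sgn'_mul, (mulOn_sg (side _)).2 g hg h hh]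
      ring
  have hK1 : ∀ l ∈ Kz A z, l ∈ Kz A z₁ := by
    intro l hl h hh
    rw [hz₁, ← rho_mul_apply]
    exact hl _ (hh.mul hmem.1)
  have e3 : Sym (rD X m) one' Aᶜ (fun x => m - 1 - (f₀ x : ℕ)) (ev (s ∘ f₀)) =
      ((Yg Aᶜ fun x => m - 1 - (f₀ x : ℕ)).card : ℂ) • ev (s ∘ f₀) :=
    Sym_apply_of_swaps (mulOn_one _ _) fun x _ y _ h _ => by
      have := (f₀ x).2
      have := (f₀ y).2
      rw [one'_apply, one_smul, row_inv (Fin.ext (by omega))]
  have h1 := hK1 _ hK
  rw [e1, e2, Module.End.mul_apply (Sym (rD X m) sgn' A ca), e3, map_smul, map_smul,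
    Submodule.smul_mem_iff _ (card_Yg_ne_zero _ _), Sym_commute_Sym disjoint_compl_right,
    Module.End.mul_apply] at h1
  have hKB : ∀ g, Supp Aᶜ g → ∀ v ∈ Kz A z₁, rD X m g v ∈ Kz A z₁ :=
    fun g hg => Kz_inv hg.stab'
  have h2 := Sym_mem (χ := one') (l := fun x => m - 1 - (f₀ x : ℕ)) hKB Subset.rfl h1
  have h3 := Sym_mem (χ := one') (l := fun x => m - 1 - (f₀ x : ℕ)) hKB Subset.rfl
    (Sym_mem (χ := sgn') (l := cb) hKB Subset.rfl hA)
  have h4 := (Kz A z₁).sub_mem ((Kz A z₁).sub_mem h2 h3) (Submodule.smul_mem _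
    (∏ x ∈ A, (hook A (fun x => (f₀ x : ℕ)) ca x : ℂ)) hB)
  have h5 : ((∏ x ∈ A, (hook A (fun x => (f₀ x : ℕ)) ca x : ℂ)) *
      ∏ x ∈ Aᶜ, (hook Aᶜ (fun x => m - 1 - (f₀ x : ℕ)) cb x : ℂ)) • ev (s ∘ f₀) ∈ Kz A z₁ := by
    convert h4 using 1
    simp only [map_sub, map_smul]
    module
  rw [Submodule.smul_mem_iff _ (mul_ne_zero
    (prod_ne_zero_iff.2 fun x hx => by exact_mod_cast (hook_pos _ _ hx).ne')
    (prod_ne_zero_iff.2 fun x hx => by exact_mod_cast (hook_pos _ _ hx).ne'))] at h5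
  have h6 := h5 1 (Stab.one _)
  rw [map_one] at h6
  exact hmem.2 h6

end Pool.Agent.P.MP_5e2a31_al
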