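import Pool.Agent.P.MP_5e2a31_al.Coef

set_option maxHeartbeats 400000
set_option linter.unusedSectionVars false

namespace Pool.Agent.P.MP_5e2a31_al

open Finset Equiv SemidirectProduct
open scoped TensorProduct

theorem average_eq_zero {G V Y : Type*} [Group G] [Fintype G] [AddCommGroup V] [Module ℂ V]
    [AddCommMonoid Y] [Module ℂ Y] (U : Representation ℂ G V) (σ : Representation ℂ G Y)
    (h : ∀ f : U.IntertwiningMap σ, f = 0) (v : V) (l : Module.Dual ℂ V) (y : Y)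
    (L : Module.Dual ℂ Y) : ∑ g, L (σ g y) * l (U g⁻¹ v) = 0 := by
  let T : V →ₗ[ℂ] Y := ∑ g, (l ∘ₗ U g⁻¹).smulRight (σ g y)
  have hT : ∀ v, T v = ∑ g, l (U g⁻¹ v) • σ g y := by
    intro v
    simp [T, LinearMap.sum_apply]
  have h1 := h (T.intertwiningMap_of_isIntertwiningMap U σ fun a v => by
    rw [hT, hT, map_sum, ← Equiv.sum_comp (Equiv.mulLeft a)]
    refine sum_congr rfl fun g _ => ?_
    rw [map_smul, Equiv.coe_mulLeft, ← Module.End.mul_apply, ← map_mul, map_mul σ,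
      Module.End.mul_apply]
    simp)
  have h2 : T v = 0 := congr($h1 v)
  have h3 := congrArg L h2
  rw [hT, map_sum, map_zero] at h3
  rw [← h3]
  refine sum_congr rfl fun g _ => ?_
  rw [map_smul, smul_eq_mul, mul_comm]

variable {n : ℕ}

/-- Exchange of the two diagrams. -/
noncomputable def sw (n : ℕ) : ((Fin n → ℕ ⊕ ℕ) → ℂ) →ₗ[ℂ] ((Fin n → ℕ ⊕ ℕ) → ℂ) :=
  LinearMap.funLeft ℂ ℂ fun f => Sum.swap ∘ f

theorem sw_apply (z : (Fin n → ℕ ⊕ ℕ) → ℂ) (f : Fin n → ℕ ⊕ ℕ) : sw n z f = z (Sum.swap ∘ f) := rfl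

theorem sw_tabRep (w : HypOct n) (z : (Fin n → ℕ ⊕ ℕ) → ℂ) :
    sw n (tabRep n w z) = (∏ i, ((w.left i : ℤ) : ℂ)) • tabRep n w (sw n z) := by
  ext f
  rw [sw_apply, Pi.smul_apply, tabRep_apply, tabRep_apply, sw_apply, smul_eq_mul, ← mul_assoc]
  congr 1
  unfold signAt
  rw [← prod_mul_distrib]
  refine prod_congr rfl fun i _ => ?_
  rcases Int.units_eq_one_or (w.left i) with h | h <;> rcases h' : f i with a | a <;> simp [h, h']

theorem sw_polytabloid (τ : Fin n → (ℕ × ℕ) ⊕ (ℕ × ℕ)) :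
    sw n (polytabloid τ) = polytabloid (Sum.swap ∘ τ) := by
  ext f
  rw [sw_apply, polytabloid_apply, polytabloid_apply]
  refine sum_congr (Yg_congr fun x _ y _ => ?_) fun c _ => ?_
  · rcases h1 : τ x with a | a <;> rcases h2 : τ y with b | b <;> simp [h1, h2]
  · congr 1
    simp only [funext_iff, Function.comp_apply, eq_iff_iff]
    refine forall_congr' fun x => ?_
    rcases h1 : τ x with a | a <;> rcases h2 : f (c x) with b | b <;> simp

theorem IsBitableau.swap {α β : YoungDiagram} {τ : Fin n → (ℕ × ℕ) ⊕ (ℕ × ℕ)}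
    (h : IsBitableau α β τ) : IsBitableau β α (Sum.swap ∘ τ) := by
  refine ⟨Sum.swap_leftInverse.injective.comp h.1, fun c => ?_⟩
  have := h.2 c.swap
  rcases c with c | c
  · simp only [Sum.swap_inl, Sum.elim_inr, Sum.elim_inl] at this ⊢
    rw [← this]
    refine exists_congr fun i => ?_
    rcases h1 : τ i with a | a <;> simp [h1]
  · simp only [Sum.swap_inr, Sum.elim_inr, Sum.elim_inl] at this ⊢
    rw [← this]
    refine exists_congr fun i => ?_
    rcases h1 : τ i with a | a <;> simp [h1]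

theorem sw_mem {α β : YoungDiagram} {z : (Fin n → ℕ ⊕ ℕ) → ℂ}
    (hz : z ∈ (specht n α β).toSubmodule) : sw n z ∈ (specht n β α).toSubmodule := by
  induction hz using Submodule.span_induction with
  | mem x hx =>
    obtain ⟨w, τ, h, rfl⟩ := hx
    rw [sw_tabRep, sw_polytabloid]
    exact Submodule.smul_mem _ _ (Submodule.subset_span ⟨w, _, h.swap, rfl⟩)
  | zero => simp
  | add x y _ _ hx hy => rw [map_add]; exact Submodule.add_mem _ hx hy
  | smul a x _ hx => rw [map_smul]; exact Submodule.smul_mem _ _ hx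

theorem sw_sw (z : (Fin n → ℕ ⊕ ℕ) → ℂ) : sw n (sw n z) = z := by
  ext f
  rw [sw_apply, sw_apply]
  congr 1
  ext x
  simp

theorem gen_family {d k : ℕ} (hk : 1 ≤ k) {φ : HypOct (k * (k + d)) → ℂ}
    (hφ : φ ∈ gens (k * (k + d)) (k + d) k) :
    ∃ p : Family d k, ∃ z ∈ (specht (k * (k + d)) p.1.1 p.1.2).toSubmodule,
      ∃ l : Module.Dual ℂ ((Fin (k * (k + d)) → ℕ ⊕ ℕ) → ℂ),
        ∀ w ∈ weyl d (k * (k + d)), φ w = l (tabRep _ w z) := by
  obtain ⟨α, β, h1, h2, z, hz, l, rfl⟩ := hφ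
  have c1 : α.colLen 0 ≤ k + d := by
    have := h1.1 (k + d) 0
    rw [YoungDiagram.mem_iff_lt_colLen] at this
    omega
  have c2 : β.colLen 0 ≤ k := by
    have := h1.2.1 k 0
    rw [YoungDiagram.mem_iff_lt_colLen] at this
    omega
  have c3 : symbolEntries d k α β = Multiset.range (2 * k + d) := by
    rw [show 2 * k + d = k + d + k by ring]
    exact h1.symbol
  by_cases h : d = 0 → β.rowLen 0 < α.rowLen 0
  · exact ⟨⟨(α, β), h2, c1, c2, c3, h⟩, z, hz, l, fun _ _ => rfl⟩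
  · push Not at h
    obtain ⟨rfl, h⟩ := h
    have c4 := h1.ne (i := 0) (j := 0) (by omega) (by omega)
    refine ⟨⟨(β, α), by rw [← h2, add_comm], c2, c1, ?_, fun _ => ?_⟩, sw _ z, sw_mem hz,
      l ∘ₗ sw _, fun w hw => ?_⟩
    · rw [← c3]
      exact add_comm _ _
    · simp only [add_zero] at c4 ⊢
      omega
    · have h3 : ∏ i, ((w.left i : ℤ) : ℂ) = 1 := by
        have := congrArg (fun u : ℤˣ => ((u : ℤ) : ℂ)) (hw rfl)
        simpa using this
      rw [LinearMap.comp_apply, sw_tabRep, sw_sw, h3, one_smul]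

/-- The sum `ρ_F` of the members of the family, as a representation of the Weyl group. -/
noncomputable abbrev rhoF (d k : ℕ) :=
  resSum (weyl d (k * (k + d))) fun p : Family d k => specht (k * (k + d)) p.1.1 p.1.2

theorem gen_rho {d k : ℕ} (hk : 1 ≤ k) {φ : HypOct (k * (k + d)) → ℂ}
    (hφ : φ ∈ gens (k * (k + d)) (k + d) k) :
    ∃ x, ∃ L : Module.Dual ℂ _, ∀ w : weyl d (k * (k + d)), φ w = L (rhoF d k w x) := by
  classical
  obtain ⟨p, z, hz, l, h⟩ := gen_family hk hφ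
  refine ⟨DirectSum.lof ℂ _ _ p ⟨z, hz⟩,
    l ∘ₗ (Submodule.subtype _) ∘ₗ DirectSum.component ℂ _ _ p, fun w => ?_⟩
  rw [h w w.2]
  simp [rhoF, resSum, Subrepresentation.toRepresentation]

/-- The rectangle coordinates on `Fin (c * m)`. -/
def rect (m c : ℕ) (h1 : c ≤ m) (h2 : m ≤ c + 1) : Rect (Fin (c * m)) m c where
  I x := (finProdFinEquiv.symm x).2
  J x := (finProdFinEquiv.symm x).1
  hI x := Fin.is_lt _
  hJ x := Fin.is_lt _
  inj x y h h' := finProdFinEquiv.symm.injective (Prod.ext (Fin.ext h') (Fin.ext h))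
  surj i j hi hj := ⟨finProdFinEquiv (⟨j, hj⟩, ⟨i, hi⟩), by
    rw [Equiv.symm_apply_apply], by rw [Equiv.symm_apply_apply]⟩
  h1 := h1
  h2 := h2

theorem main (d k : ℕ) (hd : d = 0 ∨ d = 1) (hk : 1 ≤ k)
    (V : Type) [AddCommGroup V] [Module ℂ V] [Nontrivial V]
    (U : Representation ℂ (weyl d (k * (k + d))) V) :
    ∃ f : U.IntertwiningMap ((rhoF d k).tprod (rhoF d k)), f ≠ 0 := by
  classical
  by_contra hne
  push Not at hne
  have : Finite (HypOct (k * (k + d))) := Finite.of_equiv _ SemidirectProduct.equivProd.symm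
  have : Fintype (weyl d (k * (k + d))) := Fintype.ofFinite _
  obtain ⟨v, hv⟩ := exists_ne (0 : V)
  obtain ⟨l, hl⟩ := Module.Projective.exists_dual_ne_zero ℂ hv
  let Ξ : (HypOct (k * (k + d)) → ℂ) →ₗ[ℂ] ℂ :=
    { toFun := fun φ => ∑ g : weyl d (k * (k + d)), φ g * l (U g⁻¹ v)
      map_add' := fun a b => by simp [add_mul, sum_add_distrib]
      map_smul' := fun t a => by simp [mul_sum, mul_assoc] }
  have h1 : CF (k * (k + d)) (k + d) k * CF (k * (k + d)) (k + d) k ≤ LinearMap.ker Ξ := by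
    unfold CF
    rw [Submodule.span_mul_span, Submodule.span_le]
    rintro _ ⟨φ, hφ, ψ, hψ, rfl⟩
    obtain ⟨x, L, hx⟩ := gen_rho hk hφ
    obtain ⟨y, L', hy⟩ := gen_rho hk hψ
    have := average_eq_zero U ((rhoF d k).tprod (rhoF d k)) hne v l (x ⊗ₜ[ℂ] y)
      (TensorProduct.lift ((LinearMap.mul ℂ ℂ).compl₁₂ L L'))
    rw [SetLike.mem_coe, LinearMap.mem_ker, ← this]
    refine sum_congr rfl fun g _ => ?_
    simp [hx, hy]
  have h2 := h1 (delta_mem (rect (k + d) k (by omega) (by omega)))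
  rw [LinearMap.mem_ker] at h2
  apply hl
  rw [← h2]
  change _ = ∑ g : weyl d (k * (k + d)), (Pi.single 1 1 : HypOct (k * (k + d)) → ℂ) g.1 * l (U g⁻¹ v)
  rw [sum_eq_single 1]
  · simp
  · intro g _ hg
    have : g.1 ≠ 1 := fun h => hg (Subtype.ext h)
    rw [Pi.single_eq_of_ne this, zero_mul]
  · simp

end Pool.Agent.P.MP_5e2a31_al
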