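import Pool.Agent.P.MP_5e2a31_al.Sym

set_option maxHeartbeats 400000
set_option linter.unusedSectionVars false

namespace Pool.Agent.P.MP_5e2a31_al

open Finset Equiv

variable {X : Type} [Fintype X] [DecidableEq X]
variable {E : Type*} [AddCommGroup E] [Module ℂ E] {ρ : Representation ℂ (Perm X) E}

theorem rho_mul_apply (g h : Perm X) (v : E) : ρ (g * h) v = ρ g (ρ h v) := by
  rw [map_mul]; rfl

theorem swap_conj {x y t : X} (hx : x ≠ y) (ht : x ≠ t) :
    swap y x = swap y t * swap t x * swap y t := by
  have h := swap_apply_apply (swap y t) t x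
  rw [swap_apply_right, swap_apply_of_ne_of_ne hx ht, swap_inv] at h
  exact h

/-- Hook length of a cell. -/
def hook (S : Finset X) (r cl : X → ℕ) (x : X) : ℕ :=
  (S.filter fun y => r y = r x ∧ cl x ≤ cl y).card +
    (S.filter fun y => cl y = cl x ∧ r x < r y).card

theorem sum_swap_commute {D U C : Finset X} {cl : X → ℕ} {j : ℕ} (hd : Disjoint D U)
    (hC : ∀ x, x ∈ C ↔ x ∈ D ∧ cl x = j) (u : E) :
    ∑ x ∈ C, ∑ y ∈ U, ρ (swap y x) (Sym ρ sgn' D cl u) =
      Sym ρ sgn' D cl (∑ x ∈ C, ∑ y ∈ U, ρ (swap y x) u) := by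
  unfold Sym
  simp only [LinearMap.sum_apply, LinearMap.smul_apply, map_sum, map_smul]
  rw [sum_comm, sum_congr rfl fun y _ => sum_comm, sum_comm]
  conv_rhs => rw [sum_comm, sum_congr rfl fun y _ => sum_comm, sum_comm]
  refine sum_congr rfl fun c hc => sum_congr rfl fun y hy => ?_
  have hc' := mem_Yg.1 hc
  have hy' : c y = y := hc'.1 y (disjoint_right.1 hd hy)
  symm
  refine sum_bij' (fun x _ => c x) (fun x _ => c⁻¹ x) ?_ ?_ (by simp) (by simp) ?_
  · intro x hx
    rw [hC] at hx ⊢
    exact ⟨Supp.mem hc'.1 hx.1, (hc'.2 x).trans hx.2⟩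
  · intro x hx
    have hc'' := mem_Yg.1 (inv_mem_Yg hc)
    rw [hC] at hx ⊢
    exact ⟨Supp.mem hc''.1 hx.1, (hc''.2 x).trans hx.2⟩
  · intro x _
    rw [← rho_mul_apply, ← rho_mul_apply]
    congr 3
    have := swap_apply_apply c y x
    rw [hy'] at this
    rw [this]
    simp

theorem hook_step {K : Submodule ℂ E} {S S' T U C : Finset X} {r cl : X → ℕ} {u : E} {j : ℕ}
    {t : X} (hK : ∀ g, Supp S g → ∀ v ∈ K, ρ g v ∈ K) (hS' : S' ⊆ S) (hT : T ⊆ S) (hU : U ⊆ S)
    (hd : Disjoint (S' ∪ T) U) (ht : t ∈ U) (htj : cl t = j)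
    (hC : ∀ x, x ∈ C ↔ x ∈ S' ∪ T ∧ cl x = j)
    (hUr : ∀ y ∈ U, r y = r t)
    (row : ∀ x ∈ S, ∀ y ∈ S, r x = r y → ρ (swap x y) u = u)
    (rel : ∀ x ∈ C, u + (∑ y ∈ T, ρ (swap y x) u + ∑ y ∈ U, ρ (swap y x) u) ∈ K)
    (gar : ∀ x ∈ C, ∀ y ∈ T, ∃ z ∈ S', r z = r x ∧ cl z = cl y ∧ z ≠ y ∧ z ≠ x ∧ x ≠ y) :
    (U.card : ℂ) • Sym ρ one' S r (Sym ρ sgn' (insert t (S' ∪ T)) cl u) -
      ((U.card + C.card : ℕ) : ℂ) • Sym ρ one' S r (Sym ρ sgn' (S' ∪ T) cl u) ∈ K := by
  have htD : t ∉ S' ∪ T := disjoint_right.1 hd ht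
  have hDS : S' ∪ T ⊆ S := union_subset hS' hT
  set w := Sym ρ sgn' (S' ∪ T) cl u with hw
  have htC : t ∉ C := fun h => htD ((hC t).1 h).1
  have h1 : Sym ρ sgn' (insert t (S' ∪ T)) cl u = w - ∑ x ∈ C, ρ (swap t x) w := by
    rw [Sym_insert htD (mulOn_sgn _ _), Module.End.mul_apply, ← hw]
    have : (insert t (S' ∪ T)).filter (fun x => cl x = cl t) = insert t C := by
      ext x
      simp only [mem_filter, mem_insert, hC, htj]
      constructor
      · rintro ⟨h | h, h'⟩
        · exact Or.inl h
        · exact Or.inr ⟨h, h'⟩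
      · rintro (h | h)
        · exact ⟨Or.inl h, h ▸ htj⟩
        · exact ⟨Or.inr h.1, h.2⟩
    rw [this, sum_insert htC, LinearMap.add_apply, LinearMap.sum_apply, sub_eq_add_neg,
      ← sum_neg_distrib]
    congr 1
    · rw [swap_self]
      change (sgn' (1 : Perm X) • ρ 1) w = w
      simp
    · refine sum_congr rfl fun x hx => ?_
      rw [sgn'_swap (by rintro rfl; exact htC hx)]
      simp
  have h2 : ∀ x ∈ C, ∀ y ∈ U, Sym ρ one' S r (ρ (swap y x) w) =
      Sym ρ one' S r (ρ (swap t x) w) := by
    intro x hx y hy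
    have hxD := ((hC x).1 hx).1
    have hxy : x ≠ y := by rintro rfl; exact disjoint_right.1 hd hy hxD
    have hxt : x ≠ t := by rintro rfl; exact htD hxD
    have e1 : ρ (swap y t) w = w := by
      rw [hw, ← Module.End.mul_apply, ← Sym_commute (supp_swap hy ht) hd, Module.End.mul_apply,
        row y (hU hy) t (hU ht) (hUr y hy)]
    rw [swap_conj hxy hxt, rho_mul_apply, rho_mul_apply, e1,
      Sym_one_apply (swap_mem_Yg (hU hy) (hU ht) (hUr y hy))]
  have h3 : ∀ x ∈ C, w + Sym ρ sgn' (S' ∪ T) cl (∑ y ∈ U, ρ (swap y x) u) ∈ K := by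
    intro x hx
    have e1 := Sym_mem (χ := sgn') (l := cl) hK hDS (rel x hx)
    rw [map_add, map_add, map_sum _ _ T, sum_eq_zero, zero_add] at e1
    · exact e1
    intro y hy
    obtain ⟨z, hz, hzr, hzc, hzy, hzx, hxy⟩ := gar x hx y hy
    refine Sym_sgn_eq_zero (mem_union_left _ hz) (mem_union_right _ hy) hzc hzy ?_
    have e2 : swap z y * swap y x = swap y x * swap z x := by
      have := swap_apply_apply (swap y x) z x
      rw [swap_apply_right, swap_apply_of_ne_of_ne hzy hzx, swap_inv] at this
      rw [this]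
      simp [mul_assoc]
    rw [← rho_mul_apply, e2, rho_mul_apply, row z (hS' hz) x (hDS ((hC x).1 hx).1) hzr]
  have h4 : (C.card : ℂ) • w + ∑ x ∈ C, ∑ y ∈ U, ρ (swap y x) w ∈ K := by
    rw [hw, sum_swap_commute hd hC, map_sum, ← hw]
    have := K.sum_mem h3
    rwa [sum_add_distrib, sum_const, ← Nat.cast_smul_eq_nsmul ℂ] at this
  have h5 := Sym_mem (χ := one') (l := r) hK Subset.rfl h4
  rw [map_add, map_smul, map_sum, sum_congr rfl fun x hx => by
    rw [map_sum, sum_congr rfl (h2 x hx), sum_const, ← Nat.cast_smul_eq_nsmul ℂ], ← smul_sum] at h5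
  rw [h1, map_sub, map_sum]
  convert K.neg_mem h5 using 1
  push_cast
  module

theorem hook_lemma {K : Submodule ℂ E} {r cl : X → ℕ} {u : E} (n : ℕ) :
    ∀ (S : Finset X) (s : ℕ), S.card = n → (∀ g, Supp S g → ∀ v ∈ K, ρ g v ∈ K) →
      (∀ x ∈ S, ∀ y ∈ S, r x = r y → cl x = cl y → x = y) → (∀ x ∈ S, s ≤ r x) →
      (∀ x ∈ S, ∀ i j, s ≤ i → i ≤ r x → j ≤ cl x → ∃ y ∈ S, r y = i ∧ cl y = j) →
      (∀ x ∈ S, ∀ y ∈ S, r x = r y → ρ (swap x y) u = u) →
      (∀ x ∈ S, ∀ i, s ≤ i → i < r x →
        u + ∑ y ∈ S.filter (fun y => r y = i), ρ (swap y x) u ∈ K) →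
      Sym ρ one' S r (Sym ρ sgn' S cl u) - (∏ x ∈ S, (hook S r cl x : ℂ)) • u ∈ K := by
  induction n using Nat.strong_induction_on with
  | _ n ih =>
  intro S s hn hK inj hs low row rel
  rcases S.eq_empty_or_nonempty with rfl | ⟨x₀, hx₀⟩
  · simp [Sym_empty]
  set R := S.filter (fun y => r y = s) with hR
  set S' := S.filter (fun y => s < r y) with hS'
  have hS'S : S' ⊆ S := filter_subset _ _
  have hRS : R ⊆ S := filter_subset _ _
  have hun : S' ∪ R = S := by
    ext x
    simp only [hS', hR, mem_union, mem_filter]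
    constructor
    · rintro (h | h) <;> exact h.1
    · intro h
      have := hs x h
      by_cases h' : r x = s
      · exact Or.inr ⟨h, h'⟩
      · exact Or.inl ⟨h, by omega⟩
  have hdis : Disjoint S' R := by
    rw [disjoint_left]
    intro x h1 h2
    simp only [hS', hR, mem_filter] at h1 h2
    omega
  have hlt : S'.card < n := by
    obtain ⟨y, hy, hy1, -⟩ := low x₀ hx₀ s 0 le_rfl (hs _ hx₀) (Nat.zero_le _)
    rw [← hn]
    refine card_lt_card ⟨hS'S, fun h => ?_⟩
    have := h hy
    simp only [hS', mem_filter] at this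
    omega
  have IH := ih _ hlt S' (s + 1) rfl (fun g hg => hK g (hg.mono hS'S))
    (fun x hx y hy => inj x (hS'S hx) y (hS'S hy)) (fun x hx => (mem_filter.1 hx).2)
    (fun x hx i j h1 h2 h3 => by
      obtain ⟨y, hy, hy1, hy2⟩ := low x (hS'S hx) i j (by omega) h2 h3
      exact ⟨y, mem_filter.2 ⟨hy, by omega⟩, hy1, hy2⟩)
    (fun x hx y hy => row x (hS'S hx) y (hS'S hy))
    (fun x hx i h1 h2 => by
      have := rel x (hS'S hx) i (by omega) h2
      convert this using 3
      ext y
      simp only [hS', mem_filter]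
      constructor
      · exact fun h => ⟨h.1.1, h.2⟩
      · exact fun h => ⟨⟨h.1, by omega⟩, h.2⟩)
  set T : ℕ → Finset X := fun j => R.filter (fun y => cl y < j) with hT
  set U : ℕ → Finset X := fun j => R.filter (fun y => j ≤ cl y) with hU
  have mT : ∀ j y, y ∈ T j ↔ y ∈ S ∧ r y = s ∧ cl y < j := by
    intro j y; simp [hT, hR, and_assoc]
  have mU : ∀ j y, y ∈ U j ↔ y ∈ S ∧ r y = s ∧ j ≤ cl y := by
    intro j y; simp [hU, hR, and_assoc]
  have mS' : ∀ y, y ∈ S' ↔ y ∈ S ∧ s < r y := by
    intro y; simp [hS']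
  set v := Sym ρ sgn' S' cl u with hv
  have hvR : ∀ x ∈ R, ∀ y ∈ R, ρ (swap x y) v = v := by
    intro x hx y hy
    rw [hv, ← Module.End.mul_apply, ← Sym_commute (supp_swap hx hy) hdis, Module.End.mul_apply,
      row x (hRS hx) y (hRS hy) ((mem_filter.1 hx).2.trans (mem_filter.1 hy).2.symm)]
  have key : ∀ j, (∏ t ∈ T j, ((U (cl t)).card : ℂ)) •
        Sym ρ one' S r (Sym ρ sgn' (S' ∪ T j) cl u) -
        (∏ t ∈ T j, (hook S r cl t : ℂ)) • Sym ρ one' S r v ∈ K ∧
      Sym ρ one' S r v = (∏ t ∈ T j, ((U (cl t)).card : ℂ)) • Sym ρ one' (S' ∪ U j) r v := by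
    intro j
    induction j with
    | zero =>
      have e1 : T 0 = ∅ := by simp [hT]
      have e2 : U 0 = R := by simp [hU]
      simp [e1, e2, hun, hv]
    | succ j ihj =>
      by_cases hex : ∃ t ∈ R, cl t = j
      · obtain ⟨t, htR, htj⟩ := hex
        have htS := hRS htR
        have htr : r t = s := (mem_filter.1 htR).2
        have e1 : T (j + 1) = insert t (T j) := by
          ext y
          simp only [mem_insert, mT]
          constructor
          · rintro ⟨h1, h2, h3⟩
            by_cases h4 : cl y = j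
            · exact Or.inl (inj y h1 t htS (by omega) (by omega))
            · exact Or.inr ⟨h1, h2, by omega⟩
          · rintro (rfl | ⟨h1, h2, h3⟩)
            · exact ⟨htS, htr, by omega⟩
            · exact ⟨h1, h2, by omega⟩
        have e2 : U j = insert t (U (j + 1)) := by
          ext y
          simp only [mem_insert, mU]
          constructor
          · rintro ⟨h1, h2, h3⟩
            by_cases h4 : cl y = j
            · exact Or.inl (inj y h1 t htS (by omega) (by omega))
            · exact Or.inr ⟨h1, h2, by omega⟩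
          · rintro (rfl | ⟨h1, h2, h3⟩)
            · exact ⟨htS, htr, by omega⟩
            · exact ⟨h1, h2, by omega⟩
        have htT : t ∉ T j := by rw [mT]; omega
        have htU : t ∉ S' ∪ U (j + 1) := by
          rw [mem_union, mU, mS']; omega
        have step := hook_step (ρ := ρ) (K := K) (S := S) (S' := S') (T := T j) (U := U j)
          (C := S'.filter (fun x => cl x = j)) (r := r) (cl := cl) (u := u) (j := j) (t := t)
          hK hS'S (fun y hy => ((mT _ _).1 hy).1) (fun y hy => ((mU _ _).1 hy).1)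
          (by
            rw [disjoint_left]
            intro y h1 h2
            rw [mem_union, mS', mT] at h1
            rw [mU] at h2
            omega)
          (by rw [mU]; exact ⟨htS, htr, by omega⟩) htj
          (by
            intro x
            rw [mem_filter, mem_union, mT]
            constructor
            · exact fun h => ⟨Or.inl h.1, h.2⟩
            · rintro ⟨h | h, h'⟩
              · exact ⟨h, h'⟩
              · omega)
          (fun y hy => ((mU _ _).1 hy).2.1.trans htr.symm) row
          (by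
            intro x hx
            rw [mem_filter, mS'] at hx
            have := rel x hx.1.1 s le_rfl hx.1.2
            rw [← sum_union]
            · convert this using 3
              ext y
              rw [mem_union, mT, mU, mem_filter]
              constructor
              · rintro (h | h) <;> exact ⟨h.1, h.2.1⟩
              · intro h
                by_cases h' : cl y < j
                · exact Or.inl ⟨h.1, h.2, h'⟩
                · exact Or.inr ⟨h.1, h.2, by omega⟩
            · rw [disjoint_left]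
              intro y h1 h2
              rw [mT] at h1
              rw [mU] at h2
              omega)
          (by
            intro x hx y hy
            rw [mem_filter, mS'] at hx
            rw [mT] at hy
            obtain ⟨z, hz, hz1, hz2⟩ := low x hx.1.1 (r x) (cl y) (by omega) le_rfl (by omega)
            refine ⟨z, (mS' z).2 ⟨hz, by omega⟩, hz1, hz2, ?_, ?_, ?_⟩
            · rintro rfl; omega
            · rintro rfl; omega
            · rintro rfl; omega)
        have e3 : hook S r cl t = (U j).card + (S'.filter (fun x => cl x = j)).card := by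
          unfold hook
          congr 2
          · ext y
            rw [mU, mem_filter, htr, htj]
          · ext y
            rw [mem_filter, mem_filter, mS', htr, htj]
            tauto
        constructor
        · rw [e1, prod_insert htT, prod_insert htT, union_insert, htj, e3]
          have := K.add_mem (K.smul_mem (∏ t ∈ T j, ((U (cl t)).card : ℂ)) step)
            (K.smul_mem (((U j).card + (S'.filter (fun x => cl x = j)).card : ℕ) : ℂ) ihj.1)
          convert this using 1
          module
        · rw [ihj.2, e1, prod_insert htT, htj, mul_comm, mul_smul]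
          congr 1
          conv_lhs => rw [e2, union_insert]
          rw [Sym_insert' htU (mulOn_one _ _), Module.End.mul_apply, LinearMap.sum_apply,
            ← map_smul]
          congr 1
          have e4 : (insert t (S' ∪ U (j + 1))).filter (fun x => r x = r t) = U j := by
            ext y
            rw [← union_insert, ← e2, mem_filter, mem_union, mU, mS', htr]
            constructor
            · rintro ⟨h | h, h'⟩
              · omega
              · exact h
            · exact fun h => ⟨Or.inr h, h.2.1⟩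
          rw [e4, sum_congr rfl fun y hy => by
            rw [LinearMap.smul_apply, one'_apply, one_smul,
              hvR t htR y (mem_filter.1 hy).1], sum_const, Nat.cast_smul_eq_nsmul]
      · push Not at hex
        have e1 : T (j + 1) = T j := by
          ext y
          simp only [hT, mem_filter]
          refine and_congr_right fun h => ?_
          have := hex y h
          omega
        have e2 : U (j + 1) = U j := by
          ext y
          simp only [hU, mem_filter]
          refine and_congr_right fun h => ?_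
          have := hex y h
          omega
        rw [e1, e2]
        exact ihj
  obtain ⟨k1, k2⟩ := key (R.sup cl + 1)
  have e1 : T (R.sup cl + 1) = R := by
    refine filter_true_of_mem fun y hy => ?_
    have := le_sup (f := cl) hy
    omega
  have e2 : U (R.sup cl + 1) = ∅ := by
    refine filter_false_of_mem fun y hy => ?_
    have := le_sup (f := cl) hy
    omega
  rw [e1] at k1 k2
  rw [e2, union_empty] at k2
  rw [hun, k2] at k1
  have hN : (∏ t ∈ R, ((U (cl t)).card : ℂ)) ≠ 0 := by
    refine prod_ne_zero_iff.2 fun t ht => ?_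
    have : t ∈ U (cl t) := mem_filter.2 ⟨ht, le_rfl⟩
    exact_mod_cast (card_pos.2 ⟨t, this⟩).ne'
  have e3 : ∏ x ∈ S, (hook S r cl x : ℂ) =
      (∏ x ∈ R, (hook S r cl x : ℂ)) * ∏ x ∈ S', (hook S' r cl x : ℂ) := by
    conv_lhs => rw [← hun]
    rw [prod_union hdis, mul_comm, hun]
    congr 1
    refine prod_congr rfl fun x hx => ?_
    rw [mS'] at hx
    unfold hook
    congr 3
    · ext y
      rw [mem_filter, mem_filter, mS']
      constructor
      · exact fun h => ⟨⟨h.1, by omega⟩, h.2⟩
      · exact fun h => ⟨h.1.1, h.2⟩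
    · ext y
      rw [mem_filter, mem_filter, mS']
      constructor
      · exact fun h => ⟨⟨h.1, by omega⟩, h.2⟩
      · exact fun h => ⟨h.1.1, h.2⟩
  rw [← K.smul_mem_iff hN, e3]
  have := K.add_mem k1 (K.smul_mem ((∏ t ∈ R, ((U (cl t)).card : ℂ)) *
    ∏ x ∈ R, (hook S r cl x : ℂ)) IH)
  convert this using 1
  module

theorem hook_pos {S : Finset X} (r cl : X → ℕ) {x : X} (hx : x ∈ S) : 0 < hook S r cl x :=
  Nat.add_pos_left (card_pos.2 ⟨x, mem_filter.2 ⟨hx, rfl, le_rfl⟩⟩) _

end Pool.Agent.P.MP_5e2a31_al
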