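import Pool.Agent.P.MP_5e2a31_al.Wt

set_option maxHeartbeats 400000
set_option linter.unusedSectionVars false

namespace Pool.Agent.P.MP_5e2a31_al

open Finset Equiv LinearMap

variable {X1 X2 : Type} [Fintype X1] [DecidableEq X1] [Fintype X2] [DecidableEq X2]
  {m1 m2 c1 c2 : ℕ}

/-- Endomorphisms of the induced module. -/
def IsE (u : Module.End ℂ (NN X1 X2 m1 m2 c1 c2)) : Prop :=
  (∀ x, Commute u (cN _ x)) ∧ ∀ g, Commute u (rNN X1 X2 m1 m2 c1 c2 g)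

/-- Invariant functions with values in `p` that are killed by all root vectors. -/
noncomputable def DP (p : Submodule ℂ (NN X1 X2 m1 m2 c1 c2)) :
    Submodule ℂ (Om X1 X2 m1 m2 → NN X1 X2 m1 m2 c1 c2) :=
  ((tau m1 m2 (rNN X1 X2 m1 m2 c1 c2)).invariants ⊓ Submodule.pi Set.univ fun _ => p) ⊓
    ((sl2 X1 X2 m1 m2).Inv _ c2 ⊓ (sl1 X1 X2 m1 m2).Inv _ c1)

/-- Invariant functions with values in `p` of top weight. -/
noncomputable def YP (p : Submodule ℂ (NN X1 X2 m1 m2 c1 c2)) :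
    Submodule ℂ (Om X1 X2 m1 m2 → NN X1 X2 m1 m2 c1 c2) :=
  ((tau m1 m2 (rNN X1 X2 m1 m2 c1 c2)).invariants ⊓ Submodule.pi Set.univ fun _ => p) ⊓
    ((sl1 X1 X2 m1 m2).Wt _ (mu m1 c1) ⊓ (sl2 X1 X2 m1 m2).Wt _ (mu m2 c2))

theorem rNN_cN (g : GG X1 X2) (x : X1 ⊕ X2) : rNN X1 X2 m1 m2 c1 c2 g * cN _ x =
    cN _ (Perm.sumCongrHom X1 X2 g x) * rNN X1 X2 m1 m2 c1 c2 g :=
  LinearMap.ext fun y => rN_cN _ _ g x y

theorem tau_pc {K : Type*} [AddCommGroup K] [Module ℂ K] {ρ : Representation ℂ (GG X1 X2) K}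
    {u : Module.End ℂ K} (hu : ∀ g, Commute u (ρ g)) (g : GG X1 X2) :
    Commute (tau m1 m2 ρ g) (pc _ u) :=
  LinearMap.ext fun f => funext fun _ => congr($((hu g).symm.eq) (f _))

theorem tau_Pw {K : Type*} [AddCommGroup K] [Module ℂ K] (ρ : Representation ℂ (GG X1 X2) K)
    (g : GG X1 X2) (ν1 : Fin m1 →₀ ℕ) (ν2 : Fin m2 →₀ ℕ) :
    Commute (tau m1 m2 ρ g) ((sl1 X1 X2 m1 m2).Pw K ν1 * (sl2 X1 X2 m1 m2).Pw K ν2) := by
  refine LinearMap.ext fun f => funext fun w => ?_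
  have h1 : (sl1 X1 X2 m1 m2).cont (w.1 ∘ g.1, w.2 ∘ g.2) = (sl1 X1 X2 m1 m2).cont w :=
    Equiv.sum_comp g.1 fun p => Finsupp.single (w.1 p) 1
  have h2 : (sl2 X1 X2 m1 m2).cont (w.1 ∘ g.1, w.2 ∘ g.2) = (sl2 X1 X2 m1 m2).cont w :=
    Equiv.sum_comp g.2 fun p => Finsupp.single (w.2 p) 1
  simp only [Module.End.mul_apply, tau_apply, Slot.Pw, Dg_apply, h1, h2, map_smul]

theorem isProj_Pw2 {K : Type*} [AddCommGroup K] [Module ℂ K] (ν1 : Fin m1 →₀ ℕ)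
    (ν2 : Fin m2 →₀ ℕ) : IsProj ((sl1 X1 X2 m1 m2).Wt K ν1 ⊓ (sl2 X1 X2 m1 m2).Wt K ν2)
      ((sl1 X1 X2 m1 m2).Pw K ν1 * (sl2 X1 X2 m1 m2).Pw K ν2) :=
  isProj_mul (Slot.isProj_Pw _ _) (Slot.isProj_Pw _ _) (Dg_comm _ _)

theorem isProj_P02 {K : Type*} [AddCommGroup K] [Module ℂ K] [FiniteDimensional ℂ K] :
    IsProj ((sl2 X1 X2 m1 m2).Inv K c2 ⊓ (sl1 X1 X2 m1 m2).Inv K c1)
      ((sl2 X1 X2 m1 m2).P0 K c2 * (sl1 X1 X2 m1 m2).P0 K c1) :=
  isProj_mul (Slot.isProj_P0 _ _) (Slot.isProj_P0 _ _)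
    (Slot.commute_P0 _ fun i j => (cross12 _ _ _ _).P0_E i j _)

theorem pc_Pw2 {K : Type*} [AddCommGroup K] [Module ℂ K] (u : Module.End ℂ K) (ν1 : Fin m1 →₀ ℕ)
    (ν2 : Fin m2 →₀ ℕ) : Commute (pc (Om X1 X2 m1 m2) u : Module.End ℂ _)
      ((sl1 X1 X2 m1 m2).Pw K ν1 * (sl2 X1 X2 m1 m2).Pw K ν2) :=
  Commute.mul_right (Dg_pc _ _).symm (Dg_pc _ _).symm

theorem dim_eq (hX1 : Fintype.card X1 = m1 * c1) (h1 : m1 ≤ c1 + 1)
    (hX2 : Fintype.card X2 = m2 * c2) (h2 : m2 ≤ c2 + 1)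
    {p : Submodule ℂ (NN X1 X2 m1 m2 c1 c2)} {π : Module.End ℂ _} (hπ : IsProj p π) (hE : IsE π) :
    Module.finrank ℂ (DP p) = Module.finrank ℂ (YP p) := by
  have a0 := isProj_mul (tau m1 m2 (rNN X1 X2 m1 m2 c1 c2)).isProj_averageMap (isProj_pc hπ)
    (commute_avg _ (tau_pc hE.2))
  have e1 := fun i j : Fin m1 => (commute_avg _ fun g =>
    tau_E1 (m2 := m2) (rNN X1 X2 m1 m2 c1 c2) g i j).mul_left ((sl1 X1 X2 m1 m2).pc_E π i j)
  have e2 := fun i j : Fin m2 => (commute_avg _ fun g =>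
    tau_E2 (m1 := m1) (rNN X1 X2 m1 m2 c1 c2) g i j).mul_left ((sl2 X1 X2 m1 m2).pc_E π i j)
  have a1 := isProj_trace (isProj_mul a0 (isProj_P02 (c1 := c1) (c2 := c2))
    ((Slot.commute_P0 _ e2).mul_right (Slot.commute_P0 _ e1)))
  have a2 := isProj_trace (isProj_mul a0 (isProj_Pw2 (mu m1 c1) (mu m2 c2))
    ((commute_avg _ fun g => tau_Pw _ g _ _).mul_left (pc_Pw2 _ _ _)))
  have a3 := (cross12 X1 X2 m1 m2).star2 hX1 h1 hX2 h2 (Cf_cN.comp Sum.inl_injective)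
    (Cf_cN.comp Sum.inr_injective) e1
    (fun i j => (commute_avg _ fun g => tau_G1 _ g (fun p => rNN_cN g (Sum.inl p)) i j).mul_left
      (Slot.pc_G _ (fun p => hE.1 _) i j)) e2
    (fun i j => (commute_avg _ fun g => tau_G2 _ g (fun p => rNN_cN g (Sum.inr p)) i j).mul_left
      (Slot.pc_G _ (fun p => hE.1 _) i j))
    (fun f w h => bound1 (a0.1 f).1 h) fun f w h => bound2 (a0.1 f).1 h
  exact_mod_cast a1.symm.trans (a3.trans a2)

theorem pr_pc {Ω : Type} [Fintype Ω] {K K' : Type*} [AddCommGroup K] [Module ℂ K]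
    [AddCommGroup K'] [Module ℂ K'] (u : K →ₗ[ℂ] K') (y : Ω → ℂ) (f : Ω → K) :
    pr y (pc Ω u f) = u (pr y f) := by simp [pr]

theorem pr_single {Ω : Type} [Fintype Ω] [DecidableEq Ω] {K : Type*} [AddCommGroup K] [Module ℂ K]
    (w : Ω) (f : Ω → K) : pr (Pi.single w 1) f = f w := by
  simp [pr, Pi.single_apply]

theorem eq_zero_of_pr {K : Type*} [AddCommGroup K] [Module ℂ K] {f : Om X1 X2 m1 m2 → K}
    (hf : f ∈ (sl2 X1 X2 m1 m2).Inv K c2 ⊓ (sl1 X1 X2 m1 m2).Inv K c1)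
    (h : ∀ z : ZZ X1 X2 m1 m2 c1 c2, pr z.1 f = 0) : f = 0 := by
  ext w
  obtain ⟨a, ha⟩ := (sl1 X1 X2 m1 m2).sub_P0 c1 (Pi.single w (1 : ℂ))
  obtain ⟨b, hb⟩ := (sl2 X1 X2 m1 m2).sub_P0 c2 ((sl1 X1 X2 m1 m2).P0 ℂ c1 (Pi.single w 1))
  have h1 := h ⟨_, isProj_P02.1 (Pi.single w 1)⟩
  have h2 : ∀ y y' : Om X1 X2 m1 m2 → ℂ, pr (y + y') f = pr y f + pr y' f := fun y y' => by
    simp [pr, add_smul, sum_add_distrib]
  have h3 : ∀ y : Om X1 X2 m1 m2 → ℂ, pr y (0 : Om X1 X2 m1 m2 → K) = 0 := fun y => by simp [pr]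
  rw [← pr_single w f, ha, hb, h2, h2, Slot.pr_A, Slot.pr_A, Slot.A_of_mem_Inv _ hf.1,
    Slot.A_of_mem_Inv _ hf.2, h3, h3]
  simpa using h1

theorem exists_f1 : ∃ f ∈ DP (⊤ : Submodule ℂ (NN X1 X2 m1 m2 c1 c2)),
    ∀ z : ZZ X1 X2 m1 m2 c1 c2, pr z.1 f = Pi.single ∅ z := by
  let Q : (Om X1 X2 m1 m2 → ℂ) →ₗ[ℂ] ZZ X1 X2 m1 m2 c1 c2 := isProj_P02.codRestrict
  have hQ : ∀ y, (Q y).1 = ((sl2 X1 X2 m1 m2).P0 ℂ c2 * (sl1 X1 X2 m1 m2).P0 ℂ c1) y :=
    fun _ => rfl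
  let R : (Om X1 X2 m1 m2 → ℂ) →ₗ[ℂ] NN X1 X2 m1 m2 c1 c2 :=
    LinearMap.single ℂ (fun _ => ZZ X1 X2 m1 m2 c1 c2) ∅ ∘ₗ Q
  have h1 : ∀ y, pr y (fun w => R (Pi.single w 1)) = R y := fun y => by
    conv_rhs => rw [← univ_sum_single y, map_sum]
    refine sum_congr rfl fun w _ => ?_
    rw [← map_smul, ← Pi.single_smul, smul_eq_mul, mul_one]
  have h2 : ∀ y, Q y = 0 → R y = 0 := fun y h => by simp [R, h]
  refine ⟨fun w => R (Pi.single w 1), ⟨⟨fun g => funext fun w => ?_, fun _ _ => trivial⟩,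
    (Slot.mem_Inv _).2 fun i j => funext fun w => ?_,
    (Slot.mem_Inv _).2 fun i j => funext fun w => ?_⟩, fun z => ?_⟩
  · rw [tau_apply]
    refine (rN_empty _ _ g _).trans (congrArg (Pi.single ∅) (Subtype.ext ?_))
    have e := (Slot.commute_P0 _ (c := c2) (tau_E2 (m1 := m1) (m2 := m2)
      (Representation.trivial ℂ _ ℂ) g)).mul_right (Slot.commute_P0 _ (c := c1) (tau_E1 _ g))
    have e' : tau m1 m2 (Representation.trivial ℂ _ ℂ) g (Pi.single (w.1 ∘ g.1, w.2 ∘ g.2) 1) =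
        Pi.single w 1 := by
      ext v
      rw [tau_apply]
      simp [Pi.single_apply, Prod.ext_iff, g.1.surjective.injective_comp_right.eq_iff,
        g.2.surjective.injective_comp_right.eq_iff]
    rw [hQ, ← e', ← Module.End.mul_apply, ← e.eq, Module.End.mul_apply, ← hQ]
    rfl
  · rw [← pr_single w (Slot.U _ _ _ _ _ _), ← Slot.pr_U, h1, h2 _ (Subtype.ext ?_)]
    · rfl
    · rw [hQ, (Slot.commute_P0 _ fun i j => (cross12 _ _ _ _).P0_E i j _).eq, Module.End.mul_apply,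
        ← Module.End.mul_apply ((sl2 X1 X2 m1 m2).P0 ℂ c2), Slot.P0_U]
      simp
  · rw [← pr_single w (Slot.U _ _ _ _ _ _), ← Slot.pr_U, h1, h2 _ (Subtype.ext ?_)]
    · rfl
    · rw [hQ, Module.End.mul_apply, ← Module.End.mul_apply ((sl1 X1 X2 m1 m2).P0 ℂ c1), Slot.P0_U]
      simp
  · rw [h1]
    exact congrArg (Pi.single ∅) (Subtype.ext (isProj_P02.2 _ z.2))

theorem pc_mem_DP {u : Module.End ℂ (NN X1 X2 m1 m2 c1 c2)} (hu : IsE u) {p q} {f} (hf : f ∈ DP p)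
    (hq : ∀ y, u y ∈ q) : pc _ u f ∈ DP q :=
  ⟨⟨fun g => congr($((tau_pc hu.2 g).eq) f).trans (congrArg (pc _ u) (hf.1.1 g)), fun _ _ => hq _⟩,
    Slot.map_mem_Inv _ (Slot.pc_E _ u) hf.2.1, Slot.map_mem_Inv _ (Slot.pc_E _ u) hf.2.2⟩

theorem pc_mem_YP {u : Module.End ℂ (NN X1 X2 m1 m2 c1 c2)}
    (hu : ∀ g, Commute u (rNN X1 X2 m1 m2 c1 c2 g)) {p q} {f} (hf : f ∈ YP p)
    (hq : ∀ y ∈ p, u y ∈ q) : pc _ u f ∈ YP q :=
  ⟨⟨fun g => congr($((tau_pc hu g).eq) f).trans (congrArg (pc _ u) (hf.1.1 g)),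
    fun w _ => hq _ (hf.1.2 w trivial)⟩,
    fun w hw => by simp [hf.2.1 w hw], fun w hw => by simp [hf.2.2 w hw]⟩

theorem faithful (hX1 : Fintype.card X1 = m1 * c1) (h1 : m1 ≤ c1 + 1)
    (hX2 : Fintype.card X2 = m2 * c2) (h2 : m2 ≤ c2 + 1)
    {u : Module.End ℂ (NN X1 X2 m1 m2 c1 c2)} (hu : IsE u) (h : ∀ f ∈ YP ⊤, pc _ u f = 0) :
    u = 0 := by
  obtain ⟨π, a1, a2, a3⟩ := exists_proj (rNN X1 X2 m1 m2 c1 c2) Cf_cN
    (fun g x => ⟨_, rNN_cN g x⟩) (K := LinearMap.range u)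
    (by rintro g _ ⟨y, rfl⟩; exact ⟨_, congr($((hu.2 g).eq) y)⟩)
    (by rintro x _ ⟨y, rfl⟩; exact ⟨_, congr($((hu.1 x).eq) y)⟩)
  have a4 := dim_eq hX1 h1 hX2 h2 a1 ⟨a3, a2⟩
  have a5 : YP (LinearMap.range u) = ⊥ := by
    refine eq_bot_iff.2 fun f hf => ?_
    choose f' hf' using fun w => hf.1.2 w trivial
    have b1 := isProj_mul (tau m1 m2 (rNN X1 X2 m1 m2 c1 c2)).isProj_averageMap
      (isProj_Pw2 (mu m1 c1) (mu m2 c2)) (commute_avg _ fun g => tau_Pw _ g _ _)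
    have b2 := (commute_avg _ (tau_pc (m1 := m1) (m2 := m2) hu.2)).symm.mul_right
      (pc_Pw2 u (mu m1 c1) (mu m2 c2))
    have b3 := h _ ⟨⟨(b1.1 f').1, fun _ _ => trivial⟩, (b1.1 f').2⟩
    rw [← Module.End.mul_apply, b2.eq, Module.End.mul_apply,
      show pc _ u f' = f from funext hf', b1.2 f ⟨hf.1.1, hf.2⟩] at b3
    exact b3
  rw [a5, finrank_bot, Submodule.finrank_eq_zero] at a4
  obtain ⟨f, b1, b2⟩ := exists_f1 (X1 := X1) (X2 := X2) (m1 := m1) (m2 := m2) (c1 := c1) (c2 := c2)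
  have b3 := pc_mem_DP hu b1 fun y => LinearMap.mem_range_self u y
  rw [a4, Submodule.mem_bot] at b3
  refine lift_unique (a := cN _) (fun x y => congr($((hu.1 x).eq) y)) (by simp) fun z => ?_
  rw [← b2, ← pr_pc, b3]
  simp [pr]

/-- The block sums of the Clifford generators. -/
noncomputable def Wb (i : Fin m1 ⊕ Fin m2) :
    Module.End ℂ (Om X1 X2 m1 m2 → NN X1 X2 m1 m2 c1 c2) where
  toFun f w := ∑ x with Sum.map w.1 w.2 x = i, cN _ x (f w)
  map_add' f g := by ext1 w; simp [sum_add_distrib]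
  map_smul' t f := by ext1 w; simp [smul_sum]

theorem Wb_apply (i : Fin m1 ⊕ Fin m2) (f : Om X1 X2 m1 m2 → NN X1 X2 m1 m2 c1 c2)
    (w : Om X1 X2 m1 m2) : Wb i f w = ∑ x with Sum.map w.1 w.2 x = i, cN _ x (f w) := rfl

theorem Cf.sq_sum {ι K : Type*} [AddCommGroup K] [Module ℂ K] {a : ι → Module.End ℂ K} (h : Cf a)
    (S : Finset ι) : (∑ x ∈ S, a x) * ∑ x ∈ S, a x = (S.card : ℂ) • 1 := by
  classical
  induction S using Finset.induction_on with
  | empty => simp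
  | insert t S ht ih =>
    have : (∑ x ∈ S, a x) * a t = (-1 : ℂ) • (a t * ∑ x ∈ S, a x) := by
      rw [sum_mul, mul_sum, smul_sum]
      exact sum_congr rfl fun x hx => h.2 x t (by rintro rfl; exact ht hx)
    rw [sum_insert ht, add_mul, mul_add, mul_add, ih, this, h.1, card_insert_of_notMem ht]
    push_cast
    module

theorem commute_one_sub {V : Type*} [AddCommGroup V] [Module ℂ V] {S T : Module.End ℂ V}
    (h : Commute S T) : Commute (1 - S) T := (Commute.one_left _).sub_left h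

theorem joint_ker (hX1 : Fintype.card X1 = m1 * c1) (h1 : m1 ≤ c1 + 1)
    (hX2 : Fintype.card X2 = m2 * c2) (h2 : m2 ≤ c2 + 1) {M : Type*} [AddCommGroup M] [Module ℂ M]
    (ρ : Representation ℂ (GG X1 X2) M) {a : X1 ⊕ X2 → Module.End ℂ M} (ha : Cf a)
    (hρ : ∀ g x v, ρ g (a x v) = a (Perm.sumCongrHom X1 X2 g x) (ρ g v)) {ε : Module.End ℂ M}
    (e1 : Function.Injective ε) (e2 : ∀ g v, ε (ρ g v) = ρ g (ε v))
    (e3 : ∀ x v, ε (a x v) = - a x (ε v)) {ψ : ZZ X1 X2 m1 m2 c1 c2 →ₗ[ℂ] M}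
    (hψ : ∀ g z, ψ (rZ X1 X2 m1 m2 c1 c2 g z) = ρ g (ψ z)) (h0 : ψ ≠ 0)
    (y : NN X1 X2 m1 m2 c1 c2) (hy : y ≠ 0) : ∃ Ψ : NN X1 X2 m1 m2 c1 c2 →ₗ[ℂ] M,
      ((∀ x y, Ψ (cN _ x y) = a x (Ψ y)) ∧ ∀ g y, Ψ (rNN X1 X2 m1 m2 c1 c2 g y) = ρ g (Ψ y)) ∧
        Ψ y ≠ 0 := by
  classical
  let K : Submodule ℂ (NN X1 X2 m1 m2 c1 c2) :=
    { carrier := {y | ∀ Ψ : NN X1 X2 m1 m2 c1 c2 →ₗ[ℂ] M, ((∀ x y, Ψ (cN _ x y) = a x (Ψ y)) ∧
        ∀ g y, Ψ (rNN X1 X2 m1 m2 c1 c2 g y) = ρ g (Ψ y)) → Ψ y = 0}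
      add_mem' := fun {a b} ha hb Ψ h => by rw [map_add, ha Ψ h, hb Ψ h, add_zero]
      zero_mem' := fun Ψ _ => map_zero Ψ
      smul_mem' := fun t a ha Ψ h => by rw [map_smul, ha Ψ h, smul_zero] }
  suffices H : K = ⊥ by
    by_contra hne
    push Not at hne
    exact hy ((Submodule.mem_bot ℂ).1 (H ▸ hne : y ∈ (⊥ : Submodule ℂ _)))
  have ec : ∀ x (y : NN X1 X2 m1 m2 c1 c2), epsN _ (cN _ x y) = - cN _ x (epsN _ y) :=
    fun x y => by simpa using congr($(epsN_cN x) y)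
  have er : ∀ g, Commute (epsN _) (rNN X1 X2 m1 m2 c1 c2 g) := fun g => (rN_epsN _ _ g).symm
  obtain ⟨π, a1, a2, a3⟩ := exists_proj (rNN X1 X2 m1 m2 c1 c2)
    (a := fun o : Option (X1 ⊕ X2) => o.elim (epsN _) (cN _))
    ⟨by rintro (_ | x); exacts [epsN_sq, Cf_cN.1 x], by
      rintro (_ | x) (_ | y) h
      · exact absurd rfl h
      · exact epsN_cN y
      · simp only [Option.elim, epsN_cN x, smul_smul]
        simp
      · exact Cf_cN.2 x y (by simpa using h)⟩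
    (by rintro g (_ | x); exacts [⟨none, (er g).symm.eq⟩, ⟨some _, rNN_cN g x⟩]) (K := K)
    (fun g v hv Ψ h => by rw [h.2, hv Ψ h, map_zero]) (by
      rintro (_ | x) v hv Ψ h
      · refine e1 ((hv (ε ∘ₗ Ψ ∘ₗ epsN _) ⟨fun x y => ?_, fun g y => ?_⟩).trans (map_zero ε).symm)
        · simp [ec, h.1, e3]
        · have := congr($((er g).eq) y)
          simp only [Module.End.mul_apply] at this
          simp [this, h.2, e2]
      · simp only [Option.elim]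
        rw [h.1, hv Ψ h, map_zero])
  have hπ : IsE π := ⟨fun x => a3 (some x), a2⟩
  have hπ' : IsE (1 - π) := ⟨fun x => commute_one_sub (hπ.1 x), fun g => commute_one_sub (hπ.2 g)⟩
  have b0 : IsProj (LinearMap.ker π) (1 - π) :=
    ⟨fun x => by simp [a1.2 _ (a1.1 x)], fun x hx => by simp [LinearMap.mem_ker.1 hx]⟩
  have b1 := dim_eq hX1 h1 hX2 h2 b0 hπ'
  obtain ⟨f, f1, f2⟩ := exists_f1 (X1 := X1) (X2 := X2) (m1 := m1) (m2 := m2) (c1 := c1) (c2 := c2)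
  let D : Submodule ℂ (Module.End ℂ (NN X1 X2 m1 m2 c1 c2)) :=
    { carrier := {u | IsE u ∧ ∀ y, π (u y) = 0}
      add_mem' := fun {a b} ha hb => ⟨⟨fun x => (ha.1.1 x).add_left (hb.1.1 x),
        fun x => (ha.1.2 x).add_left (hb.1.2 x)⟩, fun y => by simp [ha.2, hb.2]⟩
      zero_mem' := ⟨⟨fun _ => Commute.zero_left _, fun _ => Commute.zero_left _⟩, by simp⟩
      smul_mem' := fun t a ha => ⟨⟨fun x => (ha.1.1 x).smul_left t,
        fun x => (ha.1.2 x).smul_left t⟩, fun y => by simp [ha.2]⟩ }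
  have b2 : Module.finrank ℂ (DP (LinearMap.ker π)) ≤ Module.finrank ℂ D := by
    refine finrank_le_of_pc D _ f fun f' hf' => ?_
    obtain ⟨Ψ, c1', c2', c3⟩ := exists_hom (Perm.sumCongrHom X1 X2) (rZ X1 X2 m1 m2 c1 c2) Cf_cN
      (ρ' := rNN X1 X2 m1 m2 c1 c2) (rN_cN _ _)
      (f := (Fintype.linearCombination ℂ f') ∘ₗ Submodule.subtype _) (by
        intro g z
        conv_lhs => rw [← hf'.1.1 g]
        simp only [LinearMap.comp_apply, Fintype.linearCombination_apply, map_sum, map_smul,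
          Submodule.subtype_apply, tau_apply, rZ_apply]
        exact Equiv.sum_comp ((Equiv.arrowCongr g.1.symm (Equiv.refl _)).prodCongr
          (Equiv.arrowCongr g.2.symm (Equiv.refl _)))
          fun w => z.1 w • rNN X1 X2 m1 m2 c1 c2 g (f' w))
    have c4 : IsE Ψ := ⟨fun x => LinearMap.ext (c2' x), fun g => LinearMap.ext (c3 g)⟩
    have c5 : pc _ Ψ f = f' := by
      rw [← sub_eq_zero]
      refine eq_zero_of_pr (Submodule.sub_mem _
        (pc_mem_DP c4 f1 (q := ⊤) fun _ => trivial).2 hf'.2) fun z => ?_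
      have : pr z.1 (pc _ Ψ f) = pr z.1 f' := by
        rw [pr_pc, f2, c1']
        rfl
      simpa [pr, smul_sub, sub_eq_zero] using this
    refine ⟨Ψ, ⟨c4, fun y => ?_⟩, c5⟩
    refine congr($(lift_unique (a := cN _) (Ψ := π ∘ₗ Ψ) (Φ := 0) (fun x y => ?_) (by simp)
      fun z => ?_) y)
    · rw [LinearMap.comp_apply, c2']
      exact congr($((hπ.1 x).eq) _)
    · rw [LinearMap.comp_apply, c1']
      simp only [LinearMap.comp_apply, Fintype.linearCombination_apply, map_sum, map_smul]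
      exact sum_eq_zero fun w _ => by rw [LinearMap.mem_ker.1 (hf'.1.2 w trivial), smul_zero]
  have b3 := count_comm' D (YP (LinearMap.ker π)) (w := Wb) (ε := pc _ (epsN _))
    (by rw [pc_mul, epsN_sq, pc_one])
    (fun i => LinearMap.ext fun f => funext fun w => by simp [Wb_apply, ec])
    (fun i j hij => LinearMap.ext fun f => funext fun w => by
      simp only [Module.End.mul_apply, Wb_apply, map_sum, LinearMap.smul_apply, Pi.smul_apply,
        smul_sum]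
      rw [sum_comm]
      refine sum_congr rfl fun y hy => sum_congr rfl fun x hx =>
        LinearMap.congr_fun (Cf_cN.2 x y ?_) (f w)
      rintro rfl
      exact hij ((mem_filter.1 hx).2.symm.trans (mem_filter.1 hy).2))
    ((mu m1 c1).support.disjSum (mu m2 c2).support)
    (fun i hi => ⟨(Sum.elim (mu m1 c1) (mu m2 c2) i : ℕ), by
      rcases i with i | i <;> simpa using hi, fun f hf => funext fun w => by
      by_cases hw : f w = 0
      · simp [Wb_apply, hw]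
      · have d1 := LinearMap.congr_fun
          (Cf_cN.sq_sum (univ.filter fun x => Sum.map w.1 w.2 x = i)) (f w)
        simp only [Module.End.mul_apply, LinearMap.sum_apply] at d1
        rw [Wb_apply, Wb_apply, d1, Pi.smul_apply, LinearMap.smul_apply, Module.End.one_apply]
        congr 2
        rw [← of_not_not (mt (hf.2.1 w) hw), ← of_not_not (mt (hf.2.2 w) hw), card_filter,
          Fintype.sum_sum_type]
        rcases i with i | i <;> simp [Slot.cont_apply, sl1, sl2]⟩)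
    (fun d hd i f => funext fun w => by
      simp only [Wb_apply, pc_apply, map_sum]
      exact sum_congr rfl fun x _ => congr($((hd.1.1 x).eq) (f w)))
    (fun f hf => pc_mem_YP er hf fun y hy => by
      rw [LinearMap.mem_ker] at hy ⊢
      exact congr($((a3 none).eq) y).trans (by simp [hy]))
    (fun i f hf => ⟨⟨fun g => funext fun w => by
      conv_rhs => rw [← hf.1.1 g]
      simp only [tau_apply, Wb_apply, map_sum]
      refine sum_equiv (Perm.sumCongrHom X1 X2 g) ?_ fun x _ => rN_cN _ _ g x _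
      rintro (x | x) <;> simp,
      fun w _ => Submodule.sum_mem _ fun x _ => by
        have := LinearMap.mem_ker.1 (hf.1.2 w trivial)
        exact congr($((hπ.1 x).eq) (f w)).trans (by simp [this])⟩,
      fun w hw => by simp [Wb_apply, hf.2.1 w hw], fun w hw => by simp [Wb_apply, hf.2.2 w hw]⟩)
    (fun d hd f hf => pc_mem_YP hd.1.2 hf fun y _ => hd.2 y)
    (fun d hd hd' => faithful hX1 h1 hX2 h2 hd.1 fun f hf => by
      have d1 := hd' _ (pc_mem_YP hπ'.2 hf fun y _ => b0.1 y)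
      rw [← d1]
      ext1 w
      have d2 : d (π (f w)) ∈ K := fun Ψ h => a1.1 (f w) (Ψ ∘ₗ d)
        ⟨fun x y => by rw [LinearMap.comp_apply, LinearMap.comp_apply, ← h.1]
                       exact congrArg Ψ congr($((hd.1.1 x).eq) y),
          fun g y => by rw [LinearMap.comp_apply, LinearMap.comp_apply, ← h.2]
                        exact congrArg Ψ congr($((hd.1.2 g).eq) y)⟩
      have d3 := hd.2 (π (f w))
      rw [a1.2 _ d2] at d3
      simp [d3])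
  have b4 : 0 < Module.finrank ℂ (DP (LinearMap.ker π)) := by
    rw [pos_iff_ne_zero, Ne, Submodule.finrank_eq_zero]
    intro h
    have d1 := pc_mem_DP hπ' f1 b0.1
    rw [h, Submodule.mem_bot] at d1
    obtain ⟨Ψ, c1', c2', c3⟩ := exists_hom (Perm.sumCongrHom X1 X2) _ ha hρ hψ
    refine h0 (LinearMap.ext fun z => ?_)
    have d2 := pr_pc (1 - π) z.1 f
    rw [d1, f2] at d2
    simp only [pr, Pi.zero_apply, smul_zero, sum_const_zero, LinearMap.sub_apply,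
      Module.End.one_apply] at d2
    rw [← c1', sub_eq_zero.1 d2.symm]
    exact a1.1 _ Ψ ⟨c2', c3⟩
  have b5 : YP (LinearMap.ker π) = YP ⊤ := by
    refine Submodule.eq_of_le_of_finrank_le (fun f hf => ⟨⟨hf.1.1, fun _ _ => trivial⟩, hf.2⟩) ?_
    have d1 := (Submodule.finrank_mono (s := YP ⊤) (t := YY X1 X2 m1 m2 c1 c2)
      fun f hf => ⟨hf.1.1, hf.2⟩).trans
      (finrank_YY (X1 := X1) (X2 := X2) h1 h2)
    rw [b1] at b2 b4
    exact d1.trans (Nat.le_of_mul_le_mul_right ((Nat.mul_le_mul_left _ b2).trans b3) b4)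
  have b6 := faithful hX1 h1 hX2 h2 hπ fun f hf => funext fun w => (b5 ▸ hf).1.2 w trivial
  exact eq_bot_iff.2 fun y hy => by rw [← a1.2 y hy, b6]; rfl

end Pool.Agent.P.MP_5e2a31_al
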