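import Pool.Agent.P.MP_5e2a31_al.Peel

set_option maxHeartbeats 400000
set_option linter.unusedSectionVars false

namespace Pool.Agent.P.MP_5e2a31_al

open Finset Equiv

variable {X : Type} [Fintype X] [DecidableEq X] {m : ℕ}

/-- The tensor power of the standard representation, as functions on labellings. -/
noncomputable def rF (X : Type) (m : ℕ) : Representation ℂ (Perm X) ((X → Fin m) → ℂ) where
  toFun g := LinearMap.funLeft ℂ ℂ (fun f => f ∘ g)
  map_one' := by ext; simp
  map_mul' g h := by ext; simp [Function.comp_assoc]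

@[simp] theorem rF_apply (g : Perm X) (z : (X → Fin m) → ℂ) (f : X → Fin m) :
    rF X m g z f = z (f ∘ g) := rfl

/-- Tensors killed by all root vectors of `gl_m`, with constant weight `c`. -/
def Zs (X : Type) [Fintype X] [DecidableEq X] (m c : ℕ) : Submodule ℂ ((X → Fin m) → ℂ) where
  carrier := {z | (∀ p q, p ≠ q → ∀ f : X → Fin m,
      ∑ x ∈ univ.filter (fun x => f x = p), z (Function.update f x q) = 0) ∧
    ∀ f, z f ≠ 0 → ∀ p, (univ.filter fun x => f x = p).card = c}
  add_mem' := fun {a b} ha hb => ⟨fun p q hpq f => by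
      simp only [Pi.add_apply, sum_add_distrib, ha.1 p q hpq f, hb.1 p q hpq f, add_zero],
    fun f hf => by
      by_cases h : a f = 0
      · exact hb.2 f (by simpa [h] using hf)
      · exact ha.2 f h⟩
  zero_mem' := ⟨by simp, by simp⟩
  smul_mem' := fun t a ha => ⟨fun p q hpq f => by
      simp only [Pi.smul_apply, ← smul_sum, ha.1 p q hpq f, smul_zero],
    fun f hf => ha.2 f (by intro h; simp [h] at hf)⟩

theorem card_filter_comp (g : Perm X) (P : X → Prop) [DecidablePred P] :
    (univ.filter fun x => P (g x)).card = (univ.filter P).card :=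
  card_bij' (fun x _ => g x) (fun x _ => g⁻¹ x) (by simp) (by simp) (by simp) (by simp)

theorem update_comp_perm (f : X → Fin m) (g : Perm X) (x : X) (q : Fin m) :
    Function.update f (g x) q ∘ g = Function.update (f ∘ g) x q := by
  ext y
  by_cases h : y = x
  · simp [h]
  · simp [h]

theorem rF_mem_Zs {c : ℕ} (g : Perm X) {z : (X → Fin m) → ℂ} (hz : z ∈ Zs X m c) :
    rF X m g z ∈ Zs X m c := by
  refine ⟨fun p q hpq f => ?_, fun f hf p => ?_⟩
  · rw [← hz.1 p q hpq (f ∘ g)]
    symm
    refine sum_bij' (fun x _ => g x) (fun x _ => g⁻¹ x) (by simp) (by simp) (by simp) (by simp) ?_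
    intro x _
    rw [rF_apply, update_comp_perm]
  · rw [← hz.2 _ hf p]
    exact (card_filter_comp g fun x => f x = p).symm

theorem rel_core {c : ℕ} {z : (X → Fin m) → ℂ} (hz : z ∈ Zs X m c) {S : Finset X} {x : X}
    {L : X → Fin m} {p : Fin m} (hp : p ≠ L x)
    (h0 : ∀ y, y ∉ S → L y = p → z (L ∘ swap y x) = 0) :
    z L + ∑ y ∈ S.filter (fun y => L y = p), z (L ∘ swap y x) = 0 := by
  have h := hz.1 p (L x) hp (Function.update L x p)
  have e1 : univ.filter (fun y => Function.update L x p y = p) =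
      insert x (univ.filter fun y => L y = p) := by
    ext y
    by_cases hy : y = x
    · simp [hy]
    · simp [hy]
  rw [e1, sum_insert (by simpa using hp.symm)] at h
  simp only [Function.update_idem, Function.update_eq_self] at h
  rw [← h]
  congr 1
  rw [← sum_filter_add_sum_filter_not (univ.filter fun y => L y = p) (fun y => y ∈ S)]
  have e2 : ∀ y, L y = p → Function.update (Function.update L x p) y (L x) = L ∘ swap y x := by
    intro y hy
    have hyx : y ≠ x := by rintro rfl; exact hp hy.symm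
    ext w
    by_cases h1 : w = y
    · simp [h1]
    · by_cases h2 : w = x
      · subst h2
        simp [h1, hy]
      · simp [h1, h2, swap_apply_of_ne_of_ne]
  rw [sum_eq_zero (s := filter (fun y => ¬ y ∈ S) _), add_zero]
  · refine sum_congr (by ext y; simp [and_comm]) fun y hy => ?_
    simp only [mem_filter] at hy
    rw [e2 y hy.1.2]
  · intro y hy
    simp only [mem_filter] at hy
    rw [e2 y hy.1.2, h0 y hy.2 hy.1.2]

/-- The dual representation. -/
noncomputable abbrev rD (X : Type) (m : ℕ) := (rF X m).dual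

/-- Evaluation at a labelling. -/
noncomputable abbrev ev (f : X → Fin m) : Module.Dual ℂ ((X → Fin m) → ℂ) := LinearMap.proj f

theorem rD_apply (g : Perm X) (l : Module.Dual ℂ ((X → Fin m) → ℂ)) (z : (X → Fin m) → ℂ) :
    rD X m g l z = l (rF X m g⁻¹ z) := rfl

theorem rD_ev (g : Perm X) (f : X → Fin m) : rD X m g (ev f) = ev (f ∘ ⇑g⁻¹) :=
  LinearMap.ext fun _ => rfl

/-- Functionals vanishing on the orbit of `z` under the stabiliser of `A`. -/
def Kz (A : Finset X) (z : (X → Fin m) → ℂ) : Submodule ℂ (Module.Dual ℂ ((X → Fin m) → ℂ)) where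
  carrier := {l | ∀ h, Stab A h → l (rF X m h z) = 0}
  add_mem' := fun {a b} ha hb h hh => by simp [ha h hh, hb h hh]
  zero_mem' := fun _ _ => rfl
  smul_mem' := fun t a ha h hh => by simp [ha h hh]

theorem Kz_inv {A : Finset X} {z : (X → Fin m) → ℂ} {g : Perm X} (hg : Stab A g) :
    ∀ l ∈ Kz A z, rD X m g l ∈ Kz A z := by
  intro l hl h hh
  rw [rD_apply, ← rho_mul_apply]
  exact hl _ (hg.inv.mul hh)

theorem sum_swap_lt {A : Finset X} {f : X → Fin m} {x y : X} (hx : x ∈ A) (hy : y ∉ A)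
    (h : f y < f x) : ∑ w ∈ A, ((f ∘ swap x y) w : ℕ) < ∑ w ∈ A, (f w : ℕ) := by
  refine sum_lt_sum (fun w hw => ?_) ⟨x, hx, by simpa using h⟩
  by_cases h1 : w = x
  · simp [h1, h.le]
  · rw [Function.comp_apply, swap_apply_of_ne_of_ne h1 (by rintro rfl; exact hy hw)]

section Min

variable {c : ℕ} {z : (X → Fin m) → ℂ} {A : Finset X} {s : Perm (Fin m)} {f₀ : X → Fin m}

theorem row_inv {x y : X} (h : f₀ x = f₀ y) :
    rD X m (swap x y) (ev (s ∘ f₀)) = ev (s ∘ f₀) := by
  rw [rD_ev, swap_inv]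
  congr 1
  ext w
  simp only [Function.comp_apply, swap_apply_def]
  split_ifs with h1 h2
  · rw [h1, h]
  · rw [h2, h]
  · rfl

theorem hook_A (hz : z ∈ Zs X m c)
    (hmin : ∀ h, Stab A h → ∀ f : X → Fin m, rF X m h z (s ∘ f) ≠ 0 →
      ∑ x ∈ A, (f₀ x : ℕ) ≤ ∑ x ∈ A, (f x : ℕ))
    {r cl : X → ℕ} (hr : ∀ x ∈ A, r x = f₀ x)
    (inj : ∀ x ∈ A, ∀ y ∈ A, r x = r y → cl x = cl y → x = y)
    (low : ∀ x ∈ A, ∀ i j, i ≤ r x → j ≤ cl x → ∃ y ∈ A, r y = i ∧ cl y = j) :
    Sym (rD X m) one' A r (Sym (rD X m) sgn' A cl (ev (s ∘ f₀))) -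
      (∏ x ∈ A, (hook A r cl x : ℂ)) • ev (s ∘ f₀) ∈ Kz A z := by
  refine hook_lemma _ A 0 rfl (fun g hg => Kz_inv hg.stab) inj (by simp)
    (fun x hx i j _ => low x hx i j) (fun x hx y hy h => row_inv ?_) ?_
  · rw [hr x hx, hr y hy] at h
    exact Fin.ext h
  intro x hx i _ hi h hh
  rw [hr x hx] at hi
  have him : i < m := hi.trans (f₀ x).2
  have := rel_core (rF_mem_Zs h hz) (S := A) (x := x) (L := s ∘ f₀) (p := s ⟨i, him⟩)
    (by simpa [Fin.ext_iff] using hi.ne) (by
      intro y hy hL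
      by_contra hne
      have h1 : f₀ y = ⟨i, him⟩ := by simpa using hL
      have h2 := hmin h hh (f₀ ∘ swap y x) hne
      rw [swap_comm] at h2
      exact absurd h2 (not_le.2 (sum_swap_lt hx hy (by rw [h1]; exact hi))))
  rw [LinearMap.add_apply, LinearMap.sum_apply, ← this]
  congr 1
  refine sum_congr ?_ fun y _ => ?_
  · ext y
    simp only [mem_filter, Function.comp_apply, EmbeddingLike.apply_eq_iff_eq]
    refine and_congr_right fun hy => ?_
    rw [hr y hy, Fin.ext_iff]
  · rw [rD_ev, swap_inv]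
    rfl

theorem hook_B (hz : z ∈ Zs X m c)
    (hmin : ∀ h, Stab A h → ∀ f : X → Fin m, rF X m h z (s ∘ f) ≠ 0 →
      ∑ x ∈ A, (f₀ x : ℕ) ≤ ∑ x ∈ A, (f x : ℕ))
    {r cl : X → ℕ} (hr : ∀ x ∈ Aᶜ, r x = m - 1 - f₀ x)
    (inj : ∀ x ∈ Aᶜ, ∀ y ∈ Aᶜ, r x = r y → cl x = cl y → x = y)
    (low : ∀ x ∈ Aᶜ, ∀ i j, i ≤ r x → j ≤ cl x → ∃ y ∈ Aᶜ, r y = i ∧ cl y = j) :
    Sym (rD X m) one' Aᶜ r (Sym (rD X m) sgn' Aᶜ cl (ev (s ∘ f₀))) -
      (∏ x ∈ Aᶜ, (hook Aᶜ r cl x : ℂ)) • ev (s ∘ f₀) ∈ Kz A z := by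
  refine hook_lemma _ Aᶜ 0 rfl (fun g hg => Kz_inv hg.stab') inj (by simp)
    (fun x hx i j _ => low x hx i j) (fun x hx y hy h => row_inv ?_) ?_
  · rw [hr x hx, hr y hy] at h
    have := (f₀ x).2
    have := (f₀ y).2
    exact Fin.ext (by omega)
  intro x hx i _ hi h hh
  rw [hr x hx] at hi
  have him : m - 1 - i < m := by omega
  have := rel_core (rF_mem_Zs h hz) (S := Aᶜ) (x := x) (L := s ∘ f₀) (p := s ⟨m - 1 - i, him⟩)
    (by simp only [Function.comp_apply, ne_eq, EmbeddingLike.apply_eq_iff_eq, Fin.ext_iff]; omega)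
    (by
      intro y hy hL
      by_contra hne
      have h1 : f₀ y = ⟨m - 1 - i, him⟩ := by simpa using hL
      have h2 := hmin h hh (f₀ ∘ swap y x) hne
      refine absurd h2 (not_le.2 (sum_swap_lt (by simpa using hy) (by simpa using hx) ?_))
      rw [h1, Fin.lt_def]
      simp only
      omega)
  rw [LinearMap.add_apply, LinearMap.sum_apply, ← this]
  congr 1
  refine sum_congr ?_ fun y _ => ?_
  · ext y
    simp only [mem_filter, Function.comp_apply, EmbeddingLike.apply_eq_iff_eq]
    refine and_congr_right fun hy => ?_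
    rw [hr y hy, Fin.ext_iff]
    have := (f₀ y).2
    simp only
    omega
  · rw [rD_ev, swap_inv]
    rfl

end Min

/-- The product of determinants along the columns given by `J`. -/
noncomputable def zD (J : X → ℕ) (L : X → Fin m) : (X → Fin m) → ℂ :=
  Sym (rF X m) sgn' univ J (Pi.single L 1)

theorem zD_apply (J : X → ℕ) (L f : X → Fin m) :
    zD J L f = ∑ d ∈ Yg univ J, if f ∘ d = L then sgn' d else 0 := by
  unfold zD Sym
  rw [LinearMap.sum_apply, Finset.sum_apply]
  refine sum_congr rfl fun d _ => ?_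
  simp [Pi.single_apply]

theorem zD_ne_zero {J : X → ℕ} {L f : X → Fin m} (h : zD J L f ≠ 0) :
    ∃ d ∈ Yg univ J, f ∘ d = L := by
  rw [zD_apply] at h
  obtain ⟨d, hd, h⟩ := exists_ne_zero_of_sum_ne_zero h
  exact ⟨d, hd, by by_contra h'; simp [h'] at h⟩

theorem zD_inj {J : X → ℕ} {L f : X → Fin m} (hL : ∀ x y, J x = J y → L x = L y → x = y)
    (h : zD J L f ≠ 0) : ∀ x y, J x = J y → f x = f y → x = y := by
  obtain ⟨d, hd, rfl⟩ := zD_ne_zero h
  intro x y h1 h2
  have hd' := (mem_Yg.1 (inv_mem_Yg hd)).2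
  have := hL (d⁻¹ x) (d⁻¹ y) (by rw [hd', hd', h1]) (by simpa using h2)
  simpa using this

theorem zD_self {J : X → ℕ} {L : X → Fin m} (hL : ∀ x y, J x = J y → L x = L y → x = y) :
    zD J L L = 1 := by
  rw [zD_apply, sum_eq_single_of_mem 1 (one_mem_Yg _ _)]
  · simp
  · intro d hd h1
    rw [if_neg]
    intro h
    apply h1
    ext x
    exact hL _ _ ((mem_Yg.1 hd).2 x) (congrFun h x)

theorem zD_int (J : X → ℕ) (L f : X → Fin m) : zD J L f ∈ (Int.castRingHom ℂ).range := by
  rw [zD_apply]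
  refine Subring.sum_mem _ fun d _ => ?_
  split_ifs
  · exact ⟨_, rfl⟩
  · exact Subring.zero_mem _

theorem zD_mem {c : ℕ} {J : X → ℕ} {L : X → Fin m} (hc : ∀ p, (univ.filter fun x => L x = p).card = c)
    (hs : ∀ x p, ∃ y, J y = J x ∧ L y = p) : zD J L ∈ Zs X m c := by
  refine ⟨fun p q hpq f => ?_, fun f hf p => ?_⟩
  · have e1 : ∑ x ∈ univ.filter (fun x => f x = p), zD J L (Function.update f x q) =
        ∑ x ∈ univ.filter (fun x => L x = q), zD J (Function.update L x p) f := by
      simp only [zD_apply]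
      rw [sum_comm]
      conv_rhs => rw [sum_comm]
      refine sum_congr rfl fun d _ => ?_
      rw [← sum_filter, ← sum_filter, sum_const, sum_const]
      congr 1
      symm
      refine card_bij' (fun x _ => d x) (fun x _ => d⁻¹ x) ?_ ?_ (by simp) (by simp)
      · intro x hx
        simp only [mem_filter, mem_univ, true_and] at hx ⊢
        refine ⟨by simpa using congrFun hx.2 x, ?_⟩
        rw [update_comp_perm, hx.2, Function.update_idem, ← hx.1, Function.update_eq_self]
      · intro x hx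
        simp only [mem_filter, mem_univ, true_and] at hx ⊢
        obtain ⟨x, rfl⟩ := d.surjective x
        rw [update_comp_perm] at hx
        rw [show d⁻¹ (d x) = x by simp]
        refine ⟨by simp [← hx.2], ?_⟩
        rw [← hx.2, Function.update_idem, ← hx.1]
        exact (Function.update_eq_self x (f ∘ d)).symm
    rw [e1]
    refine sum_eq_zero fun x hx => ?_
    simp only [mem_filter, mem_univ, true_and] at hx
    obtain ⟨y, hy1, hy2⟩ := hs x p
    have hxy : y ≠ x := by rintro rfl; exact hpq (hy2.symm.trans hx)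
    unfold zD
    rw [Sym_sgn_eq_zero (mem_univ y) (mem_univ x) hy1 hxy]
    · rfl
    · ext f'
      have e2 : Function.update L x p ∘ swap y x = Function.update L x p := by
        ext w
        simp only [Function.comp_apply, swap_apply_def]
        split_ifs with h1 h2
        · simp [h1, hxy, hy2]
        · simp [h2, hxy, hy2]
        · rfl
      simp only [rF_apply, Pi.single_apply]
      congr 1
      apply propext
      constructor
      · intro h
        rw [← e2, ← h, Function.comp_assoc]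
        ext w
        simp
      · rintro rfl
        exact e2
  · obtain ⟨d, -, rfl⟩ := zD_ne_zero hf
    rw [← hc p]
    exact (card_filter_comp d fun x => f x = p).symm

end Pool.Agent.P.MP_5e2a31_al
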