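import Pool.Agent.P.MP_5e2a31_al.Inj

set_option maxHeartbeats 400000
set_option linter.unusedSectionVars false

namespace Pool.Agent.P.MP_5e2a31_al

open Finset Equiv
open scoped TensorProduct

variable {X : Type} [Fintype X] [DecidableEq X] {S : Type*} [AddCommGroup S] [Module ℂ S]
  (ρ : Representation ℂ (Perm X) S) {k : ℕ}

/-- The Jucys-Murphy element of `x` in `T`. -/
noncomputable def LL (T : Finset X) (x : X) : Module.End ℂ S := ∑ y ∈ T.erase x, ρ (swap x y)

theorem LL_conj {T : Finset X} {g : Perm X} (hg : Stab T g) (x : X) (v : S) :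
    ρ g (LL ρ T x v) = LL ρ T (g x) (ρ g v) := by
  simp only [LL, LinearMap.sum_apply, map_sum, ← rho_mul_apply]
  refine sum_equiv g (fun y => by simp [hg y]) fun y _ => ?_
  rw [mul_swap_eq_swap_mul]

/-- The contents of the corners of the staircase. -/
noncomputable def cc (k : ℕ) (p : Fin k) : ℂ := (k : ℂ) - 1 - 2 * (p : ℕ)

theorem cc_sub (p q : Fin k) : cc k p - cc k q = ((2 * ((q : ℕ) - (p : ℕ)) : ℤ) : ℂ) := by
  simp only [cc]
  push_cast
  ring

theorem cc_inj : Function.Injective (cc k) := fun p q h => by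
  have := cc_sub p q
  rw [h, sub_self, eq_comm, Int.cast_eq_zero] at this
  exact Fin.ext (by omega)

/-- The quadratic form of the Clifford algebra that multiplies the staircase module. -/
noncomputable def Qk (k : ℕ) : QuadraticForm ℂ (Fin k → ℂ) :=
  Matrix.toQuadraticForm' (Matrix.of fun p q => (1 - (cc k p - cc k q) ^ 2)⁻¹)

/-- The generators. -/
noncomputable def uu (p : Fin k) : CliffordAlgebra (Qk k) := CliffordAlgebra.ι _ (Pi.single p 1)

theorem uu_add (p q : Fin k) (u : CliffordAlgebra (Qk k)) : uu p * (uu q * u) =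
    (2 * (1 - (cc k p - cc k q) ^ 2)⁻¹) • u - uu q * (uu p * u) := by
  rw [eq_sub_iff_add_eq, ← mul_assoc, ← mul_assoc, ← add_mul, uu, uu,
    CliffordAlgebra.ι_mul_ι_add_swap, ← Algebra.smul_def]
  congr 1
  rw [Qk, Matrix.toQuadraticForm', LinearMap.BilinMap.polar_toQuadraticMap]
  simp only [Matrix.toLinearMap₂'_apply', Matrix.mulVec_single_one, single_dotProduct, one_mul,
    Matrix.col_apply, Matrix.of_apply]
  ring

theorem uu_sq (p : Fin k) (u : CliffordAlgebra (Qk k)) : uu p * (uu p * u) = u := by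
  have := uu_add p p u
  simp only [sub_self, ne_eq, OfNat.ofNat_ne_zero, not_false_eq_true, zero_pow, sub_zero, inv_one,
    mul_one] at this
  linear_combination (norm := module) (2 : ℂ)⁻¹ • this

theorem exists_cliff
    (H1 : ∀ x (P : Submodule ℂ S), (∀ v p, LL ρ univ x v = cc k p • v → v ∈ P) → ∀ v, v ∈ P)
    (H2 : ∀ x y, x ≠ y → ∀ P : Submodule ℂ S, (∀ v p q, p ≠ q → LL ρ univ x v = cc k p • v →
      LL ρ (univ.erase x) y v = cc k q • v → v ∈ P) → ∀ v, v ∈ P) :
    ∃ (a : X → Module.End ℂ (S ⊗[ℂ] CliffordAlgebra (Qk k)))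
      (ε : Module.End ℂ (S ⊗[ℂ] CliffordAlgebra (Qk k))), Cf a ∧
      (∀ g x v, (ρ g).rTensor _ (a x v) = a (g x) ((ρ g).rTensor _ v)) ∧ Function.Injective ε ∧
      (∀ g v, ε ((ρ g).rTensor _ v) = (ρ g).rTensor _ (ε v)) ∧ ∀ x v, ε (a x v) = - a x (ε v) := by
  let a : X → Module.End ℂ (S ⊗[ℂ] CliffordAlgebra (Qk k)) := fun x => ∑ j, TensorProduct.map
    (Polynomial.aeval (LL ρ univ x) (Lagrange.basis univ (cc k) j)) (LinearMap.mulLeft ℂ (uu j))
  have h1 : ∀ x v p u, LL ρ univ x v = cc k p • v → a x (v ⊗ₜ u) = v ⊗ₜ (uu p * u) := by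
    intro x v p u hv
    simp only [a, LinearMap.sum_apply, TensorProduct.map_tmul,
      Module.End.aeval_apply_of_mem_apply_eq_smul hv]
    rw [sum_eq_single p]
    · rw [Lagrange.eval_basis_self cc_inj.injOn (mem_univ _), one_smul]
      rfl
    · intro j _ hj
      rw [Lagrange.eval_basis_of_ne hj (mem_univ _), zero_smul, TensorProduct.zero_tmul]
    · simp
  have ex : ∀ f g : Module.End ℂ (S ⊗[ℂ] CliffordAlgebra (Qk k)), ∀ Q : S → Prop,
      (∀ P : Submodule ℂ S, (∀ v, Q v → v ∈ P) → ∀ v, v ∈ P) →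
      (∀ v u, Q v → f (v ⊗ₜ u) = g (v ⊗ₜ u)) → f = g := fun f g Q hQ h =>
    TensorProduct.ext' fun v u => hQ (LinearMap.eqLocus (f ∘ₗ (TensorProduct.mk ℂ _ _).flip u)
      (g ∘ₗ (TensorProduct.mk ℂ _ _).flip u)) (fun v hv => h v u hv) v
  have h2 : ∀ g x v, (ρ g).rTensor _ (a x v) = a (g x) ((ρ g).rTensor _ v) := by
    intro g x
    refine LinearMap.congr_fun (ex ((ρ g).rTensor _ * a x) (a (g x) * (ρ g).rTensor _)
      (fun v => ∃ p, LL ρ univ x v = cc k p • v)
      (fun P hP => H1 x P fun v p hv => hP v ⟨p, hv⟩) ?_)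
    rintro v u ⟨p, hv⟩
    simp only [Module.End.mul_apply, LinearMap.rTensor_tmul]
    rw [h1 x v p u hv, h1 (g x) _ p u (by rw [← LL_conj ρ (fun _ => by simp), hv, map_smul]),
      LinearMap.rTensor_tmul]
  refine ⟨a, (CliffordAlgebra.involute.toLinearMap).lTensor _, ⟨fun x => ?_, fun x y hxy => ?_⟩,
    h2, Function.Involutive.injective fun v => ?_, fun g v => ?_, fun x v => ?_⟩
  · refine ex _ _ (fun v => ∃ p, LL ρ univ x v = cc k p • v)
      (fun P hP => H1 x P fun v p hv => hP v ⟨p, hv⟩) ?_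
    rintro v u ⟨p, hv⟩
    rw [Module.End.mul_apply, h1 x v p u hv, h1 x v p _ hv, uu_sq, Module.End.one_apply]
  · refine ex _ _ (fun v => ∃ p q, p ≠ q ∧ LL ρ univ x v = cc k p • v ∧
      LL ρ (univ.erase x) y v = cc k q • v)
      (fun P hP => H2 x y hxy P fun v p q a1 a2 a3 => hP v ⟨p, q, a1, a2, a3⟩) ?_
    rintro v u ⟨p, q, hpq, hp, hq⟩
    have hd : cc k p - cc k q ≠ 0 := sub_ne_zero.2 (cc_inj.ne hpq)
    have hd' : 1 - (cc k p - cc k q) ^ 2 ≠ 0 := by
      rw [cc_sub]
      intro h
      have : (1 - (2 * ((q : ℕ) - (p : ℕ) : ℤ)) ^ 2 : ℤ) = 0 := by exact_mod_cast h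
      have h' : (2 : ℤ) ∣ 1 := ⟨2 * ((q : ℕ) - (p : ℕ) : ℤ) ^ 2, by linear_combination this⟩
      norm_num at h'
    have ss : ∀ v, ρ (swap x y) (ρ (swap x y) v) = v := fun v => by
      rw [← rho_mul_apply, swap_mul_self, map_one, Module.End.one_apply]
    have b1 : LL ρ univ x (ρ (swap x y) v) = cc k q • ρ (swap x y) v + v := by
      have := LL_conj ρ (T := univ) (g := swap x y) (fun _ => by simp) y v
      rw [swap_apply_right] at this
      rw [← this, ← map_smul, ← hq, LL, LL, ← add_sum_erase _ _ (a := x) (by simp [hxy]),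
        erase_right_comm, LinearMap.add_apply, map_add, swap_comm y x, ss, add_comm]
    have b2 : ∀ u, a x (ρ (swap x y) v ⊗ₜ u) = ρ (swap x y) v ⊗ₜ (uu q * u) +
        (cc k p - cc k q)⁻¹ • (v ⊗ₜ (uu p * u) - v ⊗ₜ (uu q * u)) := by
      intro u
      have := h1 x (ρ (swap x y) v - (cc k p - cc k q)⁻¹ • v) q u (by
        rw [map_sub, map_smul, b1, hp]
        linear_combination (norm := module) -(inv_mul_cancel₀ hd) • v)
      rw [TensorProduct.sub_tmul, TensorProduct.sub_tmul, map_sub, ← TensorProduct.smul_tmul',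
        ← TensorProduct.smul_tmul', map_smul, h1 x v p u hp] at this
      linear_combination (norm := module) this
    have b3 : ∀ u, a y (v ⊗ₜ u) = v ⊗ₜ (uu q * u) + (cc k p - cc k q)⁻¹ •
        (ρ (swap x y) v ⊗ₜ (uu p * u) - ρ (swap x y) v ⊗ₜ (uu q * u)) := by
      intro u
      have := h2 (swap x y) x (ρ (swap x y) v ⊗ₜ u)
      rw [b2, swap_apply_left] at this
      simpa [ss] using this.symm
    have b4 : 2 * (1 - (cc k p - cc k q) ^ 2)⁻¹ + (cc k p - cc k q)⁻¹ ^ 2 *
        (2 - 2 * (1 - (cc k p - cc k q) ^ 2)⁻¹) = 0 := by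
      field_simp
      ring
    simp only [Module.End.mul_apply, LinearMap.smul_apply, h1 x v p _ hp, b3, map_add, map_smul,
      map_sub, b2, uu_sq, uu_add p q, TensorProduct.tmul_sub, TensorProduct.tmul_smul]
    linear_combination (norm := module) b4 • (v ⊗ₜ[ℂ] u)
  · induction v using TensorProduct.induction_on with
    | zero => simp
    | tmul v u => simp
    | add v w hv hw => rw [map_add, map_add, hv, hw]
  · rw [← LinearMap.comp_apply, ← LinearMap.comp_apply, LinearMap.lTensor_comp_rTensor,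
      LinearMap.rTensor_comp_lTensor]
  · induction v using TensorProduct.induction_on with
    | zero => simp
    | tmul v u => simp [a, LinearMap.sum_apply, uu, TensorProduct.tmul_neg]
    | add v w hv hw => rw [map_add, map_add, hv, hw, map_add, map_add, neg_add]

section Spec

variable {V V' : Type*} [AddCommGroup V] [Module ℂ V] [AddCommGroup V'] [Module ℂ V']
  {A : Module.End ℂ V} {c : Fin k → ℂ} {e : Fin k → V →ₗ[ℂ] V'}

theorem spec_van (hc : Function.Injective c)
    (h : ∀ v p, (∀ j, p < j → e j v = 0) → e p (A v) = c p • e p v) {v : V} {p : Fin k}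
    (hv : A v = c p • v) : ∀ j, p < j ∨ e p v = 0 → e j v = 0 := by
  intro j
  induction j using WellFoundedGT.induction with
  | ind j ih =>
  intro hj
  by_cases hp : j = p
  · subst hp
    exact hj.resolve_left (lt_irrefl _)
  · have := h v j fun i hi => ih i hi (hj.imp (fun a => a.trans hi) id)
    rw [hv, map_smul, ← sub_eq_zero, ← sub_smul, smul_eq_zero, sub_eq_zero] at this
    exact this.resolve_left fun a => hp (hc a).symm

theorem spec_span (hc : Function.Injective c) (h0 : ∀ v, (∀ j, e j v = 0) → v = 0)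
    (h : ∀ v p, (∀ j, p < j → e j v = 0) → e p (A v) = c p • e p v) (P : Submodule ℂ V)
    (hP : ∀ v p, A v = c p • v → v ∈ P) (v : V) : v ∈ P := by
  have H : ∀ n : ℕ, ∀ v, (∀ j : Fin k, n ≤ j → e j v = 0) →
      v ∈ Submodule.span ℂ {v | ∃ p : Fin k, (p : ℕ) < n ∧ A v = c p • v} := by
    intro n
    induction n with
    | zero =>
      intro v hv
      rw [h0 v fun j => hv j (Nat.zero_le _)]
      exact Submodule.zero_mem _
    | succ n ih =>
      intro v hv
      have mono : Submodule.span ℂ {v | ∃ p : Fin k, (p : ℕ) < n ∧ A v = c p • v} ≤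
          Submodule.span ℂ {v | ∃ p : Fin k, (p : ℕ) < n + 1 ∧ A v = c p • v} :=
        Submodule.span_mono fun v ⟨p, h1, h2⟩ => ⟨p, h1.trans n.lt_succ_self, h2⟩
      by_cases hn : n < k
      · have a1 := ih (A v - c ⟨n, hn⟩ • v) fun j hj => by
          rw [map_sub, map_smul, h v j fun i hi => hv i (by have := Fin.lt_def.1 hi; omega)]
          rcases hj.lt_or_eq with a | a
          · simp [hv j a]
          · obtain rfl : j = ⟨n, hn⟩ := Fin.ext a.symm
            exact sub_self _
        have a2 : ∀ u ∈ Submodule.span ℂ {v | ∃ p : Fin k, (p : ℕ) < n ∧ A v = c p • v},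
            ∃ u' ∈ Submodule.span ℂ {v | ∃ p : Fin k, (p : ℕ) < n ∧ A v = c p • v},
              A u' - c ⟨n, hn⟩ • u' = u := by
          intro u hu
          induction hu using Submodule.span_induction with
          | mem u hu =>
            have hu' := Submodule.subset_span (R := ℂ) hu
            obtain ⟨p, b1, b2⟩ := hu
            refine ⟨(c p - c ⟨n, hn⟩)⁻¹ • u, Submodule.smul_mem _ _ hu', ?_⟩
            have a3 : c p - c ⟨n, hn⟩ ≠ 0 := sub_ne_zero.2 (hc.ne fun a => by
              rw [a] at b1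
              exact lt_irrefl _ b1)
            rw [map_smul, b2]
            linear_combination (norm := module) (inv_mul_cancel₀ a3) • u
          | zero => exact ⟨0, Submodule.zero_mem _, by simp⟩
          | add x y _ _ hx hy =>
            obtain ⟨x', a, rfl⟩ := hx
            obtain ⟨y', b, rfl⟩ := hy
            exact ⟨x' + y', Submodule.add_mem _ a b, by rw [map_add]; module⟩
          | smul t x _ hx =>
            obtain ⟨x', a, rfl⟩ := hx
            exact ⟨t • x', Submodule.smul_mem _ _ a, by rw [map_smul]; module⟩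
        obtain ⟨u, a3, a4⟩ := a2 _ a1
        rw [← sub_add_cancel v u]
        refine Submodule.add_mem _ (Submodule.subset_span ⟨⟨n, hn⟩, n.lt_succ_self, ?_⟩) (mono a3)
        rw [map_sub]
        linear_combination (norm := module) -a4
      · exact mono (ih v fun j hj => absurd (hj.trans_lt j.2) hn)
  refine Submodule.span_le.2 ?_ (H k v fun j hj => absurd j.2 hj.not_gt)
  rintro v ⟨p, -, h2⟩
  exact hP v p h2

end Spec

end Pool.Agent.P.MP_5e2a31_al
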