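import Pool.Agent.P.MP_5e2a31_al.JMA

set_option maxHeartbeats 400000
set_option linter.unusedSectionVars false

namespace Pool.Agent.P.MP_5e2a31_al

open Finset Equiv

variable {X : Type} [Fintype X] [DecidableEq X] {k : ℕ}

/-- The positions in `T` of words on `X`. -/
def slT (k : ℕ) (T : Finset X) : Slot (X → Fin k) T k where
  get w p := w p
  set w p j := Function.update w p j
  get_set w p j := by simp
  get_set_ne w p q j h := Function.update_of_ne (Subtype.coe_ne_coe.2 h) _ _
  set_set w p i j := by simp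
  set_get w p := by simp
  set_comm w p q i j h := Function.update_comm (Subtype.coe_ne_coe.2 h) _ _ _

/-- The matrix unit at `x`. -/
noncomputable def ee (x : X) (i j : Fin k) : Module.End ℂ ((X → Fin k) → ℂ) :=
  (slT k univ).e ℂ ⟨x, mem_univ x⟩ i j

/-- The root vectors acting on the positions in `T`. -/
noncomputable def ES (T : Finset X) (i j : Fin k) : Module.End ℂ ((X → Fin k) → ℂ) :=
  ∑ y ∈ T, ee y i j

theorem ee_apply (x : X) (i j : Fin k) (f : (X → Fin k) → ℂ) (w : X → Fin k) :
    ee x i j f w = if w x = i then f (Function.update w x j) else 0 := rfl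

theorem ee_mul (x : X) (i j a b : Fin k) (f : (X → Fin k) → ℂ) :
    ee x i j (ee x a b f) = if j = a then ee x i b f else 0 := by
  have := LinearMap.congr_fun ((slT k univ).e_mul (K := ℂ) ⟨x, mem_univ x⟩ i j a b) f
  split_ifs at this ⊢ <;> exact this

theorem ee_comm {x y : X} (h : x ≠ y) (i j a b : Fin k) (f : (X → Fin k) → ℂ) :
    ee x i j (ee y a b f) = ee y a b (ee x i j f) :=
  LinearMap.congr_fun ((slT k univ).e_comm (K := ℂ) (Subtype.coe_ne_coe.1 h) i j a b) f

theorem ES_eq (T : Finset X) (i j : Fin k) : ES T i j = (slT k T).E ℂ i j :=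
  (sum_coe_sort T fun y => ee y i j).symm

theorem ee_ES {x : X} {T : Finset X} (h : x ∉ T) (i j a b : Fin k) (f : (X → Fin k) → ℂ) :
    ee x i j (ES T a b f) = ES T a b (ee x i j f) := by
  simp only [ES, LinearMap.sum_apply, map_sum]
  exact sum_congr rfl fun y hy => ee_comm (by rintro rfl; exact h hy) _ _ _ _ _

theorem ES_erase {x : X} {T : Finset X} (h : x ∈ T) (i j : Fin k) (f : (X → Fin k) → ℂ) :
    ES (T.erase x) i j f = ES T i j f - ee x i j f := by
  rw [ES, ES, ← add_sum_erase _ _ h]
  simp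

theorem swap_eq {x y : X} (h : x ≠ y) (f : (X → Fin k) → ℂ) :
    rF X k (swap x y) f = ∑ i, ∑ j, ee x i j (ee y j i f) := by
  ext w
  simp only [rF_apply, Finset.sum_apply, ee_apply, Function.update_of_ne h.symm]
  rw [sum_eq_single (w x), sum_eq_single (w y), swap_comm, comp_swap_eq_update,
    Function.update_comm h]
  · simp
  · intro j _ hj
    simp [hj.symm]
  · simp
  · intro i _ hi
    simp [hi.symm]
  · simp

theorem LL_eq (T : Finset X) (x : X) (f : (X → Fin k) → ℂ) :
    LL (rF X k) T x f = ∑ i, ∑ j, ee x i j (ES (T.erase x) j i f) := by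
  simp only [LL, ES, LinearMap.sum_apply, map_sum]
  rw [sum_congr rfl fun y hy => swap_eq (ne_of_mem_erase hy).symm f, sum_comm]
  exact sum_congr rfl fun i _ => sum_comm

/-- Highest weight vectors of weight `lam` for the positions in `T`. -/
def HW (T : Finset X) (lam : Fin k → ℤ) (f : (X → Fin k) → ℂ) : Prop :=
  (∀ i j, i < j → ES T i j f = 0) ∧ ∀ i, ES T i i f = (lam i : ℂ) • f

variable {T : Finset X} {lam : Fin k → ℤ} {f : (X → Fin k) → ℂ}

theorem HW.jm (h : HW T lam f) {x : X} (hx : x ∈ T) {p : Fin k}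
    (hp : ∀ j, p < j → ee x j j f = 0) :
    ee x p p (LL (rF X k) T x f) = ((lam p : ℂ) - 1 - (p : ℕ)) • ee x p p f := by
  rw [LL_eq, map_sum, sum_eq_single p]
  · have : ∀ j, ee x p p (ee x p j (ES (T.erase x) j p f)) =
        ((if j ∈ Iio p then -1 else 0) + if j = p then (lam p : ℂ) - 1 else 0) • ee x p p f := by
      intro j
      rw [ee_mul, if_pos rfl]
      rcases lt_trichotomy j p with a | rfl | a
      · simp [ES_erase hx, h.1 j p a, ee_mul, a, a.ne]
      · simp [ES_erase hx, h.2, ee_mul, sub_smul]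
      · have e := ee_mul x p j j j f
        rw [hp j a, map_zero, if_pos rfl] at e
        simp [ee_ES, ← e, a.ne', a.not_gt]
    simp only [map_sum, this, ← sum_smul, sum_add_distrib, sum_ite_mem, univ_inter, sum_const,
      Fin.card_Iio, sum_ite_eq', mem_univ, if_true]
    congr 1
    simp
    ring
  · intro i _ hi
    simp [ee_mul, hi.symm]
  · simp

theorem HW.top (h : HW T lam f) {x : X} (hx : x ∈ T) {p : Fin k}
    (hp : ∀ j, p < j → ee x j j f = 0) :
    HW (T.erase x) (lam - Pi.single p 1) (ee x p p f) := by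
  refine ⟨fun i j hij => ?_, fun i => ?_⟩
  · rw [← ee_ES (by simp), ES_erase hx, h.1 i j hij, zero_sub, map_neg, ee_mul]
    split_ifs with a
    · subst a
      have e := ee_mul x p j j j f
      rw [hp j hij, map_zero, if_pos rfl] at e
      rw [← e, neg_zero]
    · simp
  · rw [← ee_ES (by simp), ES_erase hx, h.2, map_sub, map_smul, ee_mul]
    by_cases a : p = i
    · subst a
      simp [sub_smul]
    · simp [a, Ne.symm a]

theorem HW.eq_zero_of_neg (h : HW T lam f) {i : Fin k} (hi : lam i < 0) : f = 0 := by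
  ext w
  have := congrFun (h.2 i) w
  rw [ES_eq, Slot.E_diag, Dg_apply, Pi.smul_apply, ← sub_eq_zero, ← sub_smul, smul_eq_zero,
    sub_eq_zero] at this
  refine this.resolve_left fun a => ?_
  have : (((slT k T).cont w i : ℕ) : ℤ) = lam i := by exact_mod_cast a
  omega

theorem HW.eq_zero_of_lt (h : HW T lam f) {i j : Fin k} (hij : i < j) (hi : lam i < lam j) :
    f = 0 := by
  have h1 := Slot.pr_star (ES T j i f)
  have h2 := LinearMap.congr_fun ((slT k T).E_comm (K := ℂ) i j j i) f
  simp only [← ES_eq, if_true, LinearMap.sub_apply, Module.End.mul_apply, h.1 i j hij, map_zero,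
    sub_zero, h.2, ← sub_smul] at h2
  rw [ES_eq, ← Slot.E_star, Slot.pr_E, ← ES_eq, ← ES_eq, h2] at h1
  have h3 : pr (star f) (((lam i : ℂ) - lam j) • f) = ((lam i : ℂ) - lam j) * pr (star f) f := by
    simp [pr, mul_sum, mul_left_comm]
  rw [h3, Slot.pr_star] at h1
  have h4 : ((lam i : ℝ) - lam j) * ∑ w, Complex.normSq (f w) =
      ∑ w, Complex.normSq (ES T j i f w) := by exact_mod_cast h1
  have h5 : (lam i : ℝ) < lam j := by exact_mod_cast hi
  have h6 : 0 ≤ ∑ w, Complex.normSq (f w) := sum_nonneg fun _ _ => Complex.normSq_nonneg _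
  have h7 : 0 ≤ ∑ w, Complex.normSq (ES T j i f w) :=
    sum_nonneg fun _ _ => Complex.normSq_nonneg _
  exact Slot.eq_zero_of_nrm (by nlinarith)

theorem eq_zero_of_ee {x : X} (h : ∀ j, ee x j j f = 0) : f = 0 := by
  ext w
  simpa [ee_apply] using congrFun (h (w x)) w

theorem ee_rF (g : Perm X) (y : X) (i j : Fin k) (f : (X → Fin k) → ℂ) :
    rF X k g (ee y i j f) = ee (g y) i j (rF X k g f) := by
  ext w
  simp [ee_apply, update_comp_perm]

theorem HW.act (h : HW univ lam f) (g : Perm X) : HW univ lam (rF X k g f) := by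
  have : ∀ i j, ES univ i j (rF X k g f) = rF X k g (ES univ i j f) := fun i j => by
    simp only [ES, LinearMap.sum_apply, map_sum, ee_rF]
    exact (Equiv.sum_comp g fun y => ee y i j (rF X k g f)).symm
  exact ⟨fun i j hij => by rw [this, h.1 i j hij, map_zero], fun i => by rw [this, h.2, map_smul]⟩

section Stair

variable {S : Submodule ℂ ((X → Fin k) → ℂ)} (hS : ∀ g, S ≤ S.comap (rF X k g))

theorem LL_sub (T : Finset X) (x : X) (v : S) :
    (LL ((rF X k).subrepresentation S hS) T x v).1 = LL (rF X k) T x v.1 := by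
  simp [LL, LinearMap.sum_apply]

theorem stair_jm (hW : ∀ f ∈ S, HW univ (fun p => (k : ℤ) - (p : ℕ)) f) (x : X) (v : S)
    (p : Fin k) (hp : ∀ j, p < j → (ee x j j ∘ₗ S.subtype) v = 0) :
    (ee x p p ∘ₗ S.subtype) (LL ((rF X k).subrepresentation S hS) univ x v) =
      cc k p • (ee x p p ∘ₗ S.subtype) v := by
  refine (congrArg (ee x p p) (LL_sub hS _ _ _)).trans (((hW v v.2).jm (mem_univ x) hp).trans ?_)
  congr 1
  simp only [cc]
  push_cast
  ring

theorem stair_H1 (hW : ∀ f ∈ S, HW univ (fun p => (k : ℤ) - (p : ℕ)) f) (x : X)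
    (P : Submodule ℂ S)
    (hP : ∀ v p, LL ((rF X k).subrepresentation S hS) univ x v = cc k p • v → v ∈ P) (v : S) :
    v ∈ P :=
  spec_span (e := fun j => ee x j j ∘ₗ S.subtype) cc_inj
    (fun _ h => Subtype.ext (eq_zero_of_ee h)) (stair_jm hS hW x) P hP v

theorem stair_H2 (hW : ∀ f ∈ S, HW univ (fun p => (k : ℤ) - (p : ℕ)) f) (x y : X) (hxy : x ≠ y)
    (P : Submodule ℂ S)
    (hP : ∀ v p q, p ≠ q → LL ((rF X k).subrepresentation S hS) univ x v = cc k p • v →
      LL ((rF X k).subrepresentation S hS) (univ.erase x) y v = cc k q • v → v ∈ P) (v : S) :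
    v ∈ P := by
  refine stair_H1 hS hW x P (fun v p hv => ?_) v
  set ρ := (rF X k).subrepresentation S hS with hρ
  let E := Module.End.eigenspace (LL ρ univ x) (cc k p)
  have hE : ∀ v, v ∈ E ↔ LL ρ univ x v = cc k p • v := fun v => Module.End.mem_eigenspace_iff
  have h1 : ∀ v ∈ E, LL ρ (univ.erase x) y v ∈ E := fun v hv => by
    rw [LL, LinearMap.sum_apply]
    refine E.sum_mem fun z hz => (hE _).2 ?_
    have := LL_conj ρ (T := univ) (g := swap y z) (fun _ => by simp) x v
    rw [swap_apply_of_ne_of_ne hxy (ne_of_mem_erase (mem_of_mem_erase hz)).symm] at this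
    rw [← this, (hE v).1 hv, map_smul]
  have h2 := fun v : E => spec_van cc_inj (stair_jm hS hW x) ((hE _).1 v.2)
  have h3 := fun v : E => (hW _ v.1.2).top (mem_univ x) fun j hj => h2 v j (Or.inl hj)
  have hy : y ∈ univ.erase x := by simp [hxy.symm]
  let e : Fin k → E →ₗ[ℂ] _ := fun q => ee y q q ∘ₗ ee x p p ∘ₗ S.subtype ∘ₗ E.subtype
  have h4 : ∀ v : E, (∀ j, p < j → e j v = 0) → e p v = 0 := fun v h => by
    have a1 := (h3 v).top hy h
    by_cases a2 : (p : ℕ) + 1 < k
    · refine a1.eq_zero_of_lt (i := p) (j := ⟨_, a2⟩) (by simp [Fin.lt_def]) ?_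
      have : (⟨_, a2⟩ : Fin k) ≠ p := by simp [Fin.ext_iff]
      simp only [Pi.sub_apply, Pi.single_eq_same, Pi.single_eq_of_ne this]
      omega
    · refine a1.eq_zero_of_neg (i := p) ?_
      simp only [Pi.sub_apply, Pi.single_eq_same]
      omega
  have h5 : ∀ v : E, (∀ j, e j v = 0) → v = 0 := fun v h =>
    Subtype.ext (Subtype.ext (eq_zero_of_ee fun j => h2 v j (Or.inr (eq_zero_of_ee h))))
  have h6 : ∀ (v : E) q, (∀ j, q < j → e j v = 0) →
      e q ((LL ρ (univ.erase x) y).restrict h1 v) = cc k q • e q v := fun v q h => by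
    have a1 := (h3 v).jm hy h
    have a2 : ee x p p (LL (rF X k) (univ.erase x) y v.1.1) =
        LL (rF X k) (univ.erase x) y (ee x p p v.1.1) := by
      simp only [LL, LinearMap.sum_apply, map_sum, ee_rF]
      exact sum_congr rfl fun z hz => by
        rw [swap_apply_of_ne_of_ne hxy (ne_of_mem_erase (mem_of_mem_erase hz)).symm]
    refine (congrArg (fun f => ee y q q (ee x p p f)) (LL_sub hS _ _ v.1)).trans ?_
    rw [a2, a1]
    by_cases a3 : q = p
    · subst a3
      have := h4 v h
      rw [this, smul_zero]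
      exact smul_eq_zero_of_right _ this
    · congr 1
      simp only [cc, Pi.sub_apply, Pi.single_eq_of_ne a3]
      push_cast
      ring
  refine spec_span (V := E) (e := e) cc_inj h5 h6 (P.comap E.subtype) (fun v q hq => ?_)
    ⟨v, (hE v).2 hv⟩
  by_cases a : p = q
  · subst a
    have a1 := spec_van (V := E) (e := e) cc_inj h6 hq
    rw [h5 v fun j => a1 j (Or.inr (h4 v fun j hj => a1 j (Or.inl hj)))]
    exact Submodule.zero_mem _
  · exact hP _ p q a ((hE _).1 v.2) (congrArg Subtype.val hq)

end Stair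

theorem zD_HW {J : X → ℕ} {L : X → Fin k} (hc : ∀ p, ((univ.filter fun x => L x = p).card : ℤ) = lam p)
    (hs : ∀ x p, p < L x → ∃ y, J y = J x ∧ L y = p) : HW univ lam (zD J L) := by
  refine ⟨fun p q hpq => funext fun f => ?_, fun p => funext fun f => ?_⟩
  · have e1 : ∑ x ∈ univ.filter (fun x => f x = p), zD J L (Function.update f x q) =
        ∑ x ∈ univ.filter (fun x => L x = q), zD J (Function.update L x p) f := by
      simp only [zD_apply]
      rw [sum_comm]
      conv_rhs => rw [sum_comm]
      refine sum_congr rfl fun d _ => ?_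
      rw [← sum_filter, ← sum_filter, sum_const, sum_const]
      congr 1
      symm
      refine card_bij' (fun x _ => d x) (fun x _ => d⁻¹ x) ?_ ?_ (by simp) (by simp)
      · intro x hx
        simp only [mem_filter, mem_univ, true_and] at hx ⊢
        refine ⟨by simpa using congrFun hx.2 x, ?_⟩
        rw [update_comp_perm, hx.2, Function.update_idem, ← hx.1, Function.update_eq_self]
      · intro x hx
        simp only [mem_filter, mem_univ, true_and] at hx ⊢
        obtain ⟨x, rfl⟩ := d.surjective x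
        rw [update_comp_perm] at hx
        rw [show d⁻¹ (d x) = x by simp]
        refine ⟨by simp [← hx.2], ?_⟩
        rw [← hx.2, Function.update_idem, ← hx.1]
        exact (Function.update_eq_self x (f ∘ d)).symm
    simp only [ES, LinearMap.sum_apply, Finset.sum_apply, ee_apply, ← sum_filter, e1, Pi.zero_apply]
    refine sum_eq_zero fun x hx => ?_
    simp only [mem_filter, mem_univ, true_and] at hx
    obtain ⟨y, hy1, hy2⟩ := hs x p (hx ▸ hpq)
    have hxy : y ≠ x := by rintro rfl; exact hpq.ne (hy2.symm.trans hx)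
    unfold zD
    rw [Sym_sgn_eq_zero (mem_univ y) (mem_univ x) hy1 hxy]
    · rfl
    · ext f'
      have e2 : Function.update L x p ∘ swap y x = Function.update L x p :=
        comp_swap_eq (by simp [hxy, hy2])
      simp only [rF_apply, Pi.single_apply]
      congr 1
      apply propext
      constructor
      · intro h
        rw [← e2, ← h, Function.comp_assoc]
        ext w
        simp
      · rintro rfl
        exact e2
  · rw [ES_eq, Slot.E_diag, Dg_apply, Pi.smul_apply]
    by_cases hf : zD J L f = 0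
    · simp [hf]
    · obtain ⟨d, -, rfl⟩ := zD_ne_zero hf
      congr 1
      rw [← hc p, Slot.cont_apply, Int.cast_natCast]
      congr 1
      refine Eq.trans ?_ (card_filter_comp d fun x => f x = p).symm
      exact card_bij (fun x _ => x.1) (fun x hx => mem_filter.2 ⟨x.2, (mem_filter.1 hx).2⟩)
        (fun _ _ _ _ h => Subtype.ext h) fun b hb =>
          ⟨⟨b, mem_univ b⟩, mem_filter.2 ⟨mem_univ _, (mem_filter.1 hb).2⟩, rfl⟩

end Pool.Agent.P.MP_5e2a31_al
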