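import Pool.Agent.P.MP_5e2a31_al.Core
import Pool.Agent.P.MP_5e2a31_al.Final
import Pool.Agent.P.MP_5e2a31_al.DefsA

set_option maxHeartbeats 400000
set_option linter.unusedSectionVars false

namespace Pool.Agent.P.MP_5e2a31_al

open Finset Equiv SemidirectProduct
open scoped TensorProduct

theorem mem_staircase {k : ℕ} {c : ℕ × ℕ} : c ∈ staircase k ↔ c.1 + c.2 < k := by
  rw [← YoungDiagram.mem_cells]
  simp only [staircase, mem_filter, mem_product, mem_range]
  omega

theorem transfer {X : Type} [Fintype X] [DecidableEq X] {k n : ℕ} (T : Stair X k) (e : X ≃ Fin n)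
    {V : Type} [AddCommGroup V] [Module ℂ V] (U : Representation ℂ (weylA n) V)
    (hne : ∀ f : U.IntertwiningMap
      ((resSum (weylA n) fun _ : Unit => specht n (staircase k) ⊥).tprod
        (resSum (weylA n) fun _ : Unit => specht n (staircase k) ⊥)), f = 0) :
    ∃ (S : Submodule ℂ ((X → Fin k) → ℂ)) (hS : ∀ g, S ≤ S.comap (rF _ _ g))
      (U' : Representation ℂ (Perm X) V), (∀ f ∈ S, HW univ (fun p => (k : ℤ) - (p : ℕ)) f) ∧
      T.eT ∈ S ∧ ∀ (a b : S) (β : S →ₗ[ℂ] S →ₗ[ℂ] ℂ) (v : V),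
        ∑ g, β ((rF _ _).subrepresentation S hS g a) ((rF _ _).subrepresentation S hS g b) •
          U' g⁻¹ v = 0 := by
  classical
  let θ : Perm X →* weylA n := (inr : Perm (Fin n) →* HypOct n).rangeRestrict.comp
    e.permCongrHom.toMonoidHom
  have hθ : Function.Bijective θ :=
    ⟨(MonoidHom.rangeRestrict_injective_iff.2 inr_injective).comp e.permCongrHom.injective,
      (MonoidHom.rangeRestrict_surjective _).comp e.permCongrHom.surjective⟩
  let R : ((Fin n → ℕ ⊕ ℕ) → ℂ) →ₗ[ℂ] ((X → Fin k) → ℂ) :=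
    LinearMap.funLeft ℂ ℂ fun w i => Sum.inl (w (e.symm i))
  have hR : ∀ g y, R (tabRep n (θ g) y) = rF X k g (R y) := fun g y => funext fun w => by
    change tabRep n (inr (e.permCongr g)) y _ = y _
    rw [tabRep_apply, signAt_inr, one_mul]
    congr 1
    ext i
    simp
  let τ : Fin n → (ℕ × ℕ) ⊕ (ℕ × ℕ) := fun i => Sum.inl (T.row (e.symm i), T.col (e.symm i))
  have hτ : IsBitableau (staircase k) ⊥ τ := by
    refine ⟨fun i j h => e.symm.injective ?_, ?_⟩
    · simp only [τ, Sum.inl.injEq, Prod.mk.injEq] at h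
      exact T.inj _ _ h.1 h.2
    · rintro (c | c)
      · rw [Sum.elim_inl, mem_staircase]
        constructor
        · rintro ⟨i, hi⟩
          rw [← Sum.inl_injective hi]
          exact T.lt _
        · intro h
          obtain ⟨x, h1, h2⟩ := T.surj _ _ h
          exact ⟨e x, by simp [τ, h1, h2]⟩
      · simp [τ]
  have he : R (polytabloid τ) = T.eT := funext fun w => by
    change polytabloid τ _ = zD _ _ _
    rw [polytabloid_apply, zD_apply]
    symm
    refine sum_equiv e.permCongr (fun d => ?_) fun d _ => ?_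
    · simp [mem_Yg, τ, e.forall_congr_left]
    · simp [τ, funext_iff, e.forall_congr_left, sgn', Stair.rowF, Fin.ext_iff]
  let S := Submodule.span ℂ (Set.range fun g => rF X k g T.eT)
  have hS : ∀ g, S ≤ S.comap (rF X k g) := fun g => Submodule.span_le.2 (by
    rintro _ ⟨h, rfl⟩
    exact Submodule.subset_span ⟨g * h, rho_mul_apply _ _ _⟩)
  have hle : S ≤ (specht n (staircase k) ⊥).toSubmodule.map R := Submodule.span_le.2 (by
    rintro _ ⟨g, rfl⟩
    exact ⟨_, Submodule.subset_span ⟨θ g, τ, hτ, rfl⟩, by rw [hR, he]⟩)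
  refine ⟨S, hS, U.comp θ, fun f hf => ?_, Submodule.subset_span ⟨1, by simp⟩,
    fun a b β v => ?_⟩
  · induction hf using Submodule.span_induction with
    | mem x hx =>
      obtain ⟨g, rfl⟩ := hx
      exact T.hw.act g
    | zero => exact ⟨by simp, by simp⟩
    | add x y _ _ hx hy =>
      exact ⟨fun i j h => by rw [map_add, hx.1 i j h, hy.1 i j h, add_zero],
        fun i => by rw [map_add, hx.2, hy.2, smul_add]⟩
    | smul t x _ hx =>
      exact ⟨fun i j h => by rw [map_smul, hx.1 i j h, smul_zero],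
        fun i => by rw [map_smul, hx.2, smul_comm]⟩
  obtain ⟨r, hr⟩ := LinearMap.exists_leftInverse_of_injective S.subtype S.ker_subtype
  obtain ⟨a', ha, ha'⟩ := hle a.2
  obtain ⟨b', hb, hb'⟩ := hle b.2
  have : Finite (HypOct n) := Finite.of_equiv _ SemidirectProduct.equivProd.symm
  have : Fintype (weylA n) := Fintype.ofFinite _
  refine (Module.forall_dual_apply_eq_zero_iff ℂ _).1 fun l => ?_
  let ρ := resSum (weylA n) fun _ : Unit => specht n (staircase k) ⊥
  let q := r ∘ₗ R ∘ₗ (Submodule.subtype _) ∘ₗ DirectSum.component ℂ Unit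
    (fun _ => (specht n (staircase k) ⊥).toSubmodule) ()
  have hq : ∀ g (z : S) z' hz', R z' = z → q (ρ (θ g) (DirectSum.lof ℂ _ _ () ⟨z', hz'⟩)) =
      (rF X k).subrepresentation S hS g z := by
    intro g z z' hz' h
    refine Eq.trans (congrArg r ?_) congr($hr ((rF X k).subrepresentation S hS g z))
    refine Eq.trans ?_ ((hR g z').trans (congrArg _ h))
    simp [ρ, resSum, Subrepresentation.toRepresentation]
  have h1 := average_eq_zero U (ρ.tprod ρ) hne v l
    (DirectSum.lof ℂ _ _ () ⟨a', ha⟩ ⊗ₜ[ℂ] DirectSum.lof ℂ _ _ () ⟨b', hb⟩)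
    (TensorProduct.lift (β.compl₁₂ q q))
  rw [← hθ.sum_comp] at h1
  rw [map_sum, ← h1]
  refine sum_congr rfl fun g _ => ?_
  rw [Representation.tprod_apply, TensorProduct.map_tmul, TensorProduct.lift.tmul,
    LinearMap.compl₁₂_apply, hq g a a' ha ha', hq g b b' hb hb', map_smul, ← map_inv]
  rfl

theorem saxl (k : ℕ) (V : Type) [AddCommGroup V] [Module ℂ V] [Nontrivial V]
    (U : Representation ℂ (weylA (k * (k + 1) / 2)) V) : ∃ f : U.IntertwiningMap
      ((resSum (weylA (k * (k + 1) / 2)) fun _ : Unit =>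
        specht (k * (k + 1) / 2) (staircase k) ⊥).tprod
        (resSum (weylA (k * (k + 1) / 2)) fun _ : Unit =>
          specht (k * (k + 1) / 2) (staircase k) ⊥)), f ≠ 0 := by
  by_contra hne
  push Not at hne
  obtain ⟨m1, m2, rfl, h1, h2⟩ : ∃ m1 m2, k = m1 + m2 ∧ m2 ≤ m1 ∧ m1 ≤ m2 + 1 :=
    ⟨(k + 1) / 2, k / 2, by omega, by omega, by omega⟩
  obtain ⟨S, hS, U', a1, a2, a3⟩ := transfer
    (stair (rect m1 m1 le_rfl (Nat.le_succ _)) (rect (m2 + 1) m2 (Nat.le_succ _) le_rfl) h1 h2)
    (Fintype.equivFinOfCardEq (by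
      simp only [Fintype.card_sum, Fintype.card_fin]
      refine (Nat.div_eq_of_eq_mul_left two_pos ?_).symm
      rcases h1.eq_or_lt with rfl | h
      · ring
      · obtain rfl : m1 = m2 + 1 := by omega
        ring)) U hne
  exact not_subsingleton V (saxl_core _ _ h1 h2 (by simp) (by simp [mul_comm]) hS a1 a2 U' a3)

end Pool.Agent.P.MP_5e2a31_al
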