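import Pool.Agent.P.MP_5e2a31_al.Rigid

set_option maxHeartbeats 400000
set_option linter.unusedSectionVars false

namespace Pool.Agent.P.MP_5e2a31_al

open Finset Equiv

variable {X : Type} [Fintype X] [DecidableEq X]

/-- The integers inside `ℂ`. -/
abbrev Zr : Subring ℂ := (Int.castRingHom ℂ).range

theorem sgn'_int (g : Perm X) : sgn' g ∈ Zr := ⟨_, rfl⟩

theorem Sym_dual_apply {ι : Type} [DecidableEq ι] {m : ℕ} (χ : Perm X → ℂ) (S : Finset X)
    (l : X → ι) (a : Module.Dual ℂ ((X → Fin m) → ℂ)) (z : (X → Fin m) → ℂ) :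
    Sym (rD X m) χ S l a z = ∑ g ∈ Yg S l, χ g * a (rF X m g⁻¹ z) := by
  unfold Sym
  rw [LinearMap.sum_apply, LinearMap.sum_apply]
  rfl

theorem Sym_sgn_int {ι : Type} [DecidableEq ι] {m : ℕ} (S : Finset X)
    (l : X → ι) {a : Module.Dual ℂ ((X → Fin m) → ℂ)} {z : (X → Fin m) → ℂ}
    (ha : ∀ g, a (rF X m g z) ∈ Zr) (g : Perm X) : Sym (rD X m) sgn' S l a (rF X m g z) ∈ Zr := by
  rw [Sym_dual_apply]
  refine Subring.sum_mem _ fun y _ => Subring.mul_mem _ (sgn'_int y) ?_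
  rw [← rho_mul_apply]
  exact ha _

namespace Rect

variable {m c : ℕ} (R : Rect X m c)

/-- Row coordinate in the two staircases. -/
def rw' (x : X) : ℕ := if R.I x + R.J x < c then R.L x else m - 1 - R.L x

/-- Column coordinate in the two staircases. -/
def cl (x : X) : ℕ := if R.I x + R.J x < c then R.J x else c - 1 - R.J x

/-- The antisymmetrised evaluation functional. -/
noncomputable def lam0 : Module.Dual ℂ ((X → Fin m) → ℂ) :=
  Sym (rD X m) sgn' R.A R.cl (Sym (rD X m) sgn' R.Aᶜ R.cl (ev R.L))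

theorem lam0_int (g : Perm X) : R.lam0 (rF X m g (zD R.J R.L)) ∈ Zr :=
  Sym_sgn_int _ _ (Sym_sgn_int _ _ fun _ => zD_int _ _ _) g

theorem lam_plus : ∃ γ : ℕ, Odd γ ∧
    Sym (rD X m) one' univ R.blk R.lam0 - (γ : ℂ) • ev R.L ∈ Kz R.A (zD R.J R.L) := by
  have := R.h1; have := R.h2
  have hmin : ∀ h, Stab R.A h → ∀ f : X → Fin m,
      rF X m h (zD R.J R.L) ((1 : Perm (Fin m)) ∘ f) ≠ 0 →
      ∑ x ∈ R.A, (R.L x : ℕ) ≤ ∑ x ∈ R.A, (f x : ℕ) := by
    intro h hh f hf
    refine (R.L_min (zD_inj R.L_inj hf)).trans (le_of_eq ?_)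
    exact sum_bij' (fun x _ => h x) (fun x _ => h⁻¹ x) (fun x hx => (hh x).2 hx)
      (fun x hx => (hh.inv x).2 hx) (by simp) (by simp) (by simp)
  have a1 : ∀ x ∈ R.A, R.rw' x + R.cl x < c := by
    intro x hx
    rw [mem_A] at hx
    simp only [rw', cl, L_val, if_pos hx]
    omega
  have a2 : ∀ i j, i + j < c → ∃ x ∈ R.A, R.rw' x = i ∧ R.cl x = j := by
    intro i j h
    obtain ⟨y, hy1, hy2⟩ := R.surj (c - 1 - i - j) j (by omega) (by omega)
    have hy : R.I y + R.J y < c := by omega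
    refine ⟨y, R.mem_A.2 hy, ?_⟩
    simp only [rw', cl, L_val, if_pos hy]
    omega
  have a3 : ∀ x ∈ R.A, ∀ y ∈ R.A, R.rw' x = R.rw' y → R.cl x = R.cl y → x = y := by
    intro x hx y hy h1 h2
    rw [mem_A] at hx hy
    simp only [rw', cl, if_pos hx, if_pos hy] at h1 h2
    exact R.L_inj x y h2 (Fin.ext h1)
  have b1 : ∀ x ∈ R.Aᶜ, R.rw' x + R.cl x < m - 1 := by
    intro x hx
    rw [mem_B] at hx
    have := R.hI x; have := R.hJ x
    simp only [rw', cl, L_val, if_neg (not_lt.2 hx)]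
    omega
  have b2 : ∀ i j, i + j < m - 1 → ∃ x ∈ R.Aᶜ, R.rw' x = i ∧ R.cl x = j := by
    intro i j h
    obtain ⟨y, hy1, hy2⟩ := R.surj (i + j + 1) (c - 1 - j) (by omega) (by omega)
    have hy : c ≤ R.I y + R.J y := by omega
    refine ⟨y, R.mem_B.2 hy, ?_⟩
    simp only [rw', cl, L_val, if_neg (not_lt.2 hy)]
    omega
  have b3 : ∀ x ∈ R.Aᶜ, ∀ y ∈ R.Aᶜ, R.rw' x = R.rw' y → R.cl x = R.cl y → x = y := by
    intro x hx y hy h1 h2
    rw [mem_B] at hx hy
    have := R.hJ x; have := R.hJ y; have := (R.L x).2; have := (R.L y).2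
    simp only [rw', cl, if_neg (not_lt.2 hx), if_neg (not_lt.2 hy)] at h1 h2
    exact R.L_inj x y (by omega) (Fin.ext (by omega))
  have hA := hook_A (s := 1) R.z_mem hmin (r := R.rw') (cl := R.cl)
    (fun x hx => by rw [mem_A] at hx; simp only [rw', if_pos hx]) a3
    (fun x hx i j hi hj => a2 i j (by have := a1 x hx; omega))
  have hB := hook_B (s := 1) R.z_mem hmin (r := R.rw') (cl := R.cl)
    (fun x hx => by rw [mem_B] at hx; simp only [rw', if_neg (not_lt.2 hx)]) b3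
    (fun x hx i j hi hj => b2 i j (by have := b1 x hx; omega))
  refine ⟨(∏ x ∈ R.A, hook R.A R.rw' R.cl x) * ∏ x ∈ R.Aᶜ, hook R.Aᶜ R.rw' R.cl x,
    (odd_hook a1 a2 a3).mul (odd_hook b1 b2 b3), ?_⟩
  have e1 : Sym (rD X m) one' univ R.blk =
      Sym (rD X m) one' R.A R.rw' * Sym (rD X m) one' R.Aᶜ R.rw' := by
    rw [← union_compl R.A, Sym_union disjoint_compl_right ?_ (mulOn_one _ _)]
    · congr 1
      · refine Sym_congr (fun x hx y hy => ?_) fun _ _ => rfl
        rw [mem_A] at hx hy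
        simp only [rw', blk, if_pos hx, if_pos hy]
        omega
      · refine Sym_congr (fun x hx y hy => ?_) fun _ _ => rfl
        rw [mem_B] at hx hy
        simp only [rw', blk, if_neg (not_lt.2 hx), if_neg (not_lt.2 hy)]
        omega
    · intro x hx y hy h
      exact mem_compl.1 hy (((R.blk_eq_iff x y).1 h).1.1 hx)
  have hK : ∀ g, Supp R.A g → ∀ v ∈ Kz R.A (zD R.J R.L), rD X m g v ∈ Kz R.A (zD R.J R.L) :=
    fun g hg => Kz_inv hg.stab
  have h3 := Sym_mem (χ := one') (l := R.rw') hK Subset.rfl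
    (Sym_mem (χ := sgn') (l := R.cl) hK Subset.rfl hB)
  have h4 := (Kz R.A (zD R.J R.L)).add_mem h3
    (Submodule.smul_mem _ (∏ x ∈ R.Aᶜ, (hook R.Aᶜ R.rw' R.cl x : ℂ)) hA)
  rw [e1, lam0, Module.End.mul_apply, ← Module.End.mul_apply (Sym (rD X m) one' R.Aᶜ R.rw'),
    Sym_commute_Sym disjoint_compl_left, Module.End.mul_apply]
  convert h4 using 1
  simp only [map_sub, map_smul, Perm.coe_one, Function.id_comp]
  push_cast
  module

theorem main_T {E : Type*} [AddCommGroup E] [Module ℂ E] (ρ : Representation ℂ (Perm X) E)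
    (χ : Perm X → ℂ) (hχ1 : χ 1 = 1)
    (hχ : ∀ g h, Stab R.A g → Stab R.A h → χ (g * h) = χ g * χ h) (hχ2 : ∀ g, χ g * χ g = 1)
    (hyp : ∀ z₁ ∈ Zs X m c, ∀ z₂ ∈ Zs X m c, ∀ l₁ l₂ : Module.Dual ℂ ((X → Fin m) → ℂ), ∀ v : E,
      ∑ g ∈ univ.filter (fun g => Stab R.A g),
        (χ g * (l₁ (rF X m g z₁) * l₂ (rF X m g z₂))) • ρ g⁻¹ v = 0) : Subsingleton E := by
  by_contra hE
  rw [not_subsingleton_iff_nontrivial] at hE
  obtain ⟨N, hN, u, hu0, hu⟩ := exists_iso (ρ := ρ) R.blk R.blk_ok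
  obtain ⟨γ, hγ, hplus⟩ := R.lam_plus
  have hmul : MulOn (sg N) univ R.blk := mulOn_sg hN
  have hY : ∀ y : Perm X, y ∈ Yg univ R.blk ↔ Stab R.A y ∧ R.L ∘ y = R.L := by
    intro y
    simp only [mem_Yg, mem_univ, not_true, false_implies, implies_true, true_and, blk_eq_iff,
      forall_and, funext_iff, Function.comp_apply]
  have hmul' : MulOn (fun y => sg N y * χ y) univ R.blk :=
    ⟨by simp [sg_one, hχ1], fun g hg h hh => by
      beta_reduce
      rw [hmul.2 g hg h hh, hχ g h ((hY g).1 hg).1 ((hY h).1 hh).1]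
      ring⟩
  have hχZ : ∀ g, χ g ∈ Zr := fun g => by
    rcases mul_self_eq_one_iff.1 (hχ2 g) with h | h <;> rw [h]
    · exact Subring.one_mem _
    · exact Subring.neg_mem _ (Subring.one_mem _)
  set z := zD R.J R.L with hz
  set z' := zD R.J' R.L with hz'
  set le := Sym (rD X m) (fun y => sg N y * χ y) univ R.blk R.lam0 with hle
  have hsq : ∀ y ∈ Yg univ R.blk, sg N y * sg N y = 1 := fun y hy =>
    sg_mul_self (stab_of_mem_Yg hN hy)
  have h1 : ∀ g, Stab R.A g → ∃ n ∈ Zr, le (rF X m g z) = γ * z (R.L ∘ g) + 2 * n := by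
    intro g hg
    have e1 := hplus g hg
    rw [LinearMap.sub_apply, sub_eq_zero, Sym_dual_apply] at e1
    refine ⟨∑ y ∈ Yg univ R.blk,
      (if sg N y * χ y = 1 then 0 else -1) * R.lam0 (rF X m y⁻¹ (rF X m g z)),
      Subring.sum_mem _ fun y _ => Subring.mul_mem _ ?_ ?_, ?_⟩
    · split_ifs
      · exact Subring.zero_mem _
      · exact Subring.neg_mem _ (Subring.one_mem _)
    · rw [← rho_mul_apply]
      exact R.lam0_int _
    · have e2 : (γ : ℂ) * z (R.L ∘ g) = ((γ : ℂ) • ev R.L) (rF X m g z) := rfl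
      rw [e2, ← e1, hle, Sym_dual_apply, mul_sum, ← sum_add_distrib]
      refine sum_congr rfl fun y hy => ?_
      rcases mul_self_eq_one_iff.1 (show sg N y * χ y * (sg N y * χ y) = 1 by
        linear_combination (χ y * χ y) * hsq y hy + hχ2 y) with h | h
      · simp [h]
      · rw [h, if_neg (by norm_num), one'_apply]
        ring
  set term : Perm X → E := fun g => (χ g * (le (rF X m g z) * z' (R.L ∘ g))) • ρ g⁻¹ u with hterm
  have h2 : ∑ g ∈ univ.filter (fun g => Stab R.A g), term g = 0 :=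
    hyp z R.z_mem z' R.z'_mem le (ev R.L) u
  have h3 : ∀ y ∈ Yg univ R.blk, ∀ g, Stab R.A g → term (y * g) = term g := by
    intro y hy g hg
    have hy' := inv_mem_Yg hy
    have e1 : ρ y⁻¹ u = sg N y⁻¹ • u := by
      have := apply_of_swaps (ρ := ρ) hmul (v := u) (fun a _ b _ hab hne => by
        rw [hu a b hab hne, sg_swap (hN a b hab) hne, smul_smul]
        split_ifs <;> simp) _ hy'
      conv_rhs => rw [← this, smul_smul, hsq _ hy', one_smul]
    have e3 := hχ y y⁻¹ ((hY y).1 hy).1 ((hY y).1 hy).1.inv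
    rw [mul_inv_cancel, hχ1] at e3
    have e2 : le (rF X m (y * g) z) = sg N y⁻¹ * χ y⁻¹ * le (rF X m g z) := by
      have := congr($(mul_Sym (ρ := rD X m) hmul' hy') R.lam0 (rF X m g z))
      rw [LinearMap.smul_apply, LinearMap.smul_apply, Module.End.mul_apply, rD_apply, inv_inv,
        ← hle, ← rho_mul_apply, smul_eq_mul] at this
      rw [← this]
      linear_combination (-le (rF X m (y * g) z) * χ y⁻¹ * χ y⁻¹) * hsq _ hy' -
        le (rF X m (y * g) z) * hχ2 y⁻¹
    simp only [hterm]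
    rw [e2, mul_inv_rev, rho_mul_apply, e1, map_smul, smul_smul, Perm.coe_mul,
      ← Function.comp_assoc, ((hY y).1 hy).2, hχ y g ((hY y).1 hy).1 hg]
    congr 1
    linear_combination (χ g * le (rF X m g z) * z' (R.L ∘ g) * χ y * χ y⁻¹) * hsq _ hy' -
      (χ g * le (rF X m g z) * z' (R.L ∘ g)) * e3
  set M : Submodule ℤ E := Submodule.span ℤ (Set.range fun g => ρ g u) with hM
  have hMg : ∀ g, ρ g u ∈ M := fun g => Submodule.subset_span ⟨g, rfl⟩
  have hMZ : ∀ a ∈ Zr, ∀ g, a • ρ g u ∈ M := by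
    rintro _ ⟨a, rfl⟩ g
    have : (Int.castRingHom ℂ a) • ρ g u = a • ρ g u := by
      simp [Int.cast_smul_eq_zsmul]
    rw [this]
    exact M.smul_mem _ (hMg g)
  have h4 : ∀ f : X → Fin m, ∃ n ∈ M,
      ∑ g ∈ (univ.filter (fun g => Stab R.A g)).filter (fun g : Perm X => R.L ∘ g = f), term g =
        ((Yg univ R.blk).card : ℂ) • ((if f = R.L then (γ : ℂ) • u else 0) + (2 : ℂ) • n) := by
    intro f
    have fib : ∀ g₀ : Perm X, Stab R.A g₀ → R.L ∘ g₀ = f →
        ∑ g ∈ (univ.filter (fun g => Stab R.A g)).filter (fun g : Perm X => R.L ∘ g = f), term g =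
          ((Yg univ R.blk).card : ℂ) • term g₀ := by
      intro g₀ hg₀ hf
      rw [Nat.cast_smul_eq_nsmul, ← sum_const]
      symm
      refine sum_bij' (fun y _ => y * g₀) (fun g _ => g * g₀⁻¹) ?_ ?_ (by simp) (by simp) ?_
      · intro y hy
        rw [hY] at hy
        simp only [mem_filter, mem_univ, true_and]
        exact ⟨hy.1.mul hg₀, by rw [Perm.coe_mul, ← Function.comp_assoc, hy.2, hf]⟩
      · intro g hg
        simp only [mem_filter, mem_univ, true_and] at hg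
        rw [hY]
        refine ⟨Stab.mul hg.1 hg₀.inv, ?_⟩
        rw [Perm.coe_mul, ← Function.comp_assoc, hg.2, ← hf]
        ext x
        simp
      · intro y hy
        exact (h3 y hy g₀ hg₀).symm
    by_cases hf : f = R.L
    · obtain ⟨n, hn, hn'⟩ := h1 1 (Stab.one _)
      refine ⟨n • ρ 1 u, hMZ n hn 1, ?_⟩
      rw [fib 1 (Stab.one _) (by simp [hf]), if_pos hf]
      congr 1
      simp only [hterm]
      rw [hn']
      simp only [Perm.coe_one, Function.comp_id, hz, hz', zD_self R.L_inj, zD_self R.L_inj',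
        inv_one, map_one, Module.End.one_apply, hχ1]
      module
    · by_cases hex : ∃ g₀ : Perm X, Stab R.A g₀ ∧ R.L ∘ g₀ = f
      · obtain ⟨g₀, hg₀, hf₀⟩ := hex
        obtain ⟨n, hn, hn'⟩ := h1 g₀ hg₀
        refine ⟨(χ g₀ * (n * z' (R.L ∘ g₀))) • ρ g₀⁻¹ u,
          hMZ _ (Subring.mul_mem _ (hχZ _) (Subring.mul_mem _ hn (zD_int _ _ _))) _, ?_⟩
        rw [fib g₀ hg₀ hf₀, if_neg hf]
        congr 1
        simp only [hterm]
        rw [hn']
        have e0 : z (R.L ∘ g₀) * z' (R.L ∘ g₀) = 0 := by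
          by_contra hne
          rw [mul_eq_zero, not_or] at hne
          exact hf (hf₀.symm.trans
            (R.L_rigid hg₀ (zD_inj R.L_inj hne.1) (zD_inj R.L_inj' hne.2)))
        rw [zero_add, smul_smul]
        congr 1
        linear_combination (χ g₀ * γ : ℂ) * e0
      · refine ⟨0, M.zero_mem, ?_⟩
        rw [if_neg hf, sum_eq_zero]
        · simp
        · intro g hg
          simp only [mem_filter, mem_univ, true_and] at hg
          exact absurd ⟨g, hg⟩ hex
  choose n hn hn' using h4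
  rw [← sum_fiberwise (g := fun g : Perm X => R.L ∘ g), sum_congr rfl fun f _ => hn' f,
    ← smul_sum, smul_eq_zero, or_iff_right (card_Yg_ne_zero _ _), sum_add_distrib,
    sum_ite_eq', if_pos (mem_univ _), ← smul_sum] at h2
  obtain ⟨k, rfl⟩ := hγ
  have h5 : ∃ w ∈ M, u = (2 : ℤ) • w := by
    refine ⟨-(∑ f, n f) - (k : ℤ) • u, M.sub_mem (M.neg_mem (M.sum_mem fun f _ => hn f))
      (M.smul_mem _ (by simpa using hMg 1)), ?_⟩
    rw [← Int.cast_smul_eq_zsmul ℂ, ← Int.cast_smul_eq_zsmul ℂ]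
    push_cast at h2 ⊢
    linear_combination (norm := module) h2
  obtain ⟨w, hw, hw'⟩ := h5
  have hMinv : ∀ g, ∀ v ∈ M, ρ g v ∈ M := by
    intro g v hv
    induction hv using Submodule.span_induction with
    | mem x hx =>
      obtain ⟨h, rfl⟩ := hx
      rw [← rho_mul_apply]
      exact hMg _
    | zero => simp
    | add x y _ _ hx hy => rw [map_add]; exact M.add_mem hx hy
    | smul a x _ hx => rw [map_zsmul]; exact M.smul_mem _ hx
  obtain ⟨r, hr, hr'⟩ := Submodule.exists_sub_one_mem_and_smul_eq_zero_of_fg_of_le_smul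
    (Ideal.span {(2 : ℤ)}) M (Submodule.fg_span (Set.finite_range _)) (by
      rw [hM, Submodule.span_le]
      rintro _ ⟨g, rfl⟩
      have : ρ g u = (2 : ℤ) • ρ g w := by rw [← map_zsmul, ← hw']
      change ρ g u ∈ _
      rw [this]
      exact Submodule.smul_mem_smul (Ideal.mem_span_singleton_self _) (hMinv g w hw))
  have h6 := hr' u (by simpa using hMg 1)
  rw [← Int.cast_smul_eq_zsmul ℂ, smul_eq_zero] at h6
  rcases h6 with h6 | h6
  · have : r = 0 := by exact_mod_cast h6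
    rw [this, Ideal.mem_span_singleton] at hr
    omega
  · exact hu0 h6

theorem main_S {E : Type*} [AddCommGroup E] [Module ℂ E] (ρ : Representation ℂ (Perm X) E)
    (hyp : ∀ z₁ ∈ Zs X m c, ∀ z₂ ∈ Zs X m c, ∀ l₁ l₂ : Module.Dual ℂ ((X → Fin m) → ℂ), ∀ v : E,
      ∑ g ∈ univ.filter (fun g => Stab R.A g),
        (l₁ (rF X m g z₁) * l₂ (rF X m g z₂)) • ρ g⁻¹ v = 0) : Subsingleton E :=
  R.main_T ρ (fun _ => 1) rfl (by simp) (by simp) (by simpa only [one_mul] using hyp)

end Rect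

end Pool.Agent.P.MP_5e2a31_al
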