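import Pool.Agent.P.MP_5e2a31_al.Hook

set_option maxHeartbeats 400000
set_option linter.unusedSectionVars false

namespace Pool.Agent.P.MP_5e2a31_al

open Finset Equiv

variable {X : Type} [Fintype X] [DecidableEq X]
variable {E : Type*} [AddCommGroup E] [Module ℂ E] {ρ : Representation ℂ (Perm X) E}

/-- All transpositions in `K` act on `v` by `e`. -/
def Iso (ρ : Representation ℂ (Perm X) E) (e : ℂ) (K : Finset X) (v : E) : Prop :=
  ∀ x ∈ K, ∀ y ∈ K, x ≠ y → ρ (swap x y) v = e • v

theorem Iso.conj {e : ℂ} {K : Finset X} {v : E} (h : Iso ρ e K v) (g : Perm X) :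
    Iso ρ e (K.map g.toEmbedding) (ρ g v) := by
  intro x hx y hy hxy
  simp only [mem_map, Equiv.coe_toEmbedding] at hx hy
  obtain ⟨x, hx, rfl⟩ := hx
  obtain ⟨y, hy, rfl⟩ := hy
  rw [swap_apply_apply, ← rho_mul_apply, inv_mul_cancel_right, rho_mul_apply,
    h x hx y hy (fun h => hxy (h ▸ rfl)), map_smul]

theorem Iso.of_disjoint {e : ℂ} {K S : Finset X} {v : E} (h : Iso ρ e K v) {g : Perm X}
    (hg : Supp S g) (hd : Disjoint K S) : Iso ρ e K (ρ g v) := by
  intro x hx y hy hxy
  rw [← rho_mul_apply, (supp_swap hx hy).commute hg hd, rho_mul_apply, h x hx y hy hxy, map_smul]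

/-- The subspace of vectors on which all transpositions in `K` act by `e`. -/
def isoSub (ρ : Representation ℂ (Perm X) E) (e : ℂ) (K : Finset X) : Submodule ℂ E where
  carrier := {v | Iso ρ e K v}
  add_mem' := fun {a b} ha hb x hx y hy hxy => by
    rw [map_add, ha x hx y hy hxy, hb x hx y hy hxy, smul_add]
  zero_mem' := fun x _ y _ _ => by simp
  smul_mem' := fun c a ha x hx y hy hxy => by
    rw [map_smul, ha x hx y hy hxy, smul_comm]

theorem peel (p q : ℕ) : ∀ (S : Finset X) (N : Submodule ℂ E), N ≠ ⊥ →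
    (∀ g, Supp S g → ∀ v ∈ N, ρ g v ∈ N) → p * q < S.card →
    ∃ K ⊆ S, ∃ v ∈ N, v ≠ 0 ∧
      ((K.card = p + 1 ∧ Iso ρ 1 K v) ∨ (K.card = q + 1 ∧ Iso ρ (-1) K v)) := by
  induction q with
  | zero =>
    intro S N hN _ hS
    obtain ⟨x, hx⟩ := card_pos.1 (by omega : 0 < S.card)
    obtain ⟨v, hv, hv0⟩ := (Submodule.ne_bot_iff _).1 hN
    refine ⟨{x}, by simpa using hx, v, hv, hv0, Or.inr ⟨by simp, ?_⟩⟩
    intro a ha b hb hab
    simp only [mem_singleton] at ha hb
    exact absurd (ha.trans hb.symm) hab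
  | succ q ih =>
    intro S N hN hinv hS
    classical
    obtain ⟨x₀, hx₀⟩ := card_pos.1 (by omega : 0 < S.card)
    obtain ⟨R, hR, hmax⟩ := exists_max_image
      (S.powerset.filter fun K => ∃ v ∈ N, v ≠ 0 ∧ Iso ρ 1 K v) card (by
        obtain ⟨v, hv, hv0⟩ := (Submodule.ne_bot_iff _).1 hN
        exact ⟨∅, mem_filter.2 ⟨by simp, v, hv, hv0, fun x hx => by simp at hx⟩⟩)
    rw [mem_filter, mem_powerset] at hR
    obtain ⟨hRS, v₀, hv₀, hv₀0, hv₀i⟩ := hR
    have hR1 : 0 < R.card := by
      have := hmax {x₀} (mem_filter.2 ⟨by simpa using hx₀, v₀, hv₀, hv₀0, fun a ha b hb hab => by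
        simp only [mem_singleton] at ha hb
        exact absurd (ha.trans hb.symm) hab⟩)
      simpa using this
    by_cases hp : p + 1 ≤ R.card
    · obtain ⟨K, hK, hKc⟩ := exists_subset_card_eq hp
      exact ⟨K, hK.trans hRS, v₀, hv₀, hv₀0,
        Or.inl ⟨hKc, fun x hx y hy => hv₀i x (hK hx) y (hK hy)⟩⟩
    have hcard : p * q < (S \ R).card := by
      rw [card_sdiff_of_subset hRS]
      have : p * (q + 1) = p * q + p := by ring
      omega
    obtain ⟨K, hK, v, hv, hv0, hcase⟩ := ih (S \ R) (N ⊓ isoSub ρ 1 R)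
      ((Submodule.ne_bot_iff _).2 ⟨v₀, ⟨hv₀, hv₀i⟩, hv₀0⟩)
      (fun g hg v hv => ⟨hinv g (hg.mono sdiff_subset) v hv.1,
        Iso.of_disjoint hv.2 hg disjoint_sdiff⟩) hcard
    rcases hcase with hcase | ⟨hKc, hKi⟩
    · exact ⟨K, hK.trans sdiff_subset, v, hv.1, hv0, Or.inl hcase⟩
    obtain ⟨y₀, hy₀⟩ := card_pos.1 hR1
    have hKR : ∀ x ∈ K, x ∉ R := fun x hx => (mem_sdiff.1 (hK hx)).2
    have hKS : K ⊆ S := hK.trans sdiff_subset
    have hy₀K : y₀ ∉ K := fun h => hKR _ h hy₀
    have hvi : Iso ρ 1 R v := hv.2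
    have hvR : ∀ x ∈ R, ∀ y ∈ R, ρ (swap x y) v = v := by
      intro x hx y hy
      by_cases h : x = y
      · subst h
        rw [swap_self]
        change ρ 1 v = v
        simp
      · simpa using hvi x hx y hy h
    refine ⟨insert y₀ K, insert_subset (hRS hy₀) hKS, Sym ρ sgn' (insert y₀ K) (fun _ => ()) v,
      Sym_mem hinv (insert_subset (hRS hy₀) hKS) hv.1, ?_,
      Or.inr ⟨by rw [card_insert_of_notMem hy₀K, hKc], fun x hx y hy hxy => by
        rw [apply_Sym_sgn hx hy rfl hxy]; simp⟩⟩
    intro h0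
    have hSR : Sym ρ one' R (fun _ => ()) v = ((Yg R (fun _ => ())).card : ℂ) • v :=
      Sym_apply_of_swaps (mulOn_one _ _) fun x hx y hy _ _ => by simp [hvR x hx y hy]
    have hrel : ∀ x ∈ K, v + ∑ y ∈ R, ρ (swap x y) v = 0 := by
      intro x hx
      by_contra hne
      have e1 : Sym ρ one' (insert x R) (fun _ => ()) v =
          ((Yg R (fun _ => ())).card : ℂ) • (v + ∑ y ∈ R, ρ (swap x y) v) := by
        rw [Sym_insert (hKR x hx) (mulOn_one _ _), Module.End.mul_apply, hSR, map_smul,
          filter_true_of_mem (fun _ _ => rfl), sum_insert (hKR x hx), LinearMap.add_apply,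
          LinearMap.sum_apply, swap_self]
        congr 2
        · change (one' (1 : Perm X) • ρ 1) v = v
          simp
        · simp
      have := hmax (insert x R) (mem_filter.2 ⟨mem_powerset.2 (insert_subset (hKS hx) hRS),
        Sym ρ one' (insert x R) (fun _ => ()) v, Sym_mem hinv (insert_subset (hKS hx) hRS) hv.1,
        by rw [e1]; exact smul_ne_zero (card_Yg_ne_zero _ _) hne,
        fun a ha b hb _ => by rw [apply_Sym_one (swap_mem_Yg ha hb rfl), one_smul]⟩)
      rw [card_insert_of_notMem (hKR x hx)] at this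
      omega
    have hSK : Sym ρ sgn' K (fun _ => ()) v = ((Yg K (fun _ => ())).card : ℂ) • v :=
      Sym_apply_of_swaps (mulOn_sgn _ _) fun x hx y hy _ hxy => by
        simp [hKi x hx y hy hxy, sgn'_swap hxy]
    have e2 : ∀ x ∈ K, (R.card : ℂ) • Sym ρ one' R (fun _ => ()) (ρ (swap y₀ x) v) =
        - Sym ρ one' R (fun _ => ()) v := by
      intro x hx
      have e3 := congrArg (Sym ρ one' R (fun _ => ())) (hrel x hx)
      rw [map_add, map_zero, map_sum, sum_congr rfl (g := fun _ =>
        Sym ρ one' R (fun _ => ()) (ρ (swap y₀ x) v)), sum_const,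
        ← Nat.cast_smul_eq_nsmul ℂ] at e3
      · exact eq_neg_of_add_eq_zero_right e3
      · intro y hy
        rw [swap_comm x y, swap_conj (x := x) (y := y) (t := y₀) (by rintro rfl; exact hKR _ hx hy)
          (by rintro rfl; exact hy₀K hx), rho_mul_apply, rho_mul_apply, hvR y hy y₀ hy₀,
          Sym_one_apply (swap_mem_Yg hy hy₀ rfl)]
    rw [Sym_insert hy₀K (mulOn_sgn _ _), Module.End.mul_apply, hSK, map_smul,
      smul_eq_zero, or_iff_right (card_Yg_ne_zero _ _), filter_true_of_mem (fun _ _ => rfl),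
      sum_insert hy₀K, LinearMap.add_apply, LinearMap.sum_apply, swap_self] at h0
    have e4 : (sgn' (Equiv.refl X) • ρ (Equiv.refl X)) v = v := by
      change (sgn' (1 : Perm X) • ρ 1) v = v
      simp
    rw [e4, sum_congr rfl (g := fun x => - ρ (swap y₀ x) v) (fun x hx => by
      rw [sgn'_swap (by rintro rfl; exact hy₀K hx)]; simp)] at h0
    have e5 := congrArg (fun z => (R.card : ℂ) • Sym ρ one' R (fun _ => ()) z) h0
    simp only [map_add, map_sum, map_neg, smul_add, smul_sum, smul_neg, map_zero, smul_zero] at e5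
    rw [sum_congr rfl fun x hx => by rw [e2 x hx, neg_neg], sum_const,
      ← Nat.cast_smul_eq_nsmul ℂ, ← add_smul, hSR, smul_smul, smul_eq_zero] at e5
    rcases e5 with e5 | e5
    · refine mul_ne_zero ?_ (card_Yg_ne_zero _ _) e5
      have : R.card + K.card ≠ 0 := by omega
      exact_mod_cast this
    · exact hv0 e5

theorem exists_perm_map {S K K' : Finset X} (hK : K ⊆ S) (hK' : K' ⊆ S) (h : K.card = K'.card) :
    ∃ g : Perm X, Supp S g ∧ K.map g.toEmbedding = K' := by
  classical
  have e : {x : S // x.1 ∈ K} ≃ {x : S // x.1 ∈ K'} := by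
    refine Fintype.equivOfCardEq ?_
    have aux : ∀ L ⊆ S, Fintype.card {x : S // x.1 ∈ L} = L.card := by
      intro L hL
      rw [← Fintype.card_coe L]
      exact Fintype.card_congr
        ⟨fun x => ⟨x.1.1, x.2⟩, fun x => ⟨⟨x.1, hL x.2⟩, x.2⟩, fun _ => rfl, fun _ => rfl⟩
    rw [aux K hK, aux K' hK', h]
  refine ⟨Perm.ofSubtype e.extendSubtype, fun x hx => Perm.ofSubtype_apply_of_not_mem _ hx, ?_⟩
  refine eq_of_subset_of_card_le ?_ (by simp [h])
  intro y hy
  simp only [mem_map, Equiv.coe_toEmbedding] at hy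
  obtain ⟨x, hx, rfl⟩ := hy
  rw [Perm.ofSubtype_apply_of_mem _ (hK hx)]
  exact e.extendSubtype_mem ⟨x, hK hx⟩ hx

theorem rho_ne_zero (g : Perm X) {v : E} (hv : v ≠ 0) : ρ g v ≠ 0 := by
  intro h
  have := congrArg (ρ g⁻¹) h
  rw [← rho_mul_apply] at this
  simp at this
  exact hv this

/-- A nonzero representation has a nonzero vector on which a Young subgroup with small enough
blocks acts by a sign character. -/
theorem exists_iso [Nontrivial E] (blk : X → ℕ)
    (hblk : ∀ b, (univ.filter fun x => blk x = b).Nonempty →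
      ((univ.filter fun x => blk x = b).card - 1) * ((univ.filter fun x => blk x = b).card - 1) <
        (univ.filter fun x => b ≤ blk x).card) :
    ∃ N : Finset X, (∀ x y, blk x = blk y → (x ∈ N ↔ y ∈ N)) ∧ ∃ u : E, u ≠ 0 ∧
      ∀ x y, blk x = blk y → x ≠ y → ρ (swap x y) u = (if x ∈ N then -1 else 1 : ℂ) • u := by
  have key : ∀ b : ℕ, ∃ e : ℕ → Bool, ∃ u : E, u ≠ 0 ∧
      ∀ a < b, Iso ρ (if e a then -1 else 1) (univ.filter fun x => blk x = a) u := by
    intro b
    induction b with
    | zero =>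
      obtain ⟨u, hu⟩ := exists_ne (0 : E)
      exact ⟨fun _ => true, u, hu, by simp⟩
    | succ b ih =>
      obtain ⟨e, u, hu, hi⟩ := ih
      rcases (univ.filter fun x => blk x = b).eq_empty_or_nonempty with hb | hb
      · refine ⟨e, u, hu, fun a ha => ?_⟩
        by_cases hab : a = b
        · rw [hab, hb]
          intro x hx
          simp at hx
        · exact hi a (by omega)
      set N : Submodule ℂ E :=
        ⨅ a ∈ Finset.range b, isoSub ρ (if e a then -1 else 1) (univ.filter fun x => blk x = a)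
        with hN
      have mN : ∀ v, v ∈ N ↔
          ∀ a < b, Iso ρ (if e a then -1 else 1) (univ.filter fun x => blk x = a) v := by
        intro v
        simp only [hN, Submodule.mem_iInf, mem_range]
        rfl
      have hinv : ∀ g, Supp (univ.filter fun x => b ≤ blk x) g → ∀ v ∈ N, ρ g v ∈ N := by
        intro g hg v hv
        rw [mN] at hv ⊢
        intro a ha
        refine (hv a ha).of_disjoint hg ?_
        rw [disjoint_left]
        intro x h1 h2
        simp only [mem_filter] at h1 h2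
        omega
      obtain ⟨K, hK, v, hv, hv0, hc⟩ := peel (ρ := ρ) _ _ _ N
        ((Submodule.ne_bot_iff _).2 ⟨u, (mN u).2 hi, hu⟩) hinv (hblk b hb)
      have hpos := card_pos.2 hb
      obtain ⟨g, hg, hgK⟩ := exists_perm_map (K' := univ.filter fun x => blk x = b) hK
        (fun x hx => by simp only [mem_filter] at hx ⊢; exact ⟨hx.1, hx.2.ge⟩)
        (by rcases hc with hc | hc <;> omega)
      have hv' := (mN _).1 (hinv g hg v hv)
      rcases hc with hc | hc
      · refine ⟨Function.update e b false, ρ g v, rho_ne_zero g hv0, fun a ha => ?_⟩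
        by_cases hab : a = b
        · rw [hab, ← hgK]
          simpa using hc.2.conj g
        · rw [Function.update_of_ne hab]
          exact hv' a (by omega)
      · refine ⟨Function.update e b true, ρ g v, rho_ne_zero g hv0, fun a ha => ?_⟩
        by_cases hab : a = b
        · rw [hab, ← hgK]
          simpa using hc.2.conj g
        · rw [Function.update_of_ne hab]
          exact hv' a (by omega)
  obtain ⟨e, u, hu, hi⟩ := key (univ.sup blk + 1)
  refine ⟨univ.filter fun x => e (blk x), fun x y h => by simp [h], u, hu, fun x y h hxy => ?_⟩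
  have := hi (blk x) (Nat.lt_succ_of_le (le_sup (f := blk) (mem_univ x))) x (by simp) y
    (by simp [h]) hxy
  simpa using this

end Pool.Agent.P.MP_5e2a31_al
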