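import Pool.Agent.P.MP_5e2a31_al.Slot

set_option maxHeartbeats 400000
set_option linter.unusedSectionVars false

namespace Pool.Agent.P.MP_5e2a31_al

open Finset MvPolynomial

variable {m : ℕ}

/-- The increasing pairs. -/
def prs (m : ℕ) : Finset (Fin m × Fin m) := univ.filter fun p => p.1 < p.2

theorem mem_prs {p : Fin m × Fin m} : p ∈ prs m ↔ p.1 < p.2 := by simp [prs]

theorem prod_prs {M : Type*} [CommMonoid M] (f : Fin m → Fin m → M) :
    ∏ p ∈ prs m, f p.1 p.2 = ∏ i, ∏ j ∈ Ioi i, f i j := by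
  rw [prs, prod_filter, Fintype.prod_prod_type]
  refine prod_congr rfl fun i _ => ?_
  rw [← prod_filter]
  congr 1
  ext
  simp

theorem sum_prs {M : Type*} [AddCommMonoid M] (a : Fin m → Fin m → M) :
    ∑ i, ∑ j, a i j = ∑ l, a l l + ∑ p ∈ prs m, (a p.1 p.2 + a p.2 p.1) := by
  have h : ∀ i j, a i j = (if j = i then a i j else 0) +
      ((if i < j then a i j else 0) + if j < i then a i j else 0) := by
    intro i j
    rcases lt_trichotomy i j with h | h | h
    · simp [h, h.ne', h.not_gt]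
    · simp [h]
    · simp [h, h.ne, h.not_gt]
  rw [sum_congr rfl fun i _ => sum_congr rfl fun j _ => h i j]
  simp only [sum_add_distrib, sum_ite_eq', mem_univ, if_true, prs, sum_filter,
    Fintype.sum_prod_type]
  rw [sum_comm (f := fun i j => if j < i then a i j else 0)]

theorem card_meet (I : Finset (Fin m)) :
    ((prs m).filter fun p => p.1 ∈ I ∨ p.2 ∈ I).card + (m - I.card).choose 2 = m.choose 2 := by
  have h1 := card_product_filter_lt (s := (univ : Finset (Fin m)))
  have h2 := card_product_filter_lt (s := Iᶜ)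
  rw [card_univ, Fintype.card_fin] at h1
  rw [card_compl, Fintype.card_fin] at h2
  rw [← h1, ← h2, ← card_filter_add_card_filter_not (s := filter _ (univ ×ˢ univ))
    (fun p => p.1 ∈ I ∨ p.2 ∈ I)]
  congr 2
  ext p
  simp [and_comm]

theorem sum_single (I : Finset (Fin m)) (i : Fin m) :
    ∑ t ∈ I, (Finsupp.single i 1 : Fin m →₀ ℕ) t = if i ∈ I then 1 else 0 := by
  simp [Finsupp.single_apply]

theorem top_step {i j : Fin m} (hij : i ≠ j) {I : Finset (Fin m)} (hI : j ∈ I → i ∈ I)
    {g : MvPolynomial (Fin m) ℂ} {a b : ℕ}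
    (h : ∀ κ, coeff κ ((X i + X j) * g) ≠ 0 → ∑ t ∈ I, κ t + a ≤ b) :
    ∀ κ, coeff κ g ≠ 0 → ∑ t ∈ I, κ t + (if i ∈ I then 1 else 0) + a ≤ b := by
  intro κ hκ
  obtain ⟨κ₀, h0, hmax⟩ := exists_max_image g.support (fun κ => toLex (∑ t ∈ I, κ t, κ i))
    ⟨κ, mem_support_iff.2 hκ⟩
  have h1 : coeff (Finsupp.single i 1 + κ₀) ((X i + X j) * g) = coeff κ₀ g := by
    rw [add_mul, coeff_add, coeff_X_mul, coeff_X_mul', add_eq_left]
    split_ifs with hj
    · by_contra hne
      have h2 := hmax _ (mem_support_iff.2 hne)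
      have h3 : Finsupp.single i 1 + κ₀ - Finsupp.single j 1 + Finsupp.single j 1 =
          Finsupp.single i 1 + κ₀ := tsub_add_cancel_of_le (by
        rw [Finsupp.single_le_iff]
        exact Nat.pos_of_ne_zero (Finsupp.mem_support_iff.1 hj))
      generalize Finsupp.single i 1 + κ₀ - Finsupp.single j 1 = κ' at h2 h3
      have h4 := congrArg (fun κ : Fin m →₀ ℕ => ∑ t ∈ I, κ t) h3
      have h5 := congrArg (fun κ : Fin m →₀ ℕ => κ i) h3
      simp only [Finsupp.add_apply, sum_add_distrib, sum_single, Finsupp.single_eq_same,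
        Finsupp.single_eq_of_ne hij] at h4 h5
      rw [Prod.Lex.toLex_le_toLex] at h2
      simp only at h2
      by_cases hj' : j ∈ I
      · rw [if_pos hj', if_pos (hI hj')] at h4
        omega
      · rw [if_neg hj'] at h4
        omega
    · rfl
  have h2 := h (Finsupp.single i 1 + κ₀) (h1 ▸ mem_support_iff.1 h0)
  have h3 := hmax κ (mem_support_iff.2 hκ)
  rw [Prod.Lex.toLex_le_toLex] at h3
  simp only [Finsupp.add_apply, sum_add_distrib, sum_single] at h2 h3
  omega

theorem dvd_of_dvd_prod {i j : Fin m} (hij : i < j) {S : Finset (Fin m × Fin m)}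
    (hS : S ⊆ prs m) (hn : (i, j) ∉ S) {g : MvPolynomial (Fin m) ℂ}
    (h : X i + X j ∣ (∏ p ∈ S, (X p.1 + X p.2)) * g) : X i + X j ∣ g := by
  let φ : MvPolynomial (Fin m) ℂ →ₐ[ℂ] MvPolynomial (Fin m) ℂ :=
    aeval fun t => if t = i then -X j else X t
  have h1 : ∀ p, X i + X j ∣ p - φ p := by
    intro p
    induction p using MvPolynomial.induction_on with
    | C a => simp [φ]
    | add p q hp hq =>
      rw [map_add, add_sub_add_comm]
      exact dvd_add hp hq
    | mul_X p t hp =>
      have : p * X t - φ (p * X t) = (p - φ p) * X t + φ p * (X t - φ (X t)) := by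
        rw [map_mul]
        ring
      rw [this]
      refine dvd_add (hp.mul_right _) (Dvd.dvd.mul_left ?_ _)
      by_cases ht : t = i <;> simp [φ, ht]
  have h2 : φ (X i + X j) = 0 := by simp [φ, hij.ne']
  obtain ⟨r, hr⟩ := h
  have h3 := congrArg φ hr
  rw [map_mul, map_mul, h2, zero_mul, mul_eq_zero, map_prod, prod_eq_zero_iff] at h3
  rcases h3 with ⟨p, hp, h3⟩ | h3
  · exfalso
    have h4 := congrArg (eval fun t => if t = j then (2 : ℂ) else 1) h3
    have h5 := mem_prs.1 (hS hp)
    obtain ⟨k, l⟩ := p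
    have h6 : ¬ (k = i ∧ l = j) := by rintro ⟨rfl, rfl⟩; exact hn hp
    simp only [φ, map_add, aeval_X, map_zero] at h4 h5
    by_cases a1 : k = i <;> by_cases a2 : l = i <;> by_cases a3 : k = j <;>
      by_cases a4 : l = j <;> simp [a1, a2, a3, a4, hij.ne, hij.ne'] at h4 h5 h6 <;>
      first | omega | norm_num at h4
  · simpa [h3] using h1 g

theorem exists_quot {F : MvPolynomial (Fin m) ℂ} {B : Finset (Fin m) → ℕ} {μ : Fin m →₀ ℕ}
    (hd : ∀ i j, i ≠ j → X i + X j ∣ F)
    (hB : ∀ κ, coeff κ F ≠ 0 → ∀ I, ∑ t ∈ I, κ t ≤ B I)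
    (hμ : ∀ i, ∑ t ∈ Iic i, μ t = B (Iic i)) (S : Finset (Fin m × Fin m)) (hS : S ⊆ prs m) :
    ∃ g, F = (∏ p ∈ S, (X p.1 + X p.2)) * g ∧
      (∀ κ, coeff κ g ≠ 0 → ∀ I,
        ∑ t ∈ I, κ t + (S.filter fun p => p.1 ∈ I ∨ p.2 ∈ I).card ≤ B I) ∧
      ∀ κ, κ + ∑ p ∈ S, Finsupp.single p.1 1 = μ → coeff μ F = coeff κ g := by
  induction S using Finset.induction_on with
  | empty => exact ⟨F, by simp, by simpa using hB, by simp +contextual⟩
  | insert p S hp ih =>
    obtain ⟨g, h1, h2, h3⟩ := ih ((subset_insert _ _).trans hS)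
    obtain ⟨i, j⟩ := p
    have hij : i < j := mem_prs.1 (hS (mem_insert_self _ _))
    obtain ⟨g', rfl⟩ := dvd_of_dvd_prod hij ((subset_insert _ _).trans hS) hp
      (h1 ▸ hd i j hij.ne)
    have h4 : ∀ κ, coeff κ g' ≠ 0 → ∀ I, ∑ t ∈ I, κ t +
        ((insert (i, j) S).filter fun p => p.1 ∈ I ∨ p.2 ∈ I).card ≤ B I := by
      intro κ hκ I
      rw [filter_insert]
      by_cases hi : i ∈ I
      · have := top_step hij.ne (fun _ => hi) (fun κ hκ => h2 κ hκ I) κ hκ
        rw [if_pos (Or.inl hi), card_insert_of_notMem (by simp [hp])]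
        rw [if_pos hi] at this
        omega
      · have := top_step hij.ne' (fun h => absurd h hi)
          (fun κ hκ => h2 κ (by rwa [add_comm]) I) κ hκ
        by_cases hj : j ∈ I
        · rw [if_pos (Or.inr hj), card_insert_of_notMem (by simp [hp])]
          rw [if_pos hj] at this
          omega
        · rw [if_neg (by simp [hi, hj])]
          omega
    refine ⟨g', by rw [h1, prod_insert hp]; ring, h4, fun κ hκ => ?_⟩
    rw [sum_insert hp, ← add_assoc, add_comm κ] at hκ
    rw [h3 _ hκ, add_mul, coeff_add, coeff_X_mul, coeff_X_mul', add_eq_left]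
    split_ifs with hj
    · by_contra hne
      have h5 := h4 _ hne (Iic i)
      have h6 := congrArg (fun κ : Fin m →₀ ℕ => ∑ t ∈ Iic i, κ t) hκ
      generalize Finsupp.single i 1 + κ = κ' at h5 h6
      have h7 : ∑ t ∈ Iic i, (κ' - Finsupp.single j 1 : Fin m →₀ ℕ) t = ∑ t ∈ Iic i, κ' t :=
        sum_congr rfl fun t ht => by
          rw [Finsupp.tsub_apply, Finsupp.single_eq_of_ne, tsub_zero]
          rintro rfl
          exact absurd (mem_Iic.1 ht) hij.not_ge
      have h8 : ∑ t ∈ Iic i, (∑ p ∈ S, Finsupp.single p.1 1 : Fin m →₀ ℕ) t =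
          (S.filter fun p => p.1 ∈ Iic i ∨ p.2 ∈ Iic i).card := by
        simp only [Finsupp.finsetSum_apply]
        rw [sum_comm, card_filter]
        refine sum_congr rfl fun p hp => ?_
        have := mem_prs.1 (hS (mem_insert_of_mem hp))
        rw [sum_single]
        congr 1
        simp only [mem_Iic, eq_iff_iff]
        exact ⟨Or.inl, fun h => h.elim id fun h => this.le.trans h⟩
      simp only [Finsupp.add_apply, sum_add_distrib] at h6
      rw [h7, filter_insert, if_pos (Or.inl (mem_Iic.2 le_rfl)),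
        card_insert_of_notMem (by simp [hp]), ← hμ] at h5
      omega
    · rfl

/-- The exponent of a term of the Vandermonde determinant. -/
noncomputable def ex (σ : Equiv.Perm (Fin m)) (a : ℕ) : Fin m →₀ ℕ :=
  ∑ j, Finsupp.single (σ j) (a * j)

theorem ex_apply (σ : Equiv.Perm (Fin m)) (a : ℕ) (j : Fin m) : ex σ a (σ j) = a * j := by
  simp [ex, Finsupp.finsetSum_apply, Finsupp.single_apply]

theorem vand_pow (a : ℕ) : ∏ p ∈ prs m, (X p.2 ^ a - X p.1 ^ a : MvPolynomial (Fin m) ℂ) =
    ∑ σ : Equiv.Perm (Fin m), monomial (ex σ a) ((Equiv.Perm.sign σ : ℤ) : ℂ) := by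
  rw [prod_prs (fun i j => (X j ^ a - X i ^ a : MvPolynomial (Fin m) ℂ)),
    ← Matrix.det_vandermonde, Matrix.det_apply]
  refine sum_congr rfl fun σ _ => ?_
  simp only [Matrix.vandermonde_apply, ← pow_mul]
  simp only [X_pow_eq_monomial]
  rw [← monomial_sum_one, Units.smul_def, smul_monomial]
  simp [ex]

/-- The Vandermonde product. -/
noncomputable def vand (m : ℕ) : MvPolynomial (Fin m) ℂ := ∏ p ∈ prs m, (X p.2 - X p.1)

/-- The exponent `c + t`. -/
noncomputable def kap (m c : ℕ) : Fin m →₀ ℕ := Finsupp.equivFunOnFinite.symm fun t => c + t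

/-- The top weight. -/
noncomputable def mu (m c : ℕ) : Fin m →₀ ℕ :=
  Finsupp.equivFunOnFinite.symm fun t => c + m - 1 - 2 * t

theorem kap_apply (c : ℕ) (t : Fin m) : kap m c t = c + t := rfl

theorem mu_apply (c : ℕ) (t : Fin m) : mu m c t = c + m - 1 - 2 * t := rfl

theorem vand_eq : vand m =
    ∑ σ : Equiv.Perm (Fin m), monomial (ex σ 1) ((Equiv.Perm.sign σ : ℤ) : ℂ) := by
  simpa [vand] using vand_pow (m := m) 1

theorem sum_Iio_val (i : Fin m) : (∑ t ∈ Iio i, (t : ℕ)) * 2 + i = i * i := by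
  have := sum_range_id_mul_two i
  rw [← Nat.Iio_eq_range, ← Fin.map_valEmbedding_Iio, sum_map] at this
  simp only [Fin.valEmbedding_apply] at this
  rw [this]
  rcases (i : ℕ) with _ | n
  · simp
  · simp only [Nat.add_sub_cancel]
    ring

theorem sum_Iic_eq {M : Type*} [AddCommMonoid M] (i : Fin m) (f : Fin m → M) :
    ∑ t ∈ Iic i, f t = f i + ∑ t ∈ Iio i, f t := by
  rw [← Iio_insert, sum_insert (by simp)]

theorem sum_mu {c : ℕ} (h2 : m ≤ c + 1) (i : Fin m) :
    ∑ t ∈ Iic i, mu m c t = (Iic i).card * c + (Iic i).card * (m - (Iic i).card) := by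
  have h3 : ∑ t ∈ Iic i, (mu m c t + 2 * t + 1) = ∑ t ∈ Iic i, (c + m) :=
    sum_congr rfl fun t _ => by
      have := t.2
      rw [mu_apply]
      omega
  have h4 := sum_Iio_val i
  rw [sum_add_distrib, sum_add_distrib, ← mul_sum, sum_Iic_eq i fun t => (t : ℕ), sum_const,
    sum_const, smul_eq_mul, smul_eq_mul] at h3
  rw [Fin.card_Iic] at h3 ⊢
  obtain ⟨u, hu⟩ : ∃ u, m = i + 1 + u := ⟨m - (i + 1), by have := i.2; omega⟩
  have : m - (i + 1) = u := by omega
  rw [this]
  generalize ∑ t ∈ Iic i, mu m c t = a at h3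
  generalize ∑ t ∈ Iio i, (t : ℕ) = b at h3 h4
  generalize (i : ℕ) = r at h3 h4 hu
  subst hu
  nlinarith

theorem coeff_vand {c : ℕ} (h2 : m ≤ c + 1) {F : MvPolynomial (Fin m) ℂ}
    (hd : ∀ i j, i ≠ j → X i + X j ∣ F)
    (hB : ∀ κ, coeff κ F ≠ 0 → ∀ I : Finset (Fin m),
      ∑ t ∈ I, κ t ≤ I.card * c + I.card * (m - I.card)) :
    coeff (kap m c) (vand m * F) = coeff (mu m c) F := by
  obtain ⟨g, h3, h4, h5⟩ := exists_quot hd hB (sum_mu h2) (prs m) Subset.rfl
  have h6 : vand m * F = (∑ σ : Equiv.Perm (Fin m),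
      monomial (ex σ 2) ((Equiv.Perm.sign σ : ℤ) : ℂ)) * g := by
    rw [← vand_pow, h3, ← mul_assoc, vand, ← prod_mul_distrib]
    congr 1
    exact prod_congr rfl fun p _ => by ring
  rw [h6, sum_mul, coeff_sum, sum_eq_single 1]
  · have h7 : ex 1 2 ≤ kap m c := fun t => by
      have := ex_apply 1 2 t
      have := t.2
      rw [Equiv.Perm.one_apply] at *
      rw [kap_apply]
      omega
    rw [coeff_monomial_mul', if_pos h7, h5 (kap m c - ex 1 2)]
    · simp
    · ext t
      have h8 := ex_apply 1 2 t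
      have h9 : (∑ p ∈ prs m, Finsupp.single p.1 1 : Fin m →₀ ℕ) t = m - 1 - t := by
        rw [Finsupp.finsetSum_apply, ← Fin.card_Ioi]
        simp only [Finsupp.single_apply, prs, sum_filter, Fintype.sum_prod_type]
        rw [sum_eq_single t]
        · simp only [if_true]
          rw [← card_filter]
          congr 1
          ext
          simp
        · intro b _ hb
          simp [hb]
        · simp
      have := t.2
      rw [Equiv.Perm.one_apply] at h8
      rw [Finsupp.add_apply, h9, Finsupp.tsub_apply, h8, kap_apply, mu_apply]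
      omega
  · intro σ _ hσ
    rw [coeff_monomial_mul']
    split_ifs with h7
    · by_contra hne
      have h8 := h4 _ (right_ne_zero_of_mul hne)
      have h9 := tsub_add_cancel_of_le h7
      generalize kap m c - ex σ 2 = κ at h8 h9
      apply hσ
      have key : ∀ r : ℕ, ∀ t : Fin m, (t : ℕ) = r → σ t = t := by
        intro r
        induction r using Nat.strong_induction_on with
        | _ r ih =>
        intro t ht
        have a1 := h8 ((Iic t).map σ.toEmbedding)
        have a2 := card_meet ((Iic t).map σ.toEmbedding)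
        have a3 : ∑ s ∈ Iic t, (κ (σ s) + 2 * s) = ∑ s ∈ Iic t, (c + σ s) :=
          sum_congr rfl fun s _ => by rw [← ex_apply σ, ← kap_apply, ← h9, Finsupp.add_apply]
        have a4 : ∑ s ∈ Iio t, (σ s : ℕ) = ∑ s ∈ Iio t, (s : ℕ) :=
          sum_congr rfl fun s hs => by rw [ih s (ht ▸ Fin.lt_def.1 (mem_Iio.1 hs)) s rfl]
        have a5 := sum_Iio_val t
        rw [sum_add_distrib, sum_add_distrib, ← mul_sum, sum_Iic_eq t fun s => (s : ℕ),
          sum_Iic_eq t fun s => (σ s : ℕ), a4, sum_const, smul_eq_mul, Fin.card_Iic] at a3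
        rw [sum_map, card_map, Fin.card_Iic] at a1
        rw [card_map, Fin.card_Iic] at a2
        simp only [Equiv.toEmbedding_apply] at a1
        have a6 : (σ t : ℕ) ≤ r := by
          obtain ⟨u, hu⟩ : ∃ u, m = r + 1 + u := ⟨m - (r + 1), by have := t.2; omega⟩
          have b1 : m - (r + 1) = u := by omega
          have b2 : ∀ n : ℕ, n.choose 2 * 2 + n = n * n := fun n => by
            induction n with
            | zero => rfl
            | succ n ih => rw [Nat.choose_succ_succ', Nat.choose_one_right]; nlinarith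
          have b3 := b2 u
          have b4 := b2 m
          rw [ht] at a1 a2 a3 a5
          rw [b1] at a1 a2
          have b5 : m * m = (r + 1 + u) * (r + 1 + u) := by rw [← hu]
          nlinarith
        rcases a6.lt_or_eq with h | h
        · exact σ.injective (ih _ h _ rfl)
        · exact Fin.ext (h.trans ht.symm)
      ext t
      rw [key _ t rfl, Equiv.Perm.one_apply]
    · rfl
  · simp

/-- The Euler operator. -/
noncomputable def Eu (l : Fin m) (p : MvPolynomial (Fin m) ℂ) : MvPolynomial (Fin m) ℂ :=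
  X l * pderiv l p

theorem coeff_Eu (l : Fin m) (p : MvPolynomial (Fin m) ℂ) (κ : Fin m →₀ ℕ) :
    coeff κ (Eu l p) = κ l * coeff κ p := by
  induction p using MvPolynomial.induction_on' with
  | monomial u a =>
    rw [Eu, X_mul_pderiv_monomial, coeff_smul, coeff_monomial]
    split_ifs with h
    · simp [h]
    · simp
  | add p q hp hq =>
    unfold Eu at *
    rw [map_add, mul_add, coeff_add, hp, hq, coeff_add, mul_add]

theorem pderiv_prod {ι : Type*} [DecidableEq ι] (l : Fin m) (S : Finset ι)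
    (u : ι → MvPolynomial (Fin m) ℂ) :
    pderiv l (∏ p ∈ S, u p) = ∑ p ∈ S, (∏ q ∈ S.erase p, u q) * pderiv l (u p) := by
  induction S using Finset.induction_on with
  | empty => simp
  | insert a S ha ih =>
    rw [prod_insert ha, sum_insert ha, pderiv_mul, ih, erase_insert ha, mul_sum, mul_comm]
    congr 1
    refine sum_congr rfl fun p hp => ?_
    rw [erase_insert_of_ne (by rintro rfl; exact ha hp), prod_insert (by simp [ha]), mul_assoc]

theorem casimir_poly {c : ℕ} {F : MvPolynomial (Fin m) ℂ} {f : Fin m → MvPolynomial (Fin m) ℂ}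
    {a : Fin m → Fin m → MvPolynomial (Fin m) ℂ} (hf : ∀ l, f l = Eu l F - C (c : ℂ) * F)
    (hsum : ∑ l, f l = 0) (hdiag : ∀ l, a l l = Eu l (f l) - C (c : ℂ) * f l)
    (hshift : ∀ i j, i ≠ j → X i * a j i = X j * a i j)
    (hcomm : ∀ i j, i ≠ j → a i j - a j i = f i - f j) :
    coeff (kap m c) (vand m * ∑ i, ∑ j, a i j) = 0 := by
  have h1 : ∑ p ∈ prs m, (f p.1 + f p.2) = 0 := by
    have := sum_prs fun i _ => f i
    rw [sum_comm, hsum] at this
    simpa using this.symm
  have h2 : 2 * ∑ l, Eu l (vand m) * f l = vand m * ∑ p ∈ prs m, (a p.1 p.2 + a p.2 p.1) := by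
    rw [← add_zero (∑ p ∈ prs m, _), ← h1, ← sum_add_distrib, mul_sum]
    simp only [Eu, vand, pderiv_prod, mul_sum, sum_mul]
    rw [sum_comm]
    refine sum_congr rfl fun p hp => ?_
    have e1 := hshift p.1 p.2 (mem_prs.1 hp).ne
    have e2 := hcomm p.1 p.2 (mem_prs.1 hp).ne
    rw [← mul_prod_erase _ _ hp]
    generalize (∏ q ∈ (prs m).erase p, (X q.2 - X q.1 : MvPolynomial (Fin m) ℂ)) = b
    have e3 : ∀ i, ∑ l, X l * pderiv l (X i : MvPolynomial (Fin m) ℂ) * f l = X i * f i := by
      intro i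
      rw [sum_eq_single i]
      · simp
      · intro l _ hl
        rw [pderiv_X_of_ne hl.symm]
        simp
      · simp
    have e4 : ∑ l, 2 * (X l * (b * pderiv l (X p.2 - X p.1)) * f l) =
        2 * b * (X p.2 * f p.2 - X p.1 * f p.1) := by
      rw [← e3, ← e3, ← sum_sub_distrib, mul_sum]
      refine sum_congr rfl fun l _ => ?_
      rw [map_sub]
      ring
    rw [e4]
    linear_combination (2 * b) * e1 + (b * (X p.1 + X p.2)) * e2
  have h3 : ∑ l, Eu l (Eu l (vand m)) = C (∑ l : Fin m, ((l : ℕ) : ℂ) ^ 2) * vand m := by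
    ext κ
    rw [coeff_sum, coeff_C_mul, vand_eq, coeff_sum]
    simp only [coeff_Eu, coeff_sum, mul_sum, coeff_monomial]
    rw [sum_comm]
    refine sum_congr rfl fun σ _ => ?_
    split_ifs with h
    · rw [← h, sum_mul, ← Equiv.sum_comp σ]
      refine sum_congr rfl fun l _ => ?_
      rw [ex_apply]
      push_cast
      ring
    · simp
  have h4 : ∀ l, Eu l (Eu l (vand m * F) - C (c : ℂ) * (vand m * F)) -
      C (c : ℂ) * (Eu l (vand m * F) - C (c : ℂ) * (vand m * F)) =
      Eu l (Eu l (vand m)) * F + 2 * (Eu l (vand m) * f l) + vand m * a l l := by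
    intro l
    have : Eu l (vand m * F) - C (c : ℂ) * (vand m * F) = Eu l (vand m) * F + vand m * f l := by
      rw [hf l]
      simp only [Eu, pderiv_mul]
      ring
    rw [this, hdiag l]
    have e := hf l
    have e' : X l * pderiv l (vand m) = Eu l (vand m) := rfl
    generalize Eu l (vand m) = v' at e' ⊢
    simp only [Eu, map_add, pderiv_mul] at e ⊢
    linear_combination (f l) * e' - v' * e
  have h5 := sum_congr (rfl : (univ : Finset (Fin m)) = univ) fun l _ => h4 l
  rw [sum_add_distrib, sum_add_distrib, ← sum_mul, h3, ← mul_sum, h2, ← mul_sum, add_assoc,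
    ← mul_add, add_comm (∑ p ∈ prs m, _), ← sum_prs] at h5
  have h6 := congrArg (coeff (kap m c)) h5
  rw [coeff_add, mul_assoc, coeff_C_mul, coeff_sum] at h6
  simp only [coeff_sub, coeff_Eu, coeff_C_mul, kap_apply] at h6
  rw [sum_mul] at h6
  rw [← add_left_cancel_iff (a := ∑ l : Fin m, ((l : ℕ) : ℂ) ^ 2 * coeff (kap m c) (vand m * F)),
    ← h6, add_zero]
  refine sum_congr rfl fun l _ => ?_
  push_cast
  ring

end Pool.Agent.P.MP_5e2a31_al
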