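import Pool.Agent.P.MP_5e2a31_al.Inv

set_option maxHeartbeats 400000
set_option linter.unusedSectionVars false

namespace Pool.Agent.P.MP_5e2a31_al

open Finset Equiv

variable {X : Type} [Fintype X] [DecidableEq X]

theorem sum_range_le_sum_nat (s : Finset ℕ) : ∑ i ∈ range s.card, i ≤ ∑ i ∈ s, i := by
  induction s using Finset.induction_on_max with
  | empty => simp
  | insert a s ha ih =>
    have h1 : a ∉ s := fun h => lt_irrefl _ (ha a h)
    rw [card_insert_of_notMem h1, sum_range_succ, sum_insert h1]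
    have : s.card ≤ a := by
      have := card_le_card (show s ⊆ range a from fun x hx => mem_range.2 (ha x hx))
      simpa using this
    omega

theorem sum_range_le_of_inj {T : Finset X} {f : X → ℕ} (h : Set.InjOn f T) :
    ∑ i ∈ range T.card, i ≤ ∑ x ∈ T, f x := by
  have := sum_range_le_sum_nat (T.image f)
  rwa [card_image_of_injOn h, sum_image h] at this

theorem rigid {S : Finset X} {a b l f : X → ℕ} {s : ℕ} (hl : ∀ x ∈ S, l x + a x + b x + 1 = s)
    (surj : ∀ i j, i + j < s → ∃ x ∈ S, a x = i ∧ b x = j)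
    (cnt : ∀ p, (S.filter fun x => f x = p).card = (S.filter fun x => l x = p).card)
    (ia : ∀ x ∈ S, ∀ y ∈ S, a x = a y → f x = f y → x = y)
    (ib : ∀ x ∈ S, ∀ y ∈ S, b x = b y → f x = f y → x = y) : ∀ x ∈ S, f x = l x := by
  have key : ∀ p, (S.filter fun x => f x = p) = S.filter fun x => l x = p := by
    intro p
    induction p using Nat.strong_induction_on with
    | _ p ih =>
    set T := S.filter fun x => f x = p with hT
    have mT : ∀ x, x ∈ T ↔ x ∈ S ∧ f x = p := fun x => mem_filter
    have h1 : ∀ x ∈ T, p ≤ l x := by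
      intro x hx
      by_contra h
      have : x ∈ S.filter fun y => f y = l x := by
        rw [ih (l x) (by omega)]
        exact mem_filter.2 ⟨((mT x).1 hx).1, rfl⟩
      have := (mem_filter.1 this).2
      have := ((mT x).1 hx).2
      omega
    have h2 : s - p ≤ T.card := by
      rw [cnt p]
      have : range (s - p) ⊆ (S.filter fun x => l x = p).image a := by
        intro i hi
        rw [mem_range] at hi
        obtain ⟨x, hx, hx1, hx2⟩ := surj i (s - p - 1 - i) (by omega)
        have := hl x hx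
        exact mem_image.2 ⟨x, mem_filter.2 ⟨hx, by omega⟩, hx1⟩
      simpa using (card_le_card this).trans card_image_le
    have h3 := sum_range_le_of_inj (T := T) (f := a) fun x hx y hy h =>
      ia x ((mT x).1 hx).1 y ((mT y).1 hy).1 h (((mT x).1 hx).2.trans ((mT y).1 hy).2.symm)
    have h4 := sum_range_le_of_inj (T := T) (f := b) fun x hx y hy h =>
      ib x ((mT x).1 hx).1 y ((mT y).1 hy).1 h (((mT x).1 hx).2.trans ((mT y).1 hy).2.symm)
    have h5 := sum_range_id_mul_two T.card
    refine eq_of_subset_of_card_le (fun x hx => mem_filter.2 ⟨((mT x).1 hx).1, ?_⟩) (cnt p).ge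
    by_contra hne
    have h6 : ∑ y ∈ T, (a y + b y + (1 + p)) < ∑ y ∈ T, s := by
      refine sum_lt_sum (fun y hy => ?_) ⟨x, hx, ?_⟩
      · have := hl y ((mT y).1 hy).1
        have := h1 y hy
        omega
      · have := hl x ((mT x).1 hx).1
        have := h1 x hx
        omega
    rw [sum_add_distrib, sum_add_distrib, sum_const, sum_const, smul_eq_mul, smul_eq_mul] at h6
    obtain ⟨n, hn⟩ : ∃ n, T.card = n + 1 := ⟨T.card - 1, by have := card_pos.2 ⟨x, hx⟩; omega⟩
    rw [hn] at h2 h3 h4 h5 h6
    have h7 : s ≤ n + 1 + p := by omega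
    have h8 := Nat.mul_le_mul_left (n + 1) h7
    simp only [Nat.add_sub_cancel] at h5
    nlinarith
  intro x hx
  have : x ∈ S.filter fun y => l y = f x := by
    rw [← key]
    exact mem_filter.2 ⟨hx, rfl⟩
  exact (mem_filter.1 this).2.symm

theorem odd_hook {S : Finset X} {r cl : X → ℕ} {s : ℕ} (hl : ∀ x ∈ S, r x + cl x < s)
    (surj : ∀ i j, i + j < s → ∃ x ∈ S, r x = i ∧ cl x = j)
    (inj : ∀ x ∈ S, ∀ y ∈ S, r x = r y → cl x = cl y → x = y) :
    Odd (∏ x ∈ S, hook S r cl x) := by
  refine prod_induction _ Odd (fun a b => Odd.mul) odd_one fun x hx => ?_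
  have h0 := hl x hx
  have h1 : (S.filter fun y => r y = r x ∧ cl x ≤ cl y).card = (Ico (cl x) (s - r x)).card := by
    refine card_bij (fun y _ => cl y) ?_ ?_ ?_
    · intro y hy
      rw [mem_filter] at hy
      have := hl y hy.1
      rw [mem_Ico]
      omega
    · intro y hy z hz h
      rw [mem_filter] at hy hz
      exact inj y hy.1 z hz.1 (by omega) h
    · intro j hj
      rw [mem_Ico] at hj
      obtain ⟨y, hy, hy1, hy2⟩ := surj (r x) j (by omega)
      exact ⟨y, mem_filter.2 ⟨hy, hy1, by omega⟩, hy2⟩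
  have h2 : (S.filter fun y => cl y = cl x ∧ r x < r y).card =
      (Ico (r x + 1) (s - cl x)).card := by
    refine card_bij (fun y _ => r y) ?_ ?_ ?_
    · intro y hy
      rw [mem_filter] at hy
      have := hl y hy.1
      rw [mem_Ico]
      omega
    · intro y hy z hz h
      rw [mem_filter] at hy hz
      exact inj y hy.1 z hz.1 h (by omega)
    · intro j hj
      rw [mem_Ico] at hj
      obtain ⟨y, hy, hy1, hy2⟩ := surj j (cl x) (by omega)
      exact ⟨y, mem_filter.2 ⟨hy, hy2, by omega⟩, hy1⟩
  unfold hook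
  rw [h1, h2, Nat.card_Ico, Nat.card_Ico]
  exact ⟨s - r x - cl x - 1, by omega⟩

/-- Coordinates of an `m × c` rectangle on `X`, with `m = c` or `m = c + 1`. -/
structure Rect (X : Type) (m c : ℕ) where
  I : X → ℕ
  J : X → ℕ
  hI : ∀ x, I x < m
  hJ : ∀ x, J x < c
  inj : ∀ x y, I x = I y → J x = J y → x = y
  surj : ∀ i j, i < m → j < c → ∃ x, I x = i ∧ J x = j
  h1 : c ≤ m
  h2 : m ≤ c + 1

namespace Rect

variable {m c : ℕ} (R : Rect X m c)

/-- The upper staircase. -/
def A : Finset X := univ.filter fun x => R.I x + R.J x < c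

theorem mem_A {x : X} : x ∈ R.A ↔ R.I x + R.J x < c := by simp [A]

theorem mem_B {x : X} : x ∈ R.Aᶜ ↔ c ≤ R.I x + R.J x := by simp [A]

/-- The diagonal labelling. -/
def L (x : X) : Fin m :=
  ⟨if R.I x + R.J x < c then c - 1 - (R.I x + R.J x) else m + c - 1 - (R.I x + R.J x), by
    have := R.hI x
    have := R.h1
    split_ifs <;> omega⟩

theorem L_val (x : X) : (R.L x : ℕ) =
    if R.I x + R.J x < c then c - 1 - (R.I x + R.J x) else m + c - 1 - (R.I x + R.J x) := rfl

/-- The second column structure. -/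
def J' (x : X) : ℕ := if R.I x + R.J x < c then R.I x else R.I x + c - m

theorem L_inj (x y : X) (h1 : R.J x = R.J y) (h2 : R.L x = R.L y) : x = y := by
  refine R.inj x y ?_ h1
  have := R.hI x; have := R.hI y; have := R.hJ x; have := R.h1; have := R.h2
  rw [Fin.ext_iff, L_val, L_val] at h2
  split_ifs at h2 <;> omega

theorem L_inj' (x y : X) (h1 : R.J' x = R.J' y) (h2 : R.L x = R.L y) : x = y := by
  have := R.hI x; have := R.hI y; have := R.hJ x; have := R.hJ y; have := R.h1; have := R.h2
  rw [Fin.ext_iff, L_val, L_val] at h2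
  unfold J' at h1
  refine R.inj x y ?_ ?_ <;> split_ifs at h1 h2 <;> omega

theorem L_surj0 (j : ℕ) (hj : j < c) (p : Fin m) : ∃ y, R.J y = j ∧ R.L y = p := by
  have := R.h1; have := R.h2; have := p.2
  by_cases h : (p : ℕ) + j < c
  · obtain ⟨y, hy1, hy2⟩ := R.surj (c - 1 - j - p) j (by omega) hj
    refine ⟨y, hy2, Fin.ext ?_⟩
    rw [L_val]
    split_ifs <;> omega
  · obtain ⟨y, hy1, hy2⟩ := R.surj (m + c - 1 - j - p) j (by omega) hj
    refine ⟨y, hy2, Fin.ext ?_⟩
    rw [L_val]
    split_ifs <;> omega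

theorem L_surj' (x : X) (p : Fin m) : ∃ y, R.J' y = R.J' x ∧ R.L y = p := by
  have := R.h1; have := R.h2; have := p.2; have := R.hI x; have := R.hJ x
  have ha : R.J' x < c := by unfold J'; split_ifs <;> omega
  generalize R.J' x = a at ha
  by_cases h : (p : ℕ) + a < c
  · obtain ⟨y, hy1, hy2⟩ := R.surj a (c - 1 - a - p) (by omega) (by omega)
    refine ⟨y, ?_, Fin.ext ?_⟩
    · unfold J'
      split_ifs <;> omega
    · rw [L_val]
      split_ifs <;> omega
  · obtain ⟨y, hy1, hy2⟩ := R.surj (a + m - c) (2 * c - 1 - p - a) (by omega) (by omega)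
    refine ⟨y, ?_, Fin.ext ?_⟩
    · unfold J'
      split_ifs <;> omega
    · rw [L_val]
      split_ifs <;> omega

theorem L_card (p : Fin m) : (univ.filter fun x => R.L x = p).card = c := by
  refine Eq.trans ?_ (card_range c)
  refine card_bij (fun y _ => R.J y) (fun y _ => mem_range.2 (R.hJ y)) ?_ ?_
  · intro x hx y hy h
    simp only [mem_filter, mem_univ, true_and] at hx hy
    exact R.L_inj x y h (hx.trans hy.symm)
  · intro j hj
    obtain ⟨y, h1, h2⟩ := R.L_surj0 j (mem_range.1 hj) p
    exact ⟨y, by simpa using h2, h1⟩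

theorem z_mem : zD R.J R.L ∈ Zs X m c :=
  zD_mem R.L_card fun x p => R.L_surj0 _ (R.hJ x) p

theorem z'_mem : zD R.J' R.L ∈ Zs X m c := zD_mem R.L_card R.L_surj'

theorem L_min {f : X → Fin m} (hf : ∀ x y, R.J x = R.J y → f x = f y → x = y) :
    ∑ x ∈ R.A, (R.L x : ℕ) ≤ ∑ x ∈ R.A, (f x : ℕ) := by
  rw [← sum_fiberwise_of_maps_to (s := R.A) (t := range c) (g := R.J)
      (fun x _ => mem_range.2 (R.hJ x)),
    ← sum_fiberwise_of_maps_to (s := R.A) (t := range c) (g := R.J)
      (fun x _ => mem_range.2 (R.hJ x))]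
  refine sum_le_sum fun j hj => ?_
  rw [mem_range] at hj
  have hinj : Set.InjOn (fun x => (R.L x : ℕ)) (R.A.filter fun x => R.J x = j) := by
    intro x hx y hy h
    simp only [coe_filter, Set.mem_ofPred_eq] at hx hy
    exact R.L_inj x y (hx.2.trans hy.2.symm) (Fin.ext h)
  have him : (R.A.filter fun x => R.J x = j).image (fun x => (R.L x : ℕ)) = range (c - j) := by
    ext p
    simp only [mem_image, mem_filter, mem_range, mem_A]
    constructor
    · rintro ⟨x, ⟨h1, h2⟩, rfl⟩
      rw [L_val, if_pos h1]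
      omega
    · intro hp
      have := R.h1
      obtain ⟨y, hy1, hy2⟩ := R.surj (c - 1 - j - p) j (by omega) hj
      refine ⟨y, ⟨by omega, hy2⟩, ?_⟩
      rw [L_val]
      split_ifs <;> omega
  have h1 := sum_range_le_of_inj (T := R.A.filter fun x => R.J x = j) (f := fun x => (f x : ℕ))
    (by
      intro x hx y hy h
      simp only [coe_filter, Set.mem_ofPred_eq] at hx hy
      exact hf x y (hx.2.trans hy.2.symm) (Fin.ext h))
  rw [← card_image_of_injOn hinj, him, card_range] at h1
  refine le_trans (le_of_eq ?_) h1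
  rw [← him, sum_image hinj]

theorem card_comp {S : Finset X} {g : Perm X} (hg : Stab S g) (P : X → Prop) [DecidablePred P] :
    (S.filter fun x => P (g x)).card = (S.filter P).card :=
  card_bij' (fun x _ => g x) (fun x _ => g⁻¹ x) (by simp +contextual [hg _])
    (fun x hx => by
      rw [mem_filter] at hx ⊢
      exact ⟨(hg.inv x).2 hx.1, by simpa using hx.2⟩) (by simp) (by simp)

theorem L_rigid {g : Perm X} (hg : Stab R.A g)
    (h1 : ∀ x y, R.J x = R.J y → R.L (g x) = R.L (g y) → x = y)
    (h2 : ∀ x y, R.J' x = R.J' y → R.L (g x) = R.L (g y) → x = y) : R.L ∘ g = R.L := by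
  have := R.h1; have := R.h2
  have eA := rigid (S := R.A) (a := R.I) (b := R.J) (l := fun x => R.L x)
    (f := fun x => R.L (g x)) (s := c)
    (fun x hx => by rw [mem_A] at hx; rw [L_val, if_pos hx]; omega)
    (fun i j h => by
      obtain ⟨y, hy1, hy2⟩ := R.surj i j (by omega) (by omega)
      exact ⟨y, R.mem_A.2 (by omega), hy1, hy2⟩)
    (fun p => card_comp hg fun x => (R.L x : ℕ) = p)
    (fun x hx y hy h h' => h2 x y (by
      rw [mem_A] at hx hy
      unfold J'
      rw [if_pos hx, if_pos hy, h]) (Fin.ext h'))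
    (fun x _ y _ h h' => h1 x y h (Fin.ext h'))
  have eB := rigid (S := R.Aᶜ) (a := fun x => m - 1 - R.I x) (b := fun x => c - 1 - R.J x)
    (l := fun x => m - 1 - R.L x) (f := fun x => m - 1 - R.L (g x)) (s := m - 1)
    (fun x hx => by
      rw [mem_B] at hx
      have := R.hI x; have := R.hJ x
      rw [L_val, if_neg (by omega)]
      omega)
    (fun i j h => by
      obtain ⟨y, hy1, hy2⟩ := R.surj (m - 1 - i) (c - 1 - j) (by omega) (by omega)
      exact ⟨y, R.mem_B.2 (by omega), by omega, by omega⟩)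
    (fun p => card_comp hg.compl fun x => m - 1 - (R.L x : ℕ) = p)
    (fun x hx y hy h h' => h2 x y (by
      rw [mem_B] at hx hy
      have := R.hI x; have := R.hI y
      unfold J'
      rw [if_neg (by omega), if_neg (by omega)]
      omega) (Fin.ext (by have := (R.L (g x)).2; have := (R.L (g y)).2; omega)))
    (fun x _ y _ h h' => h1 x y (by have := R.hJ x; have := R.hJ y; omega)
      (Fin.ext (by have := (R.L (g x)).2; have := (R.L (g y)).2; omega)))
  ext x
  by_cases hx : x ∈ R.A
  · exact eA x hx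
  · have := eB x (mem_compl.2 hx)
    have := (R.L (g x)).2
    have := (R.L x).2
    simp only [Function.comp_apply]
    omega

/-- The blocks of the Young subgroup, in the order in which they are peeled. -/
def blk (x : X) : ℕ := if R.I x + R.J x < c then 2 * R.L x else 2 * (m - 1 - R.L x) + 1

theorem blk_eq_iff (x y : X) :
    R.blk x = R.blk y ↔ (x ∈ R.A ↔ y ∈ R.A) ∧ R.L x = R.L y := by
  have := (R.L x).2; have := (R.L y).2
  rw [mem_A, mem_A, Fin.ext_iff]
  unfold blk
  split_ifs <;> omega

theorem sq_le {s : ℕ} {P : X → Prop} [DecidablePred P] (φ ψ : ℕ → ℕ → ℕ)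
    (h1 : ∀ u v, u < s → v < s → φ u v < m ∧ ψ u v < c)
    (h2 : ∀ u v, u < s → v < s → ∀ x, R.I x = φ u v → R.J x = ψ u v → P x)
    (h3 : ∀ u v u' v', u < s → v < s → u' < s → v' < s → φ u v = φ u' v' → ψ u v = ψ u' v' →
      u = u' ∧ v = v') : s * s ≤ (univ.filter P).card := by
  have : s * s = (range s ×ˢ range s).card := by simp
  rw [this]
  refine le_trans ?_ (card_image_le (f := fun x => (R.I x, R.J x)))
  refine card_le_card_of_injOn (fun p => (φ p.1 p.2, ψ p.1 p.2)) ?_ ?_
  · rintro ⟨u, v⟩ hp
    simp only [coe_product, coe_range, Set.mem_prod, Set.mem_Iio] at hp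
    obtain ⟨x, hx1, hx2⟩ := R.surj _ _ (h1 u v hp.1 hp.2).1 (h1 u v hp.1 hp.2).2
    simp only [coe_image, coe_filter, mem_univ, true_and, Set.mem_image, Set.mem_ofPred_eq]
    exact ⟨x, h2 u v hp.1 hp.2 x hx1 hx2, by rw [hx1, hx2]⟩
  · rintro ⟨u, v⟩ hp ⟨u', v'⟩ hp' h
    simp only [coe_product, coe_range, Set.mem_prod, Set.mem_Iio] at hp hp'
    simp only [Prod.mk.injEq] at h ⊢
    exact h3 u v u' v' hp.1 hp.2 hp'.1 hp'.2 h.1 h.2

theorem blk_ok (b : ℕ) (hb : (univ.filter fun x => R.blk x = b).Nonempty) :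
    ((univ.filter fun x => R.blk x = b).card - 1) * ((univ.filter fun x => R.blk x = b).card - 1) <
      (univ.filter fun x => b ≤ R.blk x).card := by
  have := R.h1; have := R.h2
  have aux : ∀ s, (univ.filter fun x => R.blk x = b).card ≤ s →
      s * s ≤ (univ.filter fun x => b ≤ R.blk x).card →
      ((univ.filter fun x => R.blk x = b).card - 1) *
        ((univ.filter fun x => R.blk x = b).card - 1) <
      (univ.filter fun x => b ≤ R.blk x).card := by
    intro s h1 h2
    have h3 := card_pos.2 hb
    exact lt_of_lt_of_le (Nat.mul_self_lt_mul_self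
      (show (univ.filter fun x => R.blk x = b).card - 1 < s by omega)) h2
  obtain ⟨i, rfl | rfl⟩ := Nat.even_or_odd' b
  · refine aux (c - i) ?_ ?_
    · rw [← card_range (c - i)]
      refine card_le_card_of_injOn R.J ?_ ?_
      · intro x hx
        simp only [coe_filter, mem_univ, true_and, Set.mem_ofPred_eq, blk, L_val] at hx
        simp only [coe_range, Set.mem_Iio]
        split_ifs at hx <;> omega
      · intro x hx y hy h
        simp only [coe_filter, mem_univ, true_and, Set.mem_ofPred_eq] at hx hy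
        exact R.L_inj x y h ((R.blk_eq_iff x y).1 (hx.trans hy.symm)).2
    · refine R.sq_le (fun u v => if u + v < c - i then u else m - (c - i) + u)
        (fun u v => if u + v < c - i then v else c - (c - i) + v) ?_ ?_ ?_
      · intro u v hu hv
        split_ifs <;> omega
      · intro u v hu hv x h1 h2
        simp only [blk, L_val]
        split_ifs at h1 h2 ⊢ <;> omega
      · intro u v u' v' hu hv hu' hv' h1 h2
        split_ifs at h1 h2 <;> omega
  · refine aux (m - 1 - i) ?_ ?_
    · rw [← card_range (m - 1 - i)]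
      refine card_le_card_of_injOn (fun x => c - 1 - R.J x) ?_ ?_
      · intro x hx
        have := R.hI x; have := R.hJ x
        simp only [coe_filter, mem_univ, true_and, Set.mem_ofPred_eq, blk, L_val] at hx
        simp only [coe_range, Set.mem_Iio]
        split_ifs at hx <;> omega
      · intro x hx y hy h
        have := R.hJ x; have := R.hJ y
        simp only [coe_filter, mem_univ, true_and, Set.mem_ofPred_eq] at hx hy
        exact R.L_inj x y (by simp only at h; omega) ((R.blk_eq_iff x y).1 (hx.trans hy.symm)).2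
    · refine R.sq_le (fun u v => if u + v < m - 1 - i then m - 1 - u else m - 1 - i - 1 - u)
        (fun u v => if u + v < m - 1 - i then c - 1 - v else m - 1 - i - 1 - v) ?_ ?_ ?_
      · intro u v hu hv
        split_ifs <;> omega
      · intro u v hu hv x h1 h2
        simp only [blk, L_val]
        split_ifs at h1 h2 ⊢ <;> omega
      · intro u v u' v' hu hv hu' hv' h1 h2
        split_ifs at h1 h2 <;> omega

end Rect

end Pool.Agent.P.MP_5e2a31_al
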