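import Pool.Agent.P.MP_5e2a31_al.MainS

set_option maxHeartbeats 400000
set_option linter.unusedSectionVars false

namespace Pool.Agent.P.MP_5e2a31_al

open Finset

/-- A family of positions `P` in words `Ω`, each holding a letter in `Fin m`. -/
structure Slot (Ω P : Type) (m : ℕ) where
  get : Ω → P → Fin m
  set : Ω → P → Fin m → Ω
  get_set : ∀ w p j, get (set w p j) p = j
  get_set_ne : ∀ w p q j, q ≠ p → get (set w p j) q = get w q
  set_set : ∀ w p i j, set (set w p i) p j = set w p j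
  set_get : ∀ w p, set w p (get w p) = w
  set_comm : ∀ w p q i j, p ≠ q → set (set w p i) q j = set (set w q j) p i

section Gen

variable {Ω : Type} (K : Type*) [AddCommGroup K] [Module ℂ K]

/-- Diagonal operators. -/
def Dg (d : Ω → ℂ) : Module.End ℂ (Ω → K) where
  toFun f w := d w • f w
  map_add' f g := by ext w; simp
  map_smul' t f := by ext w; simp [smul_comm t]

variable {K}

@[simp] theorem Dg_apply (d : Ω → ℂ) (f : Ω → K) (w : Ω) : Dg K d f w = d w • f w := rfl

theorem Dg_mul (d d' : Ω → ℂ) : Dg K d * Dg K d' = Dg K (fun w => d w * d' w) := by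
  ext f w
  simp [smul_smul]

theorem Dg_comm (d d' : Ω → ℂ) : Dg K d * Dg K d' = Dg K d' * Dg K d := by
  simp only [Dg_mul, mul_comm]

variable {K' : Type*} [AddCommGroup K'] [Module ℂ K']

/-- Postcomposition. -/
def pc (Ω : Type) (u : K →ₗ[ℂ] K') : (Ω → K) →ₗ[ℂ] (Ω → K') := u.compLeft Ω

@[simp] theorem pc_apply (u : K →ₗ[ℂ] K') (f : Ω → K) (w : Ω) : pc Ω u f w = u (f w) := rfl

theorem pc_mul (u v : Module.End ℂ K) :
    (pc Ω u * pc Ω v : Module.End ℂ (Ω → K)) = pc Ω (u * v) := rfl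

theorem pc_one : (pc Ω (1 : Module.End ℂ K) : Module.End ℂ (Ω → K)) = 1 := rfl

theorem pc_smul (t : ℂ) (u : K →ₗ[ℂ] K') : pc Ω (t • u) = t • pc Ω u := rfl

theorem Dg_pc (d : Ω → ℂ) (u : Module.End ℂ K) : Dg K d * pc Ω u = pc Ω u * Dg K d := by
  ext f w
  simp

/-- The pairing of a scalar function with a vector valued function. -/
def pr [Fintype Ω] (y : Ω → ℂ) (f : Ω → K) : K := ∑ w, y w • f w

end Gen

namespace Slot

variable {Ω P : Type} [Fintype Ω] [DecidableEq Ω] [Fintype P] [DecidableEq P] {m : ℕ}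
  (s : Slot Ω P m) (K : Type*) [AddCommGroup K] [Module ℂ K]

/-- The matrix unit at the position `p`. -/
def e (p : P) (i j : Fin m) : Module.End ℂ (Ω → K) where
  toFun f w := if s.get w p = i then f (s.set w p j) else 0
  map_add' f g := by ext w; by_cases h : s.get w p = i <;> simp [h]
  map_smul' t f := by ext w; by_cases h : s.get w p = i <;> simp [h]

/-- The content of a word. -/
noncomputable def cont (w : Ω) : Fin m →₀ ℕ := ∑ p, Finsupp.single (s.get w p) 1

/-- The projection on a weight space. -/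
noncomputable def Pw (ν : Fin m →₀ ℕ) : Module.End ℂ (Ω → K) :=
  Dg K fun w => if s.cont w = ν then 1 else 0

/-- The even root vectors. -/
noncomputable def E (i j : Fin m) : Module.End ℂ (Ω → K) := ∑ p, s.e K p i j

variable {K}

/-- The twisted root vectors. -/
noncomputable def G (c : P → Module.End ℂ K) (i j : Fin m) : Module.End ℂ (Ω → K) :=
  ∑ p, s.e K p i j * pc Ω (c p)

theorem e_apply (p : P) (i j : Fin m) (f : Ω → K) (w : Ω) :
    s.e K p i j f w = if s.get w p = i then f (s.set w p j) else 0 := rfl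

theorem G_one (i j : Fin m) : s.G (fun _ => (1 : Module.End ℂ K)) i j = s.E K i j := by
  simp [G, E, pc_one]

theorem E_apply (i j : Fin m) (f : Ω → K) (w : Ω) :
    s.E K i j f w = ∑ p with s.get w p = i, f (s.set w p j) := by
  simp [E, LinearMap.sum_apply, Finset.sum_apply, e_apply, sum_filter]

theorem G_apply (c : P → Module.End ℂ K) (i j : Fin m) (f : Ω → K) (w : Ω) :
    s.G c i j f w = ∑ p with s.get w p = i, c p (f (s.set w p j)) := by
  simp [G, LinearMap.sum_apply, Finset.sum_apply, e_apply, sum_filter]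

theorem e_mul (p : P) (i j k l : Fin m) :
    s.e K p i j * s.e K p k l = if j = k then s.e K p i l else 0 := by
  refine LinearMap.ext fun f => funext fun w => ?_
  by_cases h : j = k <;> by_cases h' : s.get w p = i <;>
    simp [e_apply, h, h', s.get_set, s.set_set]

theorem e_comm {p q : P} (h : p ≠ q) (i j k l : Fin m) :
    s.e K p i j * s.e K q k l = s.e K q k l * s.e K p i j := by
  refine LinearMap.ext fun f => funext fun w => ?_
  simp only [Module.End.mul_apply, e_apply, s.get_set_ne _ _ _ _ h,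
    s.get_set_ne _ _ _ _ h.symm, s.set_comm _ _ _ _ _ h]
  split_ifs <;> rfl

theorem e_pc {K' : Type*} [AddCommGroup K'] [Module ℂ K'] (u : K →ₗ[ℂ] K') (p : P) (i j : Fin m)
    (f : Ω → K) : s.e K' p i j (pc Ω u f) = pc Ω u (s.e K p i j f) := by
  ext w
  by_cases h : s.get w p = i <;> simp [e_apply, h]

theorem e_pc' (u : Module.End ℂ K) (p : P) (i j : Fin m) :
    s.e K p i j * pc Ω u = pc Ω u * s.e K p i j := LinearMap.ext fun f => s.e_pc u p i j f

theorem E_pc {K' : Type*} [AddCommGroup K'] [Module ℂ K'] (u : K →ₗ[ℂ] K') (i j : Fin m)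
    (f : Ω → K) : s.E K' i j (pc Ω u f) = pc Ω u (s.E K i j f) := by
  simp [E, LinearMap.sum_apply, e_pc]

theorem cont_apply (w : Ω) (i : Fin m) : s.cont w i = (univ.filter fun p => s.get w p = i).card := by
  rw [cont, Finsupp.finsetSum_apply, card_filter]
  simp only [Finsupp.single_apply]

theorem cont_set (w : Ω) (p : P) (j : Fin m) :
    s.cont (s.set w p j) + Finsupp.single (s.get w p) 1 = s.cont w + Finsupp.single j 1 := by
  unfold cont
  rw [← add_sum_erase _ _ (mem_univ p), ← add_sum_erase _ _ (mem_univ p), s.get_set,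
    sum_congr rfl fun q hq => by rw [s.get_set_ne _ _ _ _ (ne_of_mem_erase hq)]]
  abel

theorem sum_cont (w : Ω) : ∑ i, s.cont w i = Fintype.card P := by
  simp only [cont_apply]
  rw [← card_univ, card_eq_sum_card_fiberwise (f := s.get w) (t := univ) (by simp)]

theorem Dg_e {d d' : Ω → ℂ} {p : P} {i j : Fin m}
    (h : ∀ w, s.get w p = i → d w = d' (s.set w p j)) :
    Dg K d * s.e K p i j = s.e K p i j * Dg K d' := by
  refine LinearMap.ext fun f => funext fun w => ?_
  by_cases h' : s.get w p = i <;> simp [e_apply, h', h w]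

theorem Dg_G (c : P → Module.End ℂ K) {d d' : Ω → ℂ} {i j : Fin m}
    (h : ∀ w p, s.get w p = i → d w = d' (s.set w p j)) :
    Dg K d * s.G c i j = s.G c i j * Dg K d' := by
  unfold G
  rw [mul_sum, sum_mul]
  refine sum_congr rfl fun p _ => ?_
  rw [← mul_assoc, s.Dg_e (fun w => h w p), mul_assoc, Dg_pc, mul_assoc]

theorem E_diag (i : Fin m) : s.E K i i = Dg K fun w => (s.cont w i : ℂ) := by
  refine LinearMap.ext fun f => funext fun w => ?_
  rw [E_apply, Dg_apply, cont_apply,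
    sum_congr rfl fun p hp => by rw [← (mem_filter.1 hp).2, s.set_get], sum_const,
    Nat.cast_smul_eq_nsmul]

theorem G_comm {c : P → Module.End ℂ K} {η : ℂ} (hsq : ∀ p, c p * c p = 1)
    (hc : ∀ p q, p ≠ q → c p * c q = η • (c q * c p)) (i j : Fin m) :
    s.G c i j * s.G c j i - η • (s.G c j i * s.G c i j) = s.E K i i - η • s.E K j j := by
  unfold G E
  rw [sum_mul_sum, sum_mul_sum, sum_comm (f := fun q p => s.e K q j i * _ * _), smul_sum,
    ← sum_sub_distrib, smul_sum, ← sum_sub_distrib]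
  refine sum_congr rfl fun p _ => ?_
  have key : ∀ p q (i j k l : Fin m), s.e K p i j * pc Ω (c p) * (s.e K q k l * pc Ω (c q)) =
      s.e K p i j * s.e K q k l * pc Ω (c p * c q) := by
    intro p q i j k l
    rw [mul_assoc, ← mul_assoc (pc Ω (c p)), ← e_pc', mul_assoc, pc_mul, mul_assoc]
  rw [smul_sum, ← sum_sub_distrib, sum_eq_single p]
  · rw [key, key, hsq, pc_one, e_mul, e_mul]
    simp
  · intro q _ hq
    rw [key, key, hc p q hq.symm, pc_smul, s.e_comm hq]
    simp
  · simp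

theorem E_comm (i j k l : Fin m) : s.E K i j * s.E K k l - s.E K k l * s.E K i j =
    (if j = k then s.E K i l else 0) - (if l = i then s.E K k j else 0) := by
  unfold E
  rw [sum_mul_sum, sum_mul_sum, sum_comm (f := fun q p => s.e K q k l * _), ← sum_sub_distrib,
    sum_congr rfl fun p _ => by
      rw [← sum_sub_distrib, sum_eq_single p (fun q _ hq => by rw [s.e_comm hq]; simp) (by simp),
        e_mul, e_mul], sum_sub_distrib]
  split_ifs <;> simp

variable (K)

/-- The root vectors, shifted by the weight `c₀`. -/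
noncomputable def U (c₀ : ℕ) (i j : Fin m) : Module.End ℂ (Ω → K) :=
  s.E K i j - (if i = j then (c₀ : ℂ) else 0) • 1

/-- The shifted Casimir operator. -/
noncomputable def A (c₀ : ℕ) : Module.End ℂ (Ω → K) := ∑ i, ∑ j, s.U K c₀ i j * s.U K c₀ j i

/-- The invariants of weight `c₀`. -/
noncomputable def Inv (c₀ : ℕ) : Submodule ℂ (Ω → K) := ⨅ i, ⨅ j, LinearMap.ker (s.U K c₀ i j)

variable {K}

theorem mem_Inv {c₀ : ℕ} {f : Ω → K} : f ∈ s.Inv K c₀ ↔ ∀ i j, s.U K c₀ i j f = 0 := by
  simp [Inv]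

theorem commute_A {c₀ : ℕ} {T : Module.End ℂ (Ω → K)} (h : ∀ i j, Commute T (s.E K i j)) :
    Commute T (s.A K c₀) := by
  have : ∀ i j, Commute T (s.U K c₀ i j) := fun i j =>
    (h i j).sub_right ((Commute.one_right T).smul_right _)
  exact Commute.sum_right _ _ _ fun i _ => Commute.sum_right _ _ _ fun j _ =>
    (this i j).mul_right (this j i)

theorem E_A (c₀ : ℕ) (a b : Fin m) : Commute (s.E K a b) (s.A K c₀) := by
  have h : ∀ i j, s.E K a b * s.U K c₀ i j = s.U K c₀ i j * s.E K a b +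
      ((if b = i then s.U K c₀ a j else 0) - (if j = a then s.U K c₀ i b else 0)) := by
    intro i j
    have := s.E_comm (K := K) a b i j
    unfold U
    rw [mul_sub, sub_mul, sub_eq_iff_eq_add'.1 this]
    by_cases h1 : b = i <;> by_cases h2 : j = a
    · subst h1 h2
      simp
      abel
    · subst h1
      simp [h2, Ne.symm h2]
      abel
    · subst h2
      simp [h1, Ne.symm h1]
      abel
    · simp [h1, h2]
  have h2 : ∀ i j, s.E K a b * (s.U K c₀ i j * s.U K c₀ j i) =
      s.U K c₀ i j * s.U K c₀ j i * s.E K a b +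
        ((if b = i then s.U K c₀ a j * s.U K c₀ j i else 0) -
          (if j = a then s.U K c₀ i b * s.U K c₀ j i else 0) +
          ((if b = j then s.U K c₀ i j * s.U K c₀ a i else 0) -
          (if i = a then s.U K c₀ i j * s.U K c₀ j b else 0))) := by
    intro i j
    rw [← mul_assoc, h, add_mul, mul_assoc, h]
    simp only [mul_add, mul_sub, sub_mul, ite_mul, mul_ite, zero_mul, mul_zero, mul_assoc]
    abel
  unfold Commute SemiconjBy A
  simp only [mul_sum, sum_mul, h2, sum_add_distrib, sum_sub_distrib]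
  rw [sum_comm (f := fun i j => if b = i then _ else 0),
    sum_comm (f := fun i j => if i = a then _ else 0)]
  simp

theorem U_pc {K' : Type*} [AddCommGroup K'] [Module ℂ K'] (u : K →ₗ[ℂ] K') (c₀ : ℕ) (i j : Fin m)
    (f : Ω → K) : s.U K' c₀ i j (pc Ω u f) = pc Ω u (s.U K c₀ i j f) := by
  by_cases h : i = j <;> simp [U, E_pc, h]

theorem A_pc {K' : Type*} [AddCommGroup K'] [Module ℂ K'] (u : K →ₗ[ℂ] K') (c₀ : ℕ)
    (f : Ω → K) : s.A K' c₀ (pc Ω u f) = pc Ω u (s.A K c₀ f) := by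
  simp [A, LinearMap.sum_apply, U_pc]

theorem pr_e (p : P) (i j : Fin m) (y : Ω → ℂ) (f : Ω → K) :
    pr (s.e ℂ p i j y) f = pr y (s.e K p j i f) := by
  unfold pr
  simp only [e_apply, ite_smul, zero_smul, smul_ite, smul_zero, ← sum_filter]
  refine sum_bij' (fun w _ => s.set w p j) (fun w _ => s.set w p i) ?_ ?_ ?_ ?_ ?_
  · simp [s.get_set]
  · simp [s.get_set]
  · intro w hw
    rw [s.set_set, ← (mem_filter.1 hw).2, s.set_get]
  · intro w hw
    rw [s.set_set, ← (mem_filter.1 hw).2, s.set_get]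
  · intro w hw
    rw [s.set_set, ← (mem_filter.1 hw).2, s.set_get]

theorem pr_E (i j : Fin m) (y : Ω → ℂ) (f : Ω → K) :
    pr (s.E ℂ i j y) f = pr y (s.E K j i f) := by
  have := sum_congr (rfl : (univ : Finset P) = univ) fun p _ => s.pr_e p i j y f
  unfold pr at this ⊢
  simp only [E, LinearMap.sum_apply, Finset.sum_apply, sum_smul, smul_sum]
  rw [sum_comm, this, sum_comm]

theorem pr_U (c₀ : ℕ) (i j : Fin m) (y : Ω → ℂ) (f : Ω → K) :
    pr (s.U ℂ c₀ i j y) f = pr y (s.U K c₀ j i f) := by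
  have := s.pr_E i j y f
  unfold pr at this ⊢
  simp only [U, LinearMap.sub_apply, LinearMap.smul_apply, Module.End.one_apply, Pi.sub_apply,
    Pi.smul_apply, sub_smul, smul_sub, sum_sub_distrib, this, eq_comm (a := j), smul_smul,
    smul_eq_mul, mul_comm]

theorem pr_A (c₀ : ℕ) (y : Ω → ℂ) (f : Ω → K) :
    pr (s.A ℂ c₀ y) f = pr y (s.A K c₀ f) := by
  have : ∀ i j, pr (s.U ℂ c₀ i j (s.U ℂ c₀ j i y)) f = pr y (s.U K c₀ i j (s.U K c₀ j i f)) :=
    fun i j => by rw [pr_U, pr_U]
  unfold pr at this ⊢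
  simp only [A, LinearMap.sum_apply, Finset.sum_apply, sum_smul, smul_sum, Module.End.mul_apply]
  rw [sum_comm, sum_congr rfl fun i _ => sum_comm]
  conv_rhs => rw [sum_comm, sum_congr rfl fun i _ => sum_comm]
  simp only [this]

theorem E_star (i j : Fin m) (y : Ω → ℂ) : s.E ℂ i j (star y) = star (s.E ℂ i j y) := by
  ext w
  simp [E_apply]

theorem U_star (c₀ : ℕ) (i j : Fin m) (y : Ω → ℂ) :
    s.U ℂ c₀ i j (star y) = star (s.U ℂ c₀ i j y) := by
  ext w
  by_cases h : i = j <;> simp [U, E_star, h]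

theorem A_star (c₀ : ℕ) (y : Ω → ℂ) : s.A ℂ c₀ (star y) = star (s.A ℂ c₀ y) := by
  simp [A, LinearMap.sum_apply, U_star]

theorem pr_star (y : Ω → ℂ) : pr (star y) y = ((∑ w, Complex.normSq (y w) : ℝ) : ℂ) := by
  simp [pr, Complex.normSq_eq_conj_mul_self]

theorem eq_zero_of_nrm {y : Ω → ℂ} (h : ∑ w, Complex.normSq (y w) = 0) : y = 0 := by
  rw [sum_eq_zero_iff_of_nonneg fun w _ => Complex.normSq_nonneg _] at h
  ext w
  simpa using h w (mem_univ w)

theorem mem_Inv_of_sq_complex {c₀ : ℕ} {y : Ω → ℂ} (h : s.A ℂ c₀ (s.A ℂ c₀ y) = 0) :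
    y ∈ s.Inv ℂ c₀ := by
  have h1 : s.A ℂ c₀ y = 0 := by
    apply eq_zero_of_nrm
    have := pr_star (s.A ℂ c₀ y)
    rw [← A_star, pr_A, h] at this
    simp only [pr, Pi.zero_apply, smul_zero, sum_const_zero] at this
    exact_mod_cast this.symm
  have h2 : pr (star y) (s.A ℂ c₀ y) =
      ((∑ i, ∑ j, ∑ w, Complex.normSq (s.U ℂ c₀ j i y w) : ℝ) : ℂ) := by
    have : ∀ i j, pr (star y) (s.U ℂ c₀ i j (s.U ℂ c₀ j i y)) =
        ((∑ w, Complex.normSq (s.U ℂ c₀ j i y w) : ℝ) : ℂ) := fun i j => by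
      rw [← pr_U, U_star, pr_star]
    rw [Complex.ofReal_sum, sum_congr rfl fun i _ => Complex.ofReal_sum _ _]
    simp only [← this]
    unfold pr
    simp only [A, LinearMap.sum_apply, Finset.sum_apply, smul_sum, Module.End.mul_apply]
    rw [sum_comm, sum_congr rfl fun i _ => sum_comm]
  rw [h1] at h2
  simp only [pr, Pi.zero_apply, smul_zero, sum_const_zero] at h2
  have h3 : ∑ i, ∑ j, ∑ w, Complex.normSq (s.U ℂ c₀ j i y w) = 0 := by exact_mod_cast h2.symm
  have nn : ∀ i j, 0 ≤ ∑ w, Complex.normSq (s.U ℂ c₀ j i y w) := fun i j =>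
    sum_nonneg fun w _ => Complex.normSq_nonneg _
  rw [sum_eq_zero_iff_of_nonneg fun i _ => sum_nonneg fun j _ => nn i j] at h3
  rw [mem_Inv]
  intro i j
  have := h3 j (mem_univ _)
  rw [sum_eq_zero_iff_of_nonneg fun j _ => nn _ j] at this
  exact eq_zero_of_nrm (this i (mem_univ _))

theorem mem_Inv_of_sq {c₀ : ℕ} {f : Ω → K} (h : s.A K c₀ (s.A K c₀ f) = 0) : f ∈ s.Inv K c₀ := by
  rw [mem_Inv]
  intro i j
  ext w
  by_contra hne
  obtain ⟨l, hl⟩ := Module.Projective.exists_dual_ne_zero ℂ hne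
  have h1 := s.mem_Inv.1 (s.mem_Inv_of_sq_complex (c₀ := c₀) (y := pc Ω l f)
    (by rw [A_pc, A_pc, h, map_zero])) i j
  rw [U_pc] at h1
  exact hl (congrFun h1 w)

theorem A_of_mem_Inv {c₀ : ℕ} {f : Ω → K} (h : f ∈ s.Inv K c₀) : s.A K c₀ f = 0 := by
  simp [A, LinearMap.sum_apply, s.mem_Inv.1 h]

theorem exists_P0 [FiniteDimensional ℂ K] (c₀ : ℕ) : ∃ h : Polynomial ℂ,
    ∀ f, (1 - Polynomial.aeval (s.A K c₀) h * s.A K c₀) f ∈ s.Inv K c₀ := by
  set T := s.A K c₀ with hT
  have hi : IsIntegral ℂ T := Algebra.IsIntegral.isIntegral T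
  obtain ⟨q, hq, hq'⟩ := Polynomial.exists_eq_pow_rootMultiplicity_mul_and_not_dvd
    (minpoly ℂ T) (minpoly.ne_zero hi) 0
  have h1 : ∀ (r : ℕ) (f : Ω → K), (T ^ r) f = 0 → f ∈ s.Inv K c₀ := by
    intro r
    induction r with
    | zero => intro f hf; rw [show f = 0 by simpa using hf]; exact Submodule.zero_mem _
    | succ r ih =>
      intro f hf
      rw [pow_succ, Module.End.mul_apply] at hf
      exact s.mem_Inv_of_sq (s.A_of_mem_Inv (ih _ hf))
  have h2 : q.coeff 0 ≠ 0 := by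
    rwa [map_zero, sub_zero, Polynomial.X_dvd_iff] at hq'
  refine ⟨Polynomial.C (-(q.coeff 0)⁻¹) * q.divX, fun f => ?_⟩
  have h3 := minpoly.aeval ℂ T
  rw [hq, map_mul, map_pow, map_zero, sub_zero, Polynomial.aeval_X] at h3
  have h4 := (s.Inv K c₀).smul_mem (q.coeff 0)⁻¹
    (h1 _ (Polynomial.aeval T q f) (by rw [← Module.End.mul_apply, h3]; rfl))
  convert h4 using 1
  conv_rhs => rw [← Polynomial.divX_mul_X_add q]
  simp [Algebra.algebraMap_eq_smul_one, smul_add, smul_smul, inv_mul_cancel₀ h2]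
  abel

end Slot

end Pool.Agent.P.MP_5e2a31_al
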