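import Pool.Agent.P.MP_5e2a31_al.Cliff

set_option maxHeartbeats 400000
set_option linter.unusedSectionVars false

namespace Pool.Agent.P.MP_5e2a31_al

open Finset Equiv

variable {X : Type} [Fintype X] [DecidableEq X] {m c : ℕ}

/-- `z` is symmetric in the blocks of `b` outside `J` and antisymmetric inside `J`. -/
def SA (z : (X → Fin m) → ℂ) (b : X → Fin m) (J : Finset X) : Prop :=
  (∀ x y, x ∉ J → y ∉ J → b x = b y → ∀ w, z (w ∘ swap x y) = z w) ∧
    ∀ x y, x ∈ J → y ∈ J → b x = b y → x ≠ y → ∀ w, z (w ∘ swap x y) = - z w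

variable {z : (X → Fin m) → ℂ} {b : X → Fin m} {J : Finset X}

theorem SA.inj (h : SA z b J) {w : X → Fin m} (hw : z w ≠ 0) :
    ∀ x ∈ J, ∀ y ∈ J, b x = b y → w x = w y → x = y := by
  intro x hx y hy h1 h2
  by_contra hne
  have h3 := h.2 x y hx hy h1 hne w
  have h4 : w ∘ swap x y = w := by
    ext t
    simp only [Function.comp_apply, swap_apply_def]
    split_ifs with a1 a2
    · rw [a1, h2]
    · rw [a2, h2]
    · rfl
  rw [h4] at h3
  exact hw (by linear_combination h3 / 2)

theorem exists_sorted (hz : z ∈ Zs X m c) (h : SA z b J) (h0 : z ≠ 0) {r : X → ℕ}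
    (hr : ∀ x y, r x = r y → r x < m → b x = b y) :
    ∃ w, z w ≠ 0 ∧ ∀ x, x ∉ J → (w x : ℕ) ≤ r x := by
  have H : ∀ s, ∃ w, z w ≠ 0 ∧ ∀ x, x ∉ J → r x < s → (w x : ℕ) ≤ r x := by
    intro s
    induction s with
    | zero =>
      obtain ⟨w, hw⟩ := Function.ne_iff.1 h0
      exact ⟨w, hw, by simp⟩
    | succ s ih =>
      classical
      obtain ⟨w, hw, hmin⟩ := exists_min_image
        (univ.filter fun w => z w ≠ 0 ∧ ∀ x, x ∉ J → r x < s → (w x : ℕ) ≤ r x)
        (fun w => ∑ x ∈ univ.filter (fun x => x ∉ J ∧ r x = s), (w x : ℕ))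
        (by obtain ⟨w, hw⟩ := ih; exact ⟨w, by simpa using hw⟩)
      simp only [mem_filter, mem_univ, true_and] at hw hmin
      refine ⟨w, hw.1, fun x hx hxs => ?_⟩
      rcases (Nat.lt_succ_iff.1 hxs).lt_or_eq with h1 | h1
      · exact hw.2 x hx h1
      by_contra h2
      have h3 : s < m := by have := (w x).2; omega
      have h4 := rel_core hz (S := univ.filter (fun x => x ∉ J ∧ r x = s)) (x := x) (L := w)
        (p := ⟨s, h3⟩) (by simp only [ne_eq, Fin.ext_iff]; omega) (by
          intro y hy hy'
          by_contra hne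
          have h5 := hmin _ ⟨hne, fun t ht ht' => by
            have a1 := hw.2 t ht ht'
            rw [Function.comp_apply, swap_apply_of_ne_of_ne]
            · exact a1
            · rintro rfl
              rw [hy'] at a1
              simp only at a1
              omega
            · rintro rfl
              omega⟩
          rw [swap_comm] at h5
          exact absurd h5 (not_le.2 (sum_swap_lt (by simp [hx, h1]) hy (by
            rw [hy', Fin.lt_def]
            simp only
            omega))))
      rw [sum_congr rfl fun y hy => by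
        simp only [mem_filter, mem_univ, true_and] at hy
        exact h.1 y x hy.1.1 hx (hr y x (by omega) (by omega)) w, sum_const, nsmul_eq_mul,
        ← one_add_mul, mul_eq_zero, or_iff_left hw.1] at h4
      exact Nat.cast_add_one_ne_zero _ ((add_comm _ _).trans h4)
  obtain ⟨w, h1, h2⟩ := H m
  refine ⟨w, h1, fun x hx => ?_⟩
  by_cases h3 : r x < m
  · exact h2 x hx h3
  · have := (w x).2
    omega

theorem count_split (hz : z ∈ Zs X m c) (h : SA z b J) {w : X → Fin m} (hw : z w ≠ 0)
    (I : Finset (Fin m)) (hs : ∀ x, x ∉ J → b x ∈ I → (w x : ℕ) < I.card) :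
    (univ.filter fun x => b x ∈ I).card ≤ I.card * c + I.card * (m - I.card) ∧
      ((univ.filter fun x => b x ∈ I).card = I.card * c + I.card * (m - I.card) →
        (∀ x, (w x : ℕ) < I.card → b x ∈ I) ∧
          ∀ s ∈ I, ∀ j : Fin m, I.card ≤ j → ∃ x ∈ J, b x = s ∧ w x = j) := by
  have ht : I.card ≤ m := by simpa using card_le_univ I
  have h1 : (univ.filter fun x => (w x : ℕ) < I.card).card = I.card * c := by
    rw [card_eq_sum_card_fiberwise (f := w) (t := univ.filter fun p : Fin m => (p : ℕ) < I.card)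
      (fun x hx => by simpa using hx), sum_congr rfl fun p hp => ?_, sum_const,
      Fin.card_filter_val_lt, min_eq_right ht, smul_eq_mul]
    rw [← hz.2 w hw p, filter_filter]
    congr 1
    ext x
    simp only [mem_filter, mem_univ, true_and] at hp ⊢
    exact ⟨fun h => h.2, fun h => ⟨h ▸ hp, h⟩⟩
  have h2 := card_filter_add_card_filter_not (s := univ.filter fun x => b x ∈ I)
    (fun x => (w x : ℕ) < I.card)
  have h3 : ((univ.filter fun x => b x ∈ I).filter fun x => (w x : ℕ) < I.card) ⊆
      univ.filter fun x => (w x : ℕ) < I.card := fun x hx => by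
    simp only [mem_filter, mem_univ, true_and] at hx ⊢
    exact hx.2
  set C := (univ.filter fun x => b x ∈ I).filter fun x => ¬ (w x : ℕ) < I.card with hC
  have mC : ∀ x ∈ C, x ∈ J ∧ b x ∈ I ∧ I.card ≤ w x := fun x hx => by
    simp only [hC, mem_filter, mem_univ, true_and] at hx
    exact ⟨by by_contra h'; exact hx.2 (hs x h' hx.1), hx.1, not_lt.1 hx.2⟩
  have h4 : (C.image fun x => (b x, w x)).card = C.card :=
    card_image_of_injOn fun x hx y hy hxy =>
      h.inj hw x (mC x hx).1 y (mC y hy).1 (congrArg Prod.fst hxy) (congrArg Prod.snd hxy)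
  have h5 : (C.image fun x => (b x, w x)) ⊆
      I ×ˢ univ.filter fun p : Fin m => ¬ (p : ℕ) < I.card := by
    intro p hp
    obtain ⟨x, hx, rfl⟩ := mem_image.1 hp
    simpa using (mC x hx).2
  have h6 : (I ×ˢ univ.filter fun p : Fin m => ¬ (p : ℕ) < I.card).card =
      I.card * (m - I.card) := by
    have := card_filter_add_card_filter_not (s := univ) (fun p : Fin m => (p : ℕ) < I.card)
    rw [Fin.card_filter_val_lt, min_eq_right ht, card_univ, Fintype.card_fin] at this
    rw [card_product]
    congr 1
    omega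
  have h7 := card_le_card h3
  have h8 := card_le_card h5
  refine ⟨by omega, fun he => ⟨fun x hx => ?_, fun s hs j hj => ?_⟩⟩
  · have := eq_of_subset_of_card_le h3 (by omega)
    have h9 : x ∈ univ.filter fun x => (w x : ℕ) < I.card := by simpa using hx
    rw [← this] at h9
    simp only [mem_filter, mem_univ, true_and] at h9
    exact h9.1
  · have := eq_of_subset_of_card_le h5 (by omega)
    have h9 : (s, j) ∈ I ×ˢ univ.filter fun p : Fin m => ¬ (p : ℕ) < I.card := by
      simpa using ⟨hs, hj⟩
    rw [← this] at h9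
    obtain ⟨x, hx, h10⟩ := mem_image.1 h9
    exact ⟨x, (mC x hx).1, congrArg Prod.fst h10, congrArg Prod.snd h10⟩

theorem card_mem_eq_sum (b : X → Fin m) (I : Finset (Fin m)) :
    (univ.filter fun x => b x ∈ I).card = ∑ t ∈ I, (univ.filter fun x => b x = t).card := by
  rw [card_eq_sum_card_fiberwise (f := b) (t := I) (fun x hx => by simpa using hx)]
  refine sum_congr rfl fun t ht => ?_
  rw [filter_filter]
  congr 1
  ext x
  simp only [mem_filter, mem_univ, true_and]
  exact ⟨fun h => h.2, fun h => ⟨h ▸ ht, h⟩⟩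

theorem weight_bound (hz : z ∈ Zs X m c) (h : SA z b J) (h0 : z ≠ 0) (I : Finset (Fin m)) :
    ∑ t ∈ I, (univ.filter fun x => b x = t).card ≤ I.card * c + I.card * (m - I.card) := by
  have hlt : ∀ s ∈ I, (I.filter fun i => i < s).card < I.card := fun s hs =>
    card_lt_card (filter_ssubset.2 ⟨s, hs, lt_irrefl _⟩)
  obtain ⟨w, h1, h2⟩ := exists_sorted hz h h0
    (r := fun x => if b x ∈ I then (I.filter fun i => i < b x).card else m) (by
      intro x y hxy hx
      have key : ∀ s ∈ I, ∀ t, s < t → (I.filter fun i => i < s).card <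
          (I.filter fun i => i < t).card := fun s hs t hst =>
        card_lt_card ((ssubset_iff_of_subset (monotone_filter_right _ fun i _ hi =>
          hi.trans hst)).2 ⟨s, by simp [hs, hst], by simp⟩)
      have ht : I.card ≤ m := by simpa using card_le_univ I
      by_cases a1 : b x ∈ I
      · have := hlt _ a1
        by_cases a2 : b y ∈ I
        · simp only [if_pos a1, if_pos a2] at hxy
          rcases lt_trichotomy (b x) (b y) with h | h | h
          · exact absurd hxy (key _ a1 _ h).ne
          · exact h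
          · exact absurd hxy (key _ a2 _ h).ne'
        · simp only [if_pos a1, if_neg a2] at hxy
          omega
      · simp [a1] at hx)
  rw [← card_mem_eq_sum]
  refine (count_split hz h h1 I fun x hx hx' => ?_).1
  have := h2 x hx
  simp only [if_pos hx'] at this
  exact this.trans_lt (hlt _ hx')

/-- The extremal configurations. -/
def Tight (b : X → Fin m) (J : Finset X) (w : X → Fin m) : Prop :=
  (∀ x, x ∉ J → w x = b x) ∧ (∀ x, b x ≤ w x) ∧ (∀ s j, s < j → ∃ x ∈ J, b x = s ∧ w x = j) ∧
    ∀ x ∈ J, ∀ y ∈ J, b x = b y → w x = w y → x = y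

theorem exists_tight (h2 : m ≤ c + 1) (hz : z ∈ Zs X m c) (h : SA z b J) (h0 : z ≠ 0)
    (hb : ∀ t, (univ.filter fun x => b x = t).card = mu m c t) : ∃ w, z w ≠ 0 ∧ Tight b J w := by
  obtain ⟨w, h3, h4⟩ := exists_sorted hz h h0 (r := fun x => b x) fun x y h _ => Fin.ext h
  have h5 : ∀ i : Fin m, (∀ x, (w x : ℕ) < (Iic i).card → b x ∈ Iic i) ∧
      ∀ s ∈ Iic i, ∀ j : Fin m, (Iic i).card ≤ j → ∃ x ∈ J, b x = s ∧ w x = j := fun i =>
    (count_split hz h h3 (Iic i) fun x hx hx' => by
      have := h4 x hx
      have := Fin.le_def.1 (mem_Iic.1 hx')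
      rw [Fin.card_Iic]
      omega).2 (by rw [card_mem_eq_sum, ← sum_mu h2]; simp only [hb])
  have h6 : ∀ x, b x ≤ w x := fun x => mem_Iic.1 ((h5 (w x)).1 x (by simp))
  exact ⟨w, h3, fun x hx => le_antisymm (h4 x hx) (h6 x), h6,
    fun s j hsj => (h5 s).2 s (by simp) j (by simpa using hsj), h.inj h3⟩

/-- The invariant of an extremal configuration. -/
def tinv (b : X → Fin m) (J : Finset X) (w : X → Fin m) : Finset (Fin m) :=
  univ.filter fun s => ∃ x ∈ J, b x = s ∧ w x = s

theorem Tight.conj {b b' w w' : X → Fin m} {J J' : Finset X} (h : Tight b J w)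
    (h' : Tight b' J' w')
    (hb : ∀ t, (univ.filter fun x => b x = t).card = (univ.filter fun x => b' x = t).card)
    (hi : tinv b J w = tinv b' J' w') :
    ∃ g : Perm X, b' ∘ g = b ∧ J.map g.toEmbedding = J' ∧ w' ∘ g = w := by
  have key : ∀ {b w : X → Fin m} {J : Finset X}, Tight b J w → ∀ s j,
      (univ.filter fun x => (b x, if x ∈ J then some (w x) else none) = (s, some j)).card =
        if s < j ∨ (s = j ∧ s ∈ tinv b J w) then 1 else 0 := by
    intro b w J h s j
    have e : ∀ x, (b x, if x ∈ J then some (w x) else none) = (s, some j) ↔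
        x ∈ J ∧ b x = s ∧ w x = j := fun x => by by_cases hx : x ∈ J <;> simp [hx]
    simp only [e]
    split_ifs with h1
    · have : ∃ x ∈ J, b x = s ∧ w x = j := by
        rcases h1 with h1 | ⟨rfl, h1⟩
        · exact h.2.2.1 s j h1
        · simpa [tinv] using h1
      obtain ⟨x, hx, a1, a2⟩ := this
      refine card_eq_one.2 ⟨x, ?_⟩
      ext y
      simp only [mem_filter, mem_univ, true_and, mem_singleton]
      exact ⟨fun hy => h.2.2.2 y hy.1 x hx (hy.2.1.trans a1.symm) (hy.2.2.trans a2.symm),
        fun hy => hy ▸ ⟨hx, a1, a2⟩⟩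
    · rw [card_eq_zero, filter_eq_empty_iff]
      rintro x - ⟨hx, rfl, rfl⟩
      refine h1 ((h.2.1 x).lt_or_eq.imp id fun a => ⟨a, ?_⟩)
      simp only [tinv, mem_filter, mem_univ, true_and]
      exact ⟨x, hx, rfl, a.symm⟩
  have tot : ∀ (b w : X → Fin m) (J : Finset X) s, (univ.filter fun x => b x = s).card =
      ∑ o : Option (Fin m), (univ.filter fun x =>
        (b x, if x ∈ J then some (w x) else none) = (s, o)).card := by
    intro b w J s
    rw [card_eq_sum_card_fiberwise (f := fun x => if x ∈ J then some (w x) else none) (t := univ)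
      (by simp)]
    simp only [filter_filter, Prod.mk.injEq]
  have fib : ∀ l, (univ.filter fun x => (b x, if x ∈ J then some (w x) else none) = l).card =
      (univ.filter fun x => (b' x, if x ∈ J' then some (w' x) else none) = l).card := by
    rintro ⟨s, _ | j⟩
    · have := hb s
      rw [tot b w J, tot b' w' J', Fintype.sum_option, Fintype.sum_option] at this
      simp only [key h, key h', hi] at this
      omega
    · rw [key h, key h', hi]
  let e : ∀ l, {x // (b x, if x ∈ J then some (w x) else none) = l} ≃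
      {x // (b' x, if x ∈ J' then some (w' x) else none) = l} := fun l =>
    Fintype.equivOfCardEq (by rw [Fintype.card_subtype, Fintype.card_subtype, fib])
  have he := ofFiberEquiv_map e
  generalize ofFiberEquiv e = g at he
  simp only [Prod.mk.injEq] at he
  have hJ : ∀ x, g x ∈ J' ↔ x ∈ J := fun x => by
    have := (he x).2
    by_cases a1 : x ∈ J <;> by_cases a2 : g x ∈ J' <;> simp_all
  refine ⟨g, funext fun x => (he x).1, ?_, funext fun x => ?_⟩
  · ext x
    rw [mem_map_equiv, ← hJ, apply_symm_apply]
  · by_cases a1 : x ∈ J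
    · simpa [a1, (hJ x).2 a1] using (he x).2
    · rw [Function.comp_apply, h.1 x a1, h'.1 _ (mt (hJ x).1 a1), (he x).1]

end Pool.Agent.P.MP_5e2a31_al
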