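import Pool.Agent.P.MP_5e2a31_al.Poly

set_option maxHeartbeats 400000
set_option linter.unusedSectionVars false

namespace Pool.Agent.P.MP_5e2a31_al

open Finset MvPolynomial LinearMap

namespace Slot

variable {Ω P : Type} [Fintype Ω] [DecidableEq Ω] [Fintype P] [DecidableEq P] {m : ℕ}
  (s : Slot Ω P m) {K : Type*} [AddCommGroup K] [Module ℂ K] [FiniteDimensional ℂ K]

/-- The generating polynomial of the traces on the weight spaces. -/
noncomputable def poly : Module.End ℂ (Ω → K) →ₗ[ℂ] MvPolynomial (Fin m) ℂ :=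
  ∑ ν ∈ univ.image s.cont, monomial ν ∘ₗ trace ℂ (Ω → K) ∘ₗ mulRight ℂ (s.Pw K ν)

theorem poly_apply (T : Module.End ℂ (Ω → K)) :
    s.poly T = ∑ ν ∈ univ.image s.cont, monomial ν (trace ℂ _ (T * s.Pw K ν)) := by
  simp [poly, LinearMap.sum_apply]

theorem coeff_poly (T : Module.End ℂ (Ω → K)) (ν : Fin m →₀ ℕ) :
    coeff ν (s.poly T) = trace ℂ _ (T * s.Pw K ν) := by
  rw [poly_apply, coeff_sum]
  simp only [coeff_monomial, sum_ite_eq']
  split_ifs with h
  · rfl
  · have : s.Pw K ν = 0 := by
      refine LinearMap.ext fun f => funext fun w => ?_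
      have : s.cont w ≠ ν := fun h' => h (mem_image.2 ⟨w, mem_univ _, h'⟩)
      simp [Pw, this]
    simp [this]

theorem Dg_Pw (φ : (Fin m →₀ ℕ) → ℂ) (ν : Fin m →₀ ℕ) :
    Dg K (fun w => φ (s.cont w)) * s.Pw K ν = φ ν • s.Pw K ν := by
  refine LinearMap.ext fun f => funext fun w => ?_
  by_cases h : s.cont w = ν <;> simp [Pw, h]

theorem coeff_poly_Dg (T : Module.End ℂ (Ω → K)) (φ : (Fin m →₀ ℕ) → ℂ) (ν : Fin m →₀ ℕ) :
    coeff ν (s.poly (T * Dg K fun w => φ (s.cont w))) = φ ν * coeff ν (s.poly T) := by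
  rw [coeff_poly, coeff_poly, mul_assoc, Dg_Pw, mul_smul_comm, map_smul, smul_eq_mul]

theorem eval_poly (x : Fin m → ℂ) (T : Module.End ℂ (Ω → K)) :
    eval x (s.poly T) = trace ℂ _ (T * Dg K fun w => ∏ i, x i ^ s.cont w i) := by
  have : (Dg K fun w => ∏ i, x i ^ s.cont w i) =
      ∑ ν ∈ univ.image s.cont, (∏ i, x i ^ ν i) • s.Pw K ν := by
    refine LinearMap.ext fun f => funext fun w => ?_
    simp [LinearMap.sum_apply, Finset.sum_apply, Pw]
  rw [this, poly_apply, map_sum, mul_sum, map_sum]
  refine sum_congr rfl fun ν _ => ?_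
  rw [eval_monomial, Finsupp.prod_fintype _ _ (by simp), mul_smul_comm, map_smul, smul_eq_mul,
    mul_comm]

theorem poly_shift (c : P → Module.End ℂ K) (i j : Fin m) {T : Module.End ℂ (Ω → K)}
    (h : Commute T (s.G c i j)) (S : Module.End ℂ (Ω → K)) :
    X i * s.poly (T * (S * s.G c i j)) = X j * s.poly (T * (s.G c i j * S)) := by
  refine MvPolynomial.funext fun x => ?_
  have h1 := s.Dg_G c (d := fun w => x j * ∏ t, x t ^ s.cont w t)
    (d' := fun w => x i * ∏ t, x t ^ s.cont w t) (i := i) (j := j) (by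
      intro w p hp
      have := congrArg (fun ν : Fin m →₀ ℕ => ∏ t, x t ^ ν t) (s.cont_set w p j)
      simp only [Finsupp.add_apply, pow_add, prod_mul_distrib, hp, Finsupp.single_apply, pow_ite,
        pow_one, pow_zero, prod_ite_eq, mem_univ, if_true] at this
      rw [mul_comm, ← this, mul_comm])
  have h2 : ∀ (a : ℂ) (d : Ω → ℂ), (Dg K fun w => a * d w) = a • Dg K d := fun a d =>
    LinearMap.ext fun f => funext fun w => by simp [smul_smul]
  rw [h2, h2] at h1
  rw [map_mul (eval x), map_mul (eval x), eval_poly, eval_poly, eval_X, eval_X]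
  generalize (Dg K fun w => ∏ t, x t ^ s.cont w t) = D at h1
  have h3 := congrArg (fun Z => trace ℂ _ (T * S * Z)) h1
  simp only [smul_mul_assoc, mul_smul_comm, map_smul, smul_eq_mul] at h3
  rw [← mul_assoc _ D, trace_mul_comm, ← mul_assoc, ← mul_assoc, ← h.eq] at h3
  simp only [mul_assoc] at h3 ⊢
  exact h3.symm

theorem poly_U (c : ℕ) (l : Fin m) (T : Module.End ℂ (Ω → K)) :
    s.poly (T * s.U K c l l) = Eu l (s.poly T) - C (c : ℂ) * s.poly T := by
  ext ν
  rw [U, if_pos rfl, mul_sub, map_sub, E_diag, coeff_sub,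
    s.coeff_poly_Dg T (fun ν => (ν l : ℂ)), coeff_sub, coeff_Eu, coeff_C_mul]
  simp

theorem poly_A {c : ℕ} (hP : Fintype.card P = m * c) {T : Module.End ℂ (Ω → K)}
    (hE : ∀ i j, Commute T (s.E K i j)) :
    coeff (kap m c) (vand m * s.poly (T * s.A K c)) = 0 := by
  have hU : ∀ i j, i ≠ j → s.U K c i j = s.E K i j := fun i j h => by simp [U, h]
  have := casimir_poly (c := c) (F := s.poly T) (f := fun l => s.poly (T * s.U K c l l))
    (a := fun i j => s.poly (T * (s.U K c i j * s.U K c j i))) (fun l => s.poly_U c l T) ?_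
    (fun l => by rw [← mul_assoc, poly_U]) ?_ ?_
  · simpa only [A, mul_sum, map_sum] using this
  · rw [← map_sum, ← mul_sum]
    have : ∑ l, s.U K c l l = 0 := by
      refine LinearMap.ext fun f => funext fun w => ?_
      have := congrArg (Nat.cast : ℕ → ℂ) ((s.sum_cont w).trans hP)
      push_cast at this
      simp [U, E_diag, LinearMap.sum_apply, Finset.sum_apply, ← sum_smul, this,
        ← Nat.cast_smul_eq_nsmul ℂ, smul_smul]
    simp [this]
  · intro i j hij
    simp only [hU i j hij, hU j i hij.symm, ← G_one]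
    exact s.poly_shift _ i j (by rw [G_one]; exact hE i j) _
  · intro i j hij
    have := s.E_comm (K := K) i j j i
    simp only [if_true] at this
    simp only [hU i j hij, hU j i hij.symm, ← map_sub, ← mul_sub, this]
    simp [U]

theorem star {c : ℕ} (hP : Fintype.card P = m * c) (h2 : m ≤ c + 1) {cl : P → Module.End ℂ K}
    (hsq : ∀ p, cl p * cl p = 1) (hc : ∀ p q, p ≠ q → cl p * cl q = (-1 : ℂ) • (cl q * cl p))
    {T : Module.End ℂ (Ω → K)} (hE : ∀ i j, Commute T (s.E K i j))
    (hF : ∀ i j, Commute T (s.G cl i j))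
    (hb : ∀ ν : Fin m →₀ ℕ, trace ℂ _ (T * s.Pw K ν) ≠ 0 → ∀ I : Finset (Fin m),
      ∑ t ∈ I, ν t ≤ I.card * c + I.card * (m - I.card))
    {h : Polynomial ℂ}
    (hh : ∀ f, (1 - Polynomial.aeval (s.A K c) h * s.A K c) f ∈ s.Inv K c) :
    trace ℂ _ (T * (1 - Polynomial.aeval (s.A K c) h * s.A K c)) =
      trace ℂ _ (T * s.Pw K (mu m c)) := by
  have hA : ∀ i j, Commute (Polynomial.aeval (s.A K c) h) (s.E K i j) := fun i j => by
    rw [Polynomial.aeval_eq_sum_range]
    exact Commute.sum_left _ _ _ fun n _ => ((s.E_A c i j).symm.pow_left n).smul_left _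
  have h3 := s.poly_A hP (T := T * Polynomial.aeval (s.A K c) h)
    fun i j => (hE i j).mul_left (hA i j)
  have h4 : coeff (kap m c) (vand m * s.poly T) = coeff (mu m c) (s.poly T) := by
    refine coeff_vand h2 (fun i j hij => ?_) fun κ hκ => hb κ (by rwa [← coeff_poly])
    set T' := T * Dg K fun w => ((s.cont w i : ℂ) + s.cont w j)⁻¹ with hT'
    have e1 : Commute T' (s.G cl i j) := (hF i j).mul_left (s.Dg_G cl fun w p hp => by
      have a1 := congrArg (fun ν : Fin m →₀ ℕ => ν i + ν j) (s.cont_set w p j)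
      simp only [Finsupp.add_apply, hp, Finsupp.single_eq_same, Finsupp.single_eq_of_ne hij,
        Finsupp.single_eq_of_ne hij.symm] at a1
      rw [← Nat.cast_add, ← Nat.cast_add]
      congr 2
      omega)
    have e2 := s.poly_shift cl i j e1 (s.G cl j i)
    have e3 : s.poly T = s.poly (T' * (s.G cl i j * s.G cl j i)) +
        s.poly (T' * (s.G cl j i * s.G cl i j)) := by
      have : s.G cl i j * s.G cl j i + s.G cl j i * s.G cl i j = s.E K i i + s.E K j j := by
        linear_combination (norm := module) s.G_comm hsq hc i j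
      rw [← map_add, ← mul_add, this, mul_add, map_add, E_diag, E_diag]
      ext ν
      rw [coeff_add, s.coeff_poly_Dg T' (fun ν => (ν i : ℂ)),
        s.coeff_poly_Dg T' (fun ν => (ν j : ℂ)), ← add_mul, hT',
        s.coeff_poly_Dg T (fun ν => ((ν i : ℂ) + ν j)⁻¹)]
      by_cases h0 : (ν i : ℂ) + ν j = 0
      · rw [h0, zero_mul, coeff_poly]
        by_contra hne
        have a1 := hb ν hne {i, j}ᶜ
        have a2 : ∃ w, s.cont w = ν := by
          by_contra a2
          push Not at a2
          have : s.Pw K ν = 0 := LinearMap.ext fun f => funext fun w => by simp [Pw, a2 w]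
          simp [this] at hne
        obtain ⟨w, rfl⟩ := a2
        have a3 := (s.sum_cont w).trans hP
        have a4 : s.cont w i + s.cont w j = 0 := by exact_mod_cast h0
        rw [← sum_add_sum_compl {i, j}, sum_pair hij, a4] at a3
        have a5 := card_le_univ ({i, j} : Finset (Fin m))
        rw [card_compl] at a1
        rw [card_pair hij, Fintype.card_fin] at a1 a5
        obtain ⟨u, rfl⟩ : ∃ u, m = u + 2 := ⟨m - 2, by omega⟩
        simp only [Nat.add_sub_cancel, Nat.add_sub_cancel_left] at a1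
        nlinarith
      · rw [← mul_assoc, mul_inv_cancel₀ h0, one_mul]
    rw [e3]
    generalize s.poly (T' * (s.G cl i j * s.G cl j i)) = p at e2
    generalize s.poly (T' * (s.G cl j i * s.G cl i j)) = q at e2
    have e4 : X i ∣ p := by
      refine ((X_prime.dvd_or_dvd ⟨q, e2.symm⟩).resolve_left ?_)
      rw [X_dvd_X]
      exact hij
    obtain ⟨r, rfl⟩ := e4
    have e5 : q = X j * r := mul_left_cancel₀ (X_ne_zero i) (by rw [e2]; ring)
    exact ⟨r, by rw [e5]; ring⟩
  set P0 := 1 - Polynomial.aeval (s.A K c) h * s.A K c with hP0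
  set c₀ : Fin m →₀ ℕ := Finsupp.equivFunOnFinite.symm fun _ => c with hc₀
  have h5 : s.poly (T * P0) = monomial c₀ (coeff c₀ (s.poly (T * P0))) := by
    ext ν
    rw [coeff_monomial]
    split_ifs with h0
    · rw [h0]
    · by_contra hne
      apply h0
      ext l
      have a1 : P0 * s.U K c l l = 0 := by
        have : Commute P0 (s.U K c l l) :=
          (((Commute.one_left _).sub_left ((hA l l).mul_left (s.E_A c l l).symm)).sub_right
            ((Commute.one_right _).smul_right _))
        rw [this.eq]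
        exact LinearMap.ext fun f => s.mem_Inv.1 (hh f) l l
      have a2 := congrArg (coeff ν) (s.poly_U c l (T * P0))
      rw [mul_assoc, a1, mul_zero, map_zero, coeff_zero, coeff_sub, coeff_Eu, coeff_C_mul,
        ← sub_mul, eq_comm, mul_eq_zero, or_iff_left hne, sub_eq_zero] at a2
      exact (Nat.cast_injective a2).symm
  have h6 := s.eval_poly (fun _ => 1) (T * P0)
  have h7 : (Dg K fun w => ∏ i, (1 : ℂ) ^ s.cont w i) = 1 :=
    LinearMap.ext fun f => funext fun w => by simp
  rw [h7, mul_one, h5, eval_monomial] at h6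
  simp only [Finsupp.prod, one_pow, prod_const_one, mul_one] at h6
  have h8 : coeff (kap m c) (vand m * s.poly (T * P0)) = coeff c₀ (s.poly (T * P0)) := by
    have a1 : kap m c = ex 1 1 + c₀ := by
      ext t
      have := ex_apply 1 1 t
      rw [Equiv.Perm.one_apply] at this
      rw [Finsupp.add_apply, this, kap_apply, one_mul, add_comm]
      rfl
    rw [h5, a1, coeff_mul_monomial, vand_eq, coeff_sum, sum_eq_single 1]
    · simp
    · intro σ _ hσ
      rw [coeff_monomial, if_neg]
      intro a2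
      apply hσ
      ext t
      have a3 := ex_apply σ 1 t
      have a4 := ex_apply 1 1 (σ t)
      rw [Equiv.Perm.one_apply] at a4 ⊢
      rw [a2] at a3
      omega
    · simp
  rw [← h6, ← h8, ← coeff_poly, ← h4, hP0, mul_sub, map_sub, mul_sub, coeff_sub, ← mul_assoc, h3,
    mul_one, sub_zero]

end Slot

end Pool.Agent.P.MP_5e2a31_al
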