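import Mathlib

set_option maxHeartbeats 400000
set_option linter.unusedSectionVars false

namespace Pool.Agent.P.MP_5e2a31_al

open Finset Equiv

variable {X : Type} [Fintype X] [DecidableEq X] {ι : Type} [DecidableEq ι]

/-- Permutations supported on `S`. -/
def Supp (S : Finset X) (g : Perm X) : Prop := ∀ x, x ∉ S → g x = x

/-- The Young subgroup of permutations supported on `S` that preserve the labelling `l`. -/
def Yg (S : Finset X) (l : X → ι) : Finset (Perm X) :=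
  univ.filter fun g => (∀ x, x ∉ S → g x = x) ∧ ∀ x, l (g x) = l x

theorem mem_Yg {S : Finset X} {l : X → ι} {g : Perm X} :
    g ∈ Yg S l ↔ (∀ x, x ∉ S → g x = x) ∧ ∀ x, l (g x) = l x := by simp [Yg]

theorem one_mem_Yg (S : Finset X) (l : X → ι) : 1 ∈ Yg S l := by simp [mem_Yg]

theorem mul_mem_Yg {S : Finset X} {l : X → ι} {g h : Perm X} (hg : g ∈ Yg S l)
    (hh : h ∈ Yg S l) : g * h ∈ Yg S l := by
  rw [mem_Yg] at *
  refine ⟨fun x hx => ?_, fun x => ?_⟩
  · simp [hh.1 x hx, hg.1 x hx]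
  · simp [hg.2, hh.2]

theorem inv_mem_Yg {S : Finset X} {l : X → ι} {g : Perm X} (hg : g ∈ Yg S l) :
    g⁻¹ ∈ Yg S l := by
  rw [mem_Yg] at *
  refine ⟨fun x hx => ?_, fun x => ?_⟩
  · rw [Perm.inv_eq_iff_eq, hg.1 x hx]
  · have := hg.2 (g⁻¹ x)
    simpa using this.symm

theorem swap_mem_Yg {S : Finset X} {l : X → ι} {x y : X} (hx : x ∈ S) (hy : y ∈ S)
    (h : l x = l y) : swap x y ∈ Yg S l := by
  rw [mem_Yg]
  refine ⟨fun z hz => ?_, fun z => ?_⟩
  · exact swap_apply_of_ne_of_ne (by rintro rfl; exact hz hx) (by rintro rfl; exact hz hy)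
  · rw [swap_apply_def]
    split_ifs with h1 h2
    · rw [h1, h]
    · rw [h2, h]
    · rfl

theorem Supp.mem {S : Finset X} {g : Perm X} (hg : Supp S g) {x : X} (hx : x ∈ S) :
    g x ∈ S := by
  by_contra h
  have := hg _ h
  rw [g.injective.eq_iff] at this
  exact h (this.symm ▸ hx)

theorem Supp.mem_iff {S : Finset X} {g : Perm X} (hg : Supp S g) (x : X) : g x ∈ S ↔ x ∈ S := by
  refine ⟨fun h => ?_, hg.mem⟩
  by_contra hx
  rw [hg x hx] at h
  exact hx h

theorem Supp.mono {S T : Finset X} {g : Perm X} (hg : Supp S g) (h : S ⊆ T) : Supp T g :=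
  fun x hx => hg x fun hs => hx (h hs)

theorem supp_of_mem_Yg {S : Finset X} {l : X → ι} {g : Perm X} (hg : g ∈ Yg S l) : Supp S g :=
  (mem_Yg.1 hg).1

theorem supp_swap {S : Finset X} {x y : X} (hx : x ∈ S) (hy : y ∈ S) : Supp S (swap x y) :=
  supp_of_mem_Yg (swap_mem_Yg (l := fun _ => ()) hx hy rfl)

theorem Supp.commute {S T : Finset X} {g h : Perm X} (hg : Supp S g) (hh : Supp T h)
    (hd : Disjoint S T) : g * h = h * g := by
  ext x
  simp only [Perm.mul_apply]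
  by_cases hx : x ∈ S
  · have h1 : x ∉ T := disjoint_left.1 hd hx
    have h2 : g x ∉ T := disjoint_left.1 hd (hg.mem hx)
    rw [hh x h1, hh _ h2]
  · rw [hg x hx]
    by_cases hy : x ∈ T
    · exact hg _ (disjoint_right.1 hd (hh.mem hy))
    · rw [hh x hy, hg x hx]

theorem Yg_mono {S T : Finset X} {l : X → ι} (h : S ⊆ T) : Yg S l ⊆ Yg T l := by
  intro g hg
  rw [mem_Yg] at *
  exact ⟨fun x hx => hg.1 x fun hs => hx (h hs), hg.2⟩

theorem Yg_congr {κ : Type} [DecidableEq κ] {S : Finset X} {l : X → ι} {l' : X → κ}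
    (h : ∀ x ∈ S, ∀ y ∈ S, l x = l y ↔ l' x = l' y) : Yg S l = Yg S l' := by
  ext g
  simp only [mem_Yg]
  refine and_congr_right fun hg => forall_congr' fun x => ?_
  by_cases hx : x ∈ S
  · exact h _ (Supp.mem hg hx) _ hx
  · simp [hg x hx]

theorem Yg_empty (l : X → ι) : Yg ∅ l = {1} := by
  ext g
  simp only [mem_Yg, mem_singleton]
  constructor
  · intro h
    ext x
    simpa using h.1 x (by simp)
  · rintro rfl
    simp

/-- Coset decomposition of a Young subgroup. -/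
theorem sum_Yg_insert {M : Type*} [AddCommMonoid M] {S : Finset X} {t : X} (ht : t ∉ S)
    (l : X → ι) (F : Perm X → M) :
    ∑ g ∈ Yg (insert t S) l, F g =
      ∑ x ∈ (insert t S).filter (fun x => l x = l t), ∑ g ∈ Yg S l, F (swap t x * g) := by
  rw [← sum_product']
  symm
  refine sum_bij' (fun p _ => swap t p.1 * p.2) (fun g _ => (g t, swap t (g t) * g))
    ?_ ?_ ?_ ?_ ?_
  · rintro ⟨x, g⟩ hp
    simp only [mem_product, mem_filter] at hp
    exact mul_mem_Yg (swap_mem_Yg (mem_insert_self _ _) hp.1.1 hp.1.2.symm)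
      (Yg_mono (subset_insert _ _) hp.2)
  · intro g hg
    have hg' := mem_Yg.1 hg
    have h1 : g t ∈ insert t S := Supp.mem hg'.1 (mem_insert_self _ _)
    simp only [mem_product, mem_filter]
    refine ⟨⟨h1, hg'.2 t⟩, ?_⟩
    have h2 := mem_Yg.1 (mul_mem_Yg (swap_mem_Yg (mem_insert_self _ _) h1 (hg'.2 t).symm) hg)
    rw [mem_Yg]
    refine ⟨fun x hx => ?_, h2.2⟩
    by_cases hxt : x = t
    · subst hxt
      simp
    · exact h2.1 x (by simp [hxt, hx])
  · rintro ⟨x, g⟩ hp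
    simp only [mem_product, mem_filter] at hp
    have h1 : g t = t := (mem_Yg.1 hp.2).1 t ht
    simp [h1, ← mul_assoc]
  · intro g _
    simp [← mul_assoc]
  · intro p _
    rfl

theorem sum_Yg_inv {M : Type*} [AddCommMonoid M] (S : Finset X) (l : X → ι) (F : Perm X → M) :
    ∑ g ∈ Yg S l, F g = ∑ g ∈ Yg S l, F g⁻¹ :=
  sum_bij' (fun g _ => g⁻¹) (fun g _ => g⁻¹) (fun _ h => inv_mem_Yg h) (fun _ h => inv_mem_Yg h)
    (by simp) (by simp) (by simp)

theorem sum_Yg_insert' {M : Type*} [AddCommMonoid M] {S : Finset X} {t : X} (ht : t ∉ S)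
    (l : X → ι) (F : Perm X → M) :
    ∑ g ∈ Yg (insert t S) l, F g =
      ∑ x ∈ (insert t S).filter (fun x => l x = l t), ∑ g ∈ Yg S l, F (g * swap t x) := by
  rw [sum_Yg_inv, sum_Yg_insert ht]
  refine sum_congr rfl fun x _ => ?_
  rw [sum_Yg_inv]
  simp

theorem sum_Yg_mul_left {M : Type*} [AddCommMonoid M] {S : Finset X} {l : X → ι} {y : Perm X}
    (hy : y ∈ Yg S l) (F : Perm X → M) : ∑ g ∈ Yg S l, F (y * g) = ∑ g ∈ Yg S l, F g :=
  sum_bij' (fun g _ => y * g) (fun g _ => y⁻¹ * g) (fun _ h => mul_mem_Yg hy h)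
    (fun _ h => mul_mem_Yg (inv_mem_Yg hy) h) (by simp) (by simp) (by simp)

theorem sum_Yg_mul_right {M : Type*} [AddCommMonoid M] {S : Finset X} {l : X → ι} {y : Perm X}
    (hy : y ∈ Yg S l) (F : Perm X → M) : ∑ g ∈ Yg S l, F (g * y) = ∑ g ∈ Yg S l, F g :=
  sum_bij' (fun g _ => g * y) (fun g _ => g * y⁻¹) (fun _ h => mul_mem_Yg h hy)
    (fun _ h => mul_mem_Yg h (inv_mem_Yg hy)) (by simp) (by simp) (by simp)

/-- A Young subgroup is generated by its transpositions. -/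
theorem Yg_induction {S : Finset X} {l : X → ι} (P : Perm X → Prop) (h1 : P 1)
    (hs : ∀ g ∈ Yg S l, ∀ x ∈ S, ∀ y ∈ S, l x = l y → x ≠ y → P g → P (swap x y * g)) :
    ∀ g ∈ Yg S l, P g := by
  suffices H : ∀ T : Finset X, T ⊆ S → ∀ g ∈ Yg T l, P g from H S Subset.rfl
  intro T
  induction T using Finset.induction_on with
  | empty =>
    intro _ g hg
    rw [Yg_empty, mem_singleton] at hg
    exact hg ▸ h1
  | insert t T ht ih =>
    intro hT g hg
    have hg' := mem_Yg.1 hg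
    have h1 : g t ∈ insert t T := Supp.mem hg'.1 (mem_insert_self _ _)
    have h2 := mem_Yg.1 (mul_mem_Yg (swap_mem_Yg (mem_insert_self _ _) h1 (hg'.2 t).symm) hg)
    have h3 : swap t (g t) * g ∈ Yg T l := by
      rw [mem_Yg]
      refine ⟨fun x hx => ?_, h2.2⟩
      by_cases hxt : x = t
      · subst hxt
        simp
      · exact h2.1 x (by simp [hxt, hx])
    have hT' : T ⊆ S := (subset_insert _ _).trans hT
    have h4 := ih hT' _ h3
    by_cases h5 : t = g t
    · rw [← h5, swap_self] at h4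
      exact h4
    · have := hs _ (Yg_mono hT' h3) t (hT (mem_insert_self _ _)) (g t) (hT h1) (hg'.2 t).symm h5 h4
      simpa [← mul_assoc] using this

section Sym

variable {E : Type*} [AddCommGroup E] [Module ℂ E] (ρ : Representation ℂ (Perm X) E)

/-- The (anti)symmetriser of a Young subgroup. -/
noncomputable def Sym (χ : Perm X → ℂ) (S : Finset X) (l : X → ι) : Module.End ℂ E :=
  ∑ g ∈ Yg S l, χ g • ρ g

/-- `χ` is multiplicative on the Young subgroup. -/
def MulOn (χ : Perm X → ℂ) (S : Finset X) (l : X → ι) : Prop :=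
  χ 1 = 1 ∧ ∀ g ∈ Yg S l, ∀ h ∈ Yg S l, χ (g * h) = χ g * χ h

theorem MulOn.mono {χ : Perm X → ℂ} {S T : Finset X} {l : X → ι} (h : MulOn χ T l) (hS : S ⊆ T) :
    MulOn χ S l := ⟨h.1, fun g hg k hk => h.2 g (Yg_mono hS hg) k (Yg_mono hS hk)⟩

/-- The trivial character. -/
def one' : Perm X → ℂ := fun _ => 1

/-- The sign character. -/
def sgn' : Perm X → ℂ := fun g => ((Perm.sign g : ℤ) : ℂ)

@[simp] theorem one'_apply (g : Perm X) : one' g = 1 := rfl

theorem sgn'_mul (g h : Perm X) : sgn' (g * h) = sgn' g * sgn' h := by simp [sgn']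

@[simp] theorem sgn'_one : sgn' (1 : Perm X) = 1 := by simp [sgn']

theorem sgn'_swap {x y : X} (h : x ≠ y) : sgn' (swap x y) = -1 := by
  simp [sgn', Perm.sign_swap h]

theorem sgn'_mul_self (g : Perm X) : sgn' g * sgn' g = 1 := by
  rcases Int.units_eq_one_or (Perm.sign g) with h | h <;> simp [sgn', h]

theorem mulOn_one (S : Finset X) (l : X → ι) : MulOn one' S l := ⟨rfl, by simp⟩

theorem mulOn_sgn (S : Finset X) (l : X → ι) : MulOn sgn' S l :=
  ⟨sgn'_one, fun g _ h _ => sgn'_mul g h⟩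

variable {ρ}

theorem Sym_congr {κ : Type} [DecidableEq κ] {χ χ' : Perm X → ℂ} {S : Finset X} {l : X → ι}
    {l' : X → κ} (h : ∀ x ∈ S, ∀ y ∈ S, l x = l y ↔ l' x = l' y)
    (hχ : ∀ g ∈ Yg S l, χ g = χ' g) : Sym ρ χ S l = Sym ρ χ' S l' := by
  unfold Sym
  rw [← Yg_congr h]
  exact sum_congr rfl fun g hg => by rw [hχ g hg]

theorem Sym_empty {χ : Perm X → ℂ} (h : χ 1 = 1) (l : X → ι) : Sym ρ χ ∅ l = 1 := by
  simp [Sym, Yg_empty, h]

theorem Sym_insert {χ : Perm X → ℂ} {S : Finset X} {t : X} (ht : t ∉ S) {l : X → ι}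
    (hχ : MulOn χ (insert t S) l) : Sym ρ χ (insert t S) l =
      (∑ x ∈ (insert t S).filter (fun x => l x = l t), χ (swap t x) • ρ (swap t x)) *
        Sym ρ χ S l := by
  unfold Sym
  rw [sum_Yg_insert ht, sum_mul]
  refine sum_congr rfl fun x hx => ?_
  rw [mul_sum]
  refine sum_congr rfl fun g hg => ?_
  rw [mem_filter] at hx
  rw [hχ.2 _ (swap_mem_Yg (mem_insert_self _ _) hx.1 hx.2.symm) _ (Yg_mono (subset_insert _ _) hg),
    map_mul, smul_mul_smul_comm]

theorem Sym_insert' {χ : Perm X → ℂ} {S : Finset X} {t : X} (ht : t ∉ S) {l : X → ι}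
    (hχ : MulOn χ (insert t S) l) : Sym ρ χ (insert t S) l =
      Sym ρ χ S l *
        ∑ x ∈ (insert t S).filter (fun x => l x = l t), χ (swap t x) • ρ (swap t x) := by
  unfold Sym
  rw [sum_Yg_insert' ht, mul_sum]
  refine sum_congr rfl fun x hx => ?_
  rw [sum_mul]
  refine sum_congr rfl fun g hg => ?_
  rw [mem_filter] at hx
  rw [hχ.2 _ (Yg_mono (subset_insert _ _) hg) _
    (swap_mem_Yg (mem_insert_self _ _) hx.1 hx.2.symm), map_mul, smul_mul_smul_comm]

theorem mul_Sym {χ : Perm X → ℂ} {S : Finset X} {l : X → ι} (hχ : MulOn χ S l) {y : Perm X}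
    (hy : y ∈ Yg S l) : χ y • (ρ y * Sym ρ χ S l) = Sym ρ χ S l := by
  conv_rhs => unfold Sym; rw [← sum_Yg_mul_left hy]
  unfold Sym
  rw [mul_sum, smul_sum]
  refine sum_congr rfl fun g hg => ?_
  rw [hχ.2 _ hy _ hg, map_mul, mul_smul_comm, smul_smul]

theorem Sym_mul {χ : Perm X → ℂ} {S : Finset X} {l : X → ι} (hχ : MulOn χ S l) {y : Perm X}
    (hy : y ∈ Yg S l) : χ y • (Sym ρ χ S l * ρ y) = Sym ρ χ S l := by
  conv_rhs => unfold Sym; rw [← sum_Yg_mul_right hy]
  unfold Sym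
  rw [sum_mul, smul_sum]
  refine sum_congr rfl fun g hg => ?_
  rw [hχ.2 _ hg _ hy, map_mul, smul_mul_assoc, smul_smul, mul_comm]

theorem Sym_one_apply {S : Finset X} {l : X → ι} {y : Perm X} (hy : y ∈ Yg S l) (v : E) :
    Sym ρ one' S l (ρ y v) = Sym ρ one' S l v := by
  have := congr($(Sym_mul (ρ := ρ) (mulOn_one S l) hy) v)
  simpa using this

theorem apply_Sym_one {S : Finset X} {l : X → ι} {y : Perm X} (hy : y ∈ Yg S l) (v : E) :
    ρ y (Sym ρ one' S l v) = Sym ρ one' S l v := by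
  have := congr($(mul_Sym (ρ := ρ) (mulOn_one S l) hy) v)
  simpa using this

theorem apply_Sym_sgn {S : Finset X} {l : X → ι} {x y : X} (hx : x ∈ S) (hy : y ∈ S)
    (h : l x = l y) (hxy : x ≠ y) (v : E) :
    ρ (swap x y) (Sym ρ sgn' S l v) = - Sym ρ sgn' S l v := by
  have := congr($(mul_Sym (ρ := ρ) (mulOn_sgn S l) (swap_mem_Yg hx hy h)) v)
  rw [sgn'_swap hxy] at this
  simp only [neg_smul, one_smul, LinearMap.neg_apply, Module.End.mul_apply] at this
  rw [← this, neg_neg, this]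

theorem Sym_sgn_eq_zero {S : Finset X} {l : X → ι} {x y : X} (hx : x ∈ S) (hy : y ∈ S)
    (h : l x = l y) (hxy : x ≠ y) {v : E} (hv : ρ (swap x y) v = v) :
    Sym ρ sgn' S l v = 0 := by
  have := congr($(Sym_mul (ρ := ρ) (mulOn_sgn S l) (swap_mem_Yg hx hy h)) v)
  rw [sgn'_swap hxy] at this
  simp only [neg_smul, one_smul, LinearMap.neg_apply, Module.End.mul_apply, hv] at this
  have h2 : (2 : ℂ) • Sym ρ sgn' S l v = 0 := by
    rw [two_smul]
    nth_rewrite 1 [← this]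
    simp
  simpa using h2

theorem Sym_commute {χ : Perm X → ℂ} {S T : Finset X} {l : X → ι} {g : Perm X} (hg : Supp T g)
    (hd : Disjoint S T) : Sym ρ χ S l * ρ g = ρ g * Sym ρ χ S l := by
  unfold Sym
  rw [sum_mul, mul_sum]
  refine sum_congr rfl fun y hy => ?_
  rw [smul_mul_assoc, mul_smul_comm, ← map_mul, ← map_mul, (supp_of_mem_Yg hy).commute hg hd]

theorem Sym_commute_Sym {κ : Type} [DecidableEq κ] {χ χ' : Perm X → ℂ} {S T : Finset X}
    {l : X → ι} {l' : X → κ} (hd : Disjoint S T) :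
    Sym ρ χ S l * Sym ρ χ' T l' = Sym ρ χ' T l' * Sym ρ χ S l := by
  conv_lhs => rw [Sym.eq_def ρ χ' T]
  conv_rhs => rw [Sym.eq_def ρ χ' T]
  rw [sum_mul, mul_sum]
  refine sum_congr rfl fun y hy => ?_
  rw [smul_mul_assoc, mul_smul_comm, Sym_commute (supp_of_mem_Yg hy) hd]

theorem Sym_union {χ : Perm X → ℂ} {S T : Finset X} {l : X → ι} (hd : Disjoint S T)
    (hl : ∀ x ∈ S, ∀ y ∈ T, l x ≠ l y) (hχ : MulOn χ (S ∪ T) l) :
    Sym ρ χ (S ∪ T) l = Sym ρ χ S l * Sym ρ χ T l := by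
  induction S using Finset.induction_on with
  | empty => simp [Sym_empty hχ.1]
  | insert t S ht ih =>
    have hd' : Disjoint S T := hd.mono_left (subset_insert _ _)
    have htT : t ∉ T := disjoint_left.1 hd (mem_insert_self _ _)
    rw [insert_union] at hχ ⊢
    rw [Sym_insert (by simp [ht, htT]) hχ,
      Sym_insert ht (hχ.mono (insert_subset_insert _ subset_union_left)),
      ih hd' (fun x hx => hl x (mem_insert_of_mem hx)) (hχ.mono (subset_insert _ _)), mul_assoc]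
    congr 2
    ext x
    simp only [mem_filter, mem_insert, mem_union]
    constructor
    · rintro ⟨h1 | h1 | h1, h2⟩
      · exact ⟨Or.inl h1, h2⟩
      · exact ⟨Or.inr h1, h2⟩
      · exact absurd h2.symm (hl t (mem_insert_self _ _) x h1)
    · rintro ⟨h1 | h1, h2⟩
      · exact ⟨Or.inl h1, h2⟩
      · exact ⟨Or.inr (Or.inl h1), h2⟩

theorem Sym_mem {χ : Perm X → ℂ} {S T : Finset X} {l : X → ι} {K : Submodule ℂ E}
    (hK : ∀ g, Supp T g → ∀ v ∈ K, ρ g v ∈ K) (hS : S ⊆ T) {v : E} (hv : v ∈ K) :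
    Sym ρ χ S l v ∈ K := by
  unfold Sym
  rw [LinearMap.sum_apply]
  exact K.sum_mem fun g hg => K.smul_mem _ (hK g ((supp_of_mem_Yg hg).mono hS) v hv)

theorem apply_of_swaps {χ : Perm X → ℂ} {S : Finset X} {l : X → ι} (hχ : MulOn χ S l) {v : E}
    (hv : ∀ x ∈ S, ∀ y ∈ S, l x = l y → x ≠ y → χ (swap x y) • ρ (swap x y) v = v) :
    ∀ g ∈ Yg S l, χ g • ρ g v = v := by
  refine Yg_induction _ (by simp [hχ.1]) fun g hg x hx y hy hl hxy ih => ?_
  rw [hχ.2 _ (swap_mem_Yg hx hy hl) _ hg, map_mul, Module.End.mul_apply, mul_comm, mul_smul,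
    ← map_smul, ← map_smul, smul_comm, ih]
  have := hv x hx y hy hl hxy
  rwa [← map_smul] at this

theorem Sym_apply_of_swaps {χ : Perm X → ℂ} {S : Finset X} {l : X → ι} (hχ : MulOn χ S l) {v : E}
    (hv : ∀ x ∈ S, ∀ y ∈ S, l x = l y → x ≠ y → χ (swap x y) • ρ (swap x y) v = v) :
    Sym ρ χ S l v = ((Yg S l).card : ℂ) • v := by
  unfold Sym
  rw [LinearMap.sum_apply, sum_congr rfl fun g hg => by
    rw [LinearMap.smul_apply, apply_of_swaps hχ hv g hg]]
  simp [Nat.cast_smul_eq_nsmul]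

theorem card_Yg_ne_zero (S : Finset X) (l : X → ι) : ((Yg S l).card : ℂ) ≠ 0 := by
  exact_mod_cast (card_pos.2 ⟨1, one_mem_Yg S l⟩).ne'

end Sym

/-- The sign of `g` on `B` if `g` stabilises `B`, and `0` otherwise. -/
noncomputable def sg (B : Finset X) (g : Perm X) : ℂ :=
  if h : ∀ x, g x ∈ B ↔ x ∈ B then ((Perm.sign (g.subtypePerm h) : ℤ) : ℂ) else 0

/-- `g` stabilises `B`. -/
abbrev Stab (B : Finset X) (g : Perm X) : Prop := ∀ x, g x ∈ B ↔ x ∈ B

theorem Stab.one (B : Finset X) : Stab B 1 := fun _ => Iff.rfl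

theorem Stab.mul {B : Finset X} {g h : Perm X} (hg : Stab B g) (hh : Stab B h) :
    Stab B (g * h) := fun x => (hg _).trans (hh x)

theorem Stab.inv {B : Finset X} {g : Perm X} (hg : Stab B g) : Stab B g⁻¹ := fun x => by
  simpa using (hg (g⁻¹ x)).symm

theorem Stab.compl {B : Finset X} {g : Perm X} (hg : Stab B g) : Stab Bᶜ g := fun x => by
  simp [hg x]

theorem Supp.stab {B : Finset X} {g : Perm X} (hg : Supp B g) : Stab B g := hg.mem_iff

theorem Supp.stab' {B : Finset X} {g : Perm X} (hg : Supp Bᶜ g) : Stab B g := by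
  simpa using hg.stab.compl

theorem stab_swap {B : Finset X} {x y : X} (h : x ∈ B ↔ y ∈ B) : Stab B (swap x y) := by
  intro z
  rw [swap_apply_def]
  split_ifs with h1 h2
  · rw [h1, h]
  · rw [h2, h]
  · rfl

theorem sg_of_not {B : Finset X} {g : Perm X} (hg : ¬ Stab B g) : sg B g = 0 := dif_neg hg

theorem sg_of_stab {B : Finset X} {g : Perm X} (hg : Stab B g) :
    sg B g = ((Perm.sign (g.subtypePerm hg) : ℤ) : ℂ) := dif_pos hg

theorem sg_mul {B : Finset X} {g h : Perm X} (hg : Stab B g) (hh : Stab B h) :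
    sg B (g * h) = sg B g * sg B h := by
  rw [sg_of_stab hg, sg_of_stab hh, sg_of_stab (hg.mul hh)]
  have := Perm.subtypePerm_mul g h hg hh
  rw [show (g * h).subtypePerm (hg.mul hh) = g.subtypePerm hg * h.subtypePerm hh from this.symm,
    map_mul]
  push_cast
  rfl

theorem sg_one (B : Finset X) : sg B 1 = 1 := by
  rw [sg_of_stab (Stab.one B)]
  have : (1 : Perm X).subtypePerm (Stab.one B) = 1 := by ext; simp
  rw [this]
  simp

theorem sg_mul_self {B : Finset X} {g : Perm X} (hg : Stab B g) : sg B g * sg B g = 1 := by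
  rw [sg_of_stab hg]
  rcases Int.units_eq_one_or (Perm.sign (g.subtypePerm hg)) with h | h <;> simp [h]

theorem sg_eq_or {B : Finset X} {g : Perm X} (hg : Stab B g) : sg B g = 1 ∨ sg B g = -1 :=
  mul_self_eq_one_iff.1 (sg_mul_self hg)

theorem sg_of_supp {B : Finset X} {g : Perm X} (hg : Supp B g) : sg B g = sgn' g := by
  unfold sgn'
  rw [sg_of_stab hg.stab]
  congr 2
  refine Eq.trans (by congr; exact Subsingleton.elim _ _) (Perm.sign_subtypePerm g hg.stab ?_)
  intro x hx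
  by_contra h
  exact hx (hg x h)

theorem sg_of_supp' {B : Finset X} {g : Perm X} (hg : Supp Bᶜ g) : sg B g = 1 := by
  rw [sg_of_stab hg.stab']
  have : g.subtypePerm hg.stab' = 1 := by
    ext x
    simp [hg x (by simp)]
  rw [this]
  simp

theorem sg_swap {B : Finset X} {x y : X} (h : x ∈ B ↔ y ∈ B) (hxy : x ≠ y) :
    sg B (swap x y) = if x ∈ B then -1 else 1 := by
  split_ifs with hx
  · rw [sg_of_supp (supp_swap hx (h.1 hx)), sgn'_swap hxy]
  · exact sg_of_supp' (supp_swap (by simpa using hx) (by simpa [← h] using hx))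

theorem stab_of_mem_Yg {B S : Finset X} {l : X → ι} (hB : ∀ x y, l x = l y → (x ∈ B ↔ y ∈ B))
    {g : Perm X} (hg : g ∈ Yg S l) : Stab B g := fun x => hB _ _ ((mem_Yg.1 hg).2 x)

theorem mulOn_sg {B S : Finset X} {l : X → ι} (hB : ∀ x y, l x = l y → (x ∈ B ↔ y ∈ B)) :
    MulOn (sg B) S l :=
  ⟨sg_one B, fun _ hg _ hh => sg_mul (stab_of_mem_Yg hB hg) (stab_of_mem_Yg hB hh)⟩

theorem sg_symmDiff {A B : Finset X} {g : Perm X} (hA : Stab A g) (hB : Stab B g) :
    sg A g * sg (symmDiff A B) g = sg B g := by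
  classical
  let l : X → Bool × Bool := fun x => (decide (x ∈ A), decide (x ∈ B))
  have lA : ∀ x y, l x = l y → (x ∈ A ↔ y ∈ A) := fun x y h => by
    simpa [l] using congrArg Prod.fst h
  have lB : ∀ x y, l x = l y → (x ∈ B ↔ y ∈ B) := fun x y h => by
    simpa [l] using congrArg Prod.snd h
  have lC : ∀ x y, l x = l y → (x ∈ symmDiff A B ↔ y ∈ symmDiff A B) := fun x y h => by
    simp [mem_symmDiff, lA x y h, lB x y h]
  have hg : g ∈ Yg univ l := by
    rw [mem_Yg]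
    refine ⟨by simp, fun x => ?_⟩
    simp [l, hA x, hB x]
  refine Yg_induction (S := univ) (l := l)
    (fun g => sg A g * sg (symmDiff A B) g = sg B g) (by simp [sg_one]) ?_ g hg
  intro g hg x _ y _ hl hxy ih
  rw [sg_mul (stab_swap (lA x y hl)) (stab_of_mem_Yg lA hg),
    sg_mul (stab_swap (lB x y hl)) (stab_of_mem_Yg lB hg),
    sg_mul (stab_swap (lC x y hl)) (stab_of_mem_Yg lC hg), ← ih,
    sg_swap (lA x y hl) hxy, sg_swap (lB x y hl) hxy, sg_swap (lC x y hl) hxy]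
  by_cases h1 : x ∈ A <;> by_cases h2 : x ∈ B <;> simp [mem_symmDiff, h1, h2]

end Pool.Agent.P.MP_5e2a31_al
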