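import Pool.Agent.P.MP_5e2a31_al.Sort

set_option maxHeartbeats 400000
set_option linter.unusedSectionVars false

namespace Pool.Agent.P.MP_5e2a31_al

open Finset Equiv LinearMap

theorem isProj_mul {V : Type*} [AddCommGroup V] [Module ℂ V] {p q : Submodule ℂ V}
    {S T : Module.End ℂ V} (hS : IsProj p S) (hT : IsProj q T) (h : Commute S T) :
    IsProj (p ⊓ q) (S * T) :=
  ⟨fun x => ⟨hS.1 _, by rw [h.eq]; exact hT.1 _⟩, fun x hx => by
    rw [Module.End.mul_apply, hT.2 x hx.2, hS.2 x hx.1]⟩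

theorem commute_avg {G V : Type*} [Group G] [Fintype G] [AddCommGroup V] [Module ℂ V]
    (ρ : Representation ℂ G V) {T : Module.End ℂ V} (h : ∀ g, Commute (ρ g) T) :
    Commute (ρ.averageMap : Module.End ℂ V) T := by
  have : (ρ.averageMap : Module.End ℂ V) = ⅟(Fintype.card G : ℂ) • ∑ g, ρ g := by
    simp [Representation.averageMap, GroupAlgebra.average]
  rw [this]
  exact (Commute.sum_left _ _ _ fun g _ => h g).smul_left _

/-- Precomposition with `a` and postcomposition with `u`. -/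
def tw {Ω K : Type*} [AddCommGroup K] [Module ℂ K] (a : Ω → Ω) (u : Module.End ℂ K) :
    Module.End ℂ (Ω → K) where
  toFun f w := u (f (a w))
  map_add' f g := by ext w; simp
  map_smul' t f := by ext w; simp

theorem tw_apply {Ω K : Type*} [AddCommGroup K] [Module ℂ K] (a : Ω → Ω) (u : Module.End ℂ K)
    (f : Ω → K) (w : Ω) : tw a u f w = u (f (a w)) := rfl

theorem isProj_pc {Ω : Type} {K : Type*} [AddCommGroup K] [Module ℂ K] {p : Submodule ℂ K}
    {π : Module.End ℂ K} (h : IsProj p π) :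
    IsProj (Submodule.pi Set.univ fun _ : Ω => p) (pc Ω π) :=
  ⟨fun _ _ _ => h.1 _, fun _ hx => funext fun w => h.2 _ (hx w trivial)⟩

namespace Slot

variable {Ω P P' : Type} [Fintype Ω] [DecidableEq Ω] [Fintype P] [DecidableEq P] [Fintype P']
  [DecidableEq P'] {m m' : ℕ} (s : Slot Ω P m) (K : Type*) [AddCommGroup K] [Module ℂ K]

/-- The functions supported on the words of content `ν`. -/
def Wt (ν : Fin m →₀ ℕ) : Submodule ℂ (Ω → K) where
  carrier := {f | ∀ w, s.cont w ≠ ν → f w = 0}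
  add_mem' := fun {a b} ha hb w hw => by simp [ha w hw, hb w hw]
  zero_mem' := fun _ _ => rfl
  smul_mem' := fun t a ha w hw => by simp [ha w hw]

/-- The projection on the invariants. -/
noncomputable def P0 [FiniteDimensional ℂ K] (c : ℕ) : Module.End ℂ (Ω → K) :=
  1 - Polynomial.aeval (s.A K c) (s.exists_P0 (K := K) c).choose * s.A K c

variable {K}

theorem isProj_Pw (ν : Fin m →₀ ℕ) : IsProj (s.Wt K ν) (s.Pw K ν) :=
  ⟨fun f w hw => by simp [Pw, hw], fun f hf => funext fun w => by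
    by_cases h : s.cont w = ν
    · simp [Pw, h]
    · simp [Pw, h, hf w h]⟩

theorem isProj_P0 [FiniteDimensional ℂ K] (c : ℕ) : IsProj (s.Inv K c) (s.P0 K c) :=
  ⟨(s.exists_P0 c).choose_spec, fun f hf => by simp [P0, s.A_of_mem_Inv hf]⟩

theorem commute_aeval {V : Type*} [AddCommGroup V] [Module ℂ V] {S T : Module.End ℂ V}
    (h : Commute S T) (p : Polynomial ℂ) : Commute S (Polynomial.aeval T p) := by
  rw [Polynomial.aeval_eq_sum_range]
  exact Commute.sum_right _ _ _ fun n _ => (h.pow_right n).smul_right _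

theorem commute_P0 [FiniteDimensional ℂ K] {c : ℕ} {T : Module.End ℂ (Ω → K)}
    (h : ∀ i j, Commute T (s.E K i j)) : Commute T (s.P0 K c) :=
  (Commute.one_right _).sub_right ((commute_aeval (s.commute_A h) _).mul_right (s.commute_A h))

theorem sub_P0 [FiniteDimensional ℂ K] (c : ℕ) (y : Ω → K) :
    ∃ a, y = s.P0 K c y + s.A K c a := by
  refine ⟨Polynomial.aeval (s.A K c) (s.exists_P0 (K := K) c).choose y, ?_⟩
  rw [P0, ← (commute_aeval (Commute.refl _) _).eq]
  simp

theorem P0_U [FiniteDimensional ℂ K] (c : ℕ) (i j : Fin m) : s.P0 K c * s.U K c i j = 0 := by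
  have h1 : Commute (s.U K c i j) (s.A K c) :=
    (s.E_A c i j).sub_left ((Commute.one_left _).smul_left _)
  have : Commute (s.U K c i j) (s.P0 K c) :=
    (Commute.one_right _).sub_right ((commute_aeval h1 _).mul_right h1)
  rw [← this.eq]
  exact LinearMap.ext fun f => s.mem_Inv.1 ((s.isProj_P0 c).1 f) i j

theorem map_mem_Inv {c : ℕ} {T : Module.End ℂ (Ω → K)} (h : ∀ i j, Commute T (s.E K i j))
    {f : Ω → K} (hf : f ∈ s.Inv K c) : T f ∈ s.Inv K c := by
  rw [mem_Inv] at hf ⊢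
  intro i j
  have : Commute T (s.U K c i j) := (h i j).sub_right ((Commute.one_right T).smul_right _)
  rw [← Module.End.mul_apply, ← this.eq, Module.End.mul_apply, hf, map_zero]

theorem mem_Inv_iff {c : ℕ} {z : Ω → ℂ} : z ∈ s.Inv ℂ c ↔
    (∀ p q, p ≠ q → ∀ w, ∑ x ∈ univ.filter (fun x => s.get w x = p), z (s.set w x q) = 0) ∧
      ∀ w, z w ≠ 0 → ∀ p, (univ.filter fun x => s.get w x = p).card = c := by
  rw [mem_Inv]
  constructor
  · refine fun h => ⟨fun p q hpq w => ?_, fun w hw p => ?_⟩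
    · simpa [U, hpq, E_apply] using congrFun (h p q) w
    · have := congrFun (h p p) w
      simp only [U, E_diag, if_true, LinearMap.sub_apply, Pi.sub_apply, Dg_apply, smul_eq_mul,
        LinearMap.smul_apply, Module.End.one_apply, Pi.smul_apply, Pi.zero_apply, ← sub_mul,
        mul_eq_zero, hw, or_false, sub_eq_zero, cont_apply] at this
      exact_mod_cast this
  · rintro ⟨h1, h2⟩ i j
    ext w
    by_cases h : i = j
    · subst h
      by_cases hw : z w = 0
      · simp [U, E_diag, hw]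
      · simp [U, E_diag, cont_apply, h2 w hw]
    · simpa [U, h, E_apply] using h1 i j h w

theorem tw_G {a : Ω → Ω} {u : Module.End ℂ K} {γ : Perm P} {c : P → Module.End ℂ K}
    (h1 : ∀ w p, s.get (a w) p = s.get w (γ p))
    (h2 : ∀ w p j, s.set (a w) p j = a (s.set w (γ p) j)) (h3 : ∀ p, u * c p = c (γ p) * u)
    (i j : Fin m) : Commute (tw a u) (s.G c i j) := by
  refine LinearMap.ext fun f => funext fun w => ?_
  simp only [Module.End.mul_apply, tw_apply, G_apply, map_sum, sum_filter]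
  rw [← Equiv.sum_comp γ (fun p => if s.get w p = i then _ else _)]
  refine sum_congr rfl fun p _ => ?_
  rw [h1, h2]
  split_ifs
  · exact congr($(h3 p) _)
  · simp

theorem pc_G {u : Module.End ℂ K} {c : P → Module.End ℂ K} (h : ∀ p, Commute u (c p))
    (i j : Fin m) : Commute (pc Ω u : Module.End ℂ (Ω → K)) (s.G c i j) :=
  s.tw_G (a := fun w => w) (γ := 1) (fun _ _ => rfl) (fun _ _ _ => rfl) h i j

theorem pc_E (u : Module.End ℂ K) (i j : Fin m) :
    Commute (pc Ω u : Module.End ℂ (Ω → K)) (s.E K i j) := by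
  rw [← G_one]
  exact s.pc_G (fun _ => Commute.one_right _) i j

/-- Two families of positions that do not interact. -/
structure Cross (s : Slot Ω P m) (s' : Slot Ω P' m') : Prop where
  g1 : ∀ w p q l, s.get (s'.set w q l) p = s.get w p
  g2 : ∀ w p q j, s'.get (s.set w p j) q = s'.get w q
  st : ∀ w p q j l, s.set (s'.set w q l) p j = s'.set (s.set w p j) q l

variable {s} {s' : Slot Ω P' m'}

theorem Cross.symm (h : Cross s s') : Cross s' s :=
  ⟨fun w p q l => h.g2 w q p l, fun w p q l => h.g1 w q p l, fun w p q j l => (h.st w q p l j).symm⟩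

theorem Cross.E_G (h : Cross s s') (c : P → Module.End ℂ K) (i j : Fin m) (k l : Fin m') :
    Commute (s'.E K k l) (s.G c i j) := by
  refine Commute.sum_right _ _ _ fun p _ => Commute.mul_right ?_ (s'.pc_E _ k l).symm
  refine Commute.sum_left _ _ _ fun q _ => LinearMap.ext fun f => funext fun w => ?_
  simp only [Module.End.mul_apply, e_apply, h.g1, h.g2, h.st]
  split_ifs <;> rfl

theorem Cross.P0_G [FiniteDimensional ℂ K] (h : Cross s s') (c : P → Module.End ℂ K)
    (i j : Fin m) (c' : ℕ) : Commute (s'.P0 K c') (s.G c i j) :=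
  (s'.commute_P0 fun k l => (h.E_G c i j k l).symm).symm

theorem Cross.P0_E [FiniteDimensional ℂ K] (h : Cross s s') (i j : Fin m) (c' : ℕ) :
    Commute (s'.P0 K c') (s.E K i j) := s.G_one (K := K) i j ▸ h.P0_G _ i j c'

theorem Cross.Pw_G (h : Cross s s') (c : P → Module.End ℂ K) (i j : Fin m) (ν : Fin m' →₀ ℕ) :
    Commute (s'.Pw K ν) (s.G c i j) :=
  s.Dg_G c fun w p _ => by
    rw [show s'.cont (s.set w p j) = s'.cont w by simp only [cont, h.g2]]

theorem Cross.Pw_E (h : Cross s s') (i j : Fin m) (ν : Fin m' →₀ ℕ) :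
    Commute (s'.Pw K ν) (s.E K i j) := s.G_one (K := K) i j ▸ h.Pw_G _ i j ν

theorem Cross.star2 [FiniteDimensional ℂ K] (h : Cross s s') {c c' : ℕ}
    (hP : Fintype.card P = m * c) (h2 : m ≤ c + 1) (hP' : Fintype.card P' = m' * c')
    (h2' : m' ≤ c' + 1) {cl : P → Module.End ℂ K} {cl' : P' → Module.End ℂ K} (hc : Cf cl)
    (hc' : Cf cl') {T : Module.End ℂ (Ω → K)} (hE : ∀ i j, Commute T (s.E K i j))
    (hF : ∀ i j, Commute T (s.G cl i j)) (hE' : ∀ i j, Commute T (s'.E K i j))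
    (hF' : ∀ i j, Commute T (s'.G cl' i j))
    (hb : ∀ f w, T f w ≠ 0 → ∀ I : Finset (Fin m),
      ∑ t ∈ I, s.cont w t ≤ I.card * c + I.card * (m - I.card))
    (hb' : ∀ f w, T f w ≠ 0 → ∀ I : Finset (Fin m'),
      ∑ t ∈ I, s'.cont w t ≤ I.card * c' + I.card * (m' - I.card)) :
    trace ℂ _ (T * (s'.P0 K c' * s.P0 K c)) =
      trace ℂ _ (T * (s.Pw K (mu m c) * s'.Pw K (mu m' c'))) := by
  have key : ∀ {Q : Type} [Fintype Q] [DecidableEq Q] {n : ℕ} (r : Slot Ω Q n) (S)
      (ν : Fin n →₀ ℕ), trace ℂ _ (T * S * r.Pw K ν) ≠ 0 → ∃ f w, T f w ≠ 0 ∧ r.cont w = ν := by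
    intro Q _ _ n r S ν hne
    by_contra hc
    push Not at hc
    have : r.Pw K ν * T = 0 := LinearMap.ext fun f => funext fun w => by
      by_cases h1 : r.cont w = ν
      · by_contra h3
        exact hc f w (by simpa [Pw, h1] using h3) h1
      · simp [Pw, h1]
    rw [trace_mul_comm, ← mul_assoc, this, zero_mul, map_zero] at hne
    exact hne rfl
  have e1 := s.star hP h2 hc.1 hc.2 (T := T * s'.P0 K c')
    (fun i j => (hE i j).mul_left (h.P0_E i j c')) (fun i j => (hF i j).mul_left (h.P0_G _ i j c'))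
    (fun ν hν => by
      obtain ⟨f, w, a1, rfl⟩ := key s _ ν hν
      exact hb f w a1) (s.exists_P0 c).choose_spec
  have e2 := s'.star hP' h2' hc'.1 hc'.2 (T := T * s.Pw K (mu m c))
    (fun i j => (hE' i j).mul_left (h.symm.Pw_E i j _))
    (fun i j => (hF' i j).mul_left (h.symm.Pw_G _ i j _))
    (fun ν hν => by
      obtain ⟨f, w, a1, rfl⟩ := key s' _ ν hν
      exact hb' f w a1) (s'.exists_P0 c').choose_spec
  have e3 : Commute (s.Pw K (mu m c)) (s'.P0 K c') := s'.commute_P0 fun i j => h.symm.Pw_E i j _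
  rw [← mul_assoc, ← mul_assoc, ← e2]
  refine e1.trans ?_
  rw [mul_assoc, ← e3.eq, ← mul_assoc]
  rfl

end Slot

theorem finrank_le_of_eval {V Cfg κ : Type*} [AddCommGroup V] [Module ℂ V] (Y : Submodule ℂ V)
    (ev : Cfg → Module.Dual ℂ V) (good : Cfg → Prop) (inv : Cfg → κ) (S : Finset κ)
    (h1 : ∀ c, good c → inv c ∈ S) (h2 : ∀ f ∈ Y, f ≠ 0 → ∃ c, good c ∧ ev c f ≠ 0)
    (h3 : ∀ f ∈ Y, ∀ c c', good c → good c' → inv c = inv c' → ev c' f = 0 → ev c f = 0) :
    Module.finrank ℂ Y ≤ S.card := by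
  classical
  let Λ : Y →ₗ[ℂ] (S → ℂ) := LinearMap.pi fun t =>
    (if h : ∃ c, good c ∧ inv c = t then ev h.choose else 0) ∘ₗ Y.subtype
  have : Function.Injective Λ := by
    rw [injective_iff_map_eq_zero]
    intro f hf
    by_contra hne
    obtain ⟨c, a1, a2⟩ := h2 f f.2 fun h => hne (Subtype.ext h)
    have a3 := congrFun hf ⟨inv c, h1 c a1⟩
    have a4 : ∃ c', good c' ∧ inv c' = inv c := ⟨c, a1, rfl⟩
    simp only [Λ, LinearMap.pi_apply, dif_pos a4, LinearMap.comp_apply] at a3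
    exact a2 (h3 f f.2 c _ a1 a4.choose_spec.1 a4.choose_spec.2.symm a3)
  simpa using LinearMap.finrank_le_finrank_of_injective this

theorem count_comm' {Ω : Type} [Fintype Ω] {K ι : Type*} [AddCommGroup K] [Module ℂ K]
    [FiniteDimensional ℂ K] (D : Submodule ℂ (Module.End ℂ K)) (Y : Submodule ℂ (Ω → K))
    {w : ι → Module.End ℂ (Ω → K)} {ε : Module.End ℂ (Ω → K)} (hε : ε * ε = 1)
    (h1 : ∀ i, ε * w i = (-1 : ℂ) • (w i * ε))
    (h2 : ∀ i j, i ≠ j → w i * w j = (-1 : ℂ) • (w j * w i)) (I : Finset ι)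
    (h3 : ∀ i ∈ I, ∃ t : ℂ, t ≠ 0 ∧ ∀ y ∈ Y, w i (w i y) = t • y)
    (hD : ∀ d ∈ D, ∀ i y, pc Ω d (w i y) = w i (pc Ω d y)) (m1 : ∀ y ∈ Y, ε y ∈ Y)
    (m2 : ∀ i, ∀ y ∈ Y, w i y ∈ Y) (m3 : ∀ d ∈ D, ∀ y ∈ Y, pc Ω d y ∈ Y)
    (h4 : ∀ d ∈ D, (∀ y ∈ Y, pc Ω d y = 0) → d = 0) :
    2 ^ I.card * Module.finrank ℂ D ≤ Module.finrank ℂ Y * Module.finrank ℂ Y := by
  let r : D →ₗ[ℂ] Module.End ℂ Y :=
    { toFun := fun d => (pc Ω d.1).restrict (m3 d d.2)
      map_add' := fun a b => LinearMap.ext fun y => Subtype.ext rfl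
      map_smul' := fun a b => LinearMap.ext fun y => Subtype.ext rfl }
  have hr : Function.Injective r := by
    rw [injective_iff_map_eq_zero]
    exact fun d hd => Subtype.ext (h4 d d.2 fun y hy => congrArg Subtype.val congr($hd ⟨y, hy⟩))
  rw [← LinearMap.finrank_range_of_inj hr]
  refine count_comm (w := fun i => (w i).restrict (m2 i)) (ε := ε.restrict m1)
    (LinearMap.ext fun y => Subtype.ext congr($hε y.1))
    (fun i => LinearMap.ext fun y => Subtype.ext congr($(h1 i) y.1))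
    (fun i j h => LinearMap.ext fun y => Subtype.ext congr($(h2 i j h) y.1)) I
    (fun i hi => ?_) _ ?_
  · obtain ⟨t, a1, a2⟩ := h3 i hi
    exact ⟨t, a1, LinearMap.ext fun y => Subtype.ext (a2 y y.2)⟩
  · rintro _ ⟨d, rfl⟩ i _
    exact LinearMap.ext fun y => Subtype.ext (hD d d.2 i y.1)

theorem finrank_le_of_pc {Ω : Type} {K : Type*} [AddCommGroup K] [Module ℂ K]
    [FiniteDimensional ℂ K] (D : Submodule ℂ (Module.End ℂ K)) (p : Submodule ℂ (Ω → K))
    (f : Ω → K) (h : ∀ f' ∈ p, ∃ d ∈ D, pc Ω d f = f') :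
    Module.finrank ℂ p ≤ Module.finrank ℂ D := by
  let r : D →ₗ[ℂ] (Ω → K) :=
    { toFun := fun d => pc Ω d.1 f
      map_add' := fun _ _ => rfl
      map_smul' := fun _ _ => rfl }
  refine le_trans (Submodule.finrank_mono (t := LinearMap.range r) fun f' hf' => ?_)
    (LinearMap.finrank_range_le _)
  obtain ⟨d, h1, h2⟩ := h f' hf'
  exact ⟨⟨d, h1⟩, h2⟩

theorem isProj_trace {V : Type*} [AddCommGroup V] [Module ℂ V] [FiniteDimensional ℂ V]
    {p : Submodule ℂ V} {T : Module.End ℂ V} (h : IsProj p T) :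
    trace ℂ V T = Module.finrank ℂ p := h.trace

end Pool.Agent.P.MP_5e2a31_al
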