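import Pool.Agent.P.MP_5e2a31_al.Two

set_option maxHeartbeats 400000
set_option linter.unusedSectionVars false

namespace Pool.Agent.P.MP_5e2a31_al

open Finset Equiv LinearMap

section Defs

variable (X1 X2 : Type) [Fintype X1] [DecidableEq X1] [Fintype X2] [DecidableEq X2] (m1 m2 : ℕ)

/-- Pairs of words. -/
abbrev Om := (X1 → Fin m1) × (X2 → Fin m2)

/-- The positions of the first word. -/
def sl1 : Slot (Om X1 X2 m1 m2) X1 m1 where
  get w p := w.1 p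
  set w p j := (Function.update w.1 p j, w.2)
  get_set w p j := by simp
  get_set_ne w p q j h := by simp [h]
  set_set w p i j := by simp
  set_get w p := by simp
  set_comm w p q i j h := by simp [Function.update_comm h]

/-- The positions of the second word. -/
def sl2 : Slot (Om X1 X2 m1 m2) X2 m2 where
  get w p := w.2 p
  set w p j := (w.1, Function.update w.2 p j)
  get_set w p j := by simp
  get_set_ne w p q j h := by simp [h]
  set_set w p i j := by simp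
  set_get w p := by simp
  set_comm w p q i j h := by simp [Function.update_comm h]

theorem cross12 : Slot.Cross (sl1 X1 X2 m1 m2) (sl2 X1 X2 m1 m2) :=
  ⟨fun _ _ _ _ => rfl, fun _ _ _ _ => rfl, fun _ _ _ _ _ => rfl⟩

/-- The Young subgroup with two blocks. -/
abbrev GG := Perm X1 × Perm X2

variable {X1 X2}

/-- The action on functions of pairs of words with values in a representation. -/
def tau {K : Type*} [AddCommGroup K] [Module ℂ K] (ρ : Representation ℂ (GG X1 X2) K) :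
    Representation ℂ (GG X1 X2) (Om X1 X2 m1 m2 → K) where
  toFun g := tw (fun w => (w.1 ∘ g.1, w.2 ∘ g.2)) (ρ g)
  map_one' := LinearMap.ext fun f => funext fun w => by simp [tw_apply]
  map_mul' g h := LinearMap.ext fun f => funext fun w => by simp [tw_apply, Function.comp_assoc]

variable {m1 m2} {K : Type*} [AddCommGroup K] [Module ℂ K] (ρ : Representation ℂ (GG X1 X2) K)

theorem tau_apply (g : GG X1 X2) (f : Om X1 X2 m1 m2 → K) (w : Om X1 X2 m1 m2) :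
    tau m1 m2 ρ g f w = ρ g (f (w.1 ∘ g.1, w.2 ∘ g.2)) := rfl

theorem tau_G1 (g : GG X1 X2) {c : X1 → Module.End ℂ K} (h : ∀ p, ρ g * c p = c (g.1 p) * ρ g)
    (i j : Fin m1) : Commute (tau m1 m2 ρ g) ((sl1 X1 X2 m1 m2).G c i j) :=
  Slot.tw_G _ (γ := g.1) (fun _ _ => rfl)
    (fun w p j => Prod.ext (update_comp_perm w.1 g.1 p j).symm rfl) h i j

theorem tau_G2 (g : GG X1 X2) {c : X2 → Module.End ℂ K} (h : ∀ p, ρ g * c p = c (g.2 p) * ρ g)
    (i j : Fin m2) : Commute (tau m1 m2 ρ g) ((sl2 X1 X2 m1 m2).G c i j) :=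
  Slot.tw_G _ (γ := g.2) (fun _ _ => rfl)
    (fun w p j => Prod.ext rfl (update_comp_perm w.2 g.2 p j).symm) h i j

theorem tau_E1 (g : GG X1 X2) (i j : Fin m1) :
    Commute (tau m1 m2 ρ g) ((sl1 X1 X2 m1 m2).E K i j) := by
  rw [← Slot.G_one]
  exact tau_G1 ρ g (by simp) i j

theorem tau_E2 (g : GG X1 X2) (i j : Fin m2) :
    Commute (tau m1 m2 ρ g) ((sl2 X1 X2 m1 m2).E K i j) := by
  rw [← Slot.G_one]
  exact tau_G2 ρ g (by simp) i j

variable (X1 X2 m1 m2) (c1 c2 : ℕ)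

/-- The tensor product of the two spaces of invariant tensors. -/
noncomputable def ZZ : Submodule ℂ (Om X1 X2 m1 m2 → ℂ) :=
  (sl2 X1 X2 m1 m2).Inv ℂ c2 ⊓ (sl1 X1 X2 m1 m2).Inv ℂ c1

/-- The action on `ZZ`. -/
noncomputable def rZ : Representation ℂ (GG X1 X2) (ZZ X1 X2 m1 m2 c1 c2) :=
  (tau m1 m2 (Representation.trivial ℂ _ ℂ)).subrepresentation _ fun g _ hz =>
    ⟨Slot.map_mem_Inv _ (tau_E2 _ g) hz.1, Slot.map_mem_Inv _ (tau_E1 _ g) hz.2⟩

/-- The induced module over the Hecke-Clifford algebra. -/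
abbrev NN := Finset (X1 ⊕ X2) → ZZ X1 X2 m1 m2 c1 c2

/-- The action on `NN`. -/
noncomputable abbrev rNN : Representation ℂ (GG X1 X2) (NN X1 X2 m1 m2 c1 c2) :=
  rN (Perm.sumCongrHom X1 X2) (rZ X1 X2 m1 m2 c1 c2)

/-- The invariant functions of top weight. -/
noncomputable def YY : Submodule ℂ (Om X1 X2 m1 m2 → NN X1 X2 m1 m2 c1 c2) :=
  (tau m1 m2 (rNN X1 X2 m1 m2 c1 c2)).invariants ⊓
    ((sl1 X1 X2 m1 m2).Wt _ (mu m1 c1) ⊓ (sl2 X1 X2 m1 m2).Wt _ (mu m2 c2))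

end Defs

variable {X1 X2 : Type} [Fintype X1] [DecidableEq X1] [Fintype X2] [DecidableEq X2]
  {m1 m2 c1 c2 : ℕ}

theorem rZ_apply (g : GG X1 X2) (z : ZZ X1 X2 m1 m2 c1 c2) (w : Om X1 X2 m1 m2) :
    (rZ X1 X2 m1 m2 c1 c2 g z).1 w = z.1 (w.1 ∘ g.1, w.2 ∘ g.2) := rfl

theorem mem_ZZ {z : Om X1 X2 m1 m2 → ℂ} : z ∈ ZZ X1 X2 m1 m2 c1 c2 ↔
    (∀ w1, (fun w2 => z (w1, w2)) ∈ Zs X2 m2 c2) ∧ ∀ w2, (fun w1 => z (w1, w2)) ∈ Zs X1 m1 c1 := by
  rw [ZZ, Submodule.mem_inf, Slot.mem_Inv_iff, Slot.mem_Inv_iff]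
  exact and_congr
    ⟨fun h w1 => ⟨fun p q hpq f => h.1 p q hpq (w1, f), fun f => h.2 (w1, f)⟩,
      fun h => ⟨fun p q hpq w => (h w.1).1 p q hpq w.2, fun w => (h w.1).2 w.2⟩⟩
    ⟨fun h w2 => ⟨fun p q hpq f => h.1 p q hpq (f, w2), fun f => h.2 (f, w2)⟩,
      fun h => ⟨fun p q hpq w => (h w.2).1 p q hpq w.1, fun w => (h w.2).2 w.1⟩⟩

theorem inv_apply {f : Om X1 X2 m1 m2 → NN X1 X2 m1 m2 c1 c2}
    (hf : f ∈ (tau m1 m2 (rNN X1 X2 m1 m2 c1 c2)).invariants) (g : GG X1 X2)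
    (w w' : Om X1 X2 m1 m2) (J : Finset (X1 ⊕ X2)) :
    (f w (J.map (Perm.sumCongrHom X1 X2 g).toEmbedding)).1 w' =
      sig (Perm.sumCongrHom X1 X2 g) J *
        (f (w.1 ∘ g.1, w.2 ∘ g.2) J).1 (w'.1 ∘ g.1, w'.2 ∘ g.2) := by
  conv_lhs => rw [← hf g, tau_apply, rN_apply]
  rfl

theorem comp_swap_eq {X β : Type} [DecidableEq X] {b : X → β} {x y : X} (h : b x = b y) :
    b ∘ swap x y = b := by
  ext t
  simp only [Function.comp_apply, swap_apply_def]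
  split_ifs with a1 a2
  · rw [a1, h]
  · rw [a2, h]
  · rfl

theorem sig_swap_out {X : Type} [Fintype X] [DecidableEq X] {x y : X} {J : Finset X} (hx : x ∉ J)
    (hy : y ∉ J) : sig (swap x y) J = 1 :=
  sig_fix fun z hz => swap_apply_of_ne_of_ne (by rintro rfl; exact hx hz) (by rintro rfl; exact hy hz)

theorem SA1 {f : Om X1 X2 m1 m2 → NN X1 X2 m1 m2 c1 c2}
    (hf : f ∈ (tau m1 m2 (rNN X1 X2 m1 m2 c1 c2)).invariants) (w : Om X1 X2 m1 m2)
    (J : Finset (X1 ⊕ X2)) (w2 : X2 → Fin m2) :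
    SA (fun w1 => (f w J).1 (w1, w2)) w.1 J.toLeft := by
  have key : ∀ x y, (Sum.inl x ∈ J ↔ Sum.inl y ∈ J) → w.1 x = w.1 y → ∀ w1, (f w J).1 (w1, w2) =
      sig (swap (Sum.inl x) (Sum.inl y)) J * (f w J).1 (w1 ∘ swap x y, w2) := by
    intro x y h1 h2 w1
    have := inv_apply hf (swap x y, 1) w (w1, w2) J
    rwa [Perm.sumCongrHom_apply, Perm.sumCongr_swap_one, map_eq_self (stab_swap h1),
      comp_swap_eq h2] at this
  refine ⟨fun x y hx hy h w1 => ?_, fun x y hx hy h hne w1 => ?_⟩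
  · rw [mem_toLeft] at hx hy
    beta_reduce
    rw [key x y (by simp [hx, hy]) h w1, sig_swap_out hx hy, one_mul]
  · rw [mem_toLeft] at hx hy
    beta_reduce
    rw [key x y (by simp [hx, hy]) h w1, sig_swap hx hy (by simpa using hne)]
    simp

theorem SA2 {f : Om X1 X2 m1 m2 → NN X1 X2 m1 m2 c1 c2}
    (hf : f ∈ (tau m1 m2 (rNN X1 X2 m1 m2 c1 c2)).invariants) (w : Om X1 X2 m1 m2)
    (J : Finset (X1 ⊕ X2)) (w1 : X1 → Fin m1) :
    SA (fun w2 => (f w J).1 (w1, w2)) w.2 J.toRight := by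
  have key : ∀ x y, (Sum.inr x ∈ J ↔ Sum.inr y ∈ J) → w.2 x = w.2 y → ∀ w2, (f w J).1 (w1, w2) =
      sig (swap (Sum.inr x) (Sum.inr y)) J * (f w J).1 (w1, w2 ∘ swap x y) := by
    intro x y h1 h2 w2
    have := inv_apply hf (1, swap x y) w (w1, w2) J
    rwa [Perm.sumCongrHom_apply, Perm.sumCongr_one_swap, map_eq_self (stab_swap h1),
      comp_swap_eq h2] at this
  refine ⟨fun x y hx hy h w2 => ?_, fun x y hx hy h hne w2 => ?_⟩
  · rw [mem_toRight] at hx hy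
    beta_reduce
    rw [key x y (by simp [hx, hy]) h w2, sig_swap_out hx hy, one_mul]
  · rw [mem_toRight] at hx hy
    beta_reduce
    rw [key x y (by simp [hx, hy]) h w2, sig_swap hx hy (by simpa using hne)]
    simp

theorem exists_ne {y : NN X1 X2 m1 m2 c1 c2} (h : y ≠ 0) : ∃ J w', (y J).1 w' ≠ 0 := by
  obtain ⟨J, hJ⟩ := Function.ne_iff.1 h
  obtain ⟨w', hw'⟩ := Function.ne_iff.1 (fun h => hJ (Subtype.ext h) : (y J).1 ≠ 0)
  exact ⟨J, w', hw'⟩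

theorem bound1 {f : Om X1 X2 m1 m2 → NN X1 X2 m1 m2 c1 c2}
    (hf : f ∈ (tau m1 m2 (rNN X1 X2 m1 m2 c1 c2)).invariants) {w : Om X1 X2 m1 m2} (h : f w ≠ 0)
    (I : Finset (Fin m1)) :
    ∑ t ∈ I, (sl1 X1 X2 m1 m2).cont w t ≤ I.card * c1 + I.card * (m1 - I.card) := by
  obtain ⟨J, w', h1⟩ := exists_ne h
  simp only [Slot.cont_apply]
  exact weight_bound ((mem_ZZ.1 (f w J).2).2 w'.2) (SA1 hf w J w'.2)
    (Function.ne_iff.2 ⟨w'.1, h1⟩) I

theorem bound2 {f : Om X1 X2 m1 m2 → NN X1 X2 m1 m2 c1 c2}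
    (hf : f ∈ (tau m1 m2 (rNN X1 X2 m1 m2 c1 c2)).invariants) {w : Om X1 X2 m1 m2} (h : f w ≠ 0)
    (I : Finset (Fin m2)) :
    ∑ t ∈ I, (sl2 X1 X2 m1 m2).cont w t ≤ I.card * c2 + I.card * (m2 - I.card) := by
  obtain ⟨J, w', h1⟩ := exists_ne h
  simp only [Slot.cont_apply]
  exact weight_bound ((mem_ZZ.1 (f w J).2).1 w'.1) (SA2 hf w J w'.1)
    (Function.ne_iff.2 ⟨w'.2, h1⟩) I

theorem finrank_YY (h1 : m1 ≤ c1 + 1) (h2 : m2 ≤ c2 + 1) :
    Module.finrank ℂ (YY X1 X2 m1 m2 c1 c2) ≤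
      2 ^ ((mu m1 c1).support.disjSum (mu m2 c2).support).card := by
  have key : ∀ {X : Type} [Fintype X] [DecidableEq X] {m c : ℕ} {b : X → Fin m} J w,
      (∀ t, (univ.filter fun x => b x = t).card = mu m c t) →
      tinv b J w ∈ (mu m c).support.powerset := by
    intro X _ _ m c b J w h
    refine mem_powerset.2 fun s hs => ?_
    obtain ⟨x, -, hx, -⟩ := (mem_filter.1 hs).2
    rw [Finsupp.mem_support_iff, ← h]
    exact card_ne_zero.2 ⟨x, by simpa using hx⟩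
  rw [card_disjSum, pow_add, ← card_powerset, ← card_powerset, ← card_product]
  refine finrank_le_of_eval _
    (fun c : Om X1 X2 m1 m2 × Finset (X1 ⊕ X2) × Om X1 X2 m1 m2 =>
      proj c.2.2 ∘ₗ Submodule.subtype _ ∘ₗ proj c.2.1 ∘ₗ proj c.1)
    (fun c => ((∀ t, (univ.filter fun x => c.1.1 x = t).card = mu m1 c1 t) ∧
      Tight c.1.1 c.2.1.toLeft c.2.2.1) ∧
      (∀ t, (univ.filter fun x => c.1.2 x = t).card = mu m2 c2 t) ∧
        Tight c.1.2 c.2.1.toRight c.2.2.2)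
    (fun c => (tinv c.1.1 c.2.1.toLeft c.2.2.1, tinv c.1.2 c.2.1.toRight c.2.2.2)) _
    (fun c hc => mem_product.2 ⟨key _ _ hc.1.1, key _ _ hc.2.1⟩) (fun f hf hne => ?_) ?_
  · obtain ⟨w, hw⟩ := Function.ne_iff.1 hne
    obtain ⟨J, w', h3⟩ := exists_ne hw
    have a1 : ∀ t, (univ.filter fun x => w.1 x = t).card = mu m1 c1 t := fun t => by
      rw [← of_not_not (mt (hf.2.1 w) hw), Slot.cont_apply]
      rfl
    have a2 : ∀ t, (univ.filter fun x => w.2 x = t).card = mu m2 c2 t := fun t => by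
      rw [← of_not_not (mt (hf.2.2 w) hw), Slot.cont_apply]
      rfl
    obtain ⟨w1, b1, b2⟩ := exists_tight h1 ((mem_ZZ.1 (f w J).2).2 w'.2) (SA1 hf.1 w J w'.2)
      (Function.ne_iff.2 ⟨w'.1, h3⟩) a1
    obtain ⟨w2, b3, b4⟩ := exists_tight h2 ((mem_ZZ.1 (f w J).2).1 w1) (SA2 hf.1 w J w1)
      (Function.ne_iff.2 ⟨w'.2, b1⟩) a2
    exact ⟨(w, J, w1, w2), ⟨⟨a1, b2⟩, a2, b4⟩, b3⟩
  · rintro f hf ⟨w, J, v⟩ ⟨w', J', v'⟩ hc hc' hi h0
    obtain ⟨g1, a1, a2, a3⟩ := hc.1.2.conj hc'.1.2 (fun t => (hc.1.1 t).trans (hc'.1.1 t).symm)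
      (congrArg Prod.fst hi)
    obtain ⟨g2, b1, b2, b3⟩ := hc.2.2.conj hc'.2.2 (fun t => (hc.2.1 t).trans (hc'.2.1 t).symm)
      (congrArg Prod.snd hi)
    have h3 := inv_apply hf.1 (g1, g2) w' v' J
    have h4 : J.map (Perm.sumCongrHom X1 X2 (g1, g2)).toEmbedding = J' := by
      ext x
      rw [mem_map_equiv]
      rcases x with x | x
      · rw [← mem_toLeft (u := J'), ← a2, mem_map_equiv, mem_toLeft]
        rfl
      · rw [← mem_toRight (u := J'), ← b2, mem_map_equiv, mem_toRight]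
        rfl
    simp only at a1 a3 b1 b3 h3
    rw [h4, a1, a3, b1, b3] at h3
    change (f w' J').1 v' = 0 at h0
    rw [h0, eq_comm, mul_eq_zero] at h3
    refine h3.resolve_left fun h5 => ?_
    have := sig_sq (Perm.sumCongrHom X1 X2 (g1, g2)) J
    rw [h5, zero_mul] at this
    exact zero_ne_one this

end Pool.Agent.P.MP_5e2a31_al
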